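import Pool.Agent.Work.MP_db9399_xf_helper62.XFrame
import Pool.Agent.Work.MP_db9399_da_helper93.EMB

/-!
# MP_db9399: from regular graphs to all graphs (helper38)

`Stmt_TCCR`: total colourings with `d + 2` colours of all `d`-regular graphs, `d` large.
`Stmt_TCCL`: the same for all graphs of maximum degree at most `d`.
-/

set_option autoImplicit false

namespace Pool.Agent.Work.MP_db9399_iv_helper38

open Finset Classical
open Pool.Agent.Work.MP_db9399_all (nb)
open Pool.Agent.Work.MP_db9399_xf (TotX)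
open _root_.MP_db9399_co (IsTotalColoring)

universe u

/-- All `d`-regular graphs of large degree. -/
def Stmt_TCCR : Prop :=
  ∃ D0 : ℕ, ∀ {V : Type u} [Fintype V] (G : SimpleGraph V) (d : ℕ), D0 ≤ d →
    (∀ v, (nb G v).card = d) → ∃ (c : V → ℕ) (t : V → V → ℕ), TotX d G c t

/-- All graphs of maximum degree at most `d`, `d` large. -/
def Stmt_TCCL : Prop :=
  ∃ D0 : ℕ, ∀ {V : Type u} [Fintype V] (G : SimpleGraph V) (d : ℕ), D0 ≤ d →
    (∀ v, (nb G v).card ≤ d) → ∃ (c : V → ℕ) (t : V → V → ℕ), TotX d G c t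

/-- `G` with isolated vertices -/
def pad {V : Type u} (G : SimpleGraph V) (X : Type u) : SimpleGraph (V ⊕ X) where
  Adj a b := ∃ v w, a = Sum.inl v ∧ b = Sum.inl w ∧ G.Adj v w
  symm := ⟨fun _ _ ⟨v, w, h1, h2, h3⟩ => ⟨w, v, h2, h1, h3.symm⟩⟩
  loopless := ⟨fun _ ⟨_, _, h1, h2, h3⟩ => h3.ne (Sum.inl_injective (h1.symm.trans h2))⟩

theorem pad_nb {V X : Type u} [Fintype V] [Fintype X] (G : SimpleGraph V) {d : ℕ}
    (h : ∀ v, (nb G v).card ≤ d) : ∀ a, (nb (pad G X) a).card ≤ d := by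
  rintro (v | x)
  · refine le_trans (card_le_card_of_surjOn (s := nb G v) (t := nb (pad G X) (Sum.inl v))
      (Sum.inl : V → V ⊕ X) ?_) (h v)
    intro b hb
    have hb' : (pad G X).Adj (Sum.inl v) b := by simpa [nb] using hb
    obtain ⟨v', w, h1, h2, h3⟩ := hb'
    have h4 := Sum.inl_injective h1
    subst h4
    exact ⟨w, by simpa [nb] using h3, h2.symm⟩
  · have : nb (pad G X) (Sum.inr x) = ∅ := by
      rw [eq_empty_iff_forall_notMem]
      intro b hb
      have hb' : (pad G X).Adj (Sum.inr x) b := by simpa [nb] using hb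
      obtain ⟨v', w, h1, _, _⟩ := hb'
      exact Sum.inr_ne_inl h1
    rw [this]
    exact Nat.zero_le _

/-- a total colouring of a supergraph -/
theorem totX_of_hom {V W : Type u} [Fintype V] [Fintype W] {G : SimpleGraph V} {H : SimpleGraph W}
    {d : ℕ} (f : V → W) (hf : Function.Injective f) (hG : ∀ v w, G.Adj v w → H.Adj (f v) (f w))
    {c : W → ℕ} {t : W → W → ℕ} (h : TotX d H c t) :
    TotX d G (fun v => c (f v)) (fun v w => t (f v) (f w)) := by
  refine ⟨fun v => h.clt _, fun v w hvw => h.cc _ _ (hG v w hvw), fun v w => h.sym _ _,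
    fun v w hvw => h.tlt _ _ (hG v w hvw), ?_, fun v w hvw => h.tc _ _ (hG v w hvw)⟩
  intro v a ha b hb hab
  refine hf (h.inj (f v) ?_ ?_ hab)
  · have : G.Adj v a := by simpa [nb] using ha
    simpa [nb] using hG v a this
  · have : G.Adj v b := by simpa [nb] using hb
    simpa [nb] using hG v b this

theorem tccl_of_tccr (h : Stmt_TCCR.{u}) : Stmt_TCCL.{u} := by
  obtain ⟨D0, hD⟩ := h
  refine ⟨max D0 4, ?_⟩
  intro V _ G d hd hG
  obtain ⟨W, _, H, f, hf, hfG, hH, _⟩ := MP_db9399_da.helper93.stmt_EMB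
    (pad G (ULift.{u} (Fin (d + 1)))) d ((le_max_right _ _).trans hd) (pad_nb G hG) (by
      rw [Fintype.card_sum, Fintype.card_ulift, Fintype.card_fin]
      omega)
  obtain ⟨c, t, hct⟩ := hD H d ((le_max_left _ _).trans hd) hH
  refine ⟨_, _, totX_of_hom (fun v => f (Sum.inl v)) (hf.comp Sum.inl_injective) ?_ hct⟩
  intro v w hvw
  exact hfG _ _ ⟨v, w, rfl, rfl, hvw⟩

/-- The Total Colouring Conjecture for all graphs of large maximum degree, from `Stmt_TCCL`. -/
theorem tcc_of_tccl (h : Stmt_TCCL.{u}) : ∃ D₀ : ℕ, ∀ (V : Type u) [Fintype V]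
    (G : SimpleGraph V) [DecidableRel G.Adj] (k : ℕ), D₀ ≤ G.maxDegree → G.maxDegree + 2 ≤ k →
    ∃ (c : V → Fin k) (t : Sym2 V → Fin k), IsTotalColoring G c t := by
  obtain ⟨D0, hD⟩ := h
  refine ⟨D0, ?_⟩
  intro V _ G _ k h0 hk
  have hnb : ∀ v, (nb G v).card ≤ G.maxDegree := by
    intro v
    have h1 : (nb G v).card = G.degree v := by
      rw [← SimpleGraph.card_neighborFinset_eq_degree]
      congr 1
      ext w
      simp [nb]
    rw [h1]
    exact G.degree_le_maxDegree v
  obtain ⟨c, t, hct⟩ := hD G G.maxDegree h0 hnb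
  have hk0 : 0 < k := by omega
  let t' : Sym2 V → Fin k := fun e => Sym2.lift ⟨fun v w =>
    if h : t v w < k then (⟨t v w, h⟩ : Fin k) else ⟨0, hk0⟩, fun v w => by
      simp only [hct.sym v w]⟩ e
  have ht' : ∀ v w, G.Adj v w → (t' s(v, w) : ℕ) = t v w := by
    intro v w hvw
    have : t v w < k := (hct.tlt v w hvw).trans_le hk
    simp [t', this]
  refine ⟨fun v => ⟨c v, (hct.clt v).trans_le hk⟩, t', ?_, ?_, ?_⟩
  · intro u v huv he
    exact hct.cc u v huv (congrArg Fin.val he)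
  · intro u v w huv huw hvw he
    refine hvw (hct.inj u ?_ ?_ ?_)
    · simpa [nb] using huv
    · simpa [nb] using huw
    · rw [← ht' u v huv, ← ht' u w huw, he]
  · intro u v huv he
    refine hct.tc u v huv ?_
    rw [← ht' u v huv, he]

end Pool.Agent.Work.MP_db9399_iv_helper38
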