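import Pool.Agent.Work.MP_db9399_cg_helper68.TOOL
import Pool.Agent.Work.MP_db9399_sv_helper15.SELQ

/-!
# MP_db9399, all scales: random choice from lists (helper38)

Every `z ∈ R` chooses an element of its list `L z` (at least `d / 2` elements). Adjacent elements of
the conflict graph (degree at most `d / 100` in `R`) choose differently; every test `q` with
`∑ |B q z| ≤ m q * d` is hit at most `27 * m q` times, `m q ≥ log³ d`.
-/

set_option autoImplicit false

namespace Pool.Agent.Work.MP_db9399_iv_helper38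

open Finset Classical
open Pool.Agent.Work.MP_db9399_all (nb pr DepOnI PackI Stmt_LLLI stmt_LLLI)
open Pool.Agent.Work.MP_db9399_cg.helper68 (pr_nonneg pr_zero pr_mono pr_ex' packI_one)

universe u

namespace RLC

variable {J : Type u} [Fintype J] {M : ℕ}

theorem pr_all (hM : 0 < M) (S : Finset J) (B : J → Finset (Fin M)) :
    pr (fun f : J → Fin M => ∀ y ∈ S, f y ∈ B y) = ∏ y ∈ S, ((B y).card : ℝ) / M := by
  have hM' : (M : ℝ) ≠ 0 := by exact_mod_cast hM.ne'
  unfold pr
  have e1 : ∀ inst : DecidablePred (fun f : J → Fin M => ∀ y ∈ S, f y ∈ B y),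
      @Finset.filter _ (fun f : J → Fin M => ∀ y ∈ S, f y ∈ B y) inst univ =
      Fintype.piFinset (fun y => if y ∈ S then B y else univ) := by
    intro _
    ext f
    rw [Fintype.mem_piFinset]
    simp only [mem_filter, mem_univ, true_and]
    constructor
    · intro h y
      split_ifs with hy
      · exact h y hy
      · exact mem_univ _
    · intro h y hy
      have := h y
      rwa [if_pos hy] at this
  rw [e1, Fintype.card_piFinset, Fintype.card_fun, Fintype.card_fin]
  have e2 : (M : ℝ) ^ Fintype.card J = ∏ _y : J, (M : ℝ) := by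
    rw [prod_const, card_univ]
  push_cast
  rw [e2, ← prod_div_distrib, ← prod_subset (subset_univ S)]
  · refine prod_congr rfl fun y hy => ?_
    rw [if_pos hy]
  · intro y _ hy
    rw [if_neg hy, card_univ, Fintype.card_fin, div_self hM']

theorem pack_test (hM : 0 < M) (S0 : Finset J) (B : J → Finset (Fin M)) (s : ℕ) (hs : 0 < s)
    (h : 13 * ∑ y ∈ S0, ((B y).card : ℝ) ≤ s * M) :
    PackI (1 / 4) S0 (Real.exp (-s)) (fun f => (S0.filter fun y => f y ∈ B y).card < s) := by
  have hM' : (0 : ℝ) < M := by exact_mod_cast hM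
  refine ⟨{S : Finset J // S ∈ powersetCard s S0}, inferInstance, fun S => S.1,
    fun S f => ∀ y ∈ S.1, f y ∈ B y, ?_, ?_, ?_, ?_, ?_⟩
  · intro S f f' hf
    refine propext (forall₂_congr fun y hy => ?_)
    rw [hf y hy]
  · intro S
    have := (mem_powersetCard.1 S.2).2
    exact card_pos.1 (by rw [this]; exact hs)
  · intro S
    exact (mem_powersetCard.1 S.2).1
  · have e1 : ∀ S : {S : Finset J // S ∈ powersetCard s S0},
        pr (fun f : J → Fin M => ∀ y ∈ S.1, f y ∈ B y) *
          Real.exp (2 * (1 / 4) * ((S.1.card : ℕ) : ℝ)) =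
        (∏ y ∈ S.1, ((B y).card : ℝ) / M) * Real.exp (s / 2) := by
      intro S
      rw [pr_all hM, (mem_powersetCard.1 S.2).2]
      congr 2
      ring
    rw [sum_congr rfl fun S _ => e1 S, ← sum_mul]
    rw [sum_coe_sort (powersetCard s S0) (fun S => ∏ y ∈ S, ((B y).card : ℝ) / M)]
    have h1 := MP_db9399_sv.helper15.esum_le (fun y => ((B y).card : ℝ) / M)
      (fun y => by positivity) S0 s
    have h2 : ∑ y ∈ S0, ((B y).card : ℝ) / M ≤ s / 13 := by
      rw [← sum_div, div_le_div_iff₀ hM' (by norm_num)]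
      linarith
    have h0 : 0 ≤ ∑ y ∈ S0, ((B y).card : ℝ) / M := sum_nonneg fun y _ => by positivity
    have h3 : (∑ y ∈ S0, ((B y).card : ℝ) / M) ^ s / (s.factorial : ℝ) ≤
        ((s : ℝ) / 13) ^ s / (s.factorial : ℝ) := by
      refine div_le_div_of_nonneg_right (pow_le_pow_left₀ h0 h2 s) (by positivity)
    have h4 : ((s : ℝ) / 13) ^ s / (s.factorial : ℝ) = ((s : ℝ) ^ s / (s.factorial : ℝ)) / 13 ^ s := by
      rw [div_pow]
      ring
    have h5 : (s : ℝ) ^ s / (s.factorial : ℝ) ≤ Real.exp s :=
      Real.pow_div_factorial_le_exp (s : ℝ) (Nat.cast_nonneg _) s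
    have h6 : Real.exp ((5 : ℝ) / 2) ≤ 13 := by
      have h7 : Real.exp ((5 : ℝ) / 2) ^ 2 = Real.exp 1 ^ 5 := by
        rw [← Real.exp_nat_mul, ← Real.exp_nat_mul]
        norm_num
      have h8 : Real.exp 1 ^ 5 ≤ (2.7182818286 : ℝ) ^ 5 :=
        pow_le_pow_left₀ (Real.exp_pos _).le Real.exp_one_lt_d9.le 5
      nlinarith [Real.exp_pos ((5 : ℝ) / 2)]
    have h9 : Real.exp s * Real.exp (s / 2) ≤ Real.exp (-s) * 13 ^ s := by
      have h10 : Real.exp ((5 : ℝ) / 2) ^ s ≤ 13 ^ s :=
        pow_le_pow_left₀ (Real.exp_pos _).le h6 s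
      rw [← Real.exp_nat_mul] at h10
      have h11 : Real.exp s * Real.exp (s / 2) = Real.exp (-s) * Real.exp ((s : ℝ) * (5 / 2)) := by
        rw [← Real.exp_add, ← Real.exp_add]
        congr 1
        ring
      rw [h11]
      exact mul_le_mul_of_nonneg_left h10 (Real.exp_pos _).le
    have h13 : (0 : ℝ) < 13 ^ s := by positivity
    calc (∑ S ∈ powersetCard s S0, ∏ y ∈ S, ((B y).card : ℝ) / M) * Real.exp (s / 2)
        ≤ (Real.exp s / 13 ^ s) * Real.exp (s / 2) := by
          refine mul_le_mul_of_nonneg_right ?_ (Real.exp_pos _).le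
          refine h1.trans (h3.trans (h4.le.trans ?_))
          exact div_le_div_of_nonneg_right h5 h13.le
      _ = (Real.exp s * Real.exp (s / 2)) / 13 ^ s := by ring
      _ ≤ Real.exp (-s) := by
          rw [div_le_iff₀ h13]
          exact h9
  · intro f hf
    by_contra hcon
    obtain ⟨S, hS1, hS2⟩ := exists_subset_card_eq (not_lt.1 hcon)
    refine hf ⟨S, mem_powersetCard.2 ⟨hS1.trans (filter_subset _ _), hS2⟩⟩ ?_
    intro y hy
    exact (mem_filter.1 (hS1 hy)).2

theorem pack_pair (hM : 0 < M) {β : Type*} (x y : J) (hxy : x ≠ y) (g g' : Fin M → β)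
    (hg' : Function.Injective g') :
    PackI (1 / 4) {x, y} (Real.exp 1 / M) (fun f => g (f x) ≠ g' (f y)) := by
  have hM' : (0 : ℝ) < M := by exact_mod_cast hM
  refine packI_one (p := 1 / M) (s := 2) (by norm_num) ?_ ⟨x, mem_insert_self _ _⟩ ?_ ?_ ?_
  · intro f f' hf
    show (g (f x) ≠ g' (f y)) = (g (f' x) ≠ g' (f' y))
    rw [hf x (by simp), hf y (by simp)]
  · rw [card_pair hxy]
    norm_num
  · set B : Fin M → J → Finset (Fin M) := fun a j => if j = x then {a} else
      univ.filter fun b => g' b = g a with hB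
    have h1 := pr_ex' (univ : Finset (Fin M))
      (fun a (f : J → Fin M) => ∀ j ∈ ({x, y} : Finset J), f j ∈ B a j)
      (fun f => ¬ (g (f x) ≠ g' (f y))) (by
        intro f hf
        refine ⟨f x, mem_univ _, ?_⟩
        intro j hj
        rw [mem_insert, mem_singleton] at hj
        rcases hj with rfl | rfl
        · simp [hB]
        · simp only [hB]
          rw [if_neg hxy.symm, mem_filter]
          exact ⟨mem_univ _, (not_not.1 hf).symm⟩)
    refine h1.trans ?_
    have h2 : ∀ a ∈ (univ : Finset (Fin M)),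
        pr (fun f : J → Fin M => ∀ j ∈ ({x, y} : Finset J), f j ∈ B a j) ≤ 1 / M * (1 / M) := by
      intro a _
      rw [pr_all hM, prod_pair hxy]
      have h3 : (B a x).card = 1 := by simp [hB]
      have h4 : (B a y).card ≤ 1 := by
        simp only [hB]
        rw [if_neg hxy.symm, card_le_one]
        intro b hb b' hb'
        exact hg' ((mem_filter.1 hb).2.trans (mem_filter.1 hb').2.symm)
      rw [h3, Nat.cast_one]
      refine mul_le_mul_of_nonneg_left ?_ (by positivity)
      exact div_le_div_of_nonneg_right (by exact_mod_cast h4) hM'.le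
    refine (sum_le_sum h2).trans (le_of_eq ?_)
    rw [sum_const, card_univ, Fintype.card_fin, nsmul_eq_mul]
    field_simp
  · have : 2 * (1 / 4 : ℝ) * 2 = 1 := by norm_num
    rw [this, div_mul_eq_mul_div, one_mul]

end RLC

open RLC in
/-- RLC: random choice from lists. -/
theorem rlc (A : ℝ) : ∃ d0 : ℕ, ∀ {V τ : Type u} [Fintype V] [Fintype τ] (P d : ℕ) (R : Finset V)
    (Cf : SimpleGraph V) (L : V → Finset (Fin P)) (B : τ → V → Finset (Fin P)) (m : τ → ℝ),
    d0 ≤ d → 0 < P → (∀ z ∈ R, (d : ℝ) / 2 ≤ ((L z).card : ℝ)) →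
    (∀ z ∈ R, ((nb Cf z ∩ R).card : ℝ) ≤ d / 100) →
    (∀ q, (Real.log d) ^ 2 ≤ m q) →
    (∀ q, ∑ z ∈ R, ((B q z ∩ L z).card : ℝ) ≤ m q * d) →
    (∀ z ∈ R, ((univ.filter fun q => (B q z).Nonempty).card : ℝ) ≤ (d : ℝ) ^ A) →
    ∃ f : V → Fin P, (∀ z ∈ R, f z ∈ L z) ∧
      (∀ z ∈ R, ∀ z' ∈ R, Cf.Adj z z' → f z ≠ f z') ∧
      ∀ q, ((R.filter fun z => f z ∈ B q z).card : ℝ) ≤ 27 * m q := by
  -- d ^ A exp (- log² d) → 0
  have hlim : ∀ᶠ d : ℕ in Filter.atTop, (d : ℝ) ^ A * Real.exp (-((Real.log d) ^ 2)) ≤ 1 / 10 ∧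
      (100 : ℝ) ≤ d ∧ 1 ≤ Real.log d := by
    have h1 : Filter.Tendsto (fun d : ℕ => Real.log d) Filter.atTop Filter.atTop :=
      Real.tendsto_log_atTop.comp tendsto_natCast_atTop_atTop
    filter_upwards [h1.eventually_ge_atTop (|A| + 3), h1.eventually_ge_atTop 1,
      (tendsto_natCast_atTop_atTop (R := ℝ)).eventually_ge_atTop 100] with d h2 h3 h4
    refine ⟨?_, h4, h3⟩
    have hd : (0 : ℝ) < d := by linarith
    rw [Real.rpow_def_of_pos hd, ← Real.exp_add]
    have h5 : Real.log d * A + -(Real.log d) ^ 2 ≤ -3 := by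
      have h6 : A ≤ |A| := le_abs_self A
      nlinarith
    have h7 : Real.exp (-3 : ℝ) ≤ 1 / 10 := by
      rw [Real.exp_neg, ← one_div]
      refine one_div_le_one_div_of_le (by norm_num) ?_
      have h8 : (2.7182818283 : ℝ) ^ 3 ≤ Real.exp 1 ^ 3 :=
        pow_le_pow_left₀ (by norm_num) Real.exp_one_gt_d9.le 3
      rw [← Real.exp_nat_mul] at h8
      norm_num at h8 ⊢
      linarith
    exact (Real.exp_le_exp.2 h5).trans h7
  obtain ⟨d0, hd0⟩ := Filter.eventually_atTop.1 hlim
  refine ⟨d0, ?_⟩
  intro V τ _ _ P d R Cf L B m hd hP hL hC hm hB hS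
  obtain ⟨hA, hd100, hlog⟩ := hd0 d hd
  have hdp : (0 : ℝ) < d := by linarith
  set M : ℕ := (d + 1) / 2 with hMd
  have hM2 : (d : ℝ) / 2 ≤ M := by
    have : d ≤ 2 * M := by omega
    have h : (d : ℝ) ≤ 2 * (M : ℝ) := by exact_mod_cast this
    linarith
  have hMpos : 0 < M := by
    have : (0 : ℝ) < M := by linarith
    exact_mod_cast this
  have hM' : (0 : ℝ) < M := by exact_mod_cast hMpos
  -- sublists of size `M`
  have hsub : ∀ z : V, ∃ e : Fin M → Fin P, z ∈ R → Function.Injective e ∧ ∀ x, e x ∈ L z := by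
    intro z
    by_cases hz : z ∈ R
    · have h1 : M ≤ (L z).card := by
        have := hL z hz
        have h2 : (d : ℝ) ≤ 2 * ((L z).card : ℝ) := by linarith
        have h3 : d ≤ 2 * (L z).card := by exact_mod_cast h2
        omega
      obtain ⟨L', hL', hc⟩ := exists_subset_card_eq h1
      have e := L'.equivFinOfCardEq hc
      refine ⟨fun x => (e.symm x).1, fun _ => ⟨?_, fun x => hL' (e.symm x).2⟩⟩
      intro x x' hxx
      exact e.symm.injective (Subtype.ext hxx)
    · exact ⟨fun _ => ⟨0, hP⟩, fun h => absurd h hz⟩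
  choose e he using hsub
  -- tests
  set S0 : τ → Finset V := fun q => R.filter fun z => (B q z).Nonempty with hS0
  set Bb : τ → V → Finset (Fin M) := fun q z => univ.filter fun x => e z x ∈ B q z with hBb
  set sq : τ → ℕ := fun q => ⌊27 * m q⌋₊ + 1 with hsq
  have hmq : ∀ q, 1 ≤ m q := fun q => by
    have := hm q
    nlinarith
  have htest : ∀ q, PackI (1 / 4) (S0 q) (Real.exp (-(sq q : ℝ)))
      (fun f => ((S0 q).filter fun z => f z ∈ Bb q z).card < sq q) := by
    intro q
    refine pack_test hMpos (S0 q) (Bb q) (sq q) (Nat.succ_pos _) ?_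
    have h1 : ∑ z ∈ S0 q, ((Bb q z).card : ℝ) ≤ ∑ z ∈ R, ((B q z ∩ L z).card : ℝ) := by
      refine (sum_le_sum (f := fun z => ((Bb q z).card : ℝ))
        (g := fun z => ((B q z ∩ L z).card : ℝ)) fun z hz => ?_).trans
        (sum_le_sum_of_subset_of_nonneg (filter_subset _ _) fun _ _ _ => Nat.cast_nonneg _)
      have hzR := (mem_filter.1 hz).1
      have h2 : ((Bb q z).image (e z)) ⊆ B q z ∩ L z := by
        intro b hb
        obtain ⟨x, hx, rfl⟩ := mem_image.1 hb
        exact mem_inter.2 ⟨(mem_filter.1 hx).2, (he z hzR).2 x⟩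
      have h3 := card_le_card h2
      rw [card_image_of_injective _ (he z hzR).1] at h3
      exact_mod_cast h3
    have h2 : (27 * m q : ℝ) ≤ sq q := by
      have := (Nat.lt_floor_add_one (27 * m q)).le
      simp only [hsq]
      push_cast
      exact this
    have h3 := hB q
    have h4 : m q * d ≤ m q * (2 * M) := by
      refine mul_le_mul_of_nonneg_left (by linarith) (by linarith [hmq q])
    have h5 : 27 * m q * M ≤ sq q * M := mul_le_mul_of_nonneg_right h2 hM'.le
    nlinarith [hmq q]
  -- local lemma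
  set cp : V × V → Prop := fun p => p.1 ∈ R ∧ p.2 ∈ R ∧ Cf.Adj p.1 p.2 with hcp
  obtain ⟨f, hf⟩ := stmt_LLLI V M ((V × V) ⊕ τ) (1 / 4)
    (Sum.elim (fun p => if cp p then {p.1, p.2} else ∅) S0)
    (Sum.elim (fun p => if cp p then Real.exp 1 / M else 0) fun q => Real.exp (-(sq q : ℝ)))
    (Sum.elim (fun p f => cp p → e p.1 (f p.1) ≠ e p.2 (f p.2))
      fun q f => ((S0 q).filter fun z => f z ∈ Bb q z).card < sq q)
    hMpos (by norm_num) le_rfl (by
      rintro (p | q)
      · simp only [Sum.elim_inl]
        by_cases hp : cp p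
        · rw [if_pos hp, if_pos hp]
          have h1 := pack_pair hMpos p.1 p.2 hp.2.2.ne (e p.1) (e p.2) (he p.2 hp.2.1).1
          obtain ⟨κ, hκ, Q, E, h2, h3, h4, h5, h6⟩ := h1
          exact ⟨κ, hκ, Q, E, h2, h3, h4, h5, fun f hf _ => h6 f hf⟩
        · rw [if_neg hp, if_neg hp]
          refine ⟨PEmpty, inferInstance, fun k => k.elim, fun k => k.elim, fun k => k.elim,
            fun k => k.elim, fun k => k.elim, by simp, fun f _ h => absurd h hp⟩
      · simp only [Sum.elim_inr]
        exact htest q) (by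
      intro y
      rw [sum_filter, Fintype.sum_sum_type]
      simp only [Sum.elim_inl, Sum.elim_inr]
      have h1 : ∑ p : V × V, (if y ∈ (if cp p then ({p.1, p.2} : Finset V) else ∅) then
          (if cp p then Real.exp 1 / M else 0) else 0) ≤ 12 / 100 := by
        have e1 : ∀ p : V × V, (if y ∈ (if cp p then ({p.1, p.2} : Finset V) else ∅) then
            (if cp p then Real.exp 1 / M else 0) else 0) =
            if cp p ∧ (p.1 = y ∨ p.2 = y) then Real.exp 1 / M else 0 := by
          intro p
          by_cases hp : cp p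
          · rw [if_pos hp, if_pos hp]
            refine if_congr ?_ rfl rfl
            simp only [mem_insert, mem_singleton, hp, true_and, eq_comm (a := y)]
          · rw [if_neg hp, if_neg (notMem_empty y), if_neg fun h => hp h.1]
        rw [sum_congr rfl fun p _ => e1 p, ← sum_filter, sum_const, nsmul_eq_mul]
        have h2 : ((univ.filter fun p : V × V => cp p ∧ (p.1 = y ∨ p.2 = y)).card : ℝ) ≤
            2 * (d / 100) := by
          by_cases hy : y ∈ R
          · have h3 : (univ.filter fun p : V × V => cp p ∧ (p.1 = y ∨ p.2 = y)) ⊆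
                ((nb Cf y ∩ R).image fun z => (y, z)) ∪ (nb Cf y ∩ R).image fun z => (z, y) := by
              rintro ⟨a, b⟩ hp
              rw [mem_filter] at hp
              obtain ⟨_, ⟨ha, hb, hab⟩, h | h⟩ := hp
              · simp only at h ha hb hab
                subst h
                refine mem_union_left _ (mem_image.2 ⟨b, mem_inter.2 ⟨?_, hb⟩, rfl⟩)
                simpa [nb] using hab
              · simp only at h ha hb hab
                subst h
                refine mem_union_right _ (mem_image.2 ⟨a, mem_inter.2 ⟨?_, ha⟩, rfl⟩)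
                simpa [nb] using hab.symm
            have h4 := (card_le_card h3).trans (card_union_le _ _)
            have h5 := card_image_le (s := nb Cf y ∩ R) (f := fun z => (y, z))
            have h6 := card_image_le (s := nb Cf y ∩ R) (f := fun z => (z, y))
            have h7 : (univ.filter fun p : V × V => cp p ∧ (p.1 = y ∨ p.2 = y)).card ≤
                2 * (nb Cf y ∩ R).card := by omega
            have h8 : ((univ.filter fun p : V × V => cp p ∧ (p.1 = y ∨ p.2 = y)).card : ℝ) ≤
                2 * ((nb Cf y ∩ R).card : ℝ) := by exact_mod_cast h7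
            linarith [hC y hy]
          · have h3 : (univ.filter fun p : V × V => cp p ∧ (p.1 = y ∨ p.2 = y)) = ∅ := by
              rw [filter_eq_empty_iff]
              rintro ⟨a, b⟩ _ ⟨⟨ha, hb, _⟩, h | h⟩
              · simp only at h ha
                exact hy (h ▸ ha)
              · simp only at h hb
                exact hy (h ▸ hb)
            rw [h3]
            simp only [card_empty, Nat.cast_zero]
            linarith
        have h9 : Real.exp 1 / M ≤ 2.7182818286 / (d / 2) := by
          refine div_le_div₀ (by norm_num) Real.exp_one_lt_d9.le (by linarith) hM2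
        calc _ ≤ 2 * ((d : ℝ) / 100) * (2.7182818286 / (d / 2)) :=
              mul_le_mul h2 h9 (by positivity) (by positivity)
          _ ≤ 12 / 100 := by
              have : 2 * ((d : ℝ) / 100) * (2.7182818286 / (d / 2)) = 2.7182818286 / 25 := by
                field_simp
                norm_num
              rw [this]
              norm_num
      have h2 : ∑ q : τ, (if y ∈ S0 q then Real.exp (-(sq q : ℝ)) else 0) ≤ 1 / 10 := by
        rw [← sum_filter]
        by_cases hy : y ∈ R
        · have h3 : ∀ q ∈ univ.filter (fun q => y ∈ S0 q),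
              Real.exp (-(sq q : ℝ)) ≤ Real.exp (-(Real.log d) ^ 2) := by
            intro q _
            refine Real.exp_le_exp.2 (neg_le_neg ?_)
            have h4 := (Nat.lt_floor_add_one (27 * m q)).le
            have h5 : (27 * m q : ℝ) ≤ sq q := by
              simp only [hsq]
              push_cast
              exact h4
            linarith [hm q, hmq q]
          refine (sum_le_sum h3).trans ?_
          rw [sum_const, nsmul_eq_mul]
          have h6 : univ.filter (fun q => y ∈ S0 q) ⊆ univ.filter fun q => (B q y).Nonempty := by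
            intro q hq
            rw [mem_filter] at hq ⊢
            exact ⟨hq.1, (mem_filter.1 hq.2).2⟩
          have h7 : ((univ.filter (fun q => y ∈ S0 q)).card : ℝ) ≤ (d : ℝ) ^ A :=
            le_trans (by exact_mod_cast card_le_card h6) (hS y hy)
          exact (mul_le_mul_of_nonneg_right h7 (Real.exp_pos _).le).trans hA
        · rw [filter_false_of_mem]
          · simp
          · intro q _ h
            exact hy (mem_filter.1 h).1
      have h3 := add_le_add h1 h2
      refine le_trans (le_of_eq ?_) (h3.trans (by norm_num))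
      congr!)
  refine ⟨fun z => e z (f z), fun z hz => (he z hz).2 _, ?_, ?_⟩
  · intro z hz z' hz' hzz
    exact hf (Sum.inl (z, z')) ⟨hz, hz', hzz⟩
  · intro q
    have h1 : ((S0 q).filter fun z => f z ∈ Bb q z).card < sq q := hf (Sum.inr q)
    have h2 : (R.filter fun z => e z (f z) ∈ B q z) ⊆ (S0 q).filter fun z => f z ∈ Bb q z := by
      intro z hz
      rw [mem_filter] at hz ⊢
      refine ⟨mem_filter.2 ⟨hz.1, ⟨_, hz.2⟩⟩, mem_filter.2 ⟨mem_univ _, hz.2⟩⟩
    have h3 : (R.filter fun z => e z (f z) ∈ B q z).card ≤ ⌊27 * m q⌋₊ := by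
      have := card_le_card h2
      simp only [hsq] at h1
      omega
    calc ((R.filter fun z => e z (f z) ∈ B q z).card : ℝ) ≤ (⌊27 * m q⌋₊ : ℝ) := by
          exact_mod_cast h3
      _ ≤ 27 * m q := Nat.floor_le (by linarith [hmq q])

end Pool.Agent.Work.MP_db9399_iv_helper38
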