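import Pool.Agent.Work.MP_db9399_co.Defs

/-!
# MP_db9399: from total colourings to extensions from one precoloured edge (helper38)

Permutations of the colours.
-/

set_option autoImplicit false

namespace Pool.Agent.Work.MP_db9399_iv_helper38

open _root_.MP_db9399_co

universe u

/-- a permutation with three prescribed values -/
theorem ex_perm3 {α : Type*} [Finite α] {a b c a' b' c' : α} (hab : a ≠ b) (hac : a ≠ c)
    (hbc : b ≠ c) (hab' : a' ≠ b') (hac' : a' ≠ c') (hbc' : b' ≠ c') :
    ∃ σ : Equiv.Perm α, σ a = a' ∧ σ b = b' ∧ σ c = c' := by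
  classical
  have := Fintype.ofFinite α
  let f : Fin 3 → α := ![a, b, c]
  let g : Fin 3 → α := ![a', b', c']
  have hf : Function.Injective f := by
    intro i j hij
    fin_cases i <;> fin_cases j <;> simp_all [f]
  have hg : Function.Injective g := by
    intro i j hij
    fin_cases i <;> fin_cases j <;> simp_all [g]
  let e : {x // x ∈ Set.range f} ≃ {x // x ∈ Set.range g} :=
    (Equiv.ofInjective f hf).symm.trans (Equiv.ofInjective g hg)
  have key : ∀ i, e.extendSubtype (f i) = g i := by
    intro i
    rw [e.extendSubtype_apply_of_mem (f i) ⟨i, rfl⟩]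
    have : (⟨f i, ⟨i, rfl⟩⟩ : {x // x ∈ Set.range f}) = Equiv.ofInjective f hf i := rfl
    rw [this]
    simp [e]
  exact ⟨e.extendSubtype, key 0, key 1, key 2⟩

/-- Total colourings of `G` give extensions from at most one precoloured edge. -/
theorem ext_of_total {V : Type u} {G : SimpleGraph V} {k : ℕ}
    (h : ∃ (c : V → Fin k) (t : Sym2 V → Fin k), IsTotalColoring G c t)
    (H : G.Subgraph) (hH : IsDistThreeMatching H) (h1 : H.edgeSet.Subsingleton) :
    EveryTotalColoringExtends H (Fin k) := by
  classical
  obtain ⟨c, t, hct⟩ := h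
  intro c₀ t₀ h0
  by_cases hv : ∃ x, x ∈ H.verts
  · obtain ⟨x, hx⟩ := hv
    obtain ⟨y, hxy, _⟩ := hH.1 hx
    have hG : G.Adj x y := H.adj_sub hxy
    have hS : H.spanningCoe.Adj x y := hxy
    have hverts : ∀ v ∈ H.verts, v = x ∨ v = y := by
      intro v hv
      obtain ⟨w, hvw, _⟩ := hH.1 hv
      have he : s(v, w) = s(x, y) := h1 (by simpa using hvw) (by simpa using hxy)
      rw [Sym2.eq_iff] at he
      rcases he with ⟨h1, _⟩ | ⟨h1, _⟩
      · exact Or.inl h1
      · exact Or.inr h1
    have hcx : t s(x, y) ≠ c x := hct.incidence x y hG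
    have hcy : t s(x, y) ≠ c y := by
      have := hct.incidence y x hG.symm
      rwa [Sym2.eq_swap] at this
    have hcx' : t₀ s(x, y) ≠ c₀ x := h0.incidence x y hS
    have hcy' : t₀ s(x, y) ≠ c₀ y := by
      have := h0.incidence y x hS.symm
      rwa [Sym2.eq_swap] at this
    obtain ⟨σ, s1, s2, s3⟩ := ex_perm3 (hct.vertex x y hG) hcx.symm hcy.symm
      (h0.vertex x y hS) hcx'.symm hcy'.symm
    refine ⟨fun v => σ (c v), fun e => σ (t e), ⟨?_, ?_, ?_⟩, ?_, ?_⟩
    · intro u v huv he
      exact hct.vertex u v huv (σ.injective he)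
    · intro u v w huv huw hvw he
      exact hct.edge u v w huv huw hvw (σ.injective he)
    · intro u v huv he
      exact hct.incidence u v huv (σ.injective he)
    · intro v hv
      rcases hverts v hv with rfl | rfl
      · exact s1
      · exact s2
    · intro e he
      have : e = s(x, y) := h1 he (by simpa using hxy)
      rw [this]
      exact s3
  · refine ⟨c, t, hct, fun v hv' => absurd ⟨v, hv'⟩ hv, ?_⟩
    intro e he
    induction e with
    | _ v w =>
      have : H.Adj v w := by simpa using he
      exact absurd ⟨v, H.edge_vert this⟩ hv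

end Pool.Agent.Work.MP_db9399_iv_helper38
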