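import Pool.Agent.Work.MP_db9399_fin_helper6.TCCR2
import Pool.Agent.Work.MP_db9399_fin_helper6.TSplit
import Pool.Agent.Work.MP_db9399_outx.OUTX
import Pool.Agent.Work.MP_db9399_brx_helper75.BRX
import Pool.Agent.Work.MP_db9399_cfg_helper44.CFG
import Pool.Agent.Work.MP_db9399_og_helper35.ANTF
import Pool.Agent.Work.MP_db9399_og_helper35.OWNG2
import Pool.Agent.Work.MP_db9399_ox_helper35.OXD
import Pool.Agent.Work.MP_db9399_ox_helper35.OXF
import Pool.Agent.Work.MP_db9399_ox.OXC
import Pool.Agent.Work.MP_db9399_oxe_helper48.Main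
import Pool.Agent.Work.MP_db9399_owc_helper89.OWN2
import Pool.Agent.Work.MP_db9399_og_helper68.FLOW
import Pool.Agent.Work.MP_db9399_sg_helper48.KERX
import Pool.Agent.Work.MP_db9399_tkn_helper59.TOKN
import Pool.Agent.Work.MP_db9399_owc_helper89.Hold2
import Pool.Agent.Work.MP_db9399_sg_helper54.KMLN
import Pool.Agent.Work.MP_db9399_eg.ENGN
import Pool.Agent.Work.MP_db9399_iv_helper38.Fin0
import Pool.Agent.Work.MP_db9399_iv_helper38.OneEdge

/-!
# MP_db9399: the Total Colouring Conjecture for all graphs of large maximum degree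
-/

set_option autoImplicit false

namespace Pool.Agent.Work.MP_db9399_iv_helper38

universe u

/-- OUTX without hypotheses -/
theorem outx_hold : MP_db9399_outx.Stmt_OUTX.{u} :=
  MP_db9399_outx.outx MP_db9399_fin.tsplit MP_db9399_brx.helper75.stmt_BRX
    MP_db9399_cfg_helper44.stmt_CFG
    (MP_db9399_ox.helper68.oxb2 MP_db9399_og.helper35.ant_hold MP_db9399_og.helper68.stmt_FLW
      MP_db9399_sg.helper48.stmt_KERX MP_db9399_tkn.stmt_TOKN MP_db9399_ox.helper35.stmt_OXF)
    (MP_db9399_og.helper35.owng2 MP_db9399_owc.helper89.own2_hold)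
    (MP_db9399_ox.stmt_OXC MP_db9399_sg.helper54.stmt_KMLN MP_db9399_eg.stmt_ENGN)
    MP_db9399_ox.helper35.stmt_OXD MP_db9399_oxe.stmt_OXE

/-- total colourings with `d + 2` colours of all `d`-regular graphs of large degree -/
theorem tccr_hold : Stmt_TCCR.{u} := MP_db9399_fin.tccr_of outx_hold

/-- total colourings with `d + 2` colours of all graphs of maximum degree at most `d`, `d` large -/
theorem tccl_hold : Stmt_TCCL.{u} := tccl_of_tccr tccr_hold

/-- The Total Colouring Conjecture for all graphs of large maximum degree. -/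
theorem tcc_large : ∃ D₀ : ℕ, ∀ (V : Type u) [Fintype V] (G : SimpleGraph V) [DecidableRel G.Adj]
    (k : ℕ), D₀ ≤ G.maxDegree → G.maxDegree + 2 ≤ k →
    ∃ (c : V → Fin k) (t : Sym2 V → Fin k), _root_.MP_db9399_co.IsTotalColoring G c t :=
  tcc_of_tccl tccl_hold

end Pool.Agent.Work.MP_db9399_iv_helper38
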