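import Pool.Agent.Work.MP_db9399_xc_helper38.ATOMS

/-!
# MP_db9399, all scales, block MISO (helper38)

`G` is `d`-regular with the closed family `Cs`. A vertex `v` which misses more than `4 a ^ 3 d`
vertices of its own cluster (or lies in no cluster) has many non-adjacent pairs of neighbours.
-/

set_option autoImplicit false

namespace Pool.Agent.Work.MP_db9399_iv_helper38

open Finset Classical
open Pool.Agent.Work.MP_db9399_all (nb mis)
open Pool.Agent.Work.MP_db9399_xc.helper38 (Clx lgt)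

universe u

variable {V : Type u} [Fintype V]

theorem card_nb_diff (G : SimpleGraph V) {d : ℕ} (hreg : ∀ v, (nb G v).card = d) (v : V) :
    ∑ x ∈ nb G v, ((nb G x \ nb G v).card : ℝ) = (mis G (nb G v)).card + d := by
  have h1 : ∀ x ∈ nb G v, ((nb G x \ nb G v).card : ℝ) = ((nb G v \ nb G x).card : ℝ) := by
    intro x _
    have h2 := card_inter_add_card_sdiff (nb G x) (nb G v)
    have h3 := card_inter_add_card_sdiff (nb G v) (nb G x)
    rw [inter_comm] at h3
    rw [hreg x] at h2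
    rw [hreg v] at h3
    have : (nb G x \ nb G v).card = (nb G v \ nb G x).card := by omega
    exact_mod_cast this
  rw [sum_congr rfl h1]
  have h4 : ∑ x ∈ nb G v, (nb G v \ nb G x).card = (mis G (nb G v)).card + d := by
    rw [← card_sigma]
    have h5 : ((nb G v).sigma fun x => nb G v \ nb G x).card =
        (((nb G v) ×ˢ (nb G v)).filter fun p => ¬ G.Adj p.1 p.2).card := by
      refine card_bij (fun p _ => (p.1, p.2)) ?_ ?_ ?_
      · intro p hp
        rw [mem_sigma, mem_sdiff] at hp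
        rw [mem_filter, mem_product]
        refine ⟨⟨hp.1, hp.2.1⟩, fun h => hp.2.2 ?_⟩
        simpa [nb] using h
      · rintro ⟨x, y⟩ _ ⟨x', y'⟩ _ he
        rw [Prod.mk.injEq] at he
        simp only at he
        rw [he.1, he.2]
      · rintro ⟨x, y⟩ hp
        rw [mem_filter, mem_product] at hp
        refine ⟨⟨x, y⟩, ?_, rfl⟩
        rw [mem_sigma, mem_sdiff]
        refine ⟨hp.1.1, hp.1.2, fun h => hp.2 ?_⟩
        simpa [nb] using h
    have h6 : (((nb G v) ×ˢ (nb G v)).filter fun p => ¬ G.Adj p.1 p.2) =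
        mis G (nb G v) ∪ (nb G v).image fun x => (x, x) := by
      ext ⟨x, y⟩
      simp only [mem_filter, mem_product, mis, mem_union, mem_image, Prod.mk.injEq]
      constructor
      · rintro ⟨⟨hx, hy⟩, hxy⟩
        by_cases h : x = y
        · exact Or.inr ⟨x, hx, rfl, h⟩
        · exact Or.inl ⟨⟨hx, hy⟩, h, hxy⟩
      · rintro (⟨⟨hx, hy⟩, _, hxy⟩ | ⟨z, hz, rfl, rfl⟩)
        · exact ⟨⟨hx, hy⟩, hxy⟩
        · exact ⟨⟨hz, hz⟩, G.loopless.irrefl _⟩
    have h7 : Disjoint (mis G (nb G v)) ((nb G v).image fun x => (x, x)) := by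
      rw [Finset.disjoint_left]
      rintro ⟨x, y⟩ hp hq
      obtain ⟨z, _, hz⟩ := mem_image.1 hq
      rw [Prod.mk.injEq] at hz
      exact (mem_filter.1 hp).2.1 (hz.1.symm.trans hz.2)
    rw [h5, h6, card_union_of_disjoint h7, card_image_of_injective _ (fun x y h =>
      (Prod.mk.injEq _ _ _ _ ▸ h : x = y ∧ x = y).1), hreg v]
  exact_mod_cast h4

/-- MISO -/
theorem miso {G : SimpleGraph V} {d : ℕ} {M ζ a g : ℝ} {Cs : Finset (Finset V)}
    (h : Clx G d M ζ a g Cs) (hreg : ∀ v, (nb G v).card = d) (hd : 1 ≤ d) (hM : 1 ≤ M)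
    (ha : 0 ≤ a) (hζ : 0 < ζ) (hζ1 : ζ ≤ 1 / 8) (haζ : 200 * M * a ^ 2 ≤ ζ) (ha1 : a ≤ 1 / 8)
    (hg : 0 < g) (hgd : 2 ≤ g * d) (v : V)
    (hv : ∀ Q ∈ Cs, v ∈ Q → 4 * a ^ 3 * d < ((Q \ nb G v).card : ℝ)) :
    g / 2 * (d : ℝ) ^ 2 ≤ ((mis G (nb G v)).card : ℝ) := by
  by_contra hcon
  push Not at hcon
  have hdp : (0 : ℝ) < d := by exact_mod_cast hd
  have h1 : ∑ x ∈ nb G v, ((nb G x \ nb G v).card : ℝ) ≤ g * d * (nb G v).card := by
    rw [card_nb_diff G hreg v, hreg v]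
    nlinarith
  have h2 := h.ex (nb G v) (nb G v) (by rw [hreg v]; nlinarith) (by
    have : (0 : ℝ) ≤ (nb G v).card := Nat.cast_nonneg _
    nlinarith) h1
  rw [union_self] at h2
  set Cs' := Cs.filter fun Q => ((Q \ nb G v).card : ℝ) ≤ 4 * a ^ 3 * d with hCs'
  have h3 : 50 * M * a ^ 2 * d ≤ ζ / 4 * d := mul_le_mul_of_nonneg_right (by linarith) hdp.le
  have h4 : ζ / 4 * d < d := by nlinarith
  -- a cluster inside `N(v)`
  obtain ⟨x, hx, hxl⟩ : ∃ x ∈ nb G v, x ∈ lgt G d a Cs' := by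
    by_contra hno
    push Not at hno
    have : nb G v \ lgt G d a Cs' = nb G v := by
      rw [Finset.sdiff_eq_self_iff_disjoint, Finset.disjoint_left]
      exact fun x hx => hno x hx
    rw [this, hreg v] at h2
    linarith
  obtain ⟨Q, hQ, -, -⟩ := (mem_filter.1 hxl).2
  have hQ' := mem_filter.1 hQ
  have ha3 : 4 * a ^ 3 ≤ 1 / 128 := by
    have : a ^ 3 ≤ (1 / 8) ^ 3 := pow_le_pow_left₀ ha ha1 3
    linarith
  have hin : ∀ Q' ∈ Cs', (2 / 3 : ℝ) * d ≤ ((Q' ∩ nb G v).card : ℝ) := by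
    intro Q' hQ1
    have h5 := mem_filter.1 hQ1
    have h6 := h.lo Q' h5.1
    have h7 : ((Q' ∩ nb G v).card : ℝ) + ((Q' \ nb G v).card : ℝ) = Q'.card := by
      exact_mod_cast card_inter_add_card_sdiff Q' (nb G v)
    have h8 := h5.2
    nlinarith
  have huniq : ∀ Q' ∈ Cs', Q' = Q := by
    intro Q' hQ1
    by_contra hne
    have h5 := h.dis Q' (mem_filter.1 hQ1).1 Q hQ'.1 hne
    have h6 : Disjoint (Q' ∩ nb G v) (Q ∩ nb G v) :=
      h5.mono inter_subset_left inter_subset_left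
    have h7 : (Q' ∩ nb G v ∪ Q ∩ nb G v).card ≤ (nb G v).card :=
      card_le_card (union_subset inter_subset_right inter_subset_right)
    rw [card_union_of_disjoint h6, hreg v] at h7
    have h8 : ((Q' ∩ nb G v).card : ℝ) + ((Q ∩ nb G v).card : ℝ) ≤ d := by exact_mod_cast h7
    linarith [hin Q' hQ1, hin Q hQ]
  have h5 : ((nb G v \ Q).card : ℝ) ≤ ζ / 4 * d := by
    refine le_trans ?_ (h2.trans h3)
    refine Nat.cast_le.2 (card_le_card ?_)
    intro y hy
    rw [mem_sdiff] at hy ⊢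
    refine ⟨hy.1, fun hyl => hy.2 ?_⟩
    obtain ⟨Q', hQ1, hyQ, -⟩ := (mem_filter.1 hyl).2
    rwa [huniq Q' hQ1] at hyQ
  by_cases hvQ : v ∈ Q
  · have := hv Q hQ'.1 hvQ
    linarith [hQ'.2]
  · have := h.nin Q hQ'.1 v hvQ
    nlinarith

end Pool.Agent.Work.MP_db9399_iv_helper38
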