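import Pool.Agent.Work.MP_db9399_iv_helper38.RLC

/-!
# MP_db9399, all scales, block RGC: the rigid vertices choose their own colours last (helper38)

Position: after ENGN (result `F`), before RESTN. `R` = rigid vertices, without own colours so far;
`U z` = the light vertices of the side which `z ∈ R` sees. `z` chooses a colour `b` such that
`F b z ∈ U z`; its edge of this colour is removed from `F` and goes to the left over graph.
`Bad z` = colours with large signed numbers at the piece of `z`. `Cf` = conflict graph, it contains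
the edges of `G` between rigid vertices (and all pairs of rigid vertices of one piece).
-/

set_option autoImplicit false

namespace Pool.Agent.Work.MP_db9399_iv_helper38

open Finset Classical
open Pool.Agent.Work.MP_db9399_all (nb)

universe u

/-- situation before RGC -/
structure RgH {V : Type u} {P : ℕ} (G : SimpleGraph V) (O R : Finset V) (U : V → Finset V)
    (F : Fin P → V → V) (c : V → Option (Fin P)) : Prop where
  RO : R ⊆ O
  UO : ∀ z ∈ R, Disjoint (U z) O
  FF : ∀ b v, F b (F b v) = v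
  FG : ∀ b v, F b v ≠ v → G.Adj v (F b v)
  Fd : ∀ b b' v, F b v ≠ v → F b v = F b' v → b = b'
  Fo : ∀ b v, c v = some b → F b v = v
  cO : ∀ v, c v ≠ none → v ∈ O
  cp : ∀ v w, G.Adj v w → c v ≠ none → c v ≠ c w
  cR : ∀ z ∈ R, c z = none

/-- Result of RGC: `f z` = new own colour of `z ∈ R`, `F'` = new matchings, `c'` = new own colours. -/
structure RgO {V : Type u} {P : ℕ} (G Cf : SimpleGraph V) (O R : Finset V) (U : V → Finset V)
    (Bad : V → Finset (Fin P)) (F : Fin P → V → V) (c : V → Option (Fin P)) (d : ℕ)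
    (f : V → Fin P) (F' : Fin P → V → V) (c' : V → Option (Fin P)) : Prop where
  fU : ∀ z ∈ R, F (f z) z ∈ U z
  bd : ∀ z ∈ R, f z ∉ Bad z
  cf : ∀ z ∈ R, ∀ z' ∈ R, Cf.Adj z z' → f z ≠ f z'
  c1 : ∀ z ∈ R, c' z = some (f z)
  c2 : ∀ v, v ∉ R → c' v = c v
  cO : ∀ v, c' v ≠ none → v ∈ O
  cp : ∀ v w, G.Adj v w → c' v ≠ none → c' v ≠ c' w
  FF : ∀ b v, F' b (F' b v) = v
  Fe : ∀ b v, F' b v = F b v ∨ F' b v = v
  Fd : ∀ b b' v, F' b v ≠ v → F' b v = F' b' v → b = b'
  Fo : ∀ b v, c' v = some b → F' b v = v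
  -- the same missing colours, the same edges in `O`
  Fm : ∀ b v, v ∈ O → F' b v = v → c' v ≠ some b → F b v = v ∧ c v ≠ some b
  FK : ∀ b v, v ∈ O → F b v ∈ O → F' b v = F b v
  FR : ∀ z ∈ R, ∀ b, b ≠ f z → F' b z = F b z
  ch : ∀ b v, F' b v ≠ F b v →
    (v ∈ R ∧ f v = b) ∨ (v ∉ O ∧ F b v ∈ R ∧ f (F b v) = b ∧ v ∈ U (F b v))
  -- few changes
  y1 : ∀ y, ((R.filter fun z => F (f z) z = y).card : ℝ) ≤ 27 * (Real.log d) ^ 2
  y2 : ∀ y, y ∉ O → ((univ.filter fun b => F' b y ≠ F b y).card : ℝ) ≤ 27 * (Real.log d) ^ 2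
  x1 : ∀ X : Finset V, Disjoint X O → (∀ z ∈ R, ∀ z' ∈ R, z ≠ z' → ¬ Disjoint (U z) X →
    ¬ Disjoint (U z') X → Cf.Adj z z') → ∀ b, (X.filter fun v => F' b v ≠ F b v).card ≤ 1
  x2 : ∀ X : Finset V, Disjoint X O → ∑ b, (X.filter fun v => F' b v ≠ F b v).card ≤
    (R.filter fun z => ¬ Disjoint (U z) X).card

/-- the matchings without the edges of the new own colours -/
noncomputable def rgF {V : Type u} {P : ℕ} (F : Fin P → V → V) (R : Finset V) (f : V → Fin P)
    (b : Fin P) (v : V) : V :=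
  if (v ∈ R ∧ f v = b) ∨ (F b v ∈ R ∧ f (F b v) = b) then v else F b v

/-- the new own colours -/
noncomputable def rgK {V : Type u} {P : ℕ} (c : V → Option (Fin P)) (R : Finset V) (f : V → Fin P)
    (v : V) : Option (Fin P) := if v ∈ R then some (f v) else c v

theorem rg_out {V : Type u} {P : ℕ} {G Cf : SimpleGraph V} {O R : Finset V} {U : V → Finset V}
    {Bad : V → Finset (Fin P)} {F : Fin P → V → V} {c : V → Option (Fin P)} {d : ℕ}
    (H : RgH G O R U F c) (f : V → Fin P) (fU : ∀ z ∈ R, F (f z) z ∈ U z)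
    (bd : ∀ z ∈ R, f z ∉ Bad z) (cf : ∀ z ∈ R, ∀ z' ∈ R, Cf.Adj z z' → f z ≠ f z')
    (GC : ∀ z ∈ R, ∀ z' ∈ R, G.Adj z z' → Cf.Adj z z')
    (fc : ∀ z ∈ R, ∀ w, G.Adj z w → c w ≠ some (f z))
    (y1 : ∀ y, ((R.filter fun z => F (f z) z = y).card : ℝ) ≤ 27 * (Real.log d) ^ 2) :
    RgO G Cf O R U Bad F c d f (rgF F R f) (rgK c R f) := by
  -- the partner of a rigid vertex is not in `O`
  have hUO : ∀ z ∈ R, F (f z) z ∉ O := fun z hz h =>
    Finset.disjoint_left.1 (H.UO z hz) (fU z hz) h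
  have hdef : ∀ b v, ((v ∈ R ∧ f v = b) ∨ (F b v ∈ R ∧ f (F b v) = b)) → rgF F R f b v = v :=
    fun b v h => if_pos h
  have hdef' : ∀ b v, ¬ ((v ∈ R ∧ f v = b) ∨ (F b v ∈ R ∧ f (F b v) = b)) →
      rgF F R f b v = F b v := fun b v h => if_neg h
  -- second case: `v` is the partner, not in `O`
  have hsec : ∀ b v, F b v ∈ R → f (F b v) = b → v ∉ O ∧ v ∈ U (F b v) := by
    intro b v h1 h2
    have h3 := hUO _ h1
    have h4 := fU _ h1
    rw [h2, H.FF] at h3 h4
    exact ⟨h3, h4⟩
  have hch : ∀ b v, rgF F R f b v ≠ F b v →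
      (v ∈ R ∧ f v = b) ∨ (v ∉ O ∧ F b v ∈ R ∧ f (F b v) = b ∧ v ∈ U (F b v)) := by
    intro b v h
    by_contra hcon
    refine h (hdef' b v ?_)
    rintro (h1 | h1)
    · exact hcon (Or.inl h1)
    · have := hsec b v h1.1 h1.2
      exact hcon (Or.inr ⟨this.1, h1.1, h1.2, this.2⟩)
  have hFe : ∀ b v, rgF F R f b v = F b v ∨ rgF F R f b v = v := by
    intro b v
    by_cases h : (v ∈ R ∧ f v = b) ∨ (F b v ∈ R ∧ f (F b v) = b)
    · exact Or.inr (hdef b v h)
    · exact Or.inl (hdef' b v h)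
  -- the changed vertices outside `O` inject into `R`
  have hinj : ∀ b v, v ∉ O → rgF F R f b v ≠ F b v →
      F b v ∈ R ∧ f (F b v) = b ∧ v ∈ U (F b v) := by
    intro b v hv h
    rcases hch b v h with h1 | h1
    · exact absurd (H.RO h1.1) hv
    · exact h1.2
  refine ⟨fU, bd, cf, fun z hz => if_pos hz, fun v hv => if_neg hv, ?_, ?_, ?_, hFe, ?_, ?_, ?_, ?_,
    ?_, hch, y1, ?_, ?_, ?_⟩
  · intro v hv
    by_cases h : v ∈ R
    · exact H.RO h
    · refine H.cO v ?_
      simpa [rgK, h] using hv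
  · intro v w hvw hv hcon
    by_cases h : v ∈ R
    · by_cases h' : w ∈ R
      · simp only [rgK, if_pos h, if_pos h', Option.some.injEq] at hcon
        exact cf v h w h' (GC v h w h' hvw) hcon
      · simp only [rgK, if_pos h, if_neg h'] at hcon
        exact fc v h w hvw hcon.symm
    · by_cases h' : w ∈ R
      · simp only [rgK, if_neg h, if_pos h'] at hcon
        exact fc w h' v hvw.symm hcon
      · simp only [rgK, if_neg h, if_neg h'] at hcon hv
        exact H.cp v w hvw hv hcon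
  · intro b v
    by_cases h : (v ∈ R ∧ f v = b) ∨ (F b v ∈ R ∧ f (F b v) = b)
    · rw [hdef b v h, hdef b v h]
    · rw [hdef' b v h, hdef' b (F b v), H.FF]
      rw [H.FF]
      exact fun h' => h h'.symm
  · intro b b' v hv he
    have h1 : rgF F R f b v = F b v := (hFe b v).resolve_right hv
    have h2 : rgF F R f b' v = F b' v := by
      refine (hFe b' v).resolve_right ?_
      rw [← he]
      exact hv
    refine H.Fd b b' v ?_ ?_
    · rw [← h1]
      exact hv
    · rw [← h1, ← h2]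
      exact he
  · intro b v hv
    by_cases h : v ∈ R
    · simp only [rgK, if_pos h, Option.some.injEq] at hv
      exact hdef b v (Or.inl ⟨h, hv⟩)
    · simp only [rgK, if_neg h] at hv
      rcases hFe b v with h1 | h1
      · rw [h1, H.Fo b v hv]
      · exact h1
  · intro b v hvO hv hc
    have h1 : ¬ (v ∈ R ∧ f v = b) := fun h => hc (by simp only [rgK, if_pos h.1, h.2])
    have h2 : ¬ (F b v ∈ R ∧ f (F b v) = b) := fun h => (hsec b v h.1 h.2).1 hvO
    have h3 := hdef' b v (by tauto)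
    refine ⟨by rw [← h3]; exact hv, ?_⟩
    by_cases h : v ∈ R
    · rw [H.cR v h]
      simp
    · simpa only [rgK, if_neg h] using hc
  · intro b v hv hF
    by_contra hcon
    rcases hch b v hcon with h | h
    · have := hUO v h.1
      rw [h.2] at this
      exact this hF
    · exact h.1 hv
  · intro z hz b hb
    by_contra hcon
    rcases hch b z hcon with h | h
    · exact hb h.2.symm
    · exact h.1 (H.RO hz)
  · intro y hy
    refine le_trans ?_ (y1 y)
    have h1 : ((univ.filter fun b => rgF F R f b y ≠ F b y).image fun b => F b y) ⊆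
        R.filter fun z => F (f z) z = y := by
      intro z hz
      obtain ⟨b, hb, rfl⟩ := mem_image.1 hz
      have h2 := hinj b y hy (mem_filter.1 hb).2
      exact mem_filter.2 ⟨h2.1, by rw [h2.2.1, H.FF]⟩
    have h3 : Set.InjOn (fun b => F b y) (univ.filter fun b => rgF F R f b y ≠ F b y :
        Finset (Fin P)) := by
      intro b hb b' hb' he
      have h2 := hinj b y hy (mem_filter.1 (mem_coe.1 hb)).2
      refine H.Fd b b' y ?_ he
      intro h4
      rw [h4] at h2
      exact hy (H.RO h2.1)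
    have h4 := card_le_card h1
    rw [card_image_of_injOn h3] at h4
    exact_mod_cast h4
  · intro X hX hC b
    rw [card_le_one]
    intro v hv v' hv'
    rw [mem_filter] at hv hv'
    have h1 := hinj b v (fun h => Finset.disjoint_left.1 hX hv.1 h) hv.2
    have h2 := hinj b v' (fun h => Finset.disjoint_left.1 hX hv'.1 h) hv'.2
    by_contra hne
    have h3 : F b v ≠ F b v' := fun h => hne (by rw [← H.FF b v, h, H.FF])
    refine cf _ h1.1 _ h2.1 (hC _ h1.1 _ h2.1 h3 ?_ ?_) (h1.2.1.trans h2.2.1.symm)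
    · exact not_disjoint_iff.2 ⟨v, h1.2.2, hv.1⟩
    · exact not_disjoint_iff.2 ⟨v', h2.2.2, hv'.1⟩
  · intro X hX
    rw [← card_sigma]
    refine card_le_card_of_injOn (fun p => F p.1 p.2) ?_ ?_
    · intro p hp
      rw [mem_coe, mem_sigma, mem_filter] at hp
      have h1 := hinj p.1 p.2 (fun h => Finset.disjoint_left.1 hX hp.2.1 h) hp.2.2
      exact mem_coe.2 (mem_filter.2 ⟨h1.1, not_disjoint_iff.2 ⟨p.2, h1.2.2, hp.2.1⟩⟩)
    · rintro ⟨b, v⟩ hp ⟨b', v'⟩ hp' he
      rw [mem_coe, mem_sigma, mem_filter] at hp hp'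
      have h1 := hinj b v (fun h => Finset.disjoint_left.1 hX hp.2.1 h) hp.2.2
      have h2 := hinj b' v' (fun h => Finset.disjoint_left.1 hX hp'.2.1 h) hp'.2.2
      simp only at he
      have h3 : b = b' := by rw [← h1.2.1, ← h2.2.1, he]
      subst h3
      have h4 : v = v' := by rw [← H.FF b v, he, H.FF]
      rw [h4]

/-- RGC. -/
theorem rgc (A : ℝ) : ∃ d0 : ℕ, ∀ {V τ : Type u} [Fintype V] [Fintype τ] (P d : ℕ)
    (G Cf : SimpleGraph V) (O R : Finset V) (U : V → Finset V) (Bad : V → Finset (Fin P))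
    (F : Fin P → V → V) (c : V → Option (Fin P)) (B : τ → V → Finset (Fin P)) (m : τ → ℝ),
    d0 ≤ d → P ≤ 2 * d → 0 < P → RgH G O R U F c →
    (∀ z ∈ R, 8 / 10 * (d : ℝ) ≤ ((univ.filter fun b => F b z ∈ U z).card : ℝ)) →
    (∀ z ∈ R, ((Bad z).card : ℝ) ≤ d / 10) →
    (∀ z ∈ R, (((nb G z).filter fun w => c w ≠ none).card : ℝ) ≤ d / 10) →
    (∀ z ∈ R, ∀ z' ∈ R, G.Adj z z' → Cf.Adj z z') →
    (∀ z ∈ R, ((nb Cf z ∩ R).card : ℝ) ≤ d / 100) →
    (∀ y, ((R.filter fun z => y ∈ U z).card : ℝ) ≤ d) →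
    (∀ q, (Real.log d) ^ 2 ≤ m q) →
    (∀ q, ∑ z ∈ R, ((B q z).card : ℝ) ≤ m q * d) →
    (∀ z ∈ R, ((univ.filter fun q => (B q z).Nonempty).card : ℝ) ≤ (d : ℝ) ^ A) →
    ∃ (f : V → Fin P) (F' : Fin P → V → V) (c' : V → Option (Fin P)),
      RgO G Cf O R U Bad F c d f F' c' ∧
      ∀ q, ((R.filter fun z => f z ∈ B q z).card : ℝ) ≤ 27 * m q := by
  obtain ⟨d1, hd1⟩ := rlc.{u} (max A 1 + 1)
  have hev : ∀ᶠ d : ℕ in Filter.atTop, (3 : ℝ) ≤ d ∧ 1 ≤ Real.log d := by
    have h1 : Filter.Tendsto (fun d : ℕ => Real.log d) Filter.atTop Filter.atTop :=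
      Real.tendsto_log_atTop.comp tendsto_natCast_atTop_atTop
    filter_upwards [h1.eventually_ge_atTop 1,
      (tendsto_natCast_atTop_atTop (R := ℝ)).eventually_ge_atTop 3] with d h2 h3
    exact ⟨h3, h2⟩
  obtain ⟨d2, hd2⟩ := Filter.eventually_atTop.1 hev
  refine ⟨max d1 d2, ?_⟩
  intro V τ _ _ P d G Cf O R U Bad F c B m hd hP hP0 H hU hBad hc GC hC hy hm hB hS
  obtain ⟨hd3, hlog⟩ := hd2 d ((le_max_right _ _).trans hd)
  have hdp : (0 : ℝ) < d := by linarith
  set L : V → Finset (Fin P) := fun z => univ.filter fun b =>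
    F b z ∈ U z ∧ b ∉ Bad z ∧ ∀ w, G.Adj z w → c w ≠ some b with hL
  -- tests
  set B' : τ ⊕ V → V → Finset (Fin P) := Sum.elim B
    (fun y z => univ.filter fun b => F b z = y ∧ F b z ∈ U z) with hB'
  have hone : ∀ y, ∀ z ∈ R, ((B' (Sum.inr y) z).card : ℝ) ≤ if y ∈ U z then 1 else 0 := by
    intro y z hz
    simp only [hB', Sum.elim_inr]
    split_ifs with h
    · have : (univ.filter fun b => F b z = y ∧ F b z ∈ U z).card ≤ 1 := by
        rw [card_le_one]
        intro b hb b' hb'
        rw [mem_filter] at hb hb'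
        refine H.Fd b b' z ?_ (hb.2.1.trans hb'.2.1.symm)
        intro he
        have h1 := hb.2.2
        rw [he] at h1
        exact Finset.disjoint_left.1 (H.UO z hz) h1 (H.RO hz)
      exact_mod_cast this
    · rw [filter_false_of_mem]
      · simp
      · rintro b _ ⟨h1, h2⟩
        exact h (h1 ▸ h2)
  obtain ⟨f, hf1, hf2, hf3⟩ := hd1 P d R Cf L B' (Sum.elim m fun _ => (Real.log d) ^ 2)
    ((le_max_left _ _).trans hd) hP0 (by
      intro z hz
      have h1 : (univ.filter fun b => F b z ∈ U z) ⊆ L z ∪ (Bad z ∪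
          ((nb G z).filter fun w => c w ≠ none).image fun w => (c w).getD ⟨0, hP0⟩) := by
        intro b hb
        rw [mem_filter] at hb
        rw [mem_union, mem_union]
        by_cases h2 : b ∈ Bad z
        · exact Or.inr (Or.inl h2)
        · by_cases h3 : ∀ w, G.Adj z w → c w ≠ some b
          · exact Or.inl (mem_filter.2 ⟨mem_univ _, hb.2, h2, h3⟩)
          · push Not at h3
            obtain ⟨w, hw, hw'⟩ := h3
            refine Or.inr (Or.inr (mem_image.2 ⟨w, mem_filter.2 ⟨by simpa [nb] using hw, ?_⟩, ?_⟩))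
            · rw [hw']
              simp
            · rw [hw']
              rfl
      have h2 := (card_le_card h1).trans ((card_union_le _ _).trans
        (Nat.add_le_add_left (card_union_le _ _) _))
      have h3 : (((nb G z).filter fun w => c w ≠ none).image
        fun w => (c w).getD ⟨0, hP0⟩).card ≤ ((nb G z).filter fun w => c w ≠ none).card :=
        card_image_le
      have h4 : ((univ.filter fun b => F b z ∈ U z).card : ℝ) ≤ ((L z).card : ℝ) +
          (((Bad z).card : ℝ) + (((nb G z).filter fun w => c w ≠ none).card : ℝ)) := by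
        exact_mod_cast h2.trans (Nat.add_le_add_left (Nat.add_le_add_left h3 _) _)
      linarith [hU z hz, hBad z hz, hc z hz])
    hC (by
      rintro (q | y)
      · exact hm q
      · exact le_rfl) (by
      rintro (q | y)
      · refine le_trans (sum_le_sum fun z _ => ?_) (hB q)
        exact_mod_cast card_le_card inter_subset_left
      · simp only [Sum.elim_inr]
        have h1 : ∑ z ∈ R, ((B' (Sum.inr y) z ∩ L z).card : ℝ) ≤
            ∑ z ∈ R, if y ∈ U z then (1 : ℝ) else 0 := by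
          refine sum_le_sum fun z hz => le_trans ?_ (hone y z hz)
          exact_mod_cast card_le_card inter_subset_left
        refine h1.trans ?_
        rw [← sum_filter, sum_const, nsmul_eq_mul, mul_one]
        refine (hy y).trans (le_mul_of_one_le_left hdp.le (one_le_pow₀ hlog))) (by
      intro z hz
      have h1 : (univ.filter fun q : τ ⊕ V => (B' q z).Nonempty) ⊆
          ((univ.filter fun q : τ => (B q z).Nonempty).image Sum.inl) ∪
          ((univ : Finset (Fin P)).image fun b => Sum.inr (F b z)) := by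
        rintro (q | y) hq
        · rw [mem_filter] at hq
          exact mem_union_left _ (mem_image.2 ⟨q, mem_filter.2 ⟨mem_univ _, hq.2⟩, rfl⟩)
        · rw [mem_filter] at hq
          obtain ⟨b, hb⟩ := hq.2
          simp only [hB', Sum.elim_inr, mem_filter] at hb
          exact mem_union_right _ (mem_image.2 ⟨b, mem_univ _, by rw [hb.2.1]⟩)
      have h2 := (card_le_card h1).trans ((card_union_le _ _).trans
        (Nat.add_le_add card_image_le card_image_le))
      rw [card_univ, Fintype.card_fin] at h2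
      have h3 : ((univ.filter fun q : τ ⊕ V => (B' q z).Nonempty).card : ℝ) ≤
          ((univ.filter fun q : τ => (B q z).Nonempty).card : ℝ) + P := by
        exact_mod_cast h2
      have h4 : (P : ℝ) ≤ 2 * d := by exact_mod_cast hP
      have h5 : (d : ℝ) ^ A ≤ (d : ℝ) ^ (max A 1) :=
        Real.rpow_le_rpow_of_exponent_le (by linarith) (le_max_left _ _)
      have h6 : (d : ℝ) ≤ (d : ℝ) ^ (max A 1) := by
        calc (d : ℝ) = (d : ℝ) ^ (1 : ℝ) := (Real.rpow_one _).symm
          _ ≤ _ := Real.rpow_le_rpow_of_exponent_le (by linarith) (le_max_right _ _)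
      have h7 : (d : ℝ) ^ (max A 1 + 1) = (d : ℝ) ^ (max A 1) * d := by
        rw [Real.rpow_add hdp, Real.rpow_one]
      rw [h7]
      nlinarith [hS z hz])
  have hfL : ∀ z ∈ R, F (f z) z ∈ U z ∧ f z ∉ Bad z ∧ ∀ w, G.Adj z w → c w ≠ some (f z) :=
    fun z hz => (mem_filter.1 (hf1 z hz)).2
  refine ⟨f, rgF F R f, rgK c R f, rg_out H f (fun z hz => (hfL z hz).1)
    (fun z hz => (hfL z hz).2.1) hf2 GC (fun z hz => (hfL z hz).2.2) ?_, fun q => hf3 (Sum.inl q)⟩
  intro y
  have h1 := hf3 (Sum.inr y)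
  simp only [Sum.elim_inr] at h1
  refine le_trans ?_ h1
  have h2 : (R.filter fun z => F (f z) z = y) ⊆ R.filter fun z => f z ∈ B' (Sum.inr y) z := by
    intro z hz
    rw [mem_filter] at hz ⊢
    exact ⟨hz.1, mem_filter.2 ⟨mem_univ _, hz.2, (hfL z hz.1).1⟩⟩
  exact_mod_cast card_le_card h2

end Pool.Agent.Work.MP_db9399_iv_helper38
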