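import Pool.Agent.Work.MP_db9399_iv_helper38.RLC2

/-!
# MP_db9399, all scales: random choice from lists, weighted tests (helper38)

As RLC2; a test is a weight `w q z y : ℕ`, at most `W q`. The total weight of the choice is at most
`54 / d` times the sum of all weights plus `108 * W q * log² d`.
-/

set_option autoImplicit false

namespace Pool.Agent.Work.MP_db9399_iv_helper38

open Finset Classical
open Pool.Agent.Work.MP_db9399_all (nb)

universe u

theorem pow2_sum (n : ℕ) : ∑ l ∈ range n, (2 : ℝ) ^ (l + 1) ≤ 2 * 2 ^ n := by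
  induction n with
  | zero => simp
  | succ n ih =>
    rw [sum_range_succ]
    calc _ ≤ 2 * 2 ^ n + (2 : ℝ) ^ (n + 1) := by linarith
      _ = 2 * 2 ^ (n + 1) := by ring

theorem rlc3 (A : ℝ) : ∃ d0 : ℕ, ∀ {V τ κ : Type u} {β γ : Type u} [Fintype V] [Fintype τ]
    [Fintype κ] (_ : Nonempty β) (d : ℕ) (R : Finset V)
    (Cf : κ → SimpleGraph V) (g : κ → V → β → γ) (L : V → Finset β) (w : τ → V → β → ℕ)
    (W : τ → ℕ), d0 ≤ d → (∀ z ∈ R, (d : ℝ) / 2 ≤ ((L z).card : ℝ)) →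
    (∀ k, ∀ z ∈ R, Set.InjOn (g k z) (L z : Set β)) →
    (∀ z ∈ R, ∑ k, ((nb (Cf k) z ∩ R).card : ℝ) ≤ d / 48) →
    (∀ q, ∀ z ∈ R, ∀ y ∈ L z, w q z y ≤ W q) → (∀ q, W q ≤ d ^ 2) →
    (∀ z ∈ R, ((univ.filter fun q => ∃ y ∈ L z, w q z y ≠ 0).card : ℝ) ≤ (d : ℝ) ^ A) →
    ∃ f : V → β, (∀ z ∈ R, f z ∈ L z) ∧
      (∀ k, ∀ z ∈ R, ∀ z' ∈ R, (Cf k).Adj z z' → g k z (f z) ≠ g k z' (f z')) ∧
      ∀ q, ∑ z ∈ R, (w q z (f z) : ℝ) ≤ 54 / d * (∑ z ∈ R, ∑ y ∈ L z, (w q z y : ℝ)) +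
        108 * W q * (Real.log d) ^ 2 := by
  obtain ⟨d1, hd1⟩ := rlc2.{u} (A + 3)
  refine ⟨max d1 2, ?_⟩
  intro V τ κ β γ _ _ _ hβ d R Cf g L w W hd hL hg hC hw hW hS
  have hd2 : 2 ≤ d := (le_max_right _ _).trans hd
  have hd2' : (2 : ℝ) ≤ d := by exact_mod_cast hd2
  have hdp : (0 : ℝ) < d := by linarith
  -- levels
  set B : τ × ULift.{u} (Fin (d ^ 2 + 1)) → V → Finset β := fun p z =>
    (L z).filter fun y => w p.1 z y ≠ 0 ∧ Nat.log 2 (w p.1 z y) = (p.2.down : ℕ) with hB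
  set nl : τ × ULift.{u} (Fin (d ^ 2 + 1)) → ℝ := fun p => ∑ z ∈ R, ((B p z).card : ℝ) with hnl
  obtain ⟨f, hf1, hf2, hf3⟩ := hd1 hβ d R Cf g L B (fun p => max ((Real.log d) ^ 2) (nl p / d))
    ((le_max_left _ _).trans hd) hL hg hC (fun p => le_max_left _ _) (by
      intro p
      have h1 : ∑ z ∈ R, ((B p z ∩ L z).card : ℝ) ≤ nl p :=
        sum_le_sum fun z _ => by exact_mod_cast card_le_card inter_subset_left
      refine h1.trans ?_
      have h2 : nl p / d ≤ max ((Real.log d) ^ 2) (nl p / d) := le_max_right _ _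
      have h3 := mul_le_mul_of_nonneg_right h2 hdp.le
      rwa [div_mul_cancel₀ _ hdp.ne'] at h3) (by
      intro z hz
      have h1 : (univ.filter fun p : τ × ULift.{u} (Fin (d ^ 2 + 1)) => (B p z).Nonempty) ⊆
          (univ.filter fun q => ∃ y ∈ L z, w q z y ≠ 0) ×ˢ univ := by
        rintro ⟨q, l⟩ hp
        rw [mem_filter] at hp
        obtain ⟨y, hy⟩ := hp.2
        have h2 := mem_filter.1 hy
        exact mem_product.2 ⟨mem_filter.2 ⟨mem_univ _, y, h2.1, h2.2.1⟩, mem_univ _⟩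
      have h2 := card_le_card h1
      rw [card_product, card_univ, Fintype.card_ulift, Fintype.card_fin] at h2
      have h3 : ((univ.filter fun p : τ × ULift.{u} (Fin (d ^ 2 + 1)) =>
          (B p z).Nonempty).card : ℝ) ≤
          ((univ.filter fun q => ∃ y ∈ L z, w q z y ≠ 0).card : ℝ) * ((d : ℝ) ^ 2 + 1) := by
        exact_mod_cast h2
      have h4 : (d : ℝ) ^ (A + 3) = (d : ℝ) ^ A * (d : ℝ) ^ 3 := by
        rw [Real.rpow_add hdp]
        congr 1
        exact_mod_cast Real.rpow_natCast (d : ℝ) 3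
      rw [h4]
      refine h3.trans (mul_le_mul (hS z hz) ?_ (by positivity) (Real.rpow_nonneg hdp.le _))
      nlinarith [sq_nonneg ((d : ℝ) - 1)])
  refine ⟨f, hf1, hf2, fun q => ?_⟩
  set Lq : ℕ := Nat.log 2 (W q) + 1 with hLq
  have hLd : Lq ≤ d ^ 2 + 1 := by
    have h1 : Nat.log 2 (W q) ≤ W q := Nat.log_le_self 2 (W q)
    have := hW q
    omega
  have hlog0 : 0 ≤ (Real.log d) ^ 2 := sq_nonneg _
  -- the sum by levels
  have e1 : ∑ z ∈ R, (w q z (f z) : ℝ) ≤ ∑ l ∈ range Lq,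
      (2 : ℝ) ^ (l + 1) * ((R.filter fun z => w q z (f z) ≠ 0 ∧
        Nat.log 2 (w q z (f z)) = l).card : ℝ) := by
    have h1 : ∑ z ∈ R, (w q z (f z) : ℝ) = ∑ z ∈ R.filter (fun z => w q z (f z) ≠ 0),
        (w q z (f z) : ℝ) := by
      rw [sum_filter]
      refine sum_congr rfl fun z _ => ?_
      split_ifs with h
      · rfl
      · rw [not_ne_iff.1 h, Nat.cast_zero]
    rw [h1, ← sum_fiberwise_of_maps_to (s := R.filter (fun z => w q z (f z) ≠ 0)) (t := range Lq)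
      (g := fun z => Nat.log 2 (w q z (f z))) (fun z hz => by
        rw [mem_range, hLq]
        have h2 := mem_filter.1 hz
        exact Nat.lt_succ_of_le (Nat.log_mono_right (hw q z h2.1 (f z) (hf1 z h2.1))))]
    refine sum_le_sum fun l _ => ?_
    have h2 : (R.filter (fun z => w q z (f z) ≠ 0)).filter
        (fun z => Nat.log 2 (w q z (f z)) = l) = R.filter fun z => w q z (f z) ≠ 0 ∧
        Nat.log 2 (w q z (f z)) = l := filter_filter _ _ _
    rw [h2]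
    calc ∑ z ∈ R.filter (fun z => w q z (f z) ≠ 0 ∧ Nat.log 2 (w q z (f z)) = l),
          (w q z (f z) : ℝ) ≤ ∑ _z ∈ R.filter (fun z => w q z (f z) ≠ 0 ∧
          Nat.log 2 (w q z (f z)) = l), (2 : ℝ) ^ (l + 1) := by
          refine sum_le_sum fun z hz => ?_
          have h3 := (mem_filter.1 hz).2.2
          have h4 : w q z (f z) < 2 ^ (Nat.log 2 (w q z (f z))).succ :=
            Nat.lt_pow_succ_log_self (by norm_num) _
          rw [h3] at h4
          exact_mod_cast h4.le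
      _ = _ := by
          rw [sum_const, nsmul_eq_mul, mul_comm]
  have e2 : ∀ l ∈ range Lq, ((R.filter fun z => w q z (f z) ≠ 0 ∧
      Nat.log 2 (w q z (f z)) = l).card : ℝ) ≤ 27 * (Real.log d) ^ 2 +
      27 / d * ∑ z ∈ R, (((L z).filter fun y => w q z y ≠ 0 ∧ Nat.log 2 (w q z y) = l).card : ℝ) := by
    intro l hl
    have hl' : l < d ^ 2 + 1 := (mem_range.1 hl).trans_le hLd
    have h1 := hf3 (q, ⟨⟨l, hl'⟩⟩)
    have h2 : (R.filter fun z => w q z (f z) ≠ 0 ∧ Nat.log 2 (w q z (f z)) = l) ⊆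
        R.filter fun z => f z ∈ B (q, ⟨⟨l, hl'⟩⟩) z := by
      intro z hz
      rw [mem_filter] at hz ⊢
      exact ⟨hz.1, mem_filter.2 ⟨hf1 z hz.1, hz.2⟩⟩
    refine (Nat.cast_le.2 (card_le_card h2)).trans (h1.trans ?_)
    have h3 : max ((Real.log d) ^ 2) (nl (q, ⟨⟨l, hl'⟩⟩) / d) ≤
        (Real.log d) ^ 2 + nl (q, ⟨⟨l, hl'⟩⟩) / d := by
      have h4 : 0 ≤ nl (q, ⟨⟨l, hl'⟩⟩) / d :=
        div_nonneg (sum_nonneg fun _ _ => Nat.cast_nonneg _) hdp.le
      exact max_le (by linarith) (by linarith)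
    have h4 : 27 / (d : ℝ) * ∑ z ∈ R, (((L z).filter fun y => w q z y ≠ 0 ∧
        Nat.log 2 (w q z y) = l).card : ℝ) = 27 * (nl (q, ⟨⟨l, hl'⟩⟩) / d) := by
      simp only [hnl, hB]
      ring
    rw [h4]
    linarith
  -- the weights by levels
  have e3 : ∑ l ∈ range Lq, (2 : ℝ) ^ l * ∑ z ∈ R, (((L z).filter fun y => w q z y ≠ 0 ∧
      Nat.log 2 (w q z y) = l).card : ℝ) ≤ ∑ z ∈ R, ∑ y ∈ L z, (w q z y : ℝ) := by
    have h1 : ∀ l ∈ range Lq, (2 : ℝ) ^ l * ∑ z ∈ R, (((L z).filter fun y => w q z y ≠ 0 ∧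
        Nat.log 2 (w q z y) = l).card : ℝ) = ∑ z ∈ R, (2 : ℝ) ^ l *
        (((L z).filter fun y => w q z y ≠ 0 ∧ Nat.log 2 (w q z y) = l).card : ℝ) :=
      fun l _ => mul_sum _ _ _
    rw [sum_congr rfl h1, sum_comm]
    refine sum_le_sum fun z _ => ?_
    have h2 : ∀ l ∈ range Lq, (2 : ℝ) ^ l *
        (((L z).filter fun y => w q z y ≠ 0 ∧ Nat.log 2 (w q z y) = l).card : ℝ) ≤
        ∑ y ∈ ((L z).filter fun y => w q z y ≠ 0).filter (fun y => Nat.log 2 (w q z y) = l),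
          (w q z y : ℝ) := by
      intro l _
      rw [filter_filter]
      calc (2 : ℝ) ^ l * (((L z).filter fun y => w q z y ≠ 0 ∧ Nat.log 2 (w q z y) = l).card : ℝ)
          = ∑ _y ∈ (L z).filter (fun y => w q z y ≠ 0 ∧ Nat.log 2 (w q z y) = l), (2 : ℝ) ^ l := by
            rw [sum_const, nsmul_eq_mul, mul_comm]
        _ ≤ _ := by
            refine sum_le_sum fun y hy => ?_
            have h3 := (mem_filter.1 hy).2
            have h4 : 2 ^ Nat.log 2 (w q z y) ≤ w q z y := Nat.pow_log_le_self 2 h3.1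
            rw [h3.2] at h4
            exact_mod_cast h4
    refine (sum_le_sum h2).trans ?_
    have h5 : ∑ l ∈ range Lq, ∑ y ∈ ((L z).filter fun y => w q z y ≠ 0).filter
        (fun y => Nat.log 2 (w q z y) = l), (w q z y : ℝ) ≤
        ∑ y ∈ (L z).filter (fun y => w q z y ≠ 0), (w q z y : ℝ) := by
      rw [← sum_biUnion]
      · refine sum_le_sum_of_subset_of_nonneg ?_ fun _ _ _ => Nat.cast_nonneg _
        intro y hy
        obtain ⟨l, _, hl⟩ := mem_biUnion.1 hy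
        exact (mem_filter.1 hl).1
      · intro l _ l' _ hne
        rw [Function.onFun, Finset.disjoint_left]
        intro y hy hy'
        exact hne ((mem_filter.1 hy).2.symm.trans (mem_filter.1 hy').2)
    exact h5.trans (sum_le_sum_of_subset_of_nonneg (filter_subset _ _)
      fun _ _ _ => Nat.cast_nonneg _)
  rcases Nat.eq_zero_or_pos (W q) with hW0 | hW0
  · -- no weight
    have h1 : ∑ z ∈ R, (w q z (f z) : ℝ) = 0 := by
      refine sum_eq_zero fun z hz => ?_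
      have := hw q z hz (f z) (hf1 z hz)
      rw [hW0] at this
      rw [Nat.le_zero.1 this, Nat.cast_zero]
    rw [h1]
    have h2 : (0 : ℝ) ≤ ∑ z ∈ R, ∑ y ∈ L z, (w q z y : ℝ) :=
      sum_nonneg fun _ _ => sum_nonneg fun _ _ => Nat.cast_nonneg _
    positivity
  · have h1 : (2 : ℝ) ^ Lq ≤ 2 * W q := by
      have h2 : 2 ^ Nat.log 2 (W q) ≤ W q := Nat.pow_log_le_self 2 hW0.ne'
      have h3 : 2 ^ Lq ≤ 2 * W q := by
        rw [hLq, pow_succ]
        omega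
      exact_mod_cast h3
    calc ∑ z ∈ R, (w q z (f z) : ℝ)
        ≤ ∑ l ∈ range Lq, (2 : ℝ) ^ (l + 1) * (27 * (Real.log d) ^ 2 +
          27 / d * ∑ z ∈ R, (((L z).filter fun y => w q z y ≠ 0 ∧
            Nat.log 2 (w q z y) = l).card : ℝ)) :=
          e1.trans (sum_le_sum fun l hl => mul_le_mul_of_nonneg_left (e2 l hl) (by positivity))
      _ = 27 * (Real.log d) ^ 2 * ∑ l ∈ range Lq, (2 : ℝ) ^ (l + 1) +
          54 / d * ∑ l ∈ range Lq, (2 : ℝ) ^ l * ∑ z ∈ R, (((L z).filter fun y => w q z y ≠ 0 ∧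
            Nat.log 2 (w q z y) = l).card : ℝ) := by
          rw [mul_sum, mul_sum, ← sum_add_distrib]
          refine sum_congr rfl fun l _ => ?_
          ring
      _ ≤ 27 * (Real.log d) ^ 2 * (2 * (2 * W q)) +
          54 / d * ∑ z ∈ R, ∑ y ∈ L z, (w q z y : ℝ) := by
          refine add_le_add (mul_le_mul_of_nonneg_left ?_ (by positivity))
            (mul_le_mul_of_nonneg_left e3 (by positivity))
          exact (pow2_sum Lq).trans (mul_le_mul_of_nonneg_left h1 (by norm_num))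
      _ = _ := by ring

/-- The same for lists with at least `9 d / 50` elements. -/
theorem rlc4 (A : ℝ) : ∃ d0 : ℕ, ∀ {V τ κ : Type u} {β γ : Type u} [Fintype V] [Fintype τ]
    [Fintype κ] (_ : Nonempty β) (d : ℕ) (R : Finset V)
    (Cf : κ → SimpleGraph V) (g : κ → V → β → γ) (L : V → Finset β) (w : τ → V → β → ℕ)
    (W : τ → ℕ), d0 ≤ d → (∀ z ∈ R, 9 / 50 * (d : ℝ) ≤ ((L z).card : ℝ)) →
    (∀ k, ∀ z ∈ R, Set.InjOn (g k z) (L z : Set β)) →
    (∀ z ∈ R, ∑ k, ((nb (Cf k) z ∩ R).card : ℝ) ≤ 7 / 1000 * d) →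
    (∀ q, ∀ z ∈ R, ∀ y ∈ L z, w q z y ≤ W q) → (∀ q, (W q : ℝ) ≤ (d : ℝ) ^ 2 / 10) →
    (∀ z ∈ R, ((univ.filter fun q => ∃ y ∈ L z, w q z y ≠ 0).card : ℝ) ≤ (d : ℝ) ^ A) →
    ∃ f : V → β, (∀ z ∈ R, f z ∈ L z) ∧
      (∀ k, ∀ z ∈ R, ∀ z' ∈ R, (Cf k).Adj z z' → g k z (f z) ≠ g k z' (f z')) ∧
      ∀ q, ∑ z ∈ R, (w q z (f z) : ℝ) ≤ 160 / d * (∑ z ∈ R, ∑ y ∈ L z, (w q z y : ℝ)) +
        108 * W q * (Real.log d) ^ 2 := by
  obtain ⟨d1, hd1⟩ := rlc3.{u} (2 * |A|)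
  refine ⟨max (4 * d1) 1000, ?_⟩
  intro V τ κ β γ _ _ _ hβ d R Cf g L w W hd hL hg hC hw hW hS
  have hd4 : 4 * d1 ≤ d := (le_max_left _ _).trans hd
  have hd3 : 1000 ≤ d := (le_max_right _ _).trans hd
  have hd3' : (1000 : ℝ) ≤ d := by exact_mod_cast hd3
  set e : ℕ := 9 * d / 25 with he
  have he1 : e * 25 ≤ 9 * d := Nat.div_mul_le_self _ _
  have he2 : 9 * d < e * 25 + 25 := by omega
  have he1' : (e : ℝ) * 25 ≤ 9 * d := by exact_mod_cast he1
  have he2' : 9 * (d : ℝ) < e * 25 + 25 := by exact_mod_cast he2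
  have hed : d1 ≤ e := by omega
  have hep : (0 : ℝ) < e := by linarith
  have hdp : (0 : ℝ) < d := by linarith
  have he3 : (359 : ℝ) / 1000 * d ≤ e := by linarith
  obtain ⟨f, h1, h2, h3⟩ := hd1 hβ e R Cf g L w W hed
    (fun z hz => le_trans (by linarith) (hL z hz)) hg
    (fun z hz => (hC z hz).trans (by linarith)) hw (fun q => by
      have h4 : (W q : ℝ) ≤ (e : ℝ) ^ 2 := by
        refine (hW q).trans ?_
        nlinarith
      exact_mod_cast h4) (fun z hz => by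
      refine (hS z hz).trans ?_
      have h4 : (d : ℝ) ≤ (e : ℝ) ^ (2 : ℝ) := by
        rw [Real.rpow_two]
        nlinarith
      calc (d : ℝ) ^ A ≤ (d : ℝ) ^ |A| :=
            Real.rpow_le_rpow_of_exponent_le (by linarith) (le_abs_self A)
        _ ≤ ((e : ℝ) ^ (2 : ℝ)) ^ |A| := Real.rpow_le_rpow hdp.le h4 (abs_nonneg A)
        _ = (e : ℝ) ^ (2 * |A|) := by rw [← Real.rpow_mul hep.le])
  refine ⟨f, h1, h2, fun q => (h3 q).trans ?_⟩
  have h4 : 54 / (e : ℝ) ≤ 160 / d := by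
    rw [div_le_div_iff₀ hep hdp]
    linarith
  have h5 : 0 ≤ Real.log e := Real.log_nonneg (by linarith)
  have h6 : Real.log e ≤ Real.log d := Real.log_le_log hep (by linarith)
  have h7 : (Real.log e) ^ 2 ≤ (Real.log d) ^ 2 := pow_le_pow_left₀ h5 h6 2
  have h8 : (0 : ℝ) ≤ ∑ z ∈ R, ∑ y ∈ L z, (w q z y : ℝ) :=
    sum_nonneg fun _ _ => sum_nonneg fun _ _ => Nat.cast_nonneg _
  exact add_le_add (mul_le_mul_of_nonneg_right h4 h8)
    (mul_le_mul_of_nonneg_left h7 (by positivity))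

end Pool.Agent.Work.MP_db9399_iv_helper38
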