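import Pool.Agent.Work.MP_db9399_iv_helper38.RXM
import Pool.Agent.Work.MP_db9399_iv_helper38.RLC3

/-!
# MP_db9399, all scales, block RGX: the choice (helper38)

`stmt_CHO : Stmt_K0 → Stmt_LST → Stmt_TST → Stmt_CHO`.
-/

set_option autoImplicit false

namespace Pool.Agent.Work.MP_db9399_iv_helper38

open Finset Classical
open Pool.Agent.Work.MP_db9399_all (nb)
open Pool.Agent.Work.MP_db9399_da (Pcs Ty pV sV Ts sdn ptn sgp sg sid need thin)
open Pool.Agent.Work.MP_db9399_xf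
open Pool.Agent.Work.MP_db9399_rg_helper42 (g6a g6c g6d g7V0)

universe u

theorem ev_pow {s : ℝ} (hs : 0 < s) (K : ℝ) : ∀ᶠ d : ℕ in Filter.atTop, K ≤ (d : ℝ) ^ s := by
  have h1 : Filter.Tendsto (fun d : ℕ => (d : ℝ) ^ s) Filter.atTop Filter.atTop :=
    (tendsto_rpow_atTop hs).comp tendsto_natCast_atTop_atTop
  exact h1.eventually_ge_atTop K

theorem ev_log {s : ℝ} (hs : 0 < s) {K : ℝ} (hK : 0 < K) :
    ∀ᶠ d : ℕ in Filter.atTop, K * (Real.log d) ^ 2 ≤ (d : ℝ) ^ s := by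
  have h1 := (isLittleO_log_rpow_atTop (half_pos hs)).bound (c := (Real.sqrt K)⁻¹)
    (inv_pos.2 (Real.sqrt_pos.2 hK))
  have h2 := tendsto_natCast_atTop_atTop.eventually h1
  filter_upwards [h2, Filter.eventually_ge_atTop 1] with d hd hd1
  have hd1' : (1 : ℝ) ≤ d := by exact_mod_cast hd1
  have h3 : 0 ≤ (d : ℝ) ^ (s / 2) := Real.rpow_nonneg (by linarith) _
  rw [Real.norm_eq_abs, Real.norm_eq_abs, abs_of_nonneg h3,
    abs_of_nonneg (Real.log_nonneg hd1')] at hd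
  have h4 := Real.sqrt_pos.2 hK
  have h5 : Real.sqrt K * Real.log d ≤ (d : ℝ) ^ (s / 2) := by
    have := mul_le_mul_of_nonneg_left hd h4.le
    rwa [← mul_assoc, mul_inv_cancel₀ h4.ne', one_mul] at this
  have h6 : (Real.sqrt K * Real.log d) ^ 2 ≤ ((d : ℝ) ^ (s / 2)) ^ 2 :=
    pow_le_pow_left₀ (mul_nonneg h4.le (Real.log_nonneg hd1')) h5 2
  have h8 : ((d : ℝ) ^ (s / 2)) ^ 2 = (d : ℝ) ^ s := by
    rw [sq, ← Real.rpow_add (by linarith)]
    congr 1
    ring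
  rwa [mul_pow, Real.sq_sqrt hK.le, h8] at h6

section
variable {V : Type u} [Fintype V] {N J : ℕ} {πk C g z τ e : ℝ} {M : ℕ} {S : Fin J → Scl}
  {c' θk θ' η u : ℝ} {G : SimpleGraph V} {d : ℕ} {X : XD V N J} {A : PalX} {t : V → V → ℕ}
  {c m m2 : V → ℕ} {pr f : V → V} {x : ℕ}

theorem CgR_symm {τ : ℝ} {w w' : V} (h : CgR τ x S G d X w w') : CgR τ x S G d X w' w := by
  rcases h with h | ⟨n, h1, h2, h3⟩ | ⟨n, h1, h2, h3⟩ | ⟨v, h1, h2, h3⟩ | ⟨n, h1, h2, h3⟩
  · exact Or.inl h.symm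
  · exact Or.inr (Or.inl ⟨n, h1, h3, h2⟩)
  · exact Or.inr (Or.inr (Or.inl ⟨n, h1, h3, h2⟩))
  · exact Or.inr (Or.inr (Or.inr (Or.inl ⟨v, h1, h3, h2⟩)))
  · exact Or.inr (Or.inr (Or.inr (Or.inr ⟨n, fun v hv => (h1 v hv).symm, h3, h2⟩)))

/-- conflicts of the own colours -/
def Cf0 (τ : ℝ) (x : ℕ) (S : Fin J → Scl) (G : SimpleGraph V) (d : ℕ) (X : XD V N J) :
    SimpleGraph V where
  Adj w w' := w ≠ w' ∧ CgR τ x S G d X w w'
  symm := ⟨fun _ _ h => ⟨h.1.symm, CgR_symm h.2⟩⟩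
  loopless := ⟨fun _ h => h.1 rfl⟩

/-- conflicts of the endpoints of the own edges -/
def Cf1 (G : SimpleGraph V) (d : ℕ) (X : XD V N J) (m m2 : V → ℕ) (pr : V → V) :
    SimpleGraph V where
  Adj w w' := w ≠ w' ∧ (∃ n β, Cvr G X d n β w ∧ Cvr G X d n β w') ∧
    mo X m m2 pr w = mo X m m2 pr w'
  symm := ⟨fun _ _ h => ⟨h.1.symm, by
    obtain ⟨n, β, h1, h2⟩ := h.2.1
    exact ⟨n, β, h2, h1⟩, h.2.2.symm⟩⟩
  loopless := ⟨fun _ h => h.1 rfl⟩

def Op (G : SimpleGraph V) (d : ℕ) (X : XD V N J) (m m2 : V → ℕ) (pr : V → V) (w w' : V) : Prop :=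
  ∃ n, X.P.rg w = some (n, false) ∧ Cvr G X d n true w' ∧ mo X m m2 pr w' = m (pr w)

def PP (X : XD V N J) (m : V → ℕ) (pr : V → V) (w w' : V) : Prop :=
  ∃ n, X.P.rg w = some (n, false) ∧ X.P.rg w' = some (n, false) ∧ m (pr w) = m (pr w')

/-- conflicts of the endpoints of the second edges -/
def Cf2 (G : SimpleGraph V) (d : ℕ) (X : XD V N J) (m m2 : V → ℕ) (pr : V → V) :
    SimpleGraph V where
  Adj w w' := w ≠ w' ∧ (Op G d X m m2 pr w w' ∨ Op G d X m m2 pr w' w ∨ PP X m pr w w')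
  symm := ⟨fun _ _ h => ⟨h.1.symm, by
    rcases h.2 with h1 | h1 | ⟨n, h1, h2, h3⟩
    · exact Or.inr (Or.inl h1)
    · exact Or.inl h1
    · exact Or.inr (Or.inr ⟨n, h2, h1, h3.symm⟩)⟩⟩
  loopless := ⟨fun _ h => h.1 rfl⟩

/-- the partners which cover the piece `n` -/
theorem pt_card (K : Ctx πk C g z τ e M S c' θk θ' η G d X A t c m m2 pr)
    (hS : ∀ s, Sml πk τ (S s)) (hd : 1 ≤ d) (n : Fin N) (hB : X.P.ty n = Ty.B) :
    ((univ.filter fun a => (∃ γ, Cvr G X d n γ a) ∧ PT X pr a).card : ℝ) ≤ (d : ℝ) ^ (-c') * d := by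
  refine le_trans ?_ (K.pc.rgc n hB)
  have h1 : (univ.filter fun a => (∃ γ, Cvr G X d n γ a) ∧ PT X pr a) ⊆
      (univ.filter fun w => X.P.rg w = some (n, false)).image pr := by
    intro a ha
    obtain ⟨⟨γ, h2⟩, w, n', h3, h4⟩ := (mem_filter.1 ha).2
    have h5 := rg_cvr K hS hd (K.aux.prr w n' h3)
    rw [h4] at h5
    obtain ⟨rfl, _⟩ := cvr_uniq K hS hd h2 h5
    exact mem_image.2 ⟨w, mem_filter.2 ⟨mem_univ _, h3⟩, h4⟩
  exact_mod_cast (card_le_card h1).trans card_image_le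

/-- vertices with a given missing colour -/
theorem mo_card (K : Ctx πk C g z τ e M S c' θk θ' η G d X A t c m m2 pr)
    (hS : ∀ s, Sml πk τ (S s)) (hd : 1 ≤ d) (n : Fin N) (hB : X.P.ty n = Ty.B) (β : Bool) (b : ℕ) :
    ((univ.filter fun a => Cvr G X d n β a ∧ mo X m m2 pr a = b).card : ℝ) ≤
      (d : ℝ) ^ (1 / 200 : ℝ) + (d : ℝ) ^ (-c') * d := by
  have h1 := K.pre.ms n β b
  have h2 := pt_card K hS hd n hB
  have h3 : (univ.filter fun a => Cvr G X d n β a ∧ mo X m m2 pr a = b) ⊆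
      (univ.filter fun a => Cvr G X d n β a ∧ m a = b) ∪
      (univ.filter fun a => (∃ γ, Cvr G X d n γ a) ∧ PT X pr a) := by
    intro a ha
    obtain ⟨h4, h5⟩ := (mem_filter.1 ha).2
    by_cases hp : PT X pr a
    · exact mem_union_right _ (mem_filter.2 ⟨mem_univ _, ⟨β, h4⟩, hp⟩)
    · refine mem_union_left _ (mem_filter.2 ⟨mem_univ _, h4, ?_⟩)
      unfold mo at h5
      rwa [if_neg hp] at h5
  have h4 := (card_le_card h3).trans (card_union_le _ _)
  have h5 : ((univ.filter fun a => Cvr G X d n β a ∧ mo X m m2 pr a = b).card : ℝ) ≤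
      ((univ.filter fun a => Cvr G X d n β a ∧ m a = b).card : ℝ) +
      (univ.filter fun a => (∃ γ, Cvr G X d n γ a) ∧ PT X pr a).card := by exact_mod_cast h4
  linarith

theorem cf1_card (K : Ctx πk C g z τ e M S c' θk θ' η G d X A t c m m2 pr)
    (hS : ∀ s, Sml πk τ (S s)) (hd : 1 ≤ d) {w : V} {n : Fin N} {β : Bool}
    (hw : Cvr G X d n β w) :
    ((nb (Cf1 G d X m m2 pr) w).card : ℝ) ≤ (d : ℝ) ^ (1 / 200 : ℝ) + (d : ℝ) ^ (-c') * d := by
  refine le_trans ?_ (mo_card K hS hd n hw.2.1 β (mo X m m2 pr w))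
  have h1 : nb (Cf1 G d X m m2 pr) w ⊆
      univ.filter fun a => Cvr G X d n β a ∧ mo X m m2 pr a = mo X m m2 pr w := by
    intro a ha
    obtain ⟨_, ⟨n', β', h2, h3⟩, h4⟩ := mem_nb.1 ha
    obtain ⟨rfl, rfl⟩ := cvr_uniq K hS hd hw h2
    exact mem_filter.2 ⟨mem_univ _, h3, h4.symm⟩
  exact_mod_cast card_le_card h1

theorem cf2_card (K : Ctx πk C g z τ e M S c' θk θ' η G d X A t c m m2 pr)
    (hS : ∀ s, Sml πk τ (S s)) (hd : 1 ≤ d) {w : V} {n : Fin N} {β : Bool}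
    (hw : Cvr G X d n β w) :
    ((nb (Cf2 G d X m m2 pr) w).card : ℝ) ≤
      (d : ℝ) ^ (1 / 200 : ℝ) + 2 * ((d : ℝ) ^ (-c') * d) := by
  have h1 := mo_card K hS hd n hw.2.1 true (m (pr w))
  have h2 := K.pc.rgc n hw.2.1
  have h3 : nb (Cf2 G d X m m2 pr) w ⊆
      (univ.filter fun a => Cvr G X d n true a ∧ mo X m m2 pr a = m (pr w)) ∪
      (univ.filter fun a => X.P.rg a = some (n, false)) := by
    intro a ha
    obtain ⟨_, h4⟩ := mem_nb.1 ha
    rcases h4 with ⟨n', h5, h6, h7⟩ | ⟨n', h5, h6, h7⟩ | ⟨n', h5, h6, h7⟩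
    · obtain ⟨rfl, _⟩ := cvr_uniq K hS hd hw (rg_cvr K hS hd h5)
      exact mem_union_left _ (mem_filter.2 ⟨mem_univ _, h6, h7⟩)
    · obtain ⟨rfl, _⟩ := cvr_uniq K hS hd hw h6
      exact mem_union_right _ (mem_filter.2 ⟨mem_univ _, h5⟩)
    · obtain ⟨rfl, _⟩ := cvr_uniq K hS hd hw (rg_cvr K hS hd h5)
      exact mem_union_right _ (mem_filter.2 ⟨mem_univ _, h6⟩)
  have h4 := (card_le_card h3).trans (card_union_le _ _)
  have h5 : ((nb (Cf2 G d X m m2 pr) w).card : ℝ) ≤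
      ((univ.filter fun a => Cvr G X d n true a ∧ mo X m m2 pr a = m (pr w)).card : ℝ) +
      (univ.filter fun a => X.P.rg a = some (n, false)).card := by exact_mod_cast h4
  linarith

/-- the values of the three kinds -/
noncomputable def gv (G : SimpleGraph V) (X : XD V N J) (t : V → V → ℕ) (pr : V → V)
    (k : ULift.{u} (Fin 3)) (w y : V) : ULift.{u} ℕ ⊕ V :=
  if k.down = 0 then Sum.inl ⟨t w y⟩ else if k.down = 1 then Sum.inr y else
    if ∃ n, X.P.rg w = some (n, false) then Sum.inr (nbc G t (pr w) (t w y)) else Sum.inr y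

/-- the conflict graphs of the three kinds -/
noncomputable def Cfk (τ : ℝ) (x : ℕ) (S : Fin J → Scl) (G : SimpleGraph V) (d : ℕ)
    (X : XD V N J) (m m2 : V → ℕ) (pr : V → V) (k : ULift.{u} (Fin 3)) : SimpleGraph V :=
  if k.down = 0 then Cf0 τ x S G d X else if k.down = 1 then Cf1 G d X m m2 pr else
    Cf2 G d X m m2 pr

theorem nT_large (K : Ctx πk C g z τ e M S c' θk θ' η G d X A t c m m2 pr) {b : ℕ}
    (hb : d + 2 ≤ b) (q q' : Finset V) (D : Finset ℕ) :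
    nT G X t b q q' D = nT G X t (d + 2) q q' D := by
  have h1 : ∀ b, d + 2 ≤ b → ∀ v, b ∉ Ft (xt G X) t v := by
    intro b hb v h
    obtain ⟨w, hw, h2⟩ := mem_Ft.1 h
    have := K.pre.lt v w hw
    omega
  unfold nT
  congr 1
  refine filter_congr fun p _ => ?_
  have h2 := h1 b hb p.1
  have h3 := h1 b hb p.2
  have h4 := h1 (d + 2) le_rfl p.1
  have h5 := h1 (d + 2) le_rfl p.2
  tauto

end

theorem stmt_CHO (hK : Stmt_K0.{u}) (hL : Stmt_LST.{u}) (hT : Stmt_TST.{u}) : Stmt_CHO.{u} := by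
  intro πk C g z τ e M J S c' u hC hu
  obtain ⟨d1, hd1⟩ := hK πk C g z τ e M J S c' hC
  obtain ⟨d2, hd2⟩ := hL πk C g z τ e M J S c' hC
  obtain ⟨d3, hd3⟩ := hT πk C g z τ e M J S c' hC
  obtain ⟨d4, hd4⟩ := rlc4.{u} 3
  have hS : ∀ s, Sml πk τ (S s) := hC.2.2.2.2.2.2.2.2.2.2
  have hc' : 0 < c' := hC.2.2.2.2.2.2.2.2.2.1
  have hC1 : 1 ≤ C := hC.2.2.1
  have hev : ∀ᶠ d : ℕ in Filter.atTop, (10000 : ℝ) ≤ (d : ℝ) ^ (199 / 200 : ℝ) ∧
      (10000 : ℝ) ≤ (d : ℝ) ^ c' ∧ 640 / u ≤ (d : ℝ) ^ c' ∧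
      432 / u * (Real.log d) ^ 2 ≤ (d : ℝ) ^ (c' / 4) ∧
      432 / u * (Real.log d) ^ 2 ≤ (d : ℝ) ^ (1 : ℝ) ∧
      432 * (C + 1) * (Real.log d) ^ 2 ≤ (d : ℝ) ^ (19 / 20 : ℝ) ∧
      (100 * (C + 1) ≤ (d : ℝ) ^ (1 : ℝ)) := by
    refine (ev_pow (by norm_num) _).and ((ev_pow hc' _).and ((ev_pow hc' _).and
      ((ev_log (by positivity) (by positivity)).and ((ev_log (by norm_num) (by positivity)).and
      ((ev_log (by norm_num) (by positivity)).and (ev_pow (by norm_num) _))))))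
  obtain ⟨d5, hd5⟩ := Filter.eventually_atTop.1 hev
  refine ⟨max (max d1 d2) (max (max d3 d4) (max d5 1)), ?_⟩
  intro V _ N G d X A t c m m2 pr θk θ' η hd K
  have a1 : d1 ≤ d := (le_max_left _ _).trans ((le_max_left _ _).trans hd)
  have a2 : d2 ≤ d := (le_max_right _ _).trans ((le_max_left _ _).trans hd)
  have a3 : d3 ≤ d := (le_max_left _ _).trans ((le_max_left _ _).trans ((le_max_right _ _).trans hd))
  have a4 : d4 ≤ d := (le_max_right _ _).trans ((le_max_left _ _).trans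
    ((le_max_right _ _).trans hd))
  have a5 : d5 ≤ d := (le_max_left _ _).trans ((le_max_right _ _).trans
    ((le_max_right _ _).trans hd))
  have a6 : 1 ≤ d := (le_max_right _ _).trans ((le_max_right _ _).trans
    ((le_max_right _ _).trans hd))
  obtain ⟨n1, n2, n3, n4, n5, n6, n7⟩ := hd5 d a5
  rw [Real.rpow_one] at n5 n7
  have hdr : (1 : ℝ) ≤ d := by exact_mod_cast a6
  have hdp : (0 : ℝ) < d := by linarith
  have hl0 : 0 ≤ (Real.log d) ^ 2 := sq_nonneg _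
  -- numbers
  have e1 : (d : ℝ) ^ (1 / 200 : ℝ) ≤ d / 10000 := by
    have h1 : (d : ℝ) ^ (1 / 200 : ℝ) * (d : ℝ) ^ (199 / 200 : ℝ) = d := by
      rw [← Real.rpow_add hdp]
      norm_num
    have h2 := Real.rpow_nonneg hdp.le (1 / 200 : ℝ)
    nlinarith
  have e2 : (d : ℝ) ^ (-c') ≤ 1 / 10000 := by
    have h1 : (d : ℝ) ^ (-c') * (d : ℝ) ^ c' = 1 := by
      rw [← Real.rpow_add hdp]
      norm_num
    have h2 := Real.rpow_nonneg hdp.le (-c')
    nlinarith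
  have e3 : 160 * (d : ℝ) ^ (-c') ≤ u / 4 := by
    have h1 : (d : ℝ) ^ (-c') * (d : ℝ) ^ c' = 1 := by
      rw [← Real.rpow_add hdp]
      norm_num
    have h2 := Real.rpow_nonneg hdp.le (-c')
    have h3 := mul_le_mul_of_nonneg_left n3 h2
    rw [h1] at h3
    have h4 : (d : ℝ) ^ (-c') * (640 / u) * u = 640 * (d : ℝ) ^ (-c') := by
      field_simp
    nlinarith
  have e4 : (x0 c' d : ℝ) ≤ (d : ℝ) ^ (1 - c' / 4) + 1 :=
    (Nat.ceil_lt_add_one (Real.rpow_nonneg hdp.le _)).le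
  have e5 : (d : ℝ) ^ (1 - c' / 4) ≤ d := by
    have := Real.rpow_le_rpow_of_exponent_le hdr (show 1 - c' / 4 ≤ 1 by linarith)
    rwa [Real.rpow_one] at this
  have e6 : 108 * (d : ℝ) ^ (1 - c' / 4) * (Real.log d) ^ 2 ≤ u / 4 * d := by
    have h1 : (d : ℝ) ^ (1 - c' / 4) * (d : ℝ) ^ (c' / 4) = d := by
      rw [← Real.rpow_add hdp]
      norm_num
    have h2 := Real.rpow_nonneg hdp.le (1 - c' / 4)
    have h3 := mul_le_mul_of_nonneg_left n4 h2
    rw [h1] at h3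
    have h4 : (d : ℝ) ^ (1 - c' / 4) * (432 / u * (Real.log d) ^ 2) * (u / 4) =
        108 * (d : ℝ) ^ (1 - c' / 4) * (Real.log d) ^ 2 := by
      field_simp
      ring
    nlinarith
  have e7 : 108 * (Real.log d) ^ 2 ≤ u / 4 * d := by
    have h4 : 432 / u * (Real.log d) ^ 2 * (u / 4) = 108 * (Real.log d) ^ 2 := by
      field_simp
      ring
    nlinarith
  have e8 : 108 * (C * d) * (Real.log d) ^ 2 ≤ 1 / 4 * (d : ℝ) ^ (39 / 20 : ℝ) := by
    have h1 : (d : ℝ) ^ (19 / 20 : ℝ) * d = (d : ℝ) ^ (39 / 20 : ℝ) := by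
      have := Real.rpow_add hdp (19 / 20 : ℝ) 1
      rw [Real.rpow_one] at this
      rw [← this]
      norm_num
    rw [← h1]
    have h2 : 432 * C * (Real.log d) ^ 2 ≤ (d : ℝ) ^ (19 / 20 : ℝ) := by nlinarith
    nlinarith
  -- the choice
  set R : Finset V := univ.filter (Cov G X d) with hR
  have hRm : ∀ w, w ∈ R ↔ Cov G X d w := fun w => by simp [hR]
  have hV0 : ∀ w, Cov G X d w → w ∈ X.P.V0 := fun w hw => by
    obtain ⟨n, β, h⟩ := hw
    exact h.1
  set L : V → Finset V := Lx C τ (x0 c' d) S G d X A t c m m2 pr with hLdef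
  have hLm : ∀ w y, y ∈ L w ↔ Lc C τ (x0 c' d) S G d X A t c m m2 pr w y := fun w y => by
    simp [hLdef, Lx]
  have hLn : ∀ w, L w ⊆ nb G w := by
    intro w y hy
    obtain ⟨n, β, _, _, h3, _⟩ := (hLm w y).1 hy
    exact mem_nb.2 h3
  obtain ⟨t1, t2, t3, t4, t5⟩ := hd3 G d X A t c m m2 pr θk θ' η a3 K L hLn
  by_cases hne : Nonempty V
  swap
  · refine ⟨fun v => v, ?_⟩
    have hcov : ∀ w : V, False := fun w => hne ⟨w⟩
    refine ⟨fun w => (hcov w).elim, fun w => (hcov w).elim, fun w => (hcov w).elim,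
      fun w => (hcov w).elim, fun w => (hcov w).elim, fun n b => ?_, fun n k β β' i i' b => ?_⟩
    · have : (univ.filter (Cov G X d) : Finset V) = ∅ :=
        eq_empty_of_forall_notMem fun w => (hcov w).elim
      rw [this, sum_empty, Nat.cast_zero]
      positivity
    · have : (univ.filter (Cov G X d) : Finset V) = ∅ :=
        eq_empty_of_forall_notMem fun w => (hcov w).elim
      rw [this, sum_empty, Nat.cast_zero]
      positivity
  obtain ⟨f, f1, f2, f3⟩ := hd4 (V := V) (τ := ULift.{u} (Tst N d)) (κ := ULift.{u} (Fin 3))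
    (β := V) (γ := ULift.{u} ℕ ⊕ V) hne d R (Cfk τ (x0 c' d) S G d X m m2 pr)
    (gv G X t pr) L (fun q => wt (x0 c' d) G d X t q.down)
    (fun q => Sum.elim (fun _ => x0 c' d) (fun _ => ⌊C * d⌋₊) q.down) a4
    (fun w hw => hd2 G d X A t c m m2 pr θk θ' η a2 K w ((hRm w).1 hw))
    (by
      rintro ⟨k⟩ w hw
      have hwc := (hRm w).1 hw
      have hinj := injV0 K (hV0 w hwc)
      intro y hy y' hy' he
      have hyn : y ∈ nb G w := hLn w hy
      have hyn' : y' ∈ nb G w := hLn w hy'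
      unfold gv at he
      split_ifs at he with h1 h2 h3
      · exact hinj hyn hyn' (congrArg ULift.down (Sum.inl.inj he))
      · exact Sum.inr.inj he
      · obtain ⟨n, hn⟩ := h3
        have hc := rg_cvr K hS a6 hn
        obtain ⟨n1, β1, c1, _, _, _, _, _, _, _, c9⟩ := (hLm w y).1 hy
        obtain ⟨n2, β2, c1', _, _, _, _, _, _, _, c9'⟩ := (hLm w y').1 hy'
        obtain ⟨rfl, rfl⟩ := cvr_uniq K hS a6 hc c1
        obtain ⟨rfl, rfl⟩ := cvr_uniq K hS a6 hc c1'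
        obtain ⟨_, z1, _, z2, z3, _⟩ := c9 hn
        obtain ⟨_, z1', _, z2', z3', _⟩ := c9' hn
        have s1 := (nbc_spec (G := G) (t := t) ⟨z1, z2, z3⟩).2
        have s2 := (nbc_spec (G := G) (t := t) ⟨z1', z2', z3'⟩).2
        rw [Sum.inr.inj he, s2] at s1
        exact hinj hyn hyn' s1.symm
      · exact Sum.inr.inj he)
    (by
      intro w hw
      obtain ⟨n, β, hwc⟩ := (hRm w).1 hw
      have k0 := hd1 G d X θk θ' η a1 K.pc w n β hwc
      have k1 := cf1_card K hS a6 hwc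
      have k2 := cf2_card K hS a6 hwc
      have hsum : ∑ k : ULift.{u} (Fin 3), ((nb (Cfk τ (x0 c' d) S G d X m m2 pr k) w ∩ R).card : ℝ) =
          ((nb (Cf0 τ (x0 c' d) S G d X) w ∩ R).card : ℝ) +
          ((nb (Cf1 G d X m m2 pr) w ∩ R).card : ℝ) + ((nb (Cf2 G d X m m2 pr) w ∩ R).card : ℝ) := by
        have h1 : ∑ k : ULift.{u} (Fin 3),
            ((nb (Cfk τ (x0 c' d) S G d X m m2 pr k) w ∩ R).card : ℝ) =
            ∑ k : Fin 3, ((nb (Cfk τ (x0 c' d) S G d X m m2 pr ⟨k⟩) w ∩ R).card : ℝ) :=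
          Fintype.sum_equiv Equiv.ulift _ _ (fun k => rfl)
        rw [h1, Fin.sum_univ_three]
        simp [Cfk]
      rw [hsum]
      have h0 : ((nb (Cf0 τ (x0 c' d) S G d X) w ∩ R).card : ℝ) ≤ 6 / 1000 * d := by
        refine le_trans ?_ k0
        have h1 : nb (Cf0 τ (x0 c' d) S G d X) w ∩ R ⊆ univ.filter fun w' => w' ∈ X.P.V0 ∧
            w' ≠ w ∧ CgR τ (x0 c' d) S G d X w w' := by
          intro a ha
          obtain ⟨h2, h3⟩ := mem_inter.1 ha
          obtain ⟨h4, h5⟩ := mem_nb.1 h2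
          exact mem_filter.2 ⟨mem_univ _, hV0 a ((hRm a).1 h3), h4.symm, h5⟩
        exact_mod_cast card_le_card h1
      have h1 : ((nb (Cf1 G d X m m2 pr) w ∩ R).card : ℝ) ≤ (nb (Cf1 G d X m m2 pr) w).card := by
        exact_mod_cast card_le_card inter_subset_left
      have h2 : ((nb (Cf2 G d X m m2 pr) w ∩ R).card : ℝ) ≤ (nb (Cf2 G d X m m2 pr) w).card := by
        exact_mod_cast card_le_card inter_subset_left
      have h3 : (d : ℝ) ^ (-c') * d ≤ 1 / 10000 * d := mul_le_mul_of_nonneg_right e2 hdp.le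
      linarith)
    (by
      rintro ⟨q⟩ w hw y hy
      rcases q with ⟨n, b⟩ | ⟨n, k, β, β', i, i', b⟩
      · exact t2 n b w y ((hRm w).1 hw) hy
      · exact Nat.le_floor (t3 n k β β' i i' b w y ((hRm w).1 hw) hy))
    (by
      rintro ⟨q⟩
      rcases q with ⟨n, b⟩ | ⟨n, k, β, β', i, i', b⟩
      · simp only [Sum.elim_inl]
        nlinarith
      · simp only [Sum.elim_inr]
        have h1 : ((⌊C * (d : ℝ)⌋₊ : ℕ) : ℝ) ≤ C * d := Nat.floor_le (by positivity)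
        nlinarith)
    (by
      intro w hw
      have h1 := t1 w ((hRm w).1 hw)
      have h2 : ((univ.filter fun q : ULift.{u} (Tst N d) =>
          ∃ y ∈ L w, wt (x0 c' d) G d X t q.down w y ≠ 0).card) ≤
          (univ.filter fun q : Tst N d => ∃ y ∈ L w, wt (x0 c' d) G d X t q w y ≠ 0).card := by
        refine card_le_card_of_injOn ULift.down ?_ ?_
        · intro q hq
          exact mem_filter.2 ⟨mem_univ _, (mem_filter.1 hq).2⟩
        · intro q _ q' _ h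
          exact ULift.down_injective h
      refine le_trans (by exact_mod_cast h2) (h1.trans ?_)
      exact_mod_cast le_of_eq (Real.rpow_natCast (d : ℝ) 3).symm)
  have hrf : ∀ w n, Cvr G X d n true w → ¬ ∃ n, X.P.rg w = some (n, false) := by
    rintro w n h ⟨n', h'⟩
    have := (cvr_uniq K hS a6 h (rg_cvr K hS a6 h')).2
    exact Bool.false_ne_true this.symm
  refine ⟨f, ?_, ?_, ?_, ?_, ?_, ?_, ?_⟩
  · intro w hw
    exact (hLm w _).1 (f1 w ((hRm w).2 hw))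
  · intro w w' hw hw' hne' h he
    refine f2 ⟨0⟩ w ((hRm w).2 hw) w' ((hRm w').2 hw') ?_ ?_
    · show (Cfk τ (x0 c' d) S G d X m m2 pr ⟨0⟩).Adj w w'
      simp only [Cfk, if_true]
      exact ⟨hne', h⟩
    · simp only [gv, if_true, he]
  · intro w w' n β hw hw' hne' h he
    refine f2 ⟨1⟩ w ((hRm w).2 ⟨n, β, hw⟩) w' ((hRm w').2 ⟨n, β, hw'⟩) ?_ ?_
    · show (Cfk τ (x0 c' d) S G d X m m2 pr ⟨1⟩).Adj w w'
      have h1 : Cfk τ (x0 c' d) S G d X m m2 pr ⟨1⟩ = Cf1 G d X m m2 pr := by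
        simp [Cfk]
      rw [h1]
      exact ⟨hne', ⟨n, β, hw, hw'⟩, h⟩
    · simp [gv, he]
  · intro w w' n hw hw' h he
    have hwc := rg_cvr K hS a6 hw
    have hne' : w ≠ w' := by
      rintro rfl
      exact Bool.false_ne_true (cvr_uniq K hS a6 hwc hw').2
    refine f2 ⟨2⟩ w ((hRm w).2 ⟨n, false, hwc⟩) w' ((hRm w').2 ⟨n, true, hw'⟩) ?_ ?_
    · show (Cfk τ (x0 c' d) S G d X m m2 pr ⟨2⟩).Adj w w'
      have h1 : Cfk τ (x0 c' d) S G d X m m2 pr ⟨2⟩ = Cf2 G d X m m2 pr := by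
        simp [Cfk]
      rw [h1]
      exact ⟨hne', Or.inl ⟨n, hw, hw', h⟩⟩
    · have h1 : ∃ n, X.P.rg w = some (n, false) := ⟨n, hw⟩
      have h2 := hrf w' n hw'
      simp only [gv]
      rw [if_neg (by simp), if_neg (by simp), if_pos h1, if_neg (by simp), if_neg (by simp),
        if_neg h2, he]
      rfl
  · intro w w' n hw hw' hne' h he
    have hwc := rg_cvr K hS a6 hw
    have hwc' := rg_cvr K hS a6 hw'
    refine f2 ⟨2⟩ w ((hRm w).2 ⟨n, false, hwc⟩) w' ((hRm w').2 ⟨n, false, hwc'⟩) ?_ ?_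
    · show (Cfk τ (x0 c' d) S G d X m m2 pr ⟨2⟩).Adj w w'
      have h1 : Cfk τ (x0 c' d) S G d X m m2 pr ⟨2⟩ = Cf2 G d X m m2 pr := by
        simp [Cfk]
      rw [h1]
      exact ⟨hne', Or.inr (Or.inr ⟨n, hw, hw', h⟩)⟩
    · have h1 : ∃ n, X.P.rg w = some (n, false) := ⟨n, hw⟩
      have h2 : ∃ n, X.P.rg w' = some (n, false) := ⟨n, hw'⟩
      simp only [gv]
      rw [if_neg (by simp), if_neg (by simp), if_pos h1, if_neg (by simp), if_neg (by simp),
        if_pos h2]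
      exact congrArg Sum.inr he
  · intro n b
    by_cases hb : b < d + 2
    · have h1 := f3 ⟨Sum.inl (n, ⟨b, hb⟩)⟩
      simp only [Sum.elim_inl, wt] at h1
      have h2 := t4 n b
      push_cast at h2 ⊢
      refine h1.trans ?_
      have h3 : 160 / (d : ℝ) * (∑ w ∈ R, ∑ y ∈ L w, (wt1 (x0 c' d) G X t n b w y : ℝ)) ≤
          160 / (d : ℝ) * ((d : ℝ) ^ (-c') * (d : ℝ) ^ 2) :=
        mul_le_mul_of_nonneg_left h2 (by positivity)
      have h4 : 160 / (d : ℝ) * ((d : ℝ) ^ (-c') * (d : ℝ) ^ 2) = 160 * (d : ℝ) ^ (-c') * d := by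
        field_simp
      have h5 : 108 * (x0 c' d : ℝ) * (Real.log d) ^ 2 ≤
          108 * ((d : ℝ) ^ (1 - c' / 4) + 1) * (Real.log d) ^ 2 := by
        refine mul_le_mul_of_nonneg_right (by linarith) hl0
      nlinarith
    · have h1 : ∑ w ∈ univ.filter (Cov G X d), wt1 (x0 c' d) G X t n b w (f w) = 0 := by
        refine sum_eq_zero fun w hw => ?_
        have hwc := (mem_filter.1 hw).2
        have h2 : t w (f w) < d + 2 := K.pre.lt w (f w) (adjV0 (hV0 w hwc)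
          (mem_nb.1 (hLn w (f1 w ((hRm w).2 hwc)))))
        unfold wt1
        rw [if_neg]
        rintro ⟨_, _, h3⟩
        omega
      rw [h1, Nat.cast_zero]
      positivity
  · have key : ∀ n k β β' i i' b, b < d + 3 →
      ((∑ w ∈ univ.filter (Cov G X d), wt2 G d X t n k β β' i i' b w (f w) : ℕ) : ℝ) ≤
      1 / 16 * nT G X t b (qV X n β i) (qV X k β' i') (range (d + 2)) +
        1 / 4 * (d : ℝ) ^ (39 / 20 : ℝ) := by
      intro n k β β' i i' b hb
      have h1 := f3 ⟨Sum.inr (n, k, β, β', i, i', ⟨b, hb⟩)⟩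
      simp only [Sum.elim_inr, wt] at h1
      have h2 := t5 n k β β' i i' b
      push_cast at h2 ⊢
      refine h1.trans ?_
      set q : ℝ := (nT G X t b (qV X n β i) (qV X k β' i') (range (d + 2)) : ℝ) with hq
      have hq0 : 0 ≤ q := Nat.cast_nonneg _
      have h3 : 160 / (d : ℝ) * (∑ w ∈ R, ∑ y ∈ L w, (wt2 G d X t n k β β' i i' b w y : ℝ)) ≤
          160 / (d : ℝ) * (4 * (S (X.sc n)).θ * d * q) :=
        mul_le_mul_of_nonneg_left h2 (by positivity)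
      have h4 : 160 / (d : ℝ) * (4 * (S (X.sc n)).θ * d * q) = 640 * (S (X.sc n)).θ * q := by
        field_simp
        ring
      have h5 : (S (X.sc n)).θ ≤ 1 / 10 ^ 11 := by
        have h6 := (hS (X.sc n)).θ1
        have h7 := (hS (X.sc n)).ζ1
        have h8 := (hS (X.sc n)).ζp
        nlinarith
      have h6 : 640 * (S (X.sc n)).θ * q ≤ 1 / 16 * q := by
        refine mul_le_mul_of_nonneg_right ?_ hq0
        linarith
      have h7 : ((⌊C * (d : ℝ)⌋₊ : ℕ) : ℝ) ≤ C * d := Nat.floor_le (by positivity)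
      have h8 : 108 * ((⌊C * (d : ℝ)⌋₊ : ℕ) : ℝ) * (Real.log d) ^ 2 ≤
          108 * (C * d) * (Real.log d) ^ 2 :=
        mul_le_mul_of_nonneg_right (by linarith) hl0
      linarith
    intro n k β β' i i' b
    by_cases hb : b < d + 3
    · exact key n k β β' i i' b hb
    · have h1 : ∀ w y, wt2 G d X t n k β β' i i' b w y = wt2 G d X t n k β β' i i' (d + 2) w y := by
        intro w y
        unfold wt2
        rw [nT_large K (by omega)]
      have h2 := key n k β β' i i' (d + 2) (by omega)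
      simp only [h1]
      rw [nT_large K (show d + 2 ≤ b by omega)]
      exact h2

end Pool.Agent.Work.MP_db9399_iv_helper38
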