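import Pool.Agent.Work.MP_db9399_iv_helper38.RXV

/-!
# MP_db9399, all scales, block RGX: the changes (helper38)

`stmt_VMU`, `stmt_BASX`, `rgF_new`.
-/

set_option autoImplicit false

namespace Pool.Agent.Work.MP_db9399_iv_helper38

open Finset Classical
open Pool.Agent.Work.MP_db9399_all (nb)
open Pool.Agent.Work.MP_db9399_lt (us)
open Pool.Agent.Work.MP_db9399_da (Pcs Ty pV sV Ts sdn ptn sgp sg sid need thin)
open Pool.Agent.Work.MP_db9399_xf
open Pool.Agent.Work.MP_db9399_rg_helper42 (g6a g6c g6d g7V0)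

universe u

theorem sg_keep {W : Type u} [Fintype W] (sd : W → Bool) (F F1 : W → Finset ℕ) (b : ℕ)
    (h : ∀ v, b ∈ F1 v → b ∈ F v)
    (hl : ∀ v v', sd v = false → b ∈ F v → b ∉ F1 v → sd v' = false → b ∈ F v' → b ∉ F1 v' →
      v = v')
    (ht : ∃ v, sd v = true ∧ b ∈ F v ∧ b ∉ F1 v) (h0 : 0 ≤ sg F sd b) : 0 ≤ sg F1 sd b := by
  have hsid : ∀ v β, v ∈ sid sd β ↔ sd v = β := by
    intro v β
    simp [sid]
  have h4 : (sid sd false ∩ us F b).card ≤ (sid sd false ∩ us F1 b).card + 1 := by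
    have h5 : ((sid sd false ∩ us F b) \ (sid sd false ∩ us F1 b)).card ≤ 1 := by
      rw [card_le_one]
      intro v hv v' hv'
      rw [mem_sdiff, mem_inter, mem_inter, mem_us, mem_us, hsid] at hv hv'
      exact hl v v' hv.1.1 hv.1.2 (fun h' => hv.2 ⟨hv.1.1, h'⟩) hv'.1.1 hv'.1.2
        (fun h' => hv'.2 ⟨hv'.1.1, h'⟩)
    have h6 := card_le_card_sdiff_add_card (s := sid sd false ∩ us F b)
      (t := sid sd false ∩ us F1 b)
    omega
  have h5 : (sid sd true ∩ us F1 b).card + 1 ≤ (sid sd true ∩ us F b).card := by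
    obtain ⟨v, hv1, hv2, hv3⟩ := ht
    refine Nat.succ_le_of_lt (card_lt_card ⟨?_, fun h' => ?_⟩)
    · intro x hx
      rw [mem_inter, mem_us] at hx ⊢
      exact ⟨hx.1, h x hx.2⟩
    · have := h' (mem_inter.2 ⟨(hsid v true).2 hv1, mem_us.2 hv2⟩)
      rw [mem_inter, mem_us] at this
      exact hv3 this.2
  unfold sg at h0 ⊢
  omega

section
variable {V : Type u} [Fintype V] {N J : ℕ} {πk C g z τ e : ℝ} {M : ℕ} {S : Fin J → Scl}
  {c' θk θ' η u : ℝ} {G : SimpleGraph V} {d : ℕ} {X : XD V N J} {A : PalX} {t : V → V → ℕ}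
  {c m m2 : V → ℕ} {pr f : V → V} {x : ℕ}

theorem rg_cvr (K : Ctx πk C g z τ e M S c' θk θ' η G d X A t c m m2 pr)
    (hS : ∀ s, Sml πk τ (S s)) (hd : 1 ≤ d) {w : V} {n : Fin N} {β : Bool}
    (h : X.P.rg w = some (n, β)) : Cvr G X d n β w := by
  have h1 := K.pc.rgT w n β h
  have h2 := (K.pc.rgd w n β h).2
  refine ⟨h1.1, h1.2, lt_of_le_of_lt h2 ?_⟩
  have h3 := (hS (X.sc n)).ζ1
  have h4 : (1 : ℝ) ≤ d := by exact_mod_cast hd
  nlinarith

theorem z3 (hS : ∀ s, Sml πk τ (S s)) (s : Fin J) : (S s).ζ ≤ 1 / 1000 :=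
  (hS s).ζ1.trans (by norm_num)

theorem cvr_uniq (K : Ctx πk C g z τ e M S c' θk θ' η G d X A t c m m2 pr)
    (hS : ∀ s, Sml πk τ (S s)) (hd : 1 ≤ d) {w : V} {n n' : Fin N} {β β' : Bool}
    (h : Cvr G X d n β w) (h' : Cvr G X d n' β' w) : n = n' ∧ β = β' :=
  g6c K.pc.toPcD hd (z3 hS _) (z3 hS _) h h'

theorem sV_uniq {n n' : Fin N} {β β' : Bool} {y : V} (h : y ∈ sV X.P n β)
    (h' : y ∈ sV X.P n' β') : n = n' ∧ β = β' := by
  rw [mem_sV] at h h'
  exact ⟨h.2.1.symm.trans h'.2.1, h.2.2.symm.trans h'.2.2⟩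

/-- the data of the choice at `w` -/
theorem cho (K : Ctx πk C g z τ e M S c' θk θ' η G d X A t c m m2 pr)
    (hS : ∀ s, Sml πk τ (S s)) (hd : 1 ≤ d)
    (P : ChoP C τ u x S G d X A t c m m2 pr f) {w : V} {n : Fin N} {β : Bool}
    (h : Cvr G X d n β w) : f w ∈ sV X.P n β ∧ G.Adj w (f w) ∧
    mo X m m2 pr w ∉ Ft (xt G X) t (f w) ∧ mo X m m2 pr w ∉ A.Q (X.P.pt (f w)) ∧
    (∀ a β', Cvr G X d n β' a → t w (f w) ≠ m a ∧ t w (f w) ≠ m2 a) ∧
    (X.P.rg w = some (n, false) → 0 ≤ sg (Fp (xt G X) X t n) (sdn X.P n) (t w (f w)) ∧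
      ∃ y', y' ∈ sV X.P n true ∧ G.Adj (pr w) y' ∧ t (pr w) y' = t w (f w) ∧
        m (pr w) ∉ Ft (xt G X) t y') := by
  obtain ⟨n', β', h1, h2, h3, h4, h5, _, h7, _, h9⟩ := P.mem w ⟨n, β, h⟩
  obtain ⟨rfl, rfl⟩ := cvr_uniq K hS hd h h1
  exact ⟨h2, h3, h4, h5, h7, h9⟩

theorem nbc_spec {a : V} {b : ℕ} (h : ∃ y, G.Adj a y ∧ t a y = b) :
    G.Adj a (nbc G t a b) ∧ t a (nbc G t a b) = b := by
  unfold nbc
  rw [dif_pos h]
  exact h.choose_spec

/-- injectivity at the vertices of `V0` -/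
theorem injV0 (K : Ctx πk C g z τ e M S c' θk θ' η G d X A t c m m2 pr) {a : V}
    (ha : a ∈ X.P.V0) : Set.InjOn (t a) (nb G a : Set V) := by
  rw [← g7V0 (G := G) ha]
  exact K.pre.inj a

theorem adjV0 {a y : V} (ha : a ∈ X.P.V0) (h : G.Adj a y) : (xt G X).Adj a y := by
  rw [← mem_nb, g7V0 (G := G) ha, mem_nb]
  exact h

/-- the second changed edge -/
theorem snp (K : Ctx πk C g z τ e M S c' θk θ' η G d X A t c m m2 pr)
    (hS : ∀ s, Sml πk τ (S s)) (hd : 1 ≤ d)
    (P : ChoP C τ u x S G d X A t c m m2 pr f) {w : V} {n : Fin N}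
    (h : X.P.rg w = some (n, false)) : Cvr G X d n true (pr w) ∧
    sn G t pr f w ∈ sV X.P n true ∧ G.Adj (pr w) (sn G t pr f w) ∧
    t (pr w) (sn G t pr f w) = t w (f w) ∧ m (pr w) ∉ Ft (xt G X) t (sn G t pr f w) := by
  have h1 := rg_cvr K hS hd (K.aux.prr w n h)
  obtain ⟨y', h2, h3, h4, h5⟩ := ((cho K hS hd P (rg_cvr K hS hd h)).2.2.2.2.2 h).2
  have h6 := nbc_spec (G := G) (t := t) ⟨y', h3, h4⟩
  have h7 : sn G t pr f w = y' := by
    refine injV0 K h1.1 (mem_nb.2 h6.1) (mem_nb.2 h3) ?_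
    rw [h4]
    exact h6.2
  rw [h7]
  exact ⟨h1, h2, h3, h4, h5⟩

omit [Fintype V] in
theorem mo_or (w : V) : mo X m m2 pr w = m w ∨ mo X m m2 pr w = m2 w := by
  unfold mo
  split_ifs
  · exact Or.inr rfl
  · exact Or.inl rfl

theorem mo_lt (K : Ctx πk C g z τ e M S c' θk θ' η G d X A t c m m2 pr) {w : V}
    (h : Cov G X d w) : mo X m m2 pr w < d + 2 ∧ mo X m m2 pr w ∉ Ft (xt G X) t w := by
  rcases mo_or (X := X) (m := m) (m2 := m2) (pr := pr) w with h1 | h1
  · rw [h1]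
    exact ⟨(K.pre.mm w h).1, (K.pre.mm w h).2.1⟩
  · rw [h1]
    exact ⟨K.aux.m2lt w h, K.aux.m2f w h⟩

/-- the two kinds of changed edges -/
theorem muc_cases {a y : V} {b : ℕ} (h : muc G d X t m m2 pr f a y = some b) :
    (Cov G X d a ∧ y = f a ∧ b = mo X m m2 pr a) ∨
    ∃ w n, X.P.rg w = some (n, false) ∧ a = pr w ∧ y = sn G t pr f w ∧ b = m a := by
  unfold muc at h
  split_ifs at h with h1 h2
  · exact Or.inl ⟨h1.1, h1.2, (Option.some.inj h).symm⟩
  · obtain ⟨w, n, h3, h4, h5⟩ := h2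
    exact Or.inr ⟨w, n, h3, h4.symm, h5, (Option.some.inj h).symm⟩

theorem muc_own {a : V} (h : Cov G X d a) :
    muc G d X t m m2 pr f a (f a) = some (mo X m m2 pr a) := by
  unfold muc
  rw [if_pos ⟨h, rfl⟩]

theorem muc_sn {w : V} {n : Fin N} (h : X.P.rg w = some (n, false)) :
    muc G d X t m m2 pr f (pr w) (sn G t pr f w) ≠ none := by
  unfold muc
  split_ifs with h1 h2
  · exact Option.some_ne_none _
  · exact Option.some_ne_none _
  · exact absurd ⟨w, n, h, rfl, rfl⟩ h2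

/-- the geometry of the changed edges -/
theorem muc_pos (K : Ctx πk C g z τ e M S c' θk θ' η G d X A t c m m2 pr)
    (hS : ∀ s, Sml πk τ (S s)) (hd : 1 ≤ d)
    (P : ChoP C τ u x S G d X A t c m m2 pr f) {a y : V} {b : ℕ}
    (h : muc G d X t m m2 pr f a y = some b) :
    ∃ n β, Cvr G X d n β a ∧ y ∈ sV X.P n β ∧ G.Adj a y ∧ b < d + 2 ∧ b ∉ Ft (xt G X) t a ∧
      b ∉ Ft (xt G X) t y ∧ b ∉ A.Q (X.P.pt y) := by
  rcases muc_cases h with ⟨⟨n, β, h1⟩, h2, h3⟩ | ⟨w, n, h1, h2, h3, h4⟩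
  · obtain ⟨h4, h5, h6, h7, _, _⟩ := cho K hS hd P h1
    have h8 := mo_lt K ⟨n, β, h1⟩
    subst h2 h3
    exact ⟨n, β, h1, h4, h5, h8.1, h8.2, h6, h7⟩
  · obtain ⟨h5, h6, h7, h8, h9⟩ := snp K hS hd P h1
    have h10 := K.pre.mm (pr w) ⟨n, true, h5⟩
    subst h2 h3 h4
    exact ⟨n, true, h5, h6, h7, h10.1, h10.2.1, h9, h10.2.2 _⟩

theorem PT_pr {w : V} {n : Fin N} (h : X.P.rg w = some (n, false)) : PT X pr (pr w) :=
  ⟨w, n, h, rfl⟩

theorem mo_PT {a : V} (h : PT X pr a) : mo X m m2 pr a = m2 a := by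
  unfold mo
  rw [if_pos h]

/-- the partner determines the vertex -/
theorem pr_inj (K : Ctx πk C g z τ e M S c' θk θ' η G d X A t c m m2 pr) {w w' : V} {n n' : Fin N}
    (h : X.P.rg w = some (n, false)) (h' : X.P.rg w' = some (n', false)) (e : pr w = pr w') :
    w = w' ∧ n = n' := by
  have h1 := K.aux.prr w n h
  have h2 := K.aux.prr w' n' h'
  rw [e, h2] at h1
  have h3 : n' = n := congrArg Prod.fst (Option.some.inj h1)
  subst h3
  exact ⟨K.aux.pri w w' n' h h' e, rfl⟩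

theorem vmu (K : Ctx πk C g z τ e M S c' θk θ' η G d X A t c m m2 pr)
    (hS : ∀ s, Sml πk τ (S s)) (hd : 1 ≤ d)
    (P : ChoP C τ u x S G d X A t c m m2 pr f) :
    MuH (xt G X) X.P.V0 t (d + 2) (muc G d X t m m2 pr f) where
  sym := K.pre.sym
  lt := K.pre.lt
  inj := K.pre.inj
  ad := by
    intro a y b h
    obtain ⟨n, β, h1, h2, h3, h4, _⟩ := muc_pos K hS hd P h
    exact ⟨h1.1, (mem_sV.1 h2).1, adjV0 h1.1 h3, h4⟩
  fa := by
    intro a y b h
    obtain ⟨n, β, _, _, _, _, h5, _⟩ := muc_pos K hS hd P h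
    exact h5
  fy := by
    intro a y b h
    obtain ⟨n, β, _, _, _, _, _, h5, _⟩ := muc_pos K hS hd P h
    exact h5
  ia := by
    intro a y y' b h h'
    rcases muc_cases h with ⟨h1, h2, h3⟩ | ⟨w, n, h1, h2, h3, h4⟩ <;>
    rcases muc_cases h' with ⟨h1', h2', h3'⟩ | ⟨w', n', h1', h2', h3', h4'⟩
    · rw [h2, h2']
    · exfalso
      rw [h2', mo_PT (PT_pr h1')] at h3
      rw [h2'] at h4'
      exact K.aux.m2m _ (h2' ▸ h1) (h3.symm.trans h4')
    · exfalso
      rw [h2, mo_PT (PT_pr h1)] at h3'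
      rw [h2] at h4
      exact K.aux.m2m _ (h2 ▸ h1') (h3'.symm.trans h4)
    · rw [h3, h3', (pr_inj K h1 h1' (h2.symm.trans h2')).1]
  iy := by
    intro a a' y b h h'
    rcases muc_cases h with ⟨⟨n, β, h1⟩, h2, h3⟩ | ⟨w, n, h1, h2, h3, h4⟩ <;>
    rcases muc_cases h' with ⟨⟨n', β', h1'⟩, h2', h3'⟩ | ⟨w', n', h1', h2', h3', h4'⟩
    · have h5 := (cho K hS hd P h1).1
      have h5' := (cho K hS hd P h1').1
      rw [← h2] at h5
      rw [← h2'] at h5'
      obtain ⟨rfl, rfl⟩ := sV_uniq h5 h5'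
      by_contra hne
      exact P.own a a' n β h1 h1' hne (h3.symm.trans h3') (h2.symm.trans h2')
    · exfalso
      have h5 := (cho K hS hd P h1).1
      have h5' := (snp K hS hd P h1').2.1
      rw [← h2] at h5
      rw [← h3'] at h5'
      obtain ⟨rfl, rfl⟩ := sV_uniq h5 h5'
      rw [h2'] at h4'
      exact P.ops w' a n h1' h1 (h3.symm.trans h4') (h2.symm.trans h3')
    · exfalso
      have h5 := (cho K hS hd P h1').1
      have h5' := (snp K hS hd P h1).2.1
      rw [← h2'] at h5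
      rw [← h3] at h5'
      obtain ⟨rfl, rfl⟩ := sV_uniq h5 h5'
      rw [h2] at h4
      exact P.ops w a' n' h1 h1' (h3'.symm.trans h4) (h2'.symm.trans h3)
    · have h5 := (snp K hS hd P h1).2.1
      have h5' := (snp K hS hd P h1').2.1
      rw [← h3] at h5
      rw [← h3'] at h5'
      obtain ⟨rfl, _⟩ := sV_uniq h5 h5'
      by_cases hne : w = w'
      · rw [h2, h2', hne]
      · exfalso
        rw [h2] at h4
        rw [h2'] at h4'
        exact P.prp w w' n h1 h1' hne (h4.symm.trans h4') (h3.symm.trans h3')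

/-- two covering vertices of the same piece have different own colours -/
theorem cov_col (K : Ctx πk C g z τ e M S c' θk θ' η G d X A t c m m2 pr)
    (hS : ∀ s, Sml πk τ (S s)) (P : ChoP C τ u x S G d X A t c m m2 pr f) {w w' : V} {n : Fin N}
    {β β' : Bool} (h : Cvr G X d n β w) (h' : Cvr G X d n β' w')
    (he : t w (f w) = t w' (f w')) : w = w' := by
  by_contra hne
  refine P.col w w' ⟨n, β, h⟩ ⟨n, β', h'⟩ hne (Or.inr (Or.inl ⟨n, h.2.1, ?_, ?_⟩)) he
  · have h1 := g6a K.pc.toPcD (z3 hS _) h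
    have h2 : ((nb G w ∩ sV X.P n β).card : ℝ) ≤ ((nb G w ∩ pV X.P n).card : ℝ) := by
      exact_mod_cast card_le_card (inter_subset_inter_left sV_pV)
    have h3 := z3 hS (X.sc n)
    have h4 : (0 : ℝ) ≤ d := Nat.cast_nonneg _
    nlinarith
  · have h1 := g6a K.pc.toPcD (z3 hS _) h'
    have h2 : ((nb G w' ∩ sV X.P n β').card : ℝ) ≤ ((nb G w' ∩ pV X.P n).card : ℝ) := by
      exact_mod_cast card_le_card (inter_subset_inter_left sV_pV)
    have h3 := z3 hS (X.sc n)
    have h4 : (0 : ℝ) ≤ d := Nat.cast_nonneg _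
    nlinarith

/-- who lost the colour `b` at the piece `n` -/
theorem ls_mem (K : Ctx πk C g z τ e M S c' θk θ' η G d X A t c m m2 pr)
    (hS : ∀ s, Sml πk τ (S s)) (hd : 1 ≤ d)
    (P : ChoP C τ u x S G d X A t c m m2 pr f) {a : V} {n : Fin N} {b : ℕ}
    (h : a ∈ Ls X t (muc G d X t m m2 pr f) n b) :
    ∃ w γ, Cvr G X d n γ w ∧ t w (f w) = b ∧ (a = w ∨ a = pr w) := by
  obtain ⟨y, hy, h1, h2⟩ := (mem_filter.1 h).2
  obtain ⟨b', hb'⟩ := Option.ne_none_iff_exists'.1 h1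
  rcases muc_cases hb' with ⟨⟨n', β, h3⟩, h4, _⟩ | ⟨w, n', h3, h4, h5, _⟩
  · have h5 := (cho K hS hd P h3).1
    rw [← h4] at h5
    have h6 : n' = n := (mem_sV.1 h5).2.1.symm.trans (mem_pV.1 hy).2
    subst h6
    exact ⟨a, β, h3, by rw [← h4]; exact h2, Or.inl rfl⟩
  · obtain ⟨_, h6, _, h7, _⟩ := snp K hS hd P h3
    rw [← h5] at h6
    have h8 : n' = n := (mem_sV.1 h6).2.1.symm.trans (mem_pV.1 hy).2
    subst h8
    refine ⟨w, false, rg_cvr K hS hd h3, ?_, Or.inr h4⟩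
    rw [← h7, ← h5, ← h4]
    exact h2

/-- who gained the colour `b` at the piece `n` -/
theorem gs_mem (K : Ctx πk C g z τ e M S c' θk θ' η G d X A t c m m2 pr)
    (hS : ∀ s, Sml πk τ (S s)) (hd : 1 ≤ d)
    (P : ChoP C τ u x S G d X A t c m m2 pr f) {a : V} {n : Fin N} {b : ℕ}
    (h : a ∈ Gs X (muc G d X t m m2 pr f) n b) :
    ∃ γ, Cvr G X d n γ a ∧ (b = m a ∨ (b = m2 a ∧ PT X pr a)) := by
  obtain ⟨y, hy, h1⟩ := (mem_filter.1 h).2
  rcases muc_cases h1 with ⟨⟨n', β, h3⟩, h4, h5⟩ | ⟨w, n', h3, h4, h5, h6⟩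
  · have h6 := (cho K hS hd P h3).1
    rw [← h4] at h6
    have h7 : n' = n := (mem_sV.1 h6).2.1.symm.trans (mem_pV.1 hy).2
    subst h7
    refine ⟨β, h3, ?_⟩
    by_cases hp : PT X pr a
    · exact Or.inr ⟨by rw [h5, mo_PT hp], hp⟩
    · left
      rw [h5]
      unfold mo
      rw [if_neg hp]
  · obtain ⟨h7, h8, _⟩ := snp K hS hd P h3
    rw [← h5] at h8
    have h9 : n' = n := (mem_sV.1 h8).2.1.symm.trans (mem_pV.1 hy).2
    subst h9
    exact ⟨true, by rw [h4]; exact h7, Or.inl h6⟩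

theorem basx (K : Ctx πk C g z τ e M S c' θk θ' η G d X A t c m m2 pr)
    (hS : ∀ s, Sml πk τ (S s)) (hd : 1 ≤ d)
    (P : ChoP C τ u x S G d X A t c m m2 pr f) :
    Bas ((d : ℝ) ^ (-c')) S G d X A t m m2 pr f where
  H := vmu K hS hd P
  pos := by
    intro v y b h
    obtain ⟨n, β, h1, h2, _, _, _, _, h3⟩ := muc_pos K hS hd P h
    exact ⟨h3, n, β, h1, h2⟩
  ls := by
    intro n b
    by_cases he : ∃ w γ, Cvr G X d n γ w ∧ t w (f w) = b
    · obtain ⟨w, γ, h1, h2⟩ := he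
      have h3 : Ls X t (muc G d X t m m2 pr f) n b ⊆ {w, pr w} := by
        intro a ha
        obtain ⟨w', γ', h4, h5, h6⟩ := ls_mem K hS hd P ha
        have h7 : w' = w := cov_col K hS P h4 h1 (h5.trans h2.symm)
        subst h7
        rw [mem_insert, mem_singleton]
        exact h6
      exact (card_le_card h3).trans card_le_two
    · have h3 : Ls X t (muc G d X t m m2 pr f) n b = ∅ := by
        rw [eq_empty_iff_forall_notMem]
        intro a ha
        obtain ⟨w', γ', h4, h5, _⟩ := ls_mem K hS hd P ha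
        exact he ⟨w', γ', h4, h5⟩
      rw [h3, card_empty]
      exact Nat.zero_le _
  lsw := by
    rintro n b ⟨a, ha⟩
    obtain ⟨w', γ', h4, h5, _⟩ := ls_mem K hS hd P ha
    exact ⟨w', γ', h4, h5⟩
  gs := by
    intro n
    set F : Finset V := univ.filter fun a => (∃ γ, Cvr G X d n γ a) ∧ PT X pr a with hF
    refine ⟨fun b => (F.filter fun a => m2 a = b).card, ?_, ?_, ?_⟩
    · intro b
      have h1 : Gs X (muc G d X t m m2 pr f) n b ⊆
          ((univ.filter fun w => Cvr G X d n false w ∧ m w = b) ∪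
            (univ.filter fun w => Cvr G X d n true w ∧ m w = b)) ∪
            (F.filter fun a => m2 a = b) := by
        intro a ha
        obtain ⟨γ, h2, h3⟩ := gs_mem K hS hd P ha
        rcases h3 with h3 | h3
        · refine mem_union_left _ ?_
          cases γ
          · exact mem_union_left _ (mem_filter.2 ⟨mem_univ _, h2, h3.symm⟩)
          · exact mem_union_right _ (mem_filter.2 ⟨mem_univ _, h2, h3.symm⟩)
        · exact mem_union_right _ (mem_filter.2 ⟨mem_filter.2 ⟨mem_univ _, ⟨γ, h2⟩, h3.2⟩,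
            h3.1.symm⟩)
      have h2 := (card_le_card h1).trans (card_union_le _ _)
      have h3 := card_union_le (univ.filter fun w => Cvr G X d n false w ∧ m w = b)
        (univ.filter fun w => Cvr G X d n true w ∧ m w = b)
      have h4 := K.pre.ms n false b
      have h5 := K.pre.ms n true b
      have h6 : ((Gs X (muc G d X t m m2 pr f) n b).card : ℝ) ≤
          ((univ.filter fun w => Cvr G X d n false w ∧ m w = b).card : ℝ) +
          (univ.filter fun w => Cvr G X d n true w ∧ m w = b).card +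
          (F.filter fun a => m2 a = b).card := by
        exact_mod_cast h2.trans (Nat.add_le_add_right h3 _)
      linarith
    · rw [sum_card_fiberwise_eq_card_filter]
      by_cases hB : X.P.ty n = Ty.B
      · refine le_trans ?_ (K.pc.rgc n hB)
        have h1 : F.filter (fun a => m2 a ∈ range (d + 2)) ⊆
            (univ.filter fun w => X.P.rg w = some (n, false)).image pr := by
          intro a ha
          obtain ⟨⟨γ, h2⟩, w, n', h3, h4⟩ := (mem_filter.1 (mem_filter.1 ha).1).2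
          have h5 := rg_cvr K hS hd (K.aux.prr w n' h3)
          rw [h4] at h5
          obtain ⟨rfl, _⟩ := cvr_uniq K hS hd h2 h5
          exact mem_image.2 ⟨w, mem_filter.2 ⟨mem_univ _, h3⟩, h4⟩
        exact_mod_cast (card_le_card h1).trans card_image_le
      · have h1 : F.filter (fun a => m2 a ∈ range (d + 2)) = ∅ := by
          rw [eq_empty_iff_forall_notMem]
          intro a ha
          obtain ⟨⟨γ, h2⟩, _⟩ := (mem_filter.1 (mem_filter.1 ha).1).2
          exact hB h2.2.1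
        rw [h1, card_empty, Nat.cast_zero]
        positivity
    · intro b hb
      rw [card_eq_zero, filter_eq_empty_iff]
      intro a ha h1
      obtain ⟨⟨γ, h2⟩, _⟩ := (mem_filter.1 ha).2
      have := K.aux.m2lt a ⟨n, γ, h2⟩
      omega
  gsw := by
    intro n γ w h
    rw [eq_empty_iff_forall_notMem]
    intro a ha
    obtain ⟨γ', h2, h3⟩ := gs_mem K hS hd P ha
    have h4 := (cho K hS hd P h).2.2.2.2.1 a γ' h2
    rcases h3 with h3 | h3
    · exact h4.1 h3
    · exact h4.2 h3.1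
  es := by
    intro n
    set F : Finset V := univ.filter fun a => (∃ γ, Cvr G X d n γ a) with hF
    have h1 : Es X (muc G d X t m m2 pr f) n ⊆ (F.image fun a => (a, f a)) ∪
        F.image fun w => (pr w, sn G t pr f w) := by
      rintro ⟨a, y⟩ ha
      obtain ⟨hy, h1⟩ := (mem_filter.1 ha).2
      obtain ⟨b', hb'⟩ := Option.ne_none_iff_exists'.1 h1
      rcases muc_cases hb' with ⟨⟨n', β, h3⟩, h4, _⟩ | ⟨w, n', h3, h4, h5, _⟩
      · have h5 := (cho K hS hd P h3).1
        rw [← h4] at h5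
        have h6 : n' = n := (mem_sV.1 h5).2.1.symm.trans (mem_pV.1 hy).2
        subst h6
        exact mem_union_left _ (mem_image.2 ⟨a, mem_filter.2 ⟨mem_univ _, β, h3⟩, Prod.ext rfl h4.symm⟩)
      · obtain ⟨_, h6, _, h7, _⟩ := snp K hS hd P h3
        rw [← h5] at h6
        have h8 : n' = n := (mem_sV.1 h6).2.1.symm.trans (mem_pV.1 hy).2
        subst h8
        exact mem_union_right _ (mem_image.2 ⟨w, mem_filter.2 ⟨mem_univ _, false,
          rg_cvr K hS hd h3⟩, Prod.ext h4.symm h5.symm⟩)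
    have h2 := (card_le_card h1).trans ((card_union_le _ _).trans
      (Nat.add_le_add card_image_le card_image_le))
    have h3 := g6d K.pc.toPcD hd (z3 hS _) (hS (X.sc n)).θp.le
    have h4 : ((Es X (muc G d X t m m2 pr f) n).card : ℝ) ≤ (F.card : ℝ) + F.card := by
      exact_mod_cast h2
    linarith

/-- the own colour of a vertex rigid for `false` is not needed there -/
theorem rgF_new (K : Ctx πk C g z τ e M S c' θk θ' η G d X A t c m m2 pr)
    (hS : ∀ s, Sml πk τ (S s)) (hd : 1 ≤ d)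
    (P : ChoP C τ u x S G d X A t c m m2 pr f) {n : Fin N} {w : V}
    (h : X.P.rg w = some (n, false)) :
    0 ≤ sg (Fp (xt G X) X (tn G d X t m m2 pr f) n) (sdn X.P n) (cn G d X t c f w) := by
  have B := basx K hS hd P
  have h0 := rg_cvr K hS hd h
  have h1 := (cho K hS hd P h0).2.2.2.2.2 h
  have h2 := snp K hS hd P h
  have hc : cn G d X t c f w = t w (f w) := by
    unfold cn
    rw [if_pos ⟨n, false, h0⟩]
  rw [hc]
  have hG := B.gsw n false w h0
  refine sg_keep (sdn X.P n) (Fp (xt G X) X t n) _ (t w (f w)) ?_ ?_ ?_ h1.1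
  · -- nothing is gained
    intro v hv
    by_contra hv'
    obtain ⟨a, _, h4⟩ := ft_gain B.H hv' hv
    rcases h4 with h4 | h4
    · exact v.2.1 (B.H.ad _ _ _ h4).1
    · have h5 : a ∈ Gs X (muc G d X t m m2 pr f) n (t w (f w)) :=
        mem_filter.2 ⟨mem_univ _, v.1, mem_pV.2 v.2, h4⟩
      rw [hG] at h5
      exact notMem_empty _ h5
  · -- at most one is lost on the side `false`
    have h6 : ∀ v : Ts X.P n, sdn X.P n v = false → t w (f w) ∈ Fp (xt G X) X t n v →
        t w (f w) ∉ Fp (xt G X) X (tn G d X t m m2 pr f) n v → v.1 = f w := by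
      intro v hvs hv hv1
      obtain ⟨a, ha, hab, h7⟩ := ft_lost B.H hv hv1
      rcases h7 with h7 | h7
      · obtain ⟨b', hb'⟩ := Option.ne_none_iff_exists'.1 h7
        exact absurd (B.H.ad _ _ _ hb').1 v.2.1
      · obtain ⟨b', hb'⟩ := Option.ne_none_iff_exists'.1 h7
        rcases muc_cases hb' with ⟨⟨n', β, h8⟩, h9, _⟩ | ⟨w', n', h8, h9, h10, _⟩
        · have h10 := (cho K hS hd P h8).1
          rw [← h9] at h10
          have h11 : n' = n := (mem_sV.1 h10).2.1.symm.trans v.2.2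
          subst h11
          have h12 : a = w := by
            refine cov_col K hS P h8 h0 ?_
            rw [← h9, K.pre.sym]
            exact hab
          rw [h9, h12]
        · have h11 := (snp K hS hd P h8).2.1
          rw [← h10, mem_sV] at h11
          have h12 : X.P.sd v.1 = false := hvs
          rw [h12] at h11
          exact absurd h11.2.2 Bool.false_ne_true
    intro v v' hv1 hv2 hv3 hv1' hv2' hv3'
    exact Subtype.ext ((h6 v hv1 hv2 hv3).trans (h6 v' hv1' hv2' hv3').symm)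
  · -- one is lost on the side `true`
    have h6 : sn G t pr f w ∉ X.P.V0 ∧ X.P.pc (sn G t pr f w) = n :=
      ⟨(mem_sV.1 h2.2.1).1, (mem_sV.1 h2.2.1).2.1⟩
    refine ⟨⟨sn G t pr f w, h6⟩, (mem_sV.1 h2.2.1).2.2,
      mem_Ft.2 ⟨pr w, (adjV0 h2.1.1 h2.2.2.1).symm, ?_⟩, ?_⟩
    · rw [K.pre.sym]
      exact h2.2.2.2.1
    · intro h9
      have h10 := ft_miss_y B.H (muc_sn (G := G) (d := d) (t := t) (m := m) (m2 := m2) (f := f) h)
        (fun a' ha' => by
          have h5 : a' ∈ Gs X (muc G d X t m m2 pr f) n (t w (f w)) := by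
            refine mem_filter.2 ⟨mem_univ _, _, mem_pV.2 h6, ?_⟩
            rw [← h2.2.2.2.1]
            exact ha'
          rw [hG] at h5
          exact notMem_empty _ h5)
      rw [h2.2.2.2.1] at h10
      exact h10 h9

end

theorem stmt_VMU : Stmt_VMU.{u} := by
  intro πk C g z τ e M J S c' u hC
  refine ⟨1, ?_⟩
  intro V _ N G d X A t c m m2 pr f θk θ' η hd K P
  exact vmu K hC.2.2.2.2.2.2.2.2.2.2 hd P

theorem stmt_BASX : Stmt_BASX.{u} := by
  intro πk C g z τ e M J S c' u hC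
  refine ⟨1, ?_⟩
  intro V _ N G d X A t c m m2 pr f θk θ' η hd K P
  exact basx K hC.2.2.2.2.2.2.2.2.2.2 hd P

end Pool.Agent.Work.MP_db9399_iv_helper38
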