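import Pool.Agent.Work.MP_db9399_iv_helper38.RXU
import Pool.Agent.Work.MP_db9399_iv_helper38.RXM
import Pool.Agent.Work.MP_db9399_slp_helper59.Sel1

/-!
# MP_db9399, block LST of RGX4: the lists of the covering vertices are large (helper59, helper38)

Adapted from `MP_db9399_slp_helper59/Lst.lean` to version 4.
-/

set_option autoImplicit false

namespace Pool.Agent.Work.MP_db9399_iv_helper38

open Finset Classical
open Pool.Agent.Work.MP_db9399_all (nb)
open Pool.Agent.Work.MP_db9399_lt (us)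
open Pool.Agent.Work.MP_db9399_da (Pcs Ty pV sV Ts sdn ptn sgp sg need thin sid prt qtr)
open Pool.Agent.Work.MP_db9399_xf
open Pool.Agent.Work.MP_db9399_x4
open Pool.Agent.Work.MP_db9399_slp_helper59 (pV_card sV_sub qtr_map)
open Pool.Agent.Work.MP_db9399_rg_helper42 (g6a g6b g6c g6d g7V0 g1')

universe u

/-- large numbers are few -/
theorem large_few (f : ℕ → ℕ) (s : Finset ℕ) (T k : ℕ) :
    (s.filter (fun b => T < f b)).card * (T - k) ≤ ∑ b ∈ s, (f b - k) := by
  have h1 : (s.filter (fun b => T < f b)).card * (T - k) ≤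
      ∑ b ∈ s.filter (fun b => T < f b), (f b - k) := by
    rw [← smul_eq_mul]
    refine card_nsmul_le_sum _ _ _ fun b hb => ?_
    have := (mem_filter.1 hb).2
    omega
  exact h1.trans (sum_le_sum_of_subset (filter_subset _ _))

/-- vertices with a colour in `K` -/
theorem col_card {V : Type u} (Y : Finset V) (t : V → ℕ) (hinj : Set.InjOn t (Y : Set V))
    (K : Finset ℕ) : (Y.filter (fun y => t y ∈ K)).card ≤ K.card := by
  refine card_le_card_of_injOn t (fun y hy => (mem_filter.1 hy).2) fun y hy y' hy' h => ?_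
  exact hinj (mem_filter.1 hy).1 (mem_filter.1 hy').1 h

/-- the quarters of a side of a piece of type B -/
theorem half_side {V : Type u} [Fintype V] {N J : ℕ} {S : Fin J → Scl} {η : ℝ}
    {G : SimpleGraph V} {d : ℕ} {X : XD V N J} (hL : PcL S η G d X) {n : Fin N}
    (hn : X.P.ty n = Ty.B) (β i : Bool) :
    (sV X.P n β).card ≤ 2 * (MP_db9399_xf.qV X n β i).card + 1 := by
  have h0 : ∀ β i, (qtr (sdn X.P n) (ptn X.P n) β i).card = (MP_db9399_xf.qV X n β i).card := by
    intro β i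
    rw [← qtr_map, card_map]
  have h1 : ∀ i, (MP_db9399_xf.qV X n false i).card = (MP_db9399_xf.qV X n true i).card := by
    intro i
    rw [← h0, ← h0]
    exact hL.bB n hn i
  have h2 : (MP_db9399_xf.qV X n false (!i)).card ≤ (MP_db9399_xf.qV X n false i).card + 1 := by
    have := hL.bS n hn (!i)
    rw [h0, h0, Bool.not_not] at this
    exact this
  have h3 : (sV X.P n β).card ≤
      (MP_db9399_xf.qV X n β i).card + (MP_db9399_xf.qV X n β (!i)).card := by
    refine (card_le_card ?_).trans (card_union_le _ _)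
    intro v hv
    unfold MP_db9399_xf.qV
    rw [mem_union, mem_filter, mem_filter]
    cases hp : X.P.pt v <;> cases i <;> simp [hv]
  have h4 : (MP_db9399_xf.qV X n β (!i)).card ≤ (MP_db9399_xf.qV X n β i).card + 1 := by
    cases β
    · exact h2
    · rw [← h1, ← h1]
      exact h2
  omega

/-- the neighbours of a covering vertex which are left after the conditions on the missing colour -/
theorem lst_half {V : Type u} [Fintype V] {N J : ℕ} {S : Fin J → Scl} {C g z θk θ' η a : ℝ} {M : ℕ}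
    {G : SimpleGraph V} {d : ℕ} {X : XD V N J} (hP : PcX C g z θk θ' η a M S G d X) {n : Fin N}
    {β : Bool} {w : V} (hcv : Cvr G X d n β w) (hζ : (S (X.sc n)).ζ ≤ 1 / 1000)
    (hd : (1000 : ℝ) ≤ d) (Q : Bool → Finset ℕ) (hQ : Disjoint (Q false) (Q true)) (b : ℕ) :
    (48 : ℝ) / 100 * d ≤ (((nb G w ∩ sV X.P n β).filter (fun y => b ∉ Q (X.P.pt y))).card : ℝ) := by
  obtain ⟨i, hi⟩ : ∃ i, b ∉ Q i := by
    by_contra hcon
    push Not at hcon
    exact (disjoint_left.1 hQ) (hcon false) (hcon true)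
  have h1 := half_side hP.toPcL hcv.2.1 β i
  have h2 := g1' hP.toPcD hcv.2.1 β
  have h3 : (MP_db9399_xf.qV X n β i).card ≤
      ((nb G w ∩ sV X.P n β).filter (fun y => b ∉ Q (X.P.pt y))).card +
        (sV X.P n β \ nb G w).card := by
    refine (card_le_card ?_).trans (card_union_le _ _)
    intro y hy
    unfold MP_db9399_xf.qV at hy
    rw [mem_filter] at hy
    rw [mem_union]
    by_cases hy2 : y ∈ nb G w
    · left
      rw [mem_filter, mem_inter]
      exact ⟨⟨hy2, hy.1⟩, by rw [hy.2]; exact hi⟩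
    · right
      exact mem_sdiff.2 ⟨hy.1, hy2⟩
  have h1' : ((sV X.P n β).card : ℝ) ≤ 2 * ((MP_db9399_xf.qV X n β i).card : ℝ) + 1 := by
    exact_mod_cast h1
  have h3' : ((MP_db9399_xf.qV X n β i).card : ℝ) ≤
      (((nb G w ∩ sV X.P n β).filter (fun y => b ∉ Q (X.P.pt y))).card : ℝ) +
        ((sV X.P n β \ nb G w).card : ℝ) := by
    exact_mod_cast h3
  have h4 := hcv.2.2
  have h5 : (S (X.sc n)).ζ * d ≤ 1 / 1000 * d := mul_le_mul_of_nonneg_right hζ (by linarith)
  linarith

section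
variable {V : Type u} [Fintype V] {N J : ℕ} {πk C g z τ e : ℝ} {M : ℕ} {S : Fin J → Scl}
  {c' θk θ' η u : ℝ} {G : SimpleGraph V} {d : ℕ} {X : XD V N J} {A : PalX} {t : V → V → ℕ}
  {c m m2 : V → ℕ} {pr f : V → V} {x : ℕ}

/-- the missing colours of the covering vertices of the piece `n` -/
noncomputable def Km (G : SimpleGraph V) (d : ℕ) (X : XD V N J) (m m2 : V → ℕ) (n : Fin N) :
    Finset ℕ :=
  (univ.filter (fun a => ∃ β', Cvr G X d n β' a)).image m ∪
    (univ.filter (fun a => ∃ β', Cvr G X d n β' a)).image m2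

theorem Km_card (K : Ctx πk C g z τ e M S c' θk θ' η G d X A t c m m2 pr)
    (hS : ∀ s, Sml πk τ (S s)) (hd : 1 ≤ d) (n : Fin N) :
    ((Km G d X m m2 n).card : ℝ) ≤ 4 * (S (X.sc n)).θ * d := by
  have h0 := g6d K.pc.toPcD hd (z3 hS (X.sc n)) (hS (X.sc n)).θp.le
  have h1 : (Km G d X m m2 n).card ≤ (univ.filter (fun a => ∃ β', Cvr G X d n β' a)).card +
      (univ.filter (fun a => ∃ β', Cvr G X d n β' a)).card :=
    (card_union_le _ _).trans (Nat.add_le_add card_image_le card_image_le)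
  have h2 : ((Km G d X m m2 n).card : ℝ) ≤
      ((univ.filter (fun a => ∃ β', Cvr G X d n β' a)).card : ℝ) +
      ((univ.filter (fun a => ∃ β', Cvr G X d n β' a)).card : ℝ) := by exact_mod_cast h1
  linarith

/-- other colours have no gains -/
theorem dlt_zero (K : Ctx πk C g z τ e M S c' θk θ' η G d X A t c m m2 pr)
    (hS : ∀ s, Sml πk τ (S s)) (hd : 1 ≤ d) {n : Fin N} {b : ℕ} (hb : b ∉ Km G d X m m2 n)
    (β : Bool) : dlt G d X m m2 pr n β b = 0 := by
  have h0 : ∀ a γ, Cvr G X d n γ a → b ≠ m a ∧ b ≠ m2 a := by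
    intro a γ h
    constructor
    · intro h'
      exact hb (mem_union_left _ (mem_image.2 ⟨a, mem_filter.2 ⟨mem_univ _, γ, h⟩, h'.symm⟩))
    · intro h'
      exact hb (mem_union_right _ (mem_image.2 ⟨a, mem_filter.2 ⟨mem_univ _, γ, h⟩, h'.symm⟩))
  unfold dlt
  have h2 : (univ.filter fun a => Cvr G X d n β a ∧ mo X m m2 pr a = b) = ∅ := by
    rw [filter_eq_empty_iff]
    rintro a - ⟨h3, h4⟩
    have h5 := h0 a β h3
    rcases mo_or (X := X) (m := m) (m2 := m2) (pr := pr) a with h6 | h6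
    · exact h5.1 (by rw [← h4, h6])
    · exact h5.2 (by rw [← h4, h6])
  have h3 : (univ.filter fun w' => X.P.rg w' = some (n, false) ∧ m (pr w') = b) = ∅ := by
    rw [filter_eq_empty_iff]
    rintro w' - ⟨h3, h4⟩
    have h5 := h0 (pr w') true (rg_cvr K hS hd (K.aux.prr w' n h3))
    exact h5.1 h4.symm
  rw [h2, h3]
  simp

/-- vertices with the colour `b` -/
theorem ft_card (K : Ctx πk C g z τ e M S c' θk θ' η G d X A t c m m2 pr) {n : Fin N}
    (hB : X.P.ty n = Ty.B) (β : Bool) (b : ℕ) (Y : Finset V) (hY : Y ⊆ sV X.P n β) :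
    ((Y.filter (fun y => b ∈ Ft (xt G X) t y)).card : ℝ) ≤ 120 * (S (X.sc n)).θ * d := by
  refine le_trans ?_ (K.pre.ldR n hB β b)
  have h1 : (Y.filter (fun y => b ∈ Ft (xt G X) t y)).card ≤
      ((sV X.P n β).filter (fun y => b ∈ Ft (xt G X) t y)).card :=
    card_le_card (filter_subset_filter _ hY)
  have h2 : ((sV X.P n β).filter (fun y => b ∈ Ft (xt G X) t y)).card ≤
      ub G X t (dlt G d X m m2 pr) n β b := Nat.le_add_right _ _
  exact_mod_cast h1.trans h2

/-- the rigid vertices -/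
theorem lst_rig (hX : Ctx πk C g z τ e M S c' θk θ' η G d X A t c m m2 pr)
    (hS : ∀ s, Sml πk τ (S s)) {n : Fin N} {w : V}
    (hr : X.P.rg w = some (n, false)) (hcv : Cvr G X d n false w)
    (hζ0 : 0 < (S (X.sc n)).ζ) (hζ : (S (X.sc n)).ζ ≤ 1 / 10 ^ 5)
    (hθ : (S (X.sc n)).θ ≤ 1 / 10 ^ 6) (hd : (10000 : ℝ) ≤ d) :
    (19 : ℝ) / 100 * d ≤ (((nb G w ∩ sV X.P n false).filter (fun y =>
      0 ≤ sg (Fp (xt G X) X t n) (sdn X.P n) (t w y) ∧
      ∃ y', y' ∈ sV X.P n true ∧ G.Adj (pr w) y' ∧ t (pr w) y' = t w y ∧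
        m (pr w) ∉ Ft (xt G X) t y')).card : ℝ) := by
  have D := hX.pc.toPcD
  have hd1 : 1 ≤ d := by
    have : (1 : ℝ) ≤ d := by linarith
    exact_mod_cast this
  have hpr := hX.aux.prr w n hr
  have hprV := (D.rgT _ _ _ hpr).1
  have hinj : ∀ v, v ∈ X.P.V0 → Set.InjOn (t v) (nb G v : Set V) := by
    intro v hv
    have := hX.pre.inj v
    rw [g7V0 hv] at this
    exact this
  have hlt : ∀ v, v ∈ X.P.V0 → ∀ y ∈ nb G v, t v y < d + 2 := by
    intro v hv y hy
    rw [← g7V0 hv] at hy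
    exact hX.pre.lt v y (mem_nb.1 hy)
  set Y := nb G w ∩ sV X.P n false with hYdef
  set Z := (nb G (pr w) ∩ sV X.P n true).filter (fun y => m (pr w) ∉ Ft (xt G X) t y) with hZdef
  set K6 := range (d + 2) \ Z.image (t (pr w)) with hK6
  set Kn := (range (d + 2)).filter (fun b => sg (Fp (xt G X) X t n) (sdn X.P n) b < 0) with hKn
  -- the partner
  have hZ1 : (nb G (pr w) ∩ sV X.P n true).card ≤ Z.card +
      ((nb G (pr w) ∩ sV X.P n true).filter (fun y => m (pr w) ∈ Ft (xt G X) t y)).card := by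
    have h := card_filter_add_card_filter_not (s := nb G (pr w) ∩ sV X.P n true)
      (fun y => m (pr w) ∈ Ft (xt G X) t y)
    rw [hZdef]
    omega
  have hZ2 : (((nb G (pr w) ∩ sV X.P n true).filter
      (fun y => m (pr w) ∈ Ft (xt G X) t y)).card : ℝ) ≤ 120 * (S (X.sc n)).θ * d :=
    ft_card hX hcv.2.1 true _ _ inter_subset_right
  have hZ3 : (nb G (pr w) ∩ sV X.P n true).card + (nb G (pr w) \ sV X.P n true).card = d := by
    rw [card_inter_add_card_sdiff, D.reg]
  have hZ4 := (D.rgd _ _ _ hpr).1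
  have hZ5 : (Z.image (t (pr w))).card = Z.card := by
    refine card_image_of_injOn ((hinj _ hprV).mono ?_)
    intro y hy
    exact (mem_inter.1 (mem_filter.1 hy).1).1
  have hZ6 : Z.image (t (pr w)) ⊆ range (d + 2) := by
    intro b hb
    obtain ⟨y, hy, rfl⟩ := mem_image.1 hb
    exact mem_range.2 (hlt _ hprV y (mem_inter.1 (mem_filter.1 hy).1).1)
  have hK6c : K6.card + Z.card = d + 2 := by
    rw [hK6, ← hZ5, card_sdiff_add_card_eq_card hZ6, card_range]
  -- negative numbers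
  have hKn1 : Kn.card ≤ ∑ b ∈ range (d + 2), no G X t (dlt G d X m m2 pr) n false b +
      (Km G d X m m2 n).card := by
    have h1 : Kn ⊆ ((range (d + 2)).filter fun b =>
        1 ≤ no G X t (dlt G d X m m2 pr) n false b) ∪ Km G d X m m2 n := by
      intro b hb
      obtain ⟨hb1, hb2⟩ := mem_filter.1 hb
      by_cases hb3 : b ∈ Km G d X m m2 n
      · exact mem_union_right _ hb3
      · refine mem_union_left _ (mem_filter.2 ⟨hb1, ?_⟩)
        have z1 := dlt_zero hX hS hd1 hb3 false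
        have z2 := dlt_zero hX hS hd1 hb3 true
        rw [sg_uu] at hb2
        unfold no
        rw [ub_uu, ub_uu, z1, Bool.not_false, z2]
        omega
    have h2 : ((range (d + 2)).filter fun b =>
        1 ≤ no G X t (dlt G d X m m2 pr) n false b).card ≤
        ∑ b ∈ range (d + 2), no G X t (dlt G d X m m2 pr) n false b := by
      rw [card_eq_sum_ones]
      exact (sum_le_sum fun b hb => (mem_filter.1 hb).2).trans
        (sum_le_sum_of_subset (filter_subset _ _))
    have h3 := (card_le_card h1).trans (card_union_le _ _)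
    omega
  have hKn2 : (Kn.card : ℝ) ≤ (4 / 5 + 1 / 1000) * ((sV X.P n false).card : ℝ) +
      4 * (S (X.sc n)).θ * d := by
    have h1 := hX.pre.totR n hcv.2.1 false
    have h2 := Km_card hX hS hd1 n
    have h3 : (Kn.card : ℝ) ≤
        ((∑ b ∈ range (d + 2), no G X t (dlt G d X m m2 pr) n false b : ℕ) : ℝ) +
        (Km G d X m m2 n).card := by exact_mod_cast hKn1
    linarith
  -- the count
  have hmain : Y.card ≤ (Y.filter (fun y =>
      0 ≤ sg (Fp (xt G X) X t n) (sdn X.P n) (t w y) ∧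
      ∃ y', y' ∈ sV X.P n true ∧ G.Adj (pr w) y' ∧ t (pr w) y' = t w y ∧
        m (pr w) ∉ Ft (xt G X) t y')).card + (Kn.card + K6.card) := by
    have hi : Set.InjOn (t w) (Y : Set V) := (hinj w hcv.1).mono fun y hy => (mem_inter.1 hy).1
    have h1 := col_card Y (t w) hi Kn
    have h2 := col_card Y (t w) hi K6
    refine le_trans ?_ (Nat.add_le_add_left (Nat.add_le_add h1 h2) _)
    refine (card_le_card ?_).trans ((card_union_le _ _).trans
      (Nat.add_le_add_left (card_union_le _ _) _))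
    intro y hy
    have hyl : t w y < d + 2 := hlt w hcv.1 y (mem_inter.1 hy).1
    rw [mem_union, mem_union]
    by_cases hn : t w y ∈ Kn
    · exact Or.inr (Or.inl (mem_filter.2 ⟨hy, hn⟩))
    by_cases h6 : t w y ∈ K6
    · exact Or.inr (Or.inr (mem_filter.2 ⟨hy, h6⟩))
    left
    refine mem_filter.2 ⟨hy, ?_, ?_⟩
    · by_contra hcon
      push Not at hcon
      exact hn (mem_filter.2 ⟨mem_range.2 hyl, hcon⟩)
    · rw [hK6, mem_sdiff] at h6
      push Not at h6
      obtain ⟨y', hy', he⟩ := mem_image.1 (h6 (mem_range.2 hyl))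
      rw [hZdef, mem_filter, mem_inter] at hy'
      exact ⟨y', hy'.1.2, mem_nb.1 hy'.1.1, he, hy'.2⟩
  have h10 := (D.rgd _ _ _ hr).2
  have h11 : (sV X.P n false).card = Y.card + (sV X.P n false \ nb G w).card := by
    rw [hYdef, inter_comm, card_inter_add_card_sdiff]
  have h12 := g1' D hcv.2.1 false
  have hmainR : (Y.card : ℝ) ≤ (((Y.filter (fun y =>
      0 ≤ sg (Fp (xt G X) X t n) (sdn X.P n) (t w y) ∧
      ∃ y', y' ∈ sV X.P n true ∧ G.Adj (pr w) y' ∧ t (pr w) y' = t w y ∧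
        m (pr w) ∉ Ft (xt G X) t y')).card : ℕ) : ℝ) + ((Kn.card : ℝ) + (K6.card : ℝ)) := by
    exact_mod_cast hmain
  have h11R : ((sV X.P n false).card : ℝ) = (Y.card : ℝ) + ((sV X.P n false \ nb G w).card : ℝ) := by
    exact_mod_cast h11
  have hK6R : (K6.card : ℝ) + (Z.card : ℝ) = (d : ℝ) + 2 := by exact_mod_cast hK6c
  have hZ1R : ((nb G (pr w) ∩ sV X.P n true).card : ℝ) ≤ (Z.card : ℝ) +
      (((nb G (pr w) ∩ sV X.P n true).filter (fun y => m (pr w) ∈ Ft (xt G X) t y)).card : ℝ) := by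
    exact_mod_cast hZ1
  have hZ3R : ((nb G (pr w) ∩ sV X.P n true).card : ℝ) +
      ((nb G (pr w) \ sV X.P n true).card : ℝ) = (d : ℝ) := by exact_mod_cast hZ3
  have e1 : (S (X.sc n)).ζ * d ≤ 1 / 10 ^ 5 * d := mul_le_mul_of_nonneg_right hζ (by linarith)
  have e2 : (S (X.sc n)).θ * d ≤ 1 / 10 ^ 6 * d := mul_le_mul_of_nonneg_right hθ (by linarith)
  linarith

end

/-- LST, block of RGX4 -/
theorem stmt_LST (hK0 : Stmt_K0.{u}) : Stmt_LST.{u} := by
  intro πk C g z τ e M J S c' hc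
  obtain ⟨d1, hK0'⟩ := hK0 πk C g z τ e M J S c' hc
  refine ⟨max d1 10000, ?_⟩
  intro V _ N G d X A t c m m2 pr θk θ' η hd hX w hw
  obtain ⟨n, β, hcv⟩ := hw
  have hcov : Cov G X d w := ⟨n, β, hcv⟩
  have hd1 : d1 ≤ d := (le_max_left _ _).trans hd
  have hdR : (10000 : ℝ) ≤ d := by exact_mod_cast (le_max_right _ _).trans hd
  have hd0 : 1 ≤ d := by
    have : 10000 ≤ d := (le_max_right _ _).trans hd
    omega
  obtain ⟨hπ1, hπ2, hC, _, _, _, _, _, _, _, hS⟩ := hc
  have hs := hS (X.sc n)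
  have D := hX.pc.toPcD
  have hζ : (S (X.sc n)).ζ ≤ 1 / 1000 := hs.ζ1.trans (by norm_num)
  have hθ : (S (X.sc n)).θ ≤ 1 / 10 ^ 11 := by
    have h1 := hs.θ1
    have h2 : (S (X.sc n)).ζ ^ 2 ≤ 1 := by
      have := hs.ζp
      have := hs.ζ1
      nlinarith
    linarith
  have hθd : (S (X.sc n)).θ * d ≤ 1 / 10 ^ 11 * d := mul_le_mul_of_nonneg_right hθ (by linarith)
  have hinj : Set.InjOn (t w) (nb G w : Set V) := by
    have := hX.pre.inj w
    rw [g7V0 hcv.1] at this
    exact this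
  have hlt : ∀ y ∈ nb G w, t w y < d + 2 := by
    intro y hy
    rw [← g7V0 hcv.1] at hy
    exact hX.pre.lt w y (mem_nb.1 hy)
  -- what is left after the conditions with `mo` and `rg`
  set Y' := (nb G w ∩ sV X.P n β).filter (fun y => mo X m m2 pr w ∉ A.Q (X.P.pt y) ∧
    (X.P.rg w = some (n, false) → 0 ≤ sg (Fp (xt G X) X t n) (sdn X.P n) (t w y) ∧
      ∃ y', y' ∈ sV X.P n true ∧ G.Adj (pr w) y' ∧ t (pr w) y' = t w y ∧
        m (pr w) ∉ Ft (xt G X) t y')) with hY'
  have hPTrg : PT X pr w → X.P.rg w ≠ some (n, false) := by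
    rintro ⟨w0, n0, h1, h2⟩ h3
    have h4 := hX.aux.prr w0 n0 h1
    rw [h2, h3] at h4
    simp at h4
  have hY'c : (19 : ℝ) / 100 * d ≤ (Y'.card : ℝ) := by
    by_cases hr : X.P.rg w = some (n, false)
    · have hcf : Cvr G X d n false w := by
        refine ⟨hcv.1, hcv.2.1, ?_⟩
        have h1 := (D.rgd _ _ _ hr).2
        have h2 : (S (X.sc n)).ζ * d ≤ 1 / 1000 * d := mul_le_mul_of_nonneg_right hζ (by linarith)
        linarith
      have hβ : β = false := (g6c D hd0 hζ hζ hcv hcf).2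
      subst hβ
      have h1 := lst_rig hX hS hr hcf hs.ζp hs.ζ1 (hθ.trans (by norm_num)) hdR
      refine h1.trans ?_
      have hmo : mo X m m2 pr w = m w := by
        unfold mo
        rw [if_neg fun h => hPTrg h hr]
      have : ((nb G w ∩ sV X.P n false).filter (fun y =>
          0 ≤ sg (Fp (xt G X) X t n) (sdn X.P n) (t w y) ∧
          ∃ y', y' ∈ sV X.P n true ∧ G.Adj (pr w) y' ∧ t (pr w) y' = t w y ∧
            m (pr w) ∉ Ft (xt G X) t y')) ⊆ Y' := by
        intro y hy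
        rw [mem_filter] at hy
        rw [hY', mem_filter, hmo]
        exact ⟨hy.1, (hX.pre.mm w hcov).2.2 _, fun _ => hy.2⟩
      exact_mod_cast card_le_card this
    · have h1 := lst_half hX.pc hcv hζ (by linarith) A.Q hX.pa.QQ (mo X m m2 pr w)
      have : ((nb G w ∩ sV X.P n β).filter (fun y => mo X m m2 pr w ∉ A.Q (X.P.pt y))) ⊆ Y' := by
        intro y hy
        rw [mem_filter] at hy
        rw [hY', mem_filter]
        exact ⟨hy.1, hy.2, fun h => absurd h hr⟩
      have h2 : (((nb G w ∩ sV X.P n β).filter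
          (fun y => mo X m m2 pr w ∉ A.Q (X.P.pt y))).card : ℝ) ≤ (Y'.card : ℝ) := by
        exact_mod_cast card_le_card this
      linarith
  -- colours with large signed numbers
  set Tn : ℕ := ⌊1000 * (C + 5) - 2⌋₊ with hTn
  have hTn1 : 1000 * (C + 5) - 3 < (Tn : ℝ) := by
    have := Nat.lt_floor_add_one (1000 * (C + 5) - 2)
    rw [← hTn] at this
    linarith
  have hTn2 : (Tn : ℝ) ≤ 1000 * (C + 5) - 2 := Nat.floor_le (by linarith)
  set K3 : Bool → Finset ℕ := fun i => (range (d + 2)).filter (fun b =>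
    Tn < no G X t (dlt G d X m m2 pr) n i b) with hK3
  have hK3c : ∀ i, ((K3 i).card : ℝ) ≤ 1 / 10 ^ 7 * d := by
    intro i
    have h1 := hX.pre.excR n hcv.2.1 i
    have h2 := large_few (fun b => no G X t (dlt G d X m m2 pr) n i b) (range (d + 2)) Tn 8
    have h3 := pV_card D (by linarith) n
    have h8 : 8 ≤ Tn := by
      have : (8 : ℝ) ≤ Tn := by linarith
      exact_mod_cast this
    have h4 : ((K3 i).card : ℝ) * (1000 * C) ≤ ((K3 i).card : ℝ) * ((Tn : ℝ) - 8) :=
      mul_le_mul_of_nonneg_left (by linarith) (Nat.cast_nonneg _)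
    have h5 : ((K3 i).card : ℝ) * ((Tn : ℝ) - 8) ≤
        ((∑ b ∈ range (d + 2), (no G X t (dlt G d X m m2 pr) n i b - 8) : ℕ) : ℝ) := by
      have : ((Tn - 8 : ℕ) : ℝ) = (Tn : ℝ) - 8 := by
        rw [Nat.cast_sub h8]
        norm_num
      rw [← this]
      exact_mod_cast h2
    have h6 : 3 * (1 - 3 * πk) / 10 ^ 7 * ((pV X.P n).card : ℝ) ≤ 1 / 10 ^ 6 * (C * d) := by
      refine mul_le_mul ?_ h3 (Nat.cast_nonneg _) (by norm_num)
      rw [div_le_div_iff₀ (by norm_num) (by norm_num)]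
      linarith
    have h7 : C * (((K3 i).card : ℝ) * 1000) ≤ C * (1 / 10 ^ 6 * d) := by linarith
    have h9 := le_of_mul_le_mul_left h7 (by linarith)
    linarith
  -- colours of the covering vertices
  have hK4c := Km_card hX hS hd0 n
  -- conflicts
  set W5 := univ.filter (fun w' => w' ∈ X.P.V0 ∧ w' ≠ w ∧ CgR τ (x0 c' d) S G d X w w') with hW5
  have hW5c := hK0' G d X θk θ' η hd1 hX.pc w n β hcv
  set K5 := W5.image c with hK5
  have hK5c : (K5.card : ℝ) ≤ 6 / 1000 * d := by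
    have h1 : (K5.card : ℝ) ≤ (W5.card : ℝ) := by exact_mod_cast card_image_le
    exact h1.trans hW5c
  -- the missing colour
  have hB1 : ((Y'.filter (fun y => mo X m m2 pr w ∈ Ft (xt G X) t y)).card : ℝ) ≤
      120 * (S (X.sc n)).θ * d :=
    ft_card hX hcv.2.1 β _ _ ((filter_subset _ _).trans inter_subset_right)
  have hi : Set.InjOn (t w) (Y' : Set V) :=
    hinj.mono fun y hy => (mem_inter.1 (mem_filter.1 hy).1).1
  have hmain : Y'.card ≤ (Lx C τ (x0 c' d) S G d X A t c m m2 pr w).card +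
      ((Y'.filter (fun y => mo X m m2 pr w ∈ Ft (xt G X) t y)).card +
        ((K3 false).card + ((K3 true).card + ((Km G d X m m2 n).card + K5.card)))) := by
    have h1 := col_card Y' (t w) hi (K3 false)
    have h2 := col_card Y' (t w) hi (K3 true)
    have h3 := col_card Y' (t w) hi (Km G d X m m2 n)
    have h4 := col_card Y' (t w) hi K5
    refine le_trans ?_ (Nat.add_le_add_left (Nat.add_le_add_left (Nat.add_le_add h1
      (Nat.add_le_add h2 (Nat.add_le_add h3 h4))) _) _)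
    refine (card_le_card ?_).trans ((card_union_le _ _).trans (Nat.add_le_add_left
      ((card_union_le _ _).trans (Nat.add_le_add_left ((card_union_le _ _).trans
        (Nat.add_le_add_left ((card_union_le _ _).trans (Nat.add_le_add_left
          (card_union_le _ _) _)) _)) _)) _))
    intro y hy
    have hy1 := mem_filter.1 hy
    have hyn := (mem_inter.1 hy1.1).1
    have hyl : t w y < d + 2 := hlt y hyn
    simp only [mem_union, mem_filter]
    by_cases hb1 : mo X m m2 pr w ∈ Ft (xt G X) t y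
    · exact Or.inr (Or.inl ⟨hy, hb1⟩)
    by_cases hb2 : t w y ∈ K3 false
    · exact Or.inr (Or.inr (Or.inl ⟨hy, hb2⟩))
    by_cases hb3 : t w y ∈ K3 true
    · exact Or.inr (Or.inr (Or.inr (Or.inl ⟨hy, hb3⟩)))
    by_cases hb4 : t w y ∈ Km G d X m m2 n
    · exact Or.inr (Or.inr (Or.inr (Or.inr (Or.inl ⟨hy, hb4⟩))))
    by_cases hb5 : t w y ∈ K5
    · exact Or.inr (Or.inr (Or.inr (Or.inr (Or.inr ⟨hy, hb5⟩))))
    left
    unfold Lx
    rw [mem_filter]
    refine ⟨mem_univ _, n, β, hcv, (mem_inter.1 hy1.1).2, mem_nb.1 hyn, hb1, hy1.2.1, ?_, ?_, ?_,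
      hy1.2.2⟩
    · have z1 := dlt_zero hX hS hd0 hb4 false
      have z2 := dlt_zero hX hS hd0 hb4 true
      have b2 : ¬ Tn < no G X t (dlt G d X m m2 pr) n false (t w y) :=
        fun h => hb2 (mem_filter.2 ⟨mem_range.2 hyl, h⟩)
      have b3 : ¬ Tn < no G X t (dlt G d X m m2 pr) n true (t w y) :=
        fun h => hb3 (mem_filter.2 ⟨mem_range.2 hyl, h⟩)
      unfold no at b2 b3
      rw [ub_uu, ub_uu, z1, Bool.not_false, z2] at b2
      rw [ub_uu, ub_uu, z2, Bool.not_true, z1] at b3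
      have h5 : |sg (Fp (xt G X) X t n) (sdn X.P n) (t w y)| ≤ (Tn : ℤ) := by
        rw [sg_uu, abs_le]
        omega
      have h6 : |((sg (Fp (xt G X) X t n) (sdn X.P n) (t w y) : ℤ) : ℝ)| ≤ (Tn : ℝ) := by
        exact_mod_cast h5
      exact h6.trans hTn2
    · intro a β' ha
      have haR : a ∈ univ.filter (fun a => ∃ β', Cvr G X d n β' a) :=
        mem_filter.2 ⟨mem_univ _, β', ha⟩
      constructor
      · intro h
        exact hb4 (mem_union_left _ (mem_image.2 ⟨a, haR, h.symm⟩))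
      · intro h
        exact hb4 (mem_union_right _ (mem_image.2 ⟨a, haR, h.symm⟩))
    · intro w' hw' hnc hcg h
      refine hb5 (mem_image.2 ⟨w', mem_filter.2 ⟨mem_univ _, hw', ?_, hcg⟩, h.symm⟩)
      rintro rfl
      exact hnc hcov
  have hmainR : (Y'.card : ℝ) ≤ ((Lx C τ (x0 c' d) S G d X A t c m m2 pr w).card : ℝ) +
      (((Y'.filter (fun y => mo X m m2 pr w ∈ Ft (xt G X) t y)).card : ℝ) +
        (((K3 false).card : ℝ) + (((K3 true).card : ℝ) + (((Km G d X m m2 n).card : ℝ) +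
          (K5.card : ℝ))))) := by
    exact_mod_cast hmain
  have h1 := hK3c false
  have h2 := hK3c true
  linarith

end Pool.Agent.Work.MP_db9399_iv_helper38
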