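import Pool.Agent.Work.MP_db9399_iv_helper38.RXB
import Pool.Agent.Work.MP_db9399_iv_helper38.RXC
import Pool.Agent.Work.MP_db9399_iv_helper38.RXL
import Pool.Agent.Work.MP_db9399_rg_helper23.V1
import Pool.Agent.Work.MP_db9399_rg_helper44.Tst

/-!
# MP_db9399, all scales, block RGX4: assembly (helper38)

`stmt_RGX4 : Stmt_K0 → Stmt_RECX → Stmt_V24 → Stmt_V34 → Stmt_RGX4`.
-/

set_option autoImplicit false

namespace Pool.Agent.Work.MP_db9399_iv_helper38

open Finset Classical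
open Pool.Agent.Work.MP_db9399_all (nb)
open Pool.Agent.Work.MP_db9399_lt (us)
open Pool.Agent.Work.MP_db9399_da (Pcs Ty pV sV Ts sdn ptn sgp sg sid need thin)
open Pool.Agent.Work.MP_db9399_xf
open Pool.Agent.Work.MP_db9399_x4
open Pool.Agent.Work.MP_db9399_rg_helper42 (g6a g6c g6d g7V0 g7m2)

universe u

/-- the thresholds of RGX4 -/
noncomputable def Trg (πk τ : ℝ) : Thr where
  π0 _ := 1
  κ0 _ _ := 1
  ε0 _ _ _ := 1
  ζ0 _ _ _ _ := 1 / 10 ^ 5
  θ0 _ _ _ _ ζ := min (ζ ^ 2 / 10 ^ 11) (min (τ / 10 ^ 6) ((1 - 3 * πk) / 10 ^ 8))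

theorem Trg_pos {πk τ : ℝ} (h : πk < 1 / 3) (hτ : 0 < τ) : (Trg πk τ).Pos where
  π0 _ _ := one_pos
  κ0 _ _ _ _ := one_pos
  ε0 _ _ _ _ _ _ := one_pos
  ζ0 _ _ _ _ _ _ _ _ := by
    show (0 : ℝ) < 1 / 10 ^ 5
    norm_num
  θ0 _ _ _ _ ζ _ _ _ _ hζ := by
    show (0 : ℝ) < min (ζ ^ 2 / 10 ^ 11) (min (τ / 10 ^ 6) ((1 - 3 * πk) / 10 ^ 8))
    refine lt_min (by positivity) (lt_min (by positivity) ?_)
    have : 0 < 1 - 3 * πk := by linarith
    positivity

theorem sml_of_adm {πk τ : ℝ} {s : Scl} (h : Adm (Trg πk τ) s) : Sml πk τ s where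
  ζp := h.ζ.1
  ζ1 := h.ζ.2
  θp := h.θ.1
  θ1 := h.θ.2.trans (min_le_left _ _)
  θ2 := h.θ.2.trans ((min_le_right _ _).trans (min_le_left _ _))
  θ3 := h.θ.2.trans ((min_le_right _ _).trans (min_le_right _ _))

/-- a small number -/
theorem ex_small {J : ℕ} (S : Fin J → Scl) {τ : ℝ} (hτ : 0 < τ) (hS : ∀ s, 0 < (S s).ζ) :
    ∃ u : ℝ, 0 < u ∧ (∀ s, u ≤ (S s).ζ / 1000) ∧ u ≤ τ := by
  by_cases hJ : (univ : Finset (Fin J)).Nonempty
  · obtain ⟨s0, _, h⟩ := exists_min_image univ (fun s => (S s).ζ) hJ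
    refine ⟨min ((S s0).ζ / 1000) τ, lt_min (div_pos (hS s0) (by norm_num)) hτ, fun s => ?_,
      min_le_right _ _⟩
    exact (min_le_left _ _).trans (div_le_div_of_nonneg_right (h s (mem_univ _)) (by norm_num))
  · refine ⟨τ, hτ, fun s => absurd ⟨s, mem_univ _⟩ hJ, le_rfl⟩

section
variable {V : Type u} [Fintype V] {N J : ℕ} {C g z θk θ' η a : ℝ} {M : ℕ} {S : Fin J → Scl}
  {G : SimpleGraph V} {d : ℕ} {X : XD V N J}

/-- injections between finite sets -/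
theorem ex_inj {α : Type u} (A B : Finset α) (h : A.card ≤ B.card) :
    ∃ f : α → α, (∀ a ∈ A, f a ∈ B) ∧ ∀ a ∈ A, ∀ a' ∈ A, f a = f a' → a = a' := by
  have h1 : Fintype.card {x // x ∈ A} ≤ Fintype.card {x // x ∈ B} := by
    rw [Fintype.card_coe, Fintype.card_coe]
    exact h
  obtain ⟨e⟩ := Function.Embedding.nonempty_of_card_le h1
  refine ⟨fun a => if h : a ∈ A then (e ⟨a, h⟩).1 else a, ?_, ?_⟩
  · intro a ha
    beta_reduce
    rw [dif_pos ha]
    exact (e ⟨a, ha⟩).2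
  · intro a ha a' ha' he
    beta_reduce at he
    rw [dif_pos ha, dif_pos ha'] at he
    exact congrArg Subtype.val (e.injective (Subtype.ext he))

/-- the partners -/
theorem ex_pr (D : PcD C g z θk θ' η a M S G d X) : ∃ pr : V → V,
    (∀ w n, X.P.rg w = some (n, false) → X.P.rg (pr w) = some (n, true)) ∧
    ∀ w w' n, X.P.rg w = some (n, false) → X.P.rg w' = some (n, false) → pr w = pr w' →
      w = w' := by
  have h1 : ∀ n, ∃ f : V → V, (∀ a ∈ univ.filter (fun w => X.P.rg w = some (n, false)),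
      f a ∈ univ.filter (fun w => X.P.rg w = some (n, true))) ∧
      ∀ a ∈ univ.filter (fun w => X.P.rg w = some (n, false)),
      ∀ a' ∈ univ.filter (fun w => X.P.rg w = some (n, false)), f a = f a' → a = a' := by
    intro n
    refine ex_inj _ _ ?_
    by_cases hB : X.P.ty n = Ty.B
    · exact D.rgp n hB
    · have : univ.filter (fun w => X.P.rg w = some (n, false)) = ∅ := by
        rw [filter_eq_empty_iff]
        intro w _ h
        exact hB (D.rgT w n false h).2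
      rw [this, card_empty]
      exact Nat.zero_le _
  choose F hF1 hF2 using h1
  refine ⟨fun w => match X.P.rg w with
    | some (n, _) => F n w
    | none => w, ?_, ?_⟩
  · intro w n h
    have h2 := (mem_filter.1 (hF1 n w (mem_filter.2 ⟨mem_univ _, h⟩))).2
    simp only [h]
    exact h2
  · intro w w' n h h' he
    simp only [h, h'] at he
    exact hF2 n w (mem_filter.2 ⟨mem_univ _, h⟩) w' (mem_filter.2 ⟨mem_univ _, h'⟩) he

end

theorem stmt_RGX4 (hK0 : Stmt_K0.{u}) (hRec : Stmt_RECX.{u}) (h24 : Stmt_V24.{u})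
    (h34 : Stmt_V34.{u}) : Stmt_RGX4.{u} := by
  intro πk C g z τ e M hπ hπ' hC hg hg' hz hz' hτ hτe
  refine ⟨Trg πk τ, Trg_pos hπ' hτ, ?_⟩
  intro J S c' hAdm hc' hc2
  have hS : ∀ s, Sml πk τ (S s) := fun s => sml_of_adm (hAdm s)
  have hCst : Cst πk C g z τ e S c' := ⟨hπ, hπ', hC, hg, hg', hz, hz', hτ, hτe, hc', hS⟩
  obtain ⟨u, hu, hu1, hu2⟩ := ex_small S hτ (fun s => (hS s).ζp)
  obtain ⟨d1, hd1⟩ := hRec πk C g z τ e M J S c' hCst
  obtain ⟨d2, hd2⟩ := stmt_CHO hK0 (stmt_LST hK0)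
    Pool.Agent.Work.MP_db9399_rg_helper44.stmt_TST πk C g z τ e M J S c' u hCst hu
  obtain ⟨d3, hd3⟩ := Pool.Agent.Work.MP_db9399_rg_helper23.stmt_V1 πk C g z τ e M J S c' u
    hCst hu1 hu2
  obtain ⟨d4, hd4⟩ := h24 πk C g z τ e M J S c' u hCst hc2
  obtain ⟨d5, hd5⟩ := h34 πk C g z τ e M J S c' u hCst
  refine ⟨max (max d1 d2) (max (max d3 d4) (max d5 1)), ?_⟩
  intro V _ N G d X A t c m θk θ' η hd hPc hPa hPre
  have a1 : d1 ≤ d := (le_max_left _ _).trans ((le_max_left _ _).trans hd)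
  have a2 : d2 ≤ d := (le_max_right _ _).trans ((le_max_left _ _).trans hd)
  have a3 : d3 ≤ d := (le_max_left _ _).trans ((le_max_left _ _).trans ((le_max_right _ _).trans hd))
  have a4 : d4 ≤ d := (le_max_right _ _).trans ((le_max_left _ _).trans
    ((le_max_right _ _).trans hd))
  have a5 : d5 ≤ d := (le_max_left _ _).trans ((le_max_right _ _).trans
    ((le_max_right _ _).trans hd))
  have a6 : 1 ≤ d := (le_max_right _ _).trans ((le_max_right _ _).trans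
    ((le_max_right _ _).trans hd))
  have D := hPc.toPcD
  -- second missing colours, partners
  have hm2 : ∀ w, ∃ m2, Cov G X d w → m2 < d + 2 ∧ m2 ∉ Ft (xt G X) t w ∧ m2 ≠ m w := by
    intro w
    by_cases hw : Cov G X d w
    · obtain ⟨n, β, h⟩ := hw
      obtain ⟨m2, h1, h2, h3, _⟩ := g7m2 D h.1 (hPre.lt w) (hPre.inj w)
        (hPre.mm w ⟨n, β, h⟩).1 (hPre.mm w ⟨n, β, h⟩).2.1
      exact ⟨m2, fun _ => ⟨h1, h2, h3⟩⟩
    · exact ⟨0, fun h => absurd h hw⟩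
  choose m2 hm2 using hm2
  obtain ⟨pr, hpr1, hpr2⟩ := ex_pr D
  have hAux : AuxP G d X t m m2 pr := ⟨fun w h => (hm2 w h).1, fun w h => (hm2 w h).2.1,
    fun w h => (hm2 w h).2.2, hpr1, hpr2⟩
  obtain ⟨t', ht', hPR⟩ := hd1 G d X A t c m m2 pr θk θ' η a1 hPc hPa hPre hAux
  have hFt : ∀ w, w ∈ X.P.V0 → Ft (xt G X) t' w = Ft (xt G X) t w := by
    intro w hw
    ext b
    rw [mem_Ft, mem_Ft]
    have h1 : ∀ y, t' w y = t w y := fun y => ht' w y (fun h => h.2.1.1 hw)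
    simp only [h1]
  have hAux' : AuxP G d X t' m m2 pr := by
    refine ⟨fun w h => (hm2 w h).1, fun w h => ?_, fun w h => (hm2 w h).2.2, hpr1, hpr2⟩
    obtain ⟨n, β, h'⟩ := h
    rw [hFt w h'.1]
    exact (hm2 w ⟨n, β, h'⟩).2.1
  have K : Ctx πk C g z τ e M S c' θk θ' η G d X A t' c m m2 pr := ⟨hPc, hPa, hPR, hAux'⟩
  obtain ⟨f, P⟩ := hd2 G d X A t' c m m2 pr θk θ' η a2 K
  have B := basx K hS a6 P
  have B4 := bas4 K hS a6 P
  obtain ⟨r1, r2⟩ := hd3 G d X A t' c m m2 pr f θk θ' η a3 K P B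
  obtain ⟨r3, r4, r5⟩ := hd4 G d X A t' c m m2 pr f θk θ' η a4 K P B4
  have r6 := hd5 G d X A t' c m m2 pr f θk θ' η a5 K P B4
  refine ⟨tn G d X t' m m2 pr f, cn G d X t' c f, fun _ => ∅, ?_⟩
  refine { toTcX := r1, toOwX := r2, toNuN := r3, toNuB := r4, cvt := r5, rgF := ?_, exn := ?_,
           tame := ?_ }
  · intro n w h
    exact rgF_new K hS a6 P h
  · intro n _ b
    simp
  · intro v w b h1 h2 h3 h4 _ _ h5 h6
    exact r6 v w b h1 h2 h3 h4 h5 h6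

end Pool.Agent.Work.MP_db9399_iv_helper38
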