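import Pool.Agent.Work.MP_db9399_iv_helper38.RGX4
import Pool.Agent.Work.MP_db9399_rg_helper30.V24
import Pool.Agent.Work.MP_db9399_rg_helper38.K0
import Pool.Agent.Work.MP_db9399_rg_helper54.RECX
import Pool.Agent.Work.MP_db9399_rg_helper98.V34

/-!
# MP_db9399, all scales: block RGX4 complete (helper38)

`Stmt_RGX4` from K0, RECX (helper54), V24 (helper30), V34 (helper98), without hypotheses.
-/

set_option autoImplicit false

namespace Pool.Agent.Work.MP_db9399_iv_helper38

universe u

theorem rgx4 : MP_db9399_x4.Stmt_RGX4.{u} :=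
  stmt_RGX4 MP_db9399_rg_helper38.stmt_K0 MP_db9399_rg_helper54.stmt_RECX
    MP_db9399_rg_helper30.stmt_V24 MP_db9399_rg_helper98.stmt_V34

end Pool.Agent.Work.MP_db9399_iv_helper38
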