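import Pool.Agent.Work.MP_db9399_iv_helper38.RLC

/-!
# MP_db9399, all scales: random choice from lists, several kinds of conflicts (helper38)

As RLC, with lists in any type `β`, conflict graphs `Cf k` with values `g k z (f z)` which must be
different (`g k z` injective on the list of `z`).
-/

set_option autoImplicit false

namespace Pool.Agent.Work.MP_db9399_iv_helper38

open Finset Classical
open Pool.Agent.Work.MP_db9399_all (nb pr DepOnI PackI Stmt_LLLI stmt_LLLI)
open Pool.Agent.Work.MP_db9399_cg.helper68 (pr_nonneg pr_zero pr_mono pr_ex' packI_one)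

universe u

theorem RLC.pack_pair' {J : Type u} [Fintype J] {M : ℕ} (hM : 0 < M) {β : Type*} (x y : J)
    (hxy : x ≠ y) (g g' : Fin M → β) (hg' : Function.Injective g') :
    PackI (1 / 4) {x, y} (Real.exp 1 / M) (fun f => g (f x) ≠ g' (f y)) :=
  RLC.pack_pair hM x y hxy g g' hg'

open RLC in
/-- RLC: random choice from lists. -/
theorem rlc2 (A : ℝ) : ∃ d0 : ℕ, ∀ {V τ κ : Type u} {β γ : Type u} [Fintype V] [Fintype τ]
    [Fintype κ] (hβ : Nonempty β) (d : ℕ) (R : Finset V)
    (Cf : κ → SimpleGraph V) (g : κ → V → β → γ) (L : V → Finset β) (B : τ → V → Finset β)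
    (m : τ → ℝ), d0 ≤ d → (∀ z ∈ R, (d : ℝ) / 2 ≤ ((L z).card : ℝ)) →
    (∀ k, ∀ z ∈ R, Set.InjOn (g k z) (L z : Set β)) →
    (∀ z ∈ R, ∑ k, ((nb (Cf k) z ∩ R).card : ℝ) ≤ d / 48) →
    (∀ q, (Real.log d) ^ 2 ≤ m q) →
    (∀ q, ∑ z ∈ R, ((B q z ∩ L z).card : ℝ) ≤ m q * d) →
    (∀ z ∈ R, ((univ.filter fun q => (B q z).Nonempty).card : ℝ) ≤ (d : ℝ) ^ A) →
    ∃ f : V → β, (∀ z ∈ R, f z ∈ L z) ∧
      (∀ k, ∀ z ∈ R, ∀ z' ∈ R, (Cf k).Adj z z' → g k z (f z) ≠ g k z' (f z')) ∧
      ∀ q, ((R.filter fun z => f z ∈ B q z).card : ℝ) ≤ 27 * m q := by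
  -- d ^ A exp (- log² d) → 0
  have hlim : ∀ᶠ d : ℕ in Filter.atTop, (d : ℝ) ^ A * Real.exp (-((Real.log d) ^ 2)) ≤ 1 / 50 ∧
      (100 : ℝ) ≤ d ∧ 1 ≤ Real.log d := by
    have h1 : Filter.Tendsto (fun d : ℕ => Real.log d) Filter.atTop Filter.atTop :=
      Real.tendsto_log_atTop.comp tendsto_natCast_atTop_atTop
    filter_upwards [h1.eventually_ge_atTop (|A| + 4), h1.eventually_ge_atTop 1,
      (tendsto_natCast_atTop_atTop (R := ℝ)).eventually_ge_atTop 100] with d h2 h3 h4
    refine ⟨?_, h4, h3⟩
    have hd : (0 : ℝ) < d := by linarith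
    rw [Real.rpow_def_of_pos hd, ← Real.exp_add]
    have h5 : Real.log d * A + -(Real.log d) ^ 2 ≤ -4 := by
      have h6 : A ≤ |A| := le_abs_self A
      nlinarith
    have h7 : Real.exp (-4 : ℝ) ≤ 1 / 50 := by
      rw [Real.exp_neg, ← one_div]
      refine one_div_le_one_div_of_le (by norm_num) ?_
      have h8 : (2.7182818283 : ℝ) ^ 4 ≤ Real.exp 1 ^ 4 :=
        pow_le_pow_left₀ (by norm_num) Real.exp_one_gt_d9.le 4
      rw [← Real.exp_nat_mul] at h8
      norm_num at h8 ⊢
      linarith
    exact (Real.exp_le_exp.2 h5).trans h7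
  obtain ⟨d0, hd0⟩ := Filter.eventually_atTop.1 hlim
  refine ⟨d0, ?_⟩
  intro V τ κ β γ _ _ _ hβ d R Cf g L B m hd hL hg hC hm hB hS
  obtain ⟨hA, hd100, hlog⟩ := hd0 d hd
  have hdp : (0 : ℝ) < d := by linarith
  set M : ℕ := (d + 1) / 2 with hMd
  have hM2 : (d : ℝ) / 2 ≤ M := by
    have : d ≤ 2 * M := by omega
    have h : (d : ℝ) ≤ 2 * (M : ℝ) := by exact_mod_cast this
    linarith
  have hMpos : 0 < M := by
    have : (0 : ℝ) < M := by linarith
    exact_mod_cast this
  have hM' : (0 : ℝ) < M := by exact_mod_cast hMpos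
  -- sublists of size `M`
  have hsub : ∀ z : V, ∃ e : Fin M → β, z ∈ R → Function.Injective e ∧ ∀ x, e x ∈ L z := by
    intro z
    by_cases hz : z ∈ R
    · have h1 : M ≤ (L z).card := by
        have := hL z hz
        have h2 : (d : ℝ) ≤ 2 * ((L z).card : ℝ) := by linarith
        have h3 : d ≤ 2 * (L z).card := by exact_mod_cast h2
        omega
      obtain ⟨L', hL', hc⟩ := exists_subset_card_eq h1
      have e := L'.equivFinOfCardEq hc
      refine ⟨fun x => (e.symm x).1, fun _ => ⟨?_, fun x => hL' (e.symm x).2⟩⟩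
      intro x x' hxx
      exact e.symm.injective (Subtype.ext hxx)
    · exact ⟨fun _ => hβ.some, fun h => absurd h hz⟩
  choose e he using hsub
  -- tests
  set S0 : τ → Finset V := fun q => R.filter fun z => (B q z).Nonempty with hS0
  set Bb : τ → V → Finset (Fin M) := fun q z => univ.filter fun x => e z x ∈ B q z with hBb
  set sq : τ → ℕ := fun q => ⌊27 * m q⌋₊ + 1 with hsq
  have hmq : ∀ q, 1 ≤ m q := fun q => by
    have := hm q
    nlinarith
  have htest : ∀ q, PackI (1 / 4) (S0 q) (Real.exp (-(sq q : ℝ)))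
      (fun f => ((S0 q).filter fun z => f z ∈ Bb q z).card < sq q) := by
    intro q
    refine pack_test hMpos (S0 q) (Bb q) (sq q) (Nat.succ_pos _) ?_
    have h1 : ∑ z ∈ S0 q, ((Bb q z).card : ℝ) ≤ ∑ z ∈ R, ((B q z ∩ L z).card : ℝ) := by
      refine (sum_le_sum (f := fun z => ((Bb q z).card : ℝ))
        (g := fun z => ((B q z ∩ L z).card : ℝ)) fun z hz => ?_).trans
        (sum_le_sum_of_subset_of_nonneg (filter_subset _ _) fun _ _ _ => Nat.cast_nonneg _)
      have hzR := (mem_filter.1 hz).1
      have h2 : ((Bb q z).image (e z)) ⊆ B q z ∩ L z := by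
        intro b hb
        obtain ⟨x, hx, rfl⟩ := mem_image.1 hb
        exact mem_inter.2 ⟨(mem_filter.1 hx).2, (he z hzR).2 x⟩
      have h3 := card_le_card h2
      rw [card_image_of_injective _ (he z hzR).1] at h3
      exact_mod_cast h3
    have h2 : (27 * m q : ℝ) ≤ sq q := by
      have := (Nat.lt_floor_add_one (27 * m q)).le
      simp only [hsq]
      push_cast
      exact this
    have h3 := hB q
    have h4 : m q * d ≤ m q * (2 * M) := by
      refine mul_le_mul_of_nonneg_left (by linarith) (by linarith [hmq q])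
    have h5 : 27 * m q * M ≤ sq q * M := mul_le_mul_of_nonneg_right h2 hM'.le
    nlinarith [hmq q]
  -- local lemma
  set cp : κ × (V × V) → Prop := fun p => p.2.1 ∈ R ∧ p.2.2 ∈ R ∧ (Cf p.1).Adj p.2.1 p.2.2 with hcp
  obtain ⟨f, hf⟩ := stmt_LLLI V M ((κ × (V × V)) ⊕ τ) (1 / 4)
    (Sum.elim (fun p => if cp p then {p.2.1, p.2.2} else ∅) S0)
    (Sum.elim (fun p => if cp p then Real.exp 1 / M else 0) fun q => Real.exp (-(sq q : ℝ)))
    (Sum.elim (fun p f => cp p → g p.1 p.2.1 (e p.2.1 (f p.2.1)) ≠ g p.1 p.2.2 (e p.2.2 (f p.2.2)))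
      fun q f => ((S0 q).filter fun z => f z ∈ Bb q z).card < sq q)
    hMpos (by norm_num) le_rfl (by
      rintro (p | q)
      · simp only [Sum.elim_inl]
        by_cases hp : cp p
        · rw [if_pos hp, if_pos hp]
          have h1 := pack_pair' hMpos p.2.1 p.2.2 hp.2.2.ne (fun i => g p.1 p.2.1 (e p.2.1 i))
            (fun i => g p.1 p.2.2 (e p.2.2 i)) (fun i j hij =>
              (he p.2.2 hp.2.1).1 (hg p.1 p.2.2 hp.2.1 ((he p.2.2 hp.2.1).2 i)
                ((he p.2.2 hp.2.1).2 j) hij))
          obtain ⟨κ, hκ, Q, E, h2, h3, h4, h5, h6⟩ := h1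
          exact ⟨κ, hκ, Q, E, h2, h3, h4, h5, fun f hf _ => h6 f hf⟩
        · rw [if_neg hp, if_neg hp]
          refine ⟨PEmpty, inferInstance, fun k => k.elim, fun k => k.elim, fun k => k.elim,
            fun k => k.elim, fun k => k.elim, by simp, fun f _ h => absurd h hp⟩
      · simp only [Sum.elim_inr]
        exact htest q) (by
      intro y
      rw [sum_filter, Fintype.sum_sum_type]
      simp only [Sum.elim_inl, Sum.elim_inr]
      have h1 : ∑ p : κ × (V × V), (if y ∈ (if cp p then ({p.2.1, p.2.2} : Finset V) else ∅) then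
          (if cp p then Real.exp 1 / M else 0) else 0) ≤ 227 / 1000 := by
        have e1 : ∀ p : κ × (V × V), (if y ∈ (if cp p then ({p.2.1, p.2.2} : Finset V) else ∅) then
            (if cp p then Real.exp 1 / M else 0) else 0) =
            if cp p ∧ (p.2.1 = y ∨ p.2.2 = y) then Real.exp 1 / M else 0 := by
          intro p
          by_cases hp : cp p
          · rw [if_pos hp, if_pos hp]
            refine if_congr ?_ rfl rfl
            simp only [mem_insert, mem_singleton, hp, true_and, eq_comm (a := y)]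
          · rw [if_neg hp, if_neg (notMem_empty y), if_neg fun h => hp h.1]
        rw [sum_congr rfl fun p _ => e1 p, ← sum_filter, sum_const, nsmul_eq_mul]
        have h2 : ((univ.filter fun p : κ × (V × V) => cp p ∧ (p.2.1 = y ∨ p.2.2 = y)).card : ℝ) ≤
            2 * (d / 48) := by
          by_cases hy : y ∈ R
          · have h3 : (univ.filter fun p : κ × (V × V) => cp p ∧ (p.2.1 = y ∨ p.2.2 = y)) ⊆
                univ.biUnion fun k => ((nb (Cf k) y ∩ R).image fun z => (k, (y, z))) ∪
                  (nb (Cf k) y ∩ R).image fun z => (k, (z, y)) := by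
              rintro ⟨k, a, b⟩ hp
              rw [mem_filter] at hp
              rw [mem_biUnion]
              refine ⟨k, mem_univ _, ?_⟩
              obtain ⟨_, ⟨ha, hb, hab⟩, h | h⟩ := hp
              · simp only at h ha hb hab
                subst h
                refine mem_union_left _ (mem_image.2 ⟨b, mem_inter.2 ⟨?_, hb⟩, rfl⟩)
                simpa [nb] using hab
              · simp only at h ha hb hab
                subst h
                refine mem_union_right _ (mem_image.2 ⟨a, mem_inter.2 ⟨?_, ha⟩, rfl⟩)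
                simpa [nb] using hab.symm
            have h4 : (univ.filter fun p : κ × (V × V) => cp p ∧ (p.2.1 = y ∨ p.2.2 = y)).card ≤
                ∑ k, 2 * (nb (Cf k) y ∩ R).card := by
              refine (card_le_card h3).trans (card_biUnion_le.trans (sum_le_sum fun k _ => ?_))
              have h5 := card_image_le (s := nb (Cf k) y ∩ R) (f := fun z => (k, (y, z)))
              have h6 := card_image_le (s := nb (Cf k) y ∩ R) (f := fun z => (k, (z, y)))
              have h7 := card_union_le ((nb (Cf k) y ∩ R).image fun z => (k, (y, z)))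
                ((nb (Cf k) y ∩ R).image fun z => (k, (z, y)))
              omega
            have h8 : ((univ.filter fun p : κ × (V × V) =>
                cp p ∧ (p.2.1 = y ∨ p.2.2 = y)).card : ℝ) ≤
                2 * ∑ k, ((nb (Cf k) y ∩ R).card : ℝ) := by
              rw [mul_sum]
              exact_mod_cast h4
            linarith [hC y hy]
          · have h3 : (univ.filter fun p : κ × (V × V) => cp p ∧ (p.2.1 = y ∨ p.2.2 = y)) = ∅ := by
              rw [filter_eq_empty_iff]
              rintro ⟨k, a, b⟩ _ ⟨⟨ha, hb, _⟩, h | h⟩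
              · simp only at h ha
                exact hy (h ▸ ha)
              · simp only at h hb
                exact hy (h ▸ hb)
            rw [h3]
            simp only [card_empty, Nat.cast_zero]
            linarith
        have h9 : Real.exp 1 / M ≤ 2.7182818286 / (d / 2) := by
          refine div_le_div₀ (by norm_num) Real.exp_one_lt_d9.le (by linarith) hM2
        calc _ ≤ 2 * ((d : ℝ) / 48) * (2.7182818286 / (d / 2)) :=
              mul_le_mul h2 h9 (by positivity) (by positivity)
          _ ≤ 227 / 1000 := by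
              have : 2 * ((d : ℝ) / 48) * (2.7182818286 / (d / 2)) = 2.7182818286 / 12 := by
                field_simp
                norm_num
              rw [this]
              norm_num
      have h2 : ∑ q : τ, (if y ∈ S0 q then Real.exp (-(sq q : ℝ)) else 0) ≤ 1 / 50 := by
        rw [← sum_filter]
        by_cases hy : y ∈ R
        · have h3 : ∀ q ∈ univ.filter (fun q => y ∈ S0 q),
              Real.exp (-(sq q : ℝ)) ≤ Real.exp (-(Real.log d) ^ 2) := by
            intro q _
            refine Real.exp_le_exp.2 (neg_le_neg ?_)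
            have h4 := (Nat.lt_floor_add_one (27 * m q)).le
            have h5 : (27 * m q : ℝ) ≤ sq q := by
              simp only [hsq]
              push_cast
              exact h4
            linarith [hm q, hmq q]
          refine (sum_le_sum h3).trans ?_
          rw [sum_const, nsmul_eq_mul]
          have h6 : univ.filter (fun q => y ∈ S0 q) ⊆ univ.filter fun q => (B q y).Nonempty := by
            intro q hq
            rw [mem_filter] at hq ⊢
            exact ⟨hq.1, (mem_filter.1 hq.2).2⟩
          have h7 : ((univ.filter (fun q => y ∈ S0 q)).card : ℝ) ≤ (d : ℝ) ^ A :=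
            le_trans (by exact_mod_cast card_le_card h6) (hS y hy)
          exact (mul_le_mul_of_nonneg_right h7 (Real.exp_pos _).le).trans hA
        · rw [filter_false_of_mem]
          · simp
          · intro q _ h
            exact hy (mem_filter.1 h).1
      have h3 := add_le_add h1 h2
      refine le_trans (le_of_eq ?_) (h3.trans (by norm_num))
      congr!)
  refine ⟨fun z => e z (f z), fun z hz => (he z hz).2 _, ?_, ?_⟩
  · intro k z hz z' hz' hzz
    exact hf (Sum.inl (k, (z, z'))) ⟨hz, hz', hzz⟩
  · intro q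
    have h1 : ((S0 q).filter fun z => f z ∈ Bb q z).card < sq q := hf (Sum.inr q)
    have h2 : (R.filter fun z => e z (f z) ∈ B q z) ⊆ (S0 q).filter fun z => f z ∈ Bb q z := by
      intro z hz
      rw [mem_filter] at hz ⊢
      refine ⟨mem_filter.2 ⟨hz.1, ⟨_, hz.2⟩⟩, mem_filter.2 ⟨mem_univ _, hz.2⟩⟩
    have h3 : (R.filter fun z => e z (f z) ∈ B q z).card ≤ ⌊27 * m q⌋₊ := by
      have := card_le_card h2
      simp only [hsq] at h1
      omega
    calc ((R.filter fun z => e z (f z) ∈ B q z).card : ℝ) ≤ (⌊27 * m q⌋₊ : ℝ) := by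
          exact_mod_cast h3
      _ ≤ 27 * m q := Nat.floor_le (by linarith [hmq q])

end Pool.Agent.Work.MP_db9399_iv_helper38
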