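import Pool.Agent.Work.MP_db9399_xf_helper62.XFrame

/-!
# MP_db9399, all scales, block RGX 1 (helper38): recolouring single edges

`mu a y = some b`: the edge `a y` (`a ∈ Z`, `y ∉ Z`) gets the new colour `b`.
-/

set_option autoImplicit false

namespace Pool.Agent.Work.MP_db9399_iv_helper38

open Finset Classical
open Pool.Agent.Work.MP_db9399_all (nb)
open Pool.Agent.Work.MP_db9399_xf (Ft)

universe u

variable {V : Type u}

/-- the new colouring -/
noncomputable def rcl (t : V → V → ℕ) (mu : V → V → Option ℕ) (v w : V) : ℕ :=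
  match mu v w with
  | some b => b
  | none => match mu w v with
    | some b => b
    | none => t v w

/-- Conditions for the changes. -/
structure MuH [Fintype V] (T : SimpleGraph V) (Z : Finset V) (t : V → V → ℕ) (N : ℕ)
    (mu : V → V → Option ℕ) : Prop where
  sym : ∀ v w, t v w = t w v
  lt : ∀ v w, T.Adj v w → t v w < N
  inj : ∀ v, Set.InjOn (t v) (nb T v : Set V)
  ad : ∀ a y b, mu a y = some b → a ∈ Z ∧ y ∉ Z ∧ T.Adj a y ∧ b < N
  fa : ∀ a y b, mu a y = some b → b ∉ Ft T t a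
  fy : ∀ a y b, mu a y = some b → b ∉ Ft T t y
  ia : ∀ a y y' b, mu a y = some b → mu a y' = some b → y = y'
  iy : ∀ a a' y b, mu a y = some b → mu a' y = some b → a = a'

theorem mem_nb {T : SimpleGraph V} [Fintype V] {v w : V} : w ∈ nb T v ↔ T.Adj v w := by simp [nb]

theorem mem_Ft {T : SimpleGraph V} [Fintype V] {t : V → V → ℕ} {v : V} {b : ℕ} :
    b ∈ Ft T t v ↔ ∃ w, T.Adj v w ∧ t v w = b := by
  unfold Ft
  rw [mem_image]
  simp only [mem_nb]

section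
variable [Fintype V] {T : SimpleGraph V} {Z : Finset V} {t : V → V → ℕ} {N : ℕ}
  {mu : V → V → Option ℕ} (H : MuH T Z t N mu)

include H

/-- the value at a changed edge -/
theorem rcl_a {a y : V} {b : ℕ} (h : mu a y = some b) : rcl t mu a y = b := by
  unfold rcl
  rw [h]

theorem rcl_y {a y : V} {b : ℕ} (h : mu a y = some b) : rcl t mu y a = b := by
  have h1 : mu y a = none := by
    by_contra hne
    obtain ⟨b', hb'⟩ := Option.ne_none_iff_exists'.1 hne
    exact (H.ad a y b h).2.1 (H.ad y a b' hb').1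
  unfold rcl
  rw [h1, h]

omit H in
theorem rcl_no {v w : V} (h : mu v w = none) (h' : mu w v = none) : rcl t mu v w = t v w := by
  unfold rcl
  rw [h, h']

theorem rcl_sym (v w : V) : rcl t mu v w = rcl t mu w v := by
  by_cases h : mu v w = none
  · by_cases h' : mu w v = none
    · rw [rcl_no h h', rcl_no h' h, H.sym]
    · obtain ⟨b, hb⟩ := Option.ne_none_iff_exists'.1 h'
      rw [rcl_y H hb, rcl_a H hb]
  · obtain ⟨b, hb⟩ := Option.ne_none_iff_exists'.1 h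
    rw [rcl_y H hb, rcl_a H hb]

/-- trichotomy -/
theorem rcl_cases (v w : V) : (∃ b, mu v w = some b ∧ rcl t mu v w = b) ∨
    (∃ b, mu w v = some b ∧ rcl t mu v w = b) ∨
    (mu v w = none ∧ mu w v = none ∧ rcl t mu v w = t v w) := by
  by_cases h : mu v w = none
  · by_cases h' : mu w v = none
    · exact Or.inr (Or.inr ⟨h, h', rcl_no h h'⟩)
    · obtain ⟨b, hb⟩ := Option.ne_none_iff_exists'.1 h'
      exact Or.inr (Or.inl ⟨b, hb, rcl_y H hb⟩)
  · obtain ⟨b, hb⟩ := Option.ne_none_iff_exists'.1 h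
    exact Or.inl ⟨b, hb, rcl_a H hb⟩

theorem rcl_lt (v w : V) (hvw : T.Adj v w) : rcl t mu v w < N := by
  rcases rcl_cases H v w with ⟨b, h, e⟩ | ⟨b, h, e⟩ | ⟨_, _, e⟩
  · rw [e]
    exact (H.ad _ _ _ h).2.2.2
  · rw [e]
    exact (H.ad _ _ _ h).2.2.2
  · rw [e]
    exact H.lt v w hvw

theorem rcl_inj (v : V) : Set.InjOn (rcl t mu v) (nb T v : Set V) := by
  intro w hw w' hw' he
  have hA : T.Adj v w := mem_nb.1 hw
  have hA' : T.Adj v w' := mem_nb.1 hw'
  rcases rcl_cases H v w with ⟨b, h, e⟩ | ⟨b, h, e⟩ | ⟨h1, h2, e⟩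
  · rcases rcl_cases H v w' with ⟨b', h', e'⟩ | ⟨b', h', e'⟩ | ⟨h1', h2', e'⟩
    · have hbb : b = b' := by rw [← e, ← e', he]
      subst hbb
      exact H.ia v w w' b h h'
    · exact absurd (H.ad _ _ _ h).1 (H.ad _ _ _ h').2.1
    · exfalso
      refine H.fa v w b h (mem_Ft.2 ⟨w', hA', ?_⟩)
      rw [← e', ← he, e]
  · rcases rcl_cases H v w' with ⟨b', h', e'⟩ | ⟨b', h', e'⟩ | ⟨h1', h2', e'⟩
    · exact absurd (H.ad _ _ _ h').1 (H.ad _ _ _ h).2.1
    · have hbb : b = b' := by rw [← e, ← e', he]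
      subst hbb
      exact H.iy w w' v b h h'
    · exfalso
      refine H.fy w v b h (mem_Ft.2 ⟨w', hA', ?_⟩)
      rw [← e', ← he, e]
  · rcases rcl_cases H v w' with ⟨b', h', e'⟩ | ⟨b', h', e'⟩ | ⟨h1', h2', e'⟩
    · exfalso
      refine H.fa v w' b' h' (mem_Ft.2 ⟨w, hA, ?_⟩)
      rw [← e, he, e']
    · exfalso
      refine H.fy w' v b' h' (mem_Ft.2 ⟨w, hA, ?_⟩)
      rw [← e, he, e']
    · refine H.inj v hw hw' ?_
      rw [← e, ← e', he]

/-- a colour which is lost at `v` -/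
theorem ft_lost {v : V} {b : ℕ} (h1 : b ∈ Ft T t v) (h2 : b ∉ Ft T (rcl t mu) v) :
    ∃ w, T.Adj v w ∧ t v w = b ∧ ((mu v w ≠ none) ∨ (mu w v ≠ none)) := by
  obtain ⟨w, hw, hb⟩ := mem_Ft.1 h1
  refine ⟨w, hw, hb, ?_⟩
  by_contra hcon
  push Not at hcon
  refine h2 (mem_Ft.2 ⟨w, hw, ?_⟩)
  rw [rcl_no hcon.1 hcon.2, hb]

/-- a colour which is gained at `v` -/
theorem ft_gain {v : V} {b : ℕ} (h1 : b ∉ Ft T t v) (h2 : b ∈ Ft T (rcl t mu) v) :
    ∃ w, T.Adj v w ∧ (mu v w = some b ∨ mu w v = some b) := by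
  obtain ⟨w, hw, hb⟩ := mem_Ft.1 h2
  refine ⟨w, hw, ?_⟩
  rcases rcl_cases H v w with ⟨b', h, e⟩ | ⟨b', h, e⟩ | ⟨_, _, e⟩
  · left
    rw [h, ← hb, e]
  · right
    rw [h, ← hb, e]
  · exact absurd (mem_Ft.2 ⟨w, hw, by rw [← e, hb]⟩) h1

/-- the old colour of a changed edge is missing at both ends, if it is not gained -/
theorem ft_miss_a {a y : V} (h : mu a y ≠ none) (hg : ∀ y', mu a y' ≠ some (t a y)) :
    t a y ∉ Ft T (rcl t mu) a := by
  intro hb
  obtain ⟨b0, hb0⟩ := Option.ne_none_iff_exists'.1 h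
  have hA := (H.ad _ _ _ hb0).2.2.1
  have haZ := (H.ad _ _ _ hb0).1
  obtain ⟨w, hw, e⟩ := mem_Ft.1 hb
  rcases rcl_cases H a w with ⟨b', h', e'⟩ | ⟨b', h', e'⟩ | ⟨h1, _, e'⟩
  · refine hg w ?_
    rw [h', ← e, e']
  · exact (H.ad _ _ _ h').2.1 haZ
  · have : w = y := H.inj a (mem_nb.2 hw) (mem_nb.2 hA) (by rw [← e', e])
    rw [this] at h1
    exact h h1

theorem ft_miss_y {a y : V} (h : mu a y ≠ none) (hg : ∀ a', mu a' y ≠ some (t a y)) :
    t a y ∉ Ft T (rcl t mu) y := by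
  intro hb
  obtain ⟨b0, hb0⟩ := Option.ne_none_iff_exists'.1 h
  have hA := (H.ad _ _ _ hb0).2.2.1
  have hyZ := (H.ad _ _ _ hb0).2.1
  obtain ⟨w, hw, e⟩ := mem_Ft.1 hb
  rcases rcl_cases H y w with ⟨b', h', e'⟩ | ⟨b', h', e'⟩ | ⟨_, h2, e'⟩
  · exact hyZ (H.ad _ _ _ h').1
  · refine hg w ?_
    rw [h', ← e, e']
  · have : w = a := H.inj y (mem_nb.2 hw) (mem_nb.2 hA.symm) (by rw [← e', e, H.sym])
    rw [this] at h2
    exact h h2

end

end Pool.Agent.Work.MP_db9399_iv_helper38
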