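import Pool.Agent.Work.MP_db9399_iv_helper38.RX1

/-!
# MP_db9399, all scales, block RGX 2 (helper38): the numbers of the colours after recolouring

`Ls n b`: the vertices `a` with a changed edge of old colour `b` to the piece `n`; `Gs n b`: new colour
`b`; `Es n`: the changed edges to the piece `n`.
-/

set_option autoImplicit false

namespace Pool.Agent.Work.MP_db9399_iv_helper38

open Finset Classical
open Pool.Agent.Work.MP_db9399_all (nb)
open Pool.Agent.Work.MP_db9399_lt (us)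
open Pool.Agent.Work.MP_db9399_da
open Pool.Agent.Work.MP_db9399_xf

universe u

/-- number of the elements of `A` outside `B` -/
noncomputable def nsd {α : Type u} (A B : Finset α) : ℕ := (A \ B).card

theorem cnt_chg {α : Type u} (q q' A A' : Finset α) (hd : Disjoint q q') :
    |(((q ∩ A').card : ℤ) - (q' ∩ A').card) - (((q ∩ A).card : ℤ) - (q' ∩ A).card)| ≤
      (nsd A' A : ℤ) + (nsd A A' : ℤ) := by
  have h1 : ∀ r B B' : Finset α, (r ∩ B).card = (r ∩ (B ∩ B')).card + (r ∩ (B \ B')).card := by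
    intro r B B'
    have e : r ∩ B = (r ∩ (B ∩ B')) ∪ (r ∩ (B \ B')) := by
      rw [← inter_union_distrib_left, union_comm, sdiff_union_inter]
    rw [e, card_union_of_disjoint]
    rw [disjoint_left]
    intro x hx hx'
    rw [mem_inter, mem_inter] at hx
    rw [mem_inter, mem_sdiff] at hx'
    exact hx'.2.2 hx.2.2
  have h2 : ∀ B : Finset α, (q ∩ B).card + (q' ∩ B).card ≤ B.card := by
    intro B
    rw [← card_union_of_disjoint]
    · exact card_le_card (union_subset inter_subset_right inter_subset_right)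
    · exact hd.mono inter_subset_left inter_subset_left
  have a1 := h1 q A' A
  have a2 := h1 q' A' A
  have a3 := h1 q A A'
  have a4 := h1 q' A A'
  rw [inter_comm A' A] at a1 a2
  have a5 := h2 (A' \ A)
  have a6 := h2 (A \ A')
  unfold nsd
  rw [abs_le]
  constructor <;> omega

theorem cnt_chg' {α : Type u} (A A' : Finset α) : A'.card ≤ A.card + nsd A' A := by
  have h1 := card_le_card_sdiff_add_card (s := A') (t := A)
  unfold nsd
  omega

section
variable {V : Type u} [Fintype V] {N J : ℕ} {T : SimpleGraph V} {X : XD V N J}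
  {t : V → V → ℕ} {K : ℕ} {mu : V → V → Option ℕ}

/-- old colour `b` -/
noncomputable def Ls (X : XD V N J) (t : V → V → ℕ) (mu : V → V → Option ℕ) (n : Fin N) (b : ℕ) :
    Finset V := univ.filter fun a => ∃ y ∈ pV X.P n, mu a y ≠ none ∧ t a y = b

/-- new colour `b` -/
noncomputable def Gs (X : XD V N J) (mu : V → V → Option ℕ) (n : Fin N) (b : ℕ) :
    Finset V := univ.filter fun a => ∃ y ∈ pV X.P n, mu a y = some b

/-- changed edges at the piece `n` -/
noncomputable def Es (X : XD V N J) (mu : V → V → Option ℕ) (n : Fin N) : Finset (V × V) :=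
  univ.filter fun p => p.2 ∈ pV X.P n ∧ mu p.1 p.2 ≠ none

theorem mem_pV {X : XD V N J} {n : Fin N} {v : V} :
    v ∈ pV X.P n ↔ v ∉ X.P.V0 ∧ X.P.pc v = n := by simp [pV]

theorem mem_sV {X : XD V N J} {n : Fin N} {β : Bool} {v : V} :
    v ∈ sV X.P n β ↔ v ∉ X.P.V0 ∧ X.P.pc v = n ∧ X.P.sd v = β := by simp [sV]

theorem sV_pV {X : XD V N J} {n : Fin N} {β : Bool} : sV X.P n β ⊆ pV X.P n := by
  intro v hv
  rw [mem_sV] at hv
  exact mem_pV.2 ⟨hv.1, hv.2.1⟩

/-- vertices of the piece `n` which lose the colour `b` -/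
noncomputable def LV (T : SimpleGraph V) (X : XD V N J) (t t1 : V → V → ℕ) (n : Fin N) (b : ℕ) :
    Finset V := (pV X.P n).filter fun y => b ∈ Ft T t y ∧ b ∉ Ft T t1 y

theorem LV_le (H : MuH T X.P.V0 t K mu) (n : Fin N) (b : ℕ) :
    (LV T X t (rcl t mu) n b).card ≤ (Ls X t mu n b).card := by
  have h1 : ∀ y ∈ LV T X t (rcl t mu) n b, ∃ w, T.Adj y w ∧ t y w = b ∧ mu w y ≠ none := by
    intro y hy
    obtain ⟨hy1, hy2, hy3⟩ := mem_filter.1 hy
    obtain ⟨w, hw, hb, h⟩ := ft_lost H hy2 hy3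
    refine ⟨w, hw, hb, ?_⟩
    rcases h with h | h
    · obtain ⟨b', hb'⟩ := Option.ne_none_iff_exists'.1 h
      exact absurd (H.ad _ _ _ hb').1 (mem_pV.1 hy1).1
    · exact h
  choose! w hw using h1
  refine card_le_card_of_injOn w ?_ ?_
  · intro y hy
    obtain ⟨h2, h3, h4⟩ := hw y hy
    exact mem_filter.2 ⟨mem_univ _, y, (mem_filter.1 hy).1, h4, by rw [H.sym]; exact h3⟩
  · intro y hy y' hy' he
    obtain ⟨h2, h3, h4⟩ := hw y hy
    obtain ⟨h2', h3', h4'⟩ := hw y' hy'
    rw [← he] at h2' h3'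
    refine H.inj (w y) (mem_nb.2 h2.symm) (mem_nb.2 h2'.symm) ?_
    rw [H.sym (w y) y, H.sym (w y) y', h3, h3']

theorem GV_le (H : MuH T X.P.V0 t K mu) (n : Fin N) (b : ℕ) :
    (LV T X (rcl t mu) t n b).card ≤ (Gs X mu n b).card := by
  have h1 : ∀ y ∈ LV T X (rcl t mu) t n b, ∃ w, mu w y = some b := by
    intro y hy
    obtain ⟨hy1, hy2, hy3⟩ := mem_filter.1 hy
    obtain ⟨w, hw, h⟩ := ft_gain H hy3 hy2
    refine ⟨w, ?_⟩
    rcases h with h | h
    · exact absurd (H.ad _ _ _ h).1 (mem_pV.1 hy1).1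
    · exact h
  choose! w hw using h1
  refine card_le_card_of_injOn w ?_ ?_
  · intro y hy
    exact mem_filter.2 ⟨mem_univ _, y, (mem_filter.1 hy).1, hw y hy⟩
  · intro y hy y' hy' he
    have h2 := hw y hy
    have h2' := hw y' hy'
    rw [← he] at h2'
    exact H.ia _ _ _ _ h2 h2'

theorem mem_us {W : Type u} [Fintype W] {F : W → Finset ℕ} {b : ℕ} {v : W} :
    v ∈ us F b ↔ b ∈ F v := by simp [us]

/-- on the type of the piece -/
theorem us_sdiff (t t1 : V → V → ℕ) (n : Fin N) (b : ℕ) :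
    nsd (us (Fp T X t n) b) (us (Fp T X t1 n) b) = (LV T X t t1 n b).card := by
  unfold nsd
  rw [← card_image_of_injective _ Subtype.val_injective]
  congr 1
  ext v
  simp only [mem_image, mem_sdiff, mem_us, Fp, LV, mem_filter, mem_pV]
  constructor
  · rintro ⟨x, ⟨h1, h2⟩, rfl⟩
    exact ⟨x.2, h1, h2⟩
  · rintro ⟨h0, h1, h2⟩
    exact ⟨⟨v, h0⟩, ⟨h1, h2⟩, rfl⟩

theorem disj_qtr {W : Type u} [Fintype W] (sd pt : W → Bool) (i : Bool) :
    Disjoint (qtr sd pt false i) (qtr sd pt true i) := by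
  rw [disjoint_left]
  intro v hv hv'
  simp only [qtr, mem_filter] at hv hv'
  rw [hv.2.1] at hv'
  exact Bool.false_ne_true hv'.2.1

theorem disj_sid {W : Type u} [Fintype W] (sd : W → Bool) :
    Disjoint (sid sd false) (sid sd true) := by
  rw [disjoint_left]
  intro v hv hv'
  simp only [sid, mem_filter] at hv hv'
  rw [hv.2] at hv'
  exact Bool.false_ne_true hv'.2

theorem sgp_chg (H : MuH T X.P.V0 t K mu) (n : Fin N) (i : Bool) (b : ℕ) :
    |sgp (Fp T X (rcl t mu) n) (sdn X.P n) (ptn X.P n) i b -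
      sgp (Fp T X t n) (sdn X.P n) (ptn X.P n) i b| ≤ (Gs X mu n b).card + (Ls X t mu n b).card := by
  have h1 := cnt_chg (qtr (sdn X.P n) (ptn X.P n) false i) (qtr (sdn X.P n) (ptn X.P n) true i)
    (us (Fp T X t n) b) (us (Fp T X (rcl t mu) n) b) (disj_qtr _ _ _)
  have h2 := GV_le H n b
  have h3 := LV_le H n b
  rw [us_sdiff, us_sdiff] at h1
  exact h1.trans (add_le_add (Nat.cast_le.2 h2) (Nat.cast_le.2 h3))

theorem sg_chg (H : MuH T X.P.V0 t K mu) (n : Fin N) (b : ℕ) :
    |sg (Fp T X (rcl t mu) n) (sdn X.P n) b -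
      sg (Fp T X t n) (sdn X.P n) b| ≤ (Gs X mu n b).card + (Ls X t mu n b).card := by
  have h1 := cnt_chg (sid (sdn X.P n) false) (sid (sdn X.P n) true)
    (us (Fp T X t n) b) (us (Fp T X (rcl t mu) n) b) (disj_sid _)
  have h2 := GV_le H n b
  have h3 := LV_le H n b
  rw [us_sdiff, us_sdiff] at h1
  exact h1.trans (add_le_add (Nat.cast_le.2 h2) (Nat.cast_le.2 h3))

theorem need_chg (H : MuH T X.P.V0 t K mu) (n : Fin N) (β : Bool) (b : ℕ) :
    need (Fp T X (rcl t mu) n) (sdn X.P n) β b ≤ need (Fp T X t n) (sdn X.P n) β b +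
      ((Gs X mu n b).card + (Ls X t mu n b).card) := by
  have h1 := sg_chg H n b
  rw [abs_le] at h1
  unfold sg at h1
  unfold need
  cases β
  · simp only [Bool.not_false]
    omega
  · simp only [Bool.not_true]
    omega

theorem us_chg (H : MuH T X.P.V0 t K mu) (n : Fin N) (b : ℕ) :
    (us (Fp T X (rcl t mu) n) b).card ≤ (us (Fp T X t n) b).card + (Gs X mu n b).card := by
  have h1 := cnt_chg' (us (Fp T X t n) b) (us (Fp T X (rcl t mu) n) b)
  have h2 := GV_le H n b
  rw [us_sdiff] at h1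
  omega

theorem sum_Gs (n : Fin N) (s : Finset ℕ) :
    ∑ b ∈ s, (Gs X mu n b).card ≤ (Es X mu n).card := by
  have h1 : ∀ b ∈ s, (Gs X mu n b).card ≤
      ((Es X mu n).filter fun p => (mu p.1 p.2).getD 0 = b).card := by
    intro b _
    have h2 : Gs X mu n b ⊆
        ((Es X mu n).filter fun p => (mu p.1 p.2).getD 0 = b).image Prod.fst := by
      intro a ha
      obtain ⟨y, hy, h⟩ := (mem_filter.1 ha).2
      refine mem_image.2 ⟨(a, y), mem_filter.2 ⟨mem_filter.2 ⟨mem_univ _, hy, ?_⟩, ?_⟩, rfl⟩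
      · simp [h]
      · simp [h]
    exact (card_le_card h2).trans card_image_le
  refine (sum_le_sum h1).trans ?_
  rw [sum_card_fiberwise_eq_card_filter]
  exact card_filter_le _ _

theorem sum_Ls (n : Fin N) (s : Finset ℕ) :
    ∑ b ∈ s, (Ls X t mu n b).card ≤ (Es X mu n).card := by
  have h1 : ∀ b ∈ s, (Ls X t mu n b).card ≤
      ((Es X mu n).filter fun p => t p.1 p.2 = b).card := by
    intro b _
    have h2 : Ls X t mu n b ⊆
        ((Es X mu n).filter fun p => t p.1 p.2 = b).image Prod.fst := by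
      intro a ha
      obtain ⟨y, hy, h, h'⟩ := (mem_filter.1 ha).2
      exact mem_image.2 ⟨(a, y), mem_filter.2 ⟨mem_filter.2 ⟨mem_univ _, hy, h⟩, h'⟩, rfl⟩
    exact (card_le_card h2).trans card_image_le
  refine (sum_le_sum h1).trans ?_
  rw [sum_card_fiberwise_eq_card_filter]
  exact card_filter_le _ _

end

section
variable {V : Type u} [Fintype V] {N J : ℕ} {X : XD V N J} {G : SimpleGraph V}
  {t : V → V → ℕ} {d : ℕ} {mu : V → V → Option ℕ} {A : PalX} {S : Fin J → Scl}

/-- the properties `NuX` after recolouring -/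
theorem nux_rcl {l x y q l' x' y' q' : ℝ} (H : MuH (xt G X) X.P.V0 t (d + 2) mu)
    (hN : NuX l x y q S G d X A t)
    (hQ : ∀ a v b, mu a v = some b → b ∉ A.Q (X.P.pt v))
    (hl : ∀ n, X.P.ty n = Ty.N ∨ X.P.ty n = Ty.B → ∀ b,
      ((Gs X mu n b).card : ℝ) ≤ (l' - l) * (S (X.sc n)).θ * d)
    (hx : ∀ n, X.P.ty n = Ty.N ∨ X.P.ty n = Ty.B →
      2 * ((Es X mu n).card : ℝ) ≤ (x' - x) * (pV X.P n).card)
    (hy : ∀ n, X.P.ty n = Ty.B → ∀ β, 2 * ((Es X mu n).card : ℝ) ≤ (y' - y) * (sV X.P n β).card)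
    (hq : ∀ n, X.P.ty n = Ty.B → ∀ j, 2 * ((Es X mu n).card : ℝ) ≤
      (q' - q) * (sV X.P n false).card / d * (A.Q j).card) :
    NuX l' x' y' q' S G d X A (rcl t mu) := by
  have hE : ∀ n (s : Finset ℕ), (∑ b ∈ s, (((Gs X mu n b).card : ℝ) + (Ls X t mu n b).card)) ≤
      2 * ((Es X mu n).card : ℝ) := by
    intro n s
    have h1 := sum_Gs (X := X) (mu := mu) n s
    have h2 := sum_Ls (X := X) (t := t) (mu := mu) n s
    rw [sum_add_distrib]
    have h1' : (∑ b ∈ s, ((Gs X mu n b).card : ℝ)) ≤ (Es X mu n).card := by exact_mod_cast h1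
    have h2' : (∑ b ∈ s, ((Ls X t mu n b).card : ℝ)) ≤ (Es X mu n).card := by exact_mod_cast h2
    linarith
  have hs : ∀ n i b, |((sgp (Fp (xt G X) X (rcl t mu) n) (sdn X.P n) (ptn X.P n) i b : ℤ) : ℝ) -
      ((sgp (Fp (xt G X) X t n) (sdn X.P n) (ptn X.P n) i b : ℤ) : ℝ)| ≤
      ((Gs X mu n b).card : ℝ) + (Ls X t mu n b).card := by
    intro n i b
    exact_mod_cast sgp_chg H n i b
  constructor
  · -- rQ
    intro n hn v
    rw [disjoint_left]
    intro b hb hb'
    have h1 := disjoint_left.1 (hN.rQ n hn v) 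
    by_cases h2 : b ∈ Fp (xt G X) X t n v
    · exact h1 h2 hb'
    · obtain ⟨w, hw, h⟩ := ft_gain H h2 hb
      rcases h with h | h
      · exact v.2.1 (H.ad _ _ _ h).1
      · exact hQ _ _ _ h hb'
  · -- ld
    intro n hn b
    have h1 := hN.ld n hn b
    have h2 := hl n hn b
    have h3 : ((us (Fp (xt G X) X (rcl t mu) n) b).card : ℝ) ≤
        (us (Fp (xt G X) X t n) b).card + (Gs X mu n b).card := by exact_mod_cast us_chg H n b
    linarith [sub_mul l' l ((S (X.sc n)).θ), sub_mul (l' * (S (X.sc n)).θ) (l * (S (X.sc n)).θ) d]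
  · -- exc
    intro n hn i
    have h1 := hN.exc n hn i
    have h2 := hx n hn
    have h3 := hE n (range (d + 2))
    have h4 : ∑ b ∈ range (d + 2),
        max (|((sgp (Fp (xt G X) X (rcl t mu) n) (sdn X.P n) (ptn X.P n) i b : ℤ) : ℝ)| - 4) 0 ≤
        ∑ b ∈ range (d + 2),
          (max (|((sgp (Fp (xt G X) X t n) (sdn X.P n) (ptn X.P n) i b : ℤ) : ℝ)| - 4) 0 +
            (((Gs X mu n b).card : ℝ) + (Ls X t mu n b).card)) := by
      refine sum_le_sum fun b _ => ?_
      have h5 := hs n i b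
      have h6 := abs_sub_abs_le_abs_sub
        ((sgp (Fp (xt G X) X (rcl t mu) n) (sdn X.P n) (ptn X.P n) i b : ℤ) : ℝ)
        ((sgp (Fp (xt G X) X t n) (sdn X.P n) (ptn X.P n) i b : ℤ) : ℝ)
      have h7 := le_max_left
        (|((sgp (Fp (xt G X) X t n) (sdn X.P n) (ptn X.P n) i b : ℤ) : ℝ)| - 4) 0
      have h8 := le_max_right
        (|((sgp (Fp (xt G X) X t n) (sdn X.P n) (ptn X.P n) i b : ℤ) : ℝ)| - 4) 0
      refine max_le (by linarith) (by positivity)
    rw [sum_add_distrib] at h4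
    linarith [sub_mul x' x (((pV X.P n).card : ℝ))]
  · -- tot
    intro n hn β
    have h1 := hN.tot n hn β
    have h2 := hy n hn β
    have h3 := hE n (range (d + 2))
    have h4 : ((∑ b ∈ range (d + 2), need (Fp (xt G X) X (rcl t mu) n) (sdn X.P n) β b : ℕ) : ℝ) ≤
        ((∑ b ∈ range (d + 2), need (Fp (xt G X) X t n) (sdn X.P n) β b : ℕ) : ℝ) +
          ∑ b ∈ range (d + 2), (((Gs X mu n b).card : ℝ) + (Ls X t mu n b).card) := by
      rw [Nat.cast_sum, Nat.cast_sum, ← sum_add_distrib]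
      refine sum_le_sum fun b _ => ?_
      exact_mod_cast need_chg H n β b
    linarith [sub_mul y' y (((sV X.P n β).card : ℝ))]
  · -- neg
    intro n hn j
    have h1 := hN.neg n hn j
    have h2 := hq n hn j
    have h3 := hE n (A.Q j)
    have h4 : ∑ b ∈ A.Q j,
        max (-((sgp (Fp (xt G X) X (rcl t mu) n) (sdn X.P n) (ptn X.P n) (!j) b : ℤ) : ℝ)) 0 ≤
        ∑ b ∈ A.Q j,
          (max (-((sgp (Fp (xt G X) X t n) (sdn X.P n) (ptn X.P n) (!j) b : ℤ) : ℝ)) 0 +
            (((Gs X mu n b).card : ℝ) + (Ls X t mu n b).card)) := by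
      refine sum_le_sum fun b _ => ?_
      have h5 := hs n (!j) b
      rw [abs_le] at h5
      have h7 := le_max_left
        (-((sgp (Fp (xt G X) X t n) (sdn X.P n) (ptn X.P n) (!j) b : ℤ) : ℝ)) 0
      have h8 := le_max_right
        (-((sgp (Fp (xt G X) X t n) (sdn X.P n) (ptn X.P n) (!j) b : ℤ) : ℝ)) 0
      refine max_le (by linarith) (by positivity)
    rw [sum_add_distrib] at h4
    have h9 : (3 / 5 + q' * (sV X.P n false).card / d) * (A.Q j).card =
        (3 / 5 + q * (sV X.P n false).card / d) * (A.Q j).card +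
          (q' - q) * (sV X.P n false).card / d * (A.Q j).card := by ring
    rw [h9]
    linarith

end

end Pool.Agent.Work.MP_db9399_iv_helper38
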