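import Pool.Agent.Work.MP_db9399_iv_helper38.RXD

/-!
# MP_db9399, all scales, block RGX4: the parts RECX, BAS4, V2, V3 (owner helper38)
-/

set_option autoImplicit false

namespace Pool.Agent.Work.MP_db9399_iv_helper38

open Finset Classical
open Pool.Agent.Work.MP_db9399_all (nb)
open Pool.Agent.Work.MP_db9399_lt (us)
open Pool.Agent.Work.MP_db9399_da (Pcs Ty pV sV Ts sdn ptn sgp sg need thin)
open Pool.Agent.Work.MP_db9399_xf
open Pool.Agent.Work.MP_db9399_x4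

universe u

/-- RECX (helper23): REC for the colouring of the outside stage. PROOF. `rec_main` of
`MP_db9399_rec_helper38.Core` with `σ = Fin N × Bool`, `Gr = xt G X`, `T` = the graph of `Te`, `N = d + 2`,
`K = KX4 C πk`, `al = True`, `In = InT X Ty.B`, `sd v = (pc v, sd v)`, `op (n, β) = (n, !β)`,
`δ (n, β) b = dlt n β b`; then `U (n, β) b = ub n β b`, `nd = no` for `n` of type B. Edges at vertices
outside the pieces of type B do not change, so `TcX`, `OwX`, `NuN`, `mm`, `ms` remain.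
`rR`: colours of `A.Q j` in the part `j` are in `Tc (n, false) ∪ Tc (n, true)` (before: none, `rQ`),
`Imp.tcc`: `(K - 1) |Tc (n, β)| ≤ Σ no ≤ (4 / 5 + 1 / 1000) |sV n β| ≤ C d` (`clc`),
`K - 1 ≥ 10 ^ 4 C / (1 - 3 πk)`, `|A.Q j| ≥ (1 - 3 πk) / 100 d`. `ldR`: `mx`, `ld`, `dlt ≤ 2 d ^ (1 / 200) + a d`
(`mo_card` in RXC or directly from `ms`, `rgc`). `excR`, `totR`, `negR`: `phi` with `x - 8`, `x`,
`if b ∈ A.Q j then x else x - (K - 1)`; before: `need b ≤ Σ_i |sgp i b|`, so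
`Σ_b (need b - 8) ≤ Σ_i Σ_b max (|sgp i b| - 4) 0`; `no ≤ need + dlt (!β)`, `Σ_b dlt n β b ≤ 4 θ d` (`g6d`);
for `b ∈ A.Q j`: `sgp j b = 0` (`rQ`), so `need false b ≤ max (- sgp (!j) b) 0`. `supR`: `sup`.
`θ ≤ (1 - 3 πk) / 10 ^ 8`, `|sV n β| ≥ (1 - ζ) d` (`g1'`). -/
def Stmt_RECX : Prop :=
  ∀ (πk C g z τ e : ℝ) (M : ℕ) (J : ℕ) (S : Fin J → Scl) (c' : ℝ), Cst πk C g z τ e S c' →
    ∃ d0 : ℕ, ∀ {V : Type u} [Fintype V] {N : ℕ} (G : SimpleGraph V) (d : ℕ) (X : XD V N J)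
      (A : PalX) (t : V → V → ℕ) (c m m2 : V → ℕ) (pr : V → V) (θk θ' η : ℝ), d0 ≤ d →
      PcX C g z θk θ' η ((d : ℝ) ^ (-c')) M S G d X → PalXP πk A d →
      PreX4 πk η τ (e / 8) S G d X A t c m → AuxP G d X t m m2 pr →
      ∃ t1 : V → V → ℕ, (∀ v w, ¬ Te G X v w → t1 v w = t v w) ∧
        PreR πk C ((d : ℝ) ^ (-c')) η τ (e / 8) S G d X A t1 c m m2 pr

section defs
variable {V : Type u} [Fintype V] {N J : ℕ}

/-- vertices of the side `β` of the piece `n` which lose `b` if `t` is replaced by `t1` -/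
noncomputable def LVs (G : SimpleGraph V) (X : XD V N J) (t t1 : V → V → ℕ) (n : Fin N)
    (β : Bool) (b : ℕ) : Finset V :=
  (sV X.P n β).filter fun y => b ∈ Ft (xt G X) t y ∧ b ∉ Ft (xt G X) t1 y

/-- Basic facts about the changes. -/
structure Bas4 (S : Fin J → Scl) (G : SimpleGraph V) (d : ℕ) (X : XD V N J)
    (A : PalX) (t : V → V → ℕ) (m m2 : V → ℕ) (pr f : V → V) : Prop where
  H : MuH (xt G X) X.P.V0 t (d + 2) (muc G d X t m m2 pr f)
  pos : ∀ v y b, muc G d X t m m2 pr f v y = some b → b ∉ A.Q (X.P.pt y) ∧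
    ∃ n β, Cvr G X d n β v ∧ y ∈ sV X.P n β
  gx : ∀ n β b, (LVs G X (tn G d X t m m2 pr f) t n β b).card = dlt G d X m m2 pr n β b
  lx : ∀ n β b, (LVs G X t (tn G d X t m m2 pr f) n β b).card ≤ 1
  lw : ∀ n β b, (LVs G X t (tn G d X t m m2 pr f) n β b).Nonempty → ∃ w γ, Cvr G X d n γ w ∧
    t w (f w) = b
  ls : ∀ n β, ((∑ b ∈ range (d + 2), (LVs G X t (tn G d X t m m2 pr f) n β b).card : ℕ) : ℝ) ≤
    2 * (S (X.sc n)).θ * d
  gw : ∀ n γ w β, Cvr G X d n γ w → dlt G d X m m2 pr n β (t w (f w)) = 0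

end defs

/-- BAS4 (helper38) -/
def Stmt_BAS4 : Prop :=
  ∀ (πk C g z τ e : ℝ) (M : ℕ) (J : ℕ) (S : Fin J → Scl) (c' u : ℝ), Cst πk C g z τ e S c' →
    ∃ d0 : ℕ, ∀ {V : Type u} [Fintype V] {N : ℕ} (G : SimpleGraph V) (d : ℕ) (X : XD V N J)
      (A : PalX) (t : V → V → ℕ) (c m m2 : V → ℕ) (pr f : V → V) (θk θ' η : ℝ), d0 ≤ d →
      Ctx πk C g z τ e M S c' θk θ' η G d X A t c m m2 pr →
      ChoP C τ u (x0 c' d) S G d X A t c m m2 pr f →
      Bas4 S G d X A t m m2 pr f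

/-- V2: the numbers. PROOF. Type N: no changed edges (`pos`). Type B: with `u t n β b` = number of the
vertices of the side with the colour `b` (`= |sid (sdn n) β ∩ us (Fp n) b|`):
`u tn + |LVs t tn| = u t + |LVs tn t| = ub t` (`gx`). So `need tn β b ≤ no t β b + |LVs t tn β b|` and
`|sg tn b| = need tn false b + need tn true b`. `ldB`: `u tn ≤ ub t`. `excB`: `need tn ≤ no t + 1`
(`lx`), so `(need tn - K) ≤ (no t - 8)`. `totB`, `negB`: `ls`, `θ` small. `rB`: a new colour at `y` is not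
in `A.Q (pt y)` (`pos`, `ft_gain`). `supB`: `c' ≤ 1 / 2`. `cvt`: the list, `gw`, `lx`. -/
def Stmt_V24 : Prop :=
  ∀ (πk C g z τ e : ℝ) (M : ℕ) (J : ℕ) (S : Fin J → Scl) (c' u : ℝ), Cst πk C g z τ e S c' →
    c' ≤ 1 / 2 →
    ∃ d0 : ℕ, ∀ {V : Type u} [Fintype V] {N : ℕ} (G : SimpleGraph V) (d : ℕ) (X : XD V N J)
      (A : PalX) (t : V → V → ℕ) (c m m2 : V → ℕ) (pr f : V → V) (θk θ' η : ℝ), d0 ≤ d →
      Ctx πk C g z τ e M S c' θk θ' η G d X A t c m m2 pr →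
      ChoP C τ u (x0 c' d) S G d X A t c m m2 pr f →
      Bas4 S G d X A t m m2 pr f →
      NuN 100 ((1 - 3 * πk) / 10 ^ 7) S G d X A (tn G d X t m m2 pr f) ∧
      NuB (KX4 C πk) 300 ((1 - 3 * πk) / 10 ^ 6) (5 / 6) (1 / 300) (1 / 10)
        (2 * (d : ℝ) ^ (-c')) S G d X A (tn G d X t m m2 pr f) ∧
      ∀ n β w, Cvr G X d n β w →
        |((sg (Fp (xt G X) X (tn G d X t m m2 pr f) n) (sdn X.P n)
          (cn G d X t c f w) : ℤ) : ℝ)| ≤ 1000 * (C + 5)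

/-- V3: `tame`, sum form. PROOF. T-edges keep their colours. Let `b` be free at both ends for `tn` with
needs above `K`. If an own colour of a covering vertex of the piece of `v` is `b` then the list gives
`|sg t b| ≤ 1000 (C + 5)`, so `need tn ≤ 1000 (C + 5) + 1 < K` (`gw`, `lx`). So no vertex of the pieces of
`v`, `w` lost `b` (`lw`): `b` is free at both ends for `t` and `no t = need tn`. `tameR`; the needs of
the colour of the edge differ by at most `1`. -/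
def Stmt_V34 : Prop :=
  ∀ (πk C g z τ e : ℝ) (M : ℕ) (J : ℕ) (S : Fin J → Scl) (c' u : ℝ), Cst πk C g z τ e S c' →
    ∃ d0 : ℕ, ∀ {V : Type u} [Fintype V] {N : ℕ} (G : SimpleGraph V) (d : ℕ) (X : XD V N J)
      (A : PalX) (t : V → V → ℕ) (c m m2 : V → ℕ) (pr f : V → V) (θk θ' η : ℝ), d0 ≤ d →
      Ctx πk C g z τ e M S c' θk θ' η G d X A t c m m2 pr →
      ChoP C τ u (x0 c' d) S G d X A t c m m2 pr f →
      Bas4 S G d X A t m m2 pr f →
      ∀ v w b, Te G X v w → b < d + 2 → b ∉ Ft (xt G X) (tn G d X t m m2 pr f) v →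
        b ∉ Ft (xt G X) (tn G d X t m m2 pr f) w →
        KX4 C πk < need (Fp (xt G X) X (tn G d X t m m2 pr f) (X.P.pc v))
          (sdn X.P (X.P.pc v)) (X.P.sd v) b →
        KX4 C πk < need (Fp (xt G X) X (tn G d X t m m2 pr f) (X.P.pc w))
          (sdn X.P (X.P.pc w)) (X.P.sd w) b →
        need (Fp (xt G X) X (tn G d X t m m2 pr f) (X.P.pc v)) (sdn X.P (X.P.pc v)) (X.P.sd v) b +
          need (Fp (xt G X) X (tn G d X t m m2 pr f) (X.P.pc w)) (sdn X.P (X.P.pc w))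
            (X.P.sd w) b ≤
          5 * need (Fp (xt G X) X (tn G d X t m m2 pr f) (X.P.pc v)) (sdn X.P (X.P.pc v))
            (X.P.sd v) (tn G d X t m m2 pr f v w) ∨
        need (Fp (xt G X) X (tn G d X t m m2 pr f) (X.P.pc v)) (sdn X.P (X.P.pc v)) (X.P.sd v) b +
          need (Fp (xt G X) X (tn G d X t m m2 pr f) (X.P.pc w)) (sdn X.P (X.P.pc w))
            (X.P.sd w) b ≤
          5 * need (Fp (xt G X) X (tn G d X t m m2 pr f) (X.P.pc w)) (sdn X.P (X.P.pc w))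
            (X.P.sd w) (tn G d X t m m2 pr f v w)

end Pool.Agent.Work.MP_db9399_iv_helper38
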