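import Pool.Agent.Work.MP_db9399_iv_helper38.RXM
import Pool.Agent.Work.MP_db9399_iv_helper38.RXV4

/-!
# MP_db9399, all scales, block RGX4: `stmt_BAS4` (helper38)
-/

set_option autoImplicit false

namespace Pool.Agent.Work.MP_db9399_iv_helper38

open Finset Classical
open Pool.Agent.Work.MP_db9399_all (nb)
open Pool.Agent.Work.MP_db9399_lt (us)
open Pool.Agent.Work.MP_db9399_da (Pcs Ty pV sV Ts sdn ptn sgp sg sid need thin)
open Pool.Agent.Work.MP_db9399_xf
open Pool.Agent.Work.MP_db9399_x4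
open Pool.Agent.Work.MP_db9399_rg_helper42 (g6a g6c g6d g7V0)

universe u

section
variable {V : Type u} [Fintype V] {N J : ℕ} {πk C g z τ e : ℝ} {M : ℕ} {S : Fin J → Scl}
  {c' θk θ' η u : ℝ} {G : SimpleGraph V} {d : ℕ} {X : XD V N J} {A : PalX} {t : V → V → ℕ}
  {c m m2 : V → ℕ} {pr f : V → V} {x : ℕ}

/-- the second changed edge is not the own edge of the partner -/
theorem sn_ne (K : Ctx πk C g z τ e M S c' θk θ' η G d X A t c m m2 pr)
    (hS : ∀ s, Sml πk τ (S s)) (hd : 1 ≤ d)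
    (P : ChoP C τ u x S G d X A t c m m2 pr f) {w : V} {n : Fin N}
    (h : X.P.rg w = some (n, false)) : sn G t pr f w ≠ f (pr w) := by
  intro he
  obtain ⟨h1, h2, h3, h4, h5⟩ := snp K hS hd P h
  have h6 := rg_cvr K hS hd h
  have h7 : pr w = w := by
    refine cov_col K hS P h1 h6 ?_
    rw [← he]
    exact h4
  have h8 := K.aux.prr w n h
  rw [h7, h] at h8
  exact Bool.false_ne_true (congrArg Prod.snd (Option.some.inj h8))

theorem muc_snd (K : Ctx πk C g z τ e M S c' θk θ' η G d X A t c m m2 pr)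
    (hS : ∀ s, Sml πk τ (S s)) (hd : 1 ≤ d)
    (P : ChoP C τ u x S G d X A t c m m2 pr f) {w : V} {n : Fin N}
    (h : X.P.rg w = some (n, false)) :
    muc G d X t m m2 pr f (pr w) (sn G t pr f w) = some (m (pr w)) := by
  unfold muc
  rw [if_neg (fun h' => sn_ne K hS hd P h h'.2), if_pos ⟨w, n, h, rfl, rfl⟩]

theorem gx_set (K : Ctx πk C g z τ e M S c' θk θ' η G d X A t c m m2 pr)
    (hS : ∀ s, Sml πk τ (S s)) (hd : 1 ≤ d)
    (P : ChoP C τ u x S G d X A t c m m2 pr f) (n : Fin N) (β : Bool) (b : ℕ) :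
    LVs G X (tn G d X t m m2 pr f) t n β b =
      ((univ.filter fun a => Cvr G X d n β a ∧ mo X m m2 pr a = b).image f) ∪
      (if β = true then (univ.filter fun w => X.P.rg w = some (n, false) ∧ m (pr w) = b).image
        (sn G t pr f) else ∅) := by
  have H := vmu K hS hd P
  ext y
  rw [mem_union]
  constructor
  · intro hy
    obtain ⟨hy1, hy2, hy3⟩ := mem_filter.1 hy
    obtain ⟨a, ha, h⟩ := ft_gain H hy3 hy2
    have h' : muc G d X t m m2 pr f a y = some b := by
      rcases h with h | h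
      · exact absurd (H.ad _ _ _ h).1 (mem_sV.1 hy1).1
      · exact h
    rcases muc_cases h' with ⟨⟨n', β', h1⟩, h2, h3⟩ | ⟨w, n', h1, h2, h3, h4⟩
    · left
      have h5 := (cho K hS hd P h1).1
      rw [← h2] at h5
      obtain ⟨rfl, rfl⟩ := sV_uniq hy1 h5
      exact mem_image.2 ⟨a, mem_filter.2 ⟨mem_univ _, h1, h3.symm⟩, h2.symm⟩
    · right
      have h5 := (snp K hS hd P h1).2.1
      rw [← h3] at h5
      obtain ⟨rfl, rfl⟩ := sV_uniq hy1 h5
      rw [if_pos rfl]
      exact mem_image.2 ⟨w, mem_filter.2 ⟨mem_univ _, h1, by rw [← h2]; exact h4.symm⟩,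
        h3.symm⟩
  · intro hy
    have key : ∀ a y, muc G d X t m m2 pr f a y = some b → y ∈ sV X.P n β →
        y ∈ LVs G X (tn G d X t m m2 pr f) t n β b := by
      intro a y h hy
      refine mem_filter.2 ⟨hy, mem_Ft.2 ⟨a, ((H.ad _ _ _ h).2.2.1).symm, rcl_y H h⟩, H.fy _ _ _ h⟩
    rcases hy with hy | hy
    · obtain ⟨a, ha, rfl⟩ := mem_image.1 hy
      obtain ⟨h1, h2⟩ := (mem_filter.1 ha).2
      refine key a _ ?_ (cho K hS hd P h1).1
      rw [← h2]
      exact muc_own ⟨n, β, h1⟩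
    · split_ifs at hy with hβ
      · obtain ⟨w, hw, rfl⟩ := mem_image.1 hy
        obtain ⟨h1, h2⟩ := (mem_filter.1 hw).2
        subst hβ
        refine key (pr w) _ ?_ (snp K hS hd P h1).2.1
        rw [← h2]
        exact muc_snd K hS hd P h1
      · exact absurd hy (notMem_empty _)

theorem gx_card (K : Ctx πk C g z τ e M S c' θk θ' η G d X A t c m m2 pr)
    (hS : ∀ s, Sml πk τ (S s)) (hd : 1 ≤ d)
    (P : ChoP C τ u x S G d X A t c m m2 pr f) (n : Fin N) (β : Bool) (b : ℕ) :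
    (LVs G X (tn G d X t m m2 pr f) t n β b).card = dlt G d X m m2 pr n β b := by
  rw [gx_set K hS hd P]
  have h1 : ((univ.filter fun a => Cvr G X d n β a ∧ mo X m m2 pr a = b).image f).card =
      (univ.filter fun a => Cvr G X d n β a ∧ mo X m m2 pr a = b).card := by
    refine card_image_of_injOn ?_
    intro a ha a' ha' he
    obtain ⟨h1, h2⟩ := (mem_filter.1 ha).2
    obtain ⟨h1', h2'⟩ := (mem_filter.1 ha').2
    by_contra hne
    exact P.own a a' n β h1 h1' hne (h2.trans h2'.symm) he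
  unfold dlt
  by_cases hβ : β = true
  · subst hβ
    rw [if_pos rfl, if_pos rfl, card_union_of_disjoint, h1]
    · congr 1
      refine card_image_of_injOn ?_
      intro w hw w' hw' he
      obtain ⟨h1, h2⟩ := (mem_filter.1 hw).2
      obtain ⟨h1', h2'⟩ := (mem_filter.1 hw').2
      by_contra hne
      exact P.prp w w' n h1 h1' hne (h2.trans h2'.symm) he
    · rw [disjoint_left]
      intro y hy hy'
      obtain ⟨a, ha, rfl⟩ := mem_image.1 hy
      obtain ⟨w, hw, he⟩ := mem_image.1 hy'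
      obtain ⟨h1, h2⟩ := (mem_filter.1 ha).2
      obtain ⟨h1', h2'⟩ := (mem_filter.1 hw).2
      exact P.ops w a n h1' h1 (h2.trans h2'.symm) he.symm
  · rw [if_neg hβ, if_neg hβ, union_empty, h1, add_zero]

/-- who lost the colour `b` at the side -/
theorem lv_mem (K : Ctx πk C g z τ e M S c' θk θ' η G d X A t c m m2 pr)
    (hS : ∀ s, Sml πk τ (S s)) (hd : 1 ≤ d)
    (P : ChoP C τ u x S G d X A t c m m2 pr f) {n : Fin N} {β : Bool} {b : ℕ} {y : V}
    (hy : y ∈ LVs G X t (tn G d X t m m2 pr f) n β b) :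
    (∃ a, Cvr G X d n β a ∧ t a (f a) = b ∧ y = f a) ∨
    (β = true ∧ ∃ w, X.P.rg w = some (n, false) ∧ t w (f w) = b ∧ y = sn G t pr f w) := by
  have H := vmu K hS hd P
  obtain ⟨hy1, hy2, hy3⟩ := mem_filter.1 hy
  obtain ⟨a, ha, hab, h7⟩ := ft_lost H hy2 hy3
  rcases h7 with h7 | h7
  · obtain ⟨b', hb'⟩ := Option.ne_none_iff_exists'.1 h7
    exact absurd (H.ad _ _ _ hb').1 (mem_sV.1 hy1).1
  · obtain ⟨b', hb'⟩ := Option.ne_none_iff_exists'.1 h7
    rcases muc_cases hb' with ⟨⟨n', β', h8⟩, h9, _⟩ | ⟨w', n', h8, h9, h10, _⟩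
    · left
      have h10 := (cho K hS hd P h8).1
      rw [← h9] at h10
      obtain ⟨rfl, rfl⟩ := sV_uniq hy1 h10
      refine ⟨a, h8, ?_, h9⟩
      rw [← h9, K.pre.sym]
      exact hab
    · right
      obtain ⟨_, h11, _, h12, _⟩ := snp K hS hd P h8
      rw [← h10] at h11
      obtain ⟨rfl, rfl⟩ := sV_uniq hy1 h11
      refine ⟨rfl, w', h8, ?_, h10⟩
      rw [← h12, ← h10, ← h9, K.pre.sym]
      exact hab

theorem bas4 (K : Ctx πk C g z τ e M S c' θk θ' η G d X A t c m m2 pr)
    (hS : ∀ s, Sml πk τ (S s)) (hd : 1 ≤ d)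
    (P : ChoP C τ u x S G d X A t c m m2 pr f) : Bas4 S G d X A t m m2 pr f where
  H := vmu K hS hd P
  pos := (basx K hS hd P).pos
  gx := gx_card K hS hd P
  lx := by
    intro n β b
    rw [card_le_one]
    intro y hy y' hy'
    rcases lv_mem K hS hd P hy with ⟨a, h1, h2, h3⟩ | ⟨h0, w, h1, h2, h3⟩ <;>
    rcases lv_mem K hS hd P hy' with ⟨a', h1', h2', h3'⟩ | ⟨h0', w', h1', h2', h3'⟩
    · rw [h3, h3', cov_col K hS P h1 h1' (h2.trans h2'.symm)]
    · exfalso
      have h4 := rg_cvr K hS hd h1'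
      have h5 := cov_col K hS P h1 h4 (h2.trans h2'.symm)
      subst h5
      have h6 := (cvr_uniq K hS hd h1 h4).2
      rw [h0'] at h6
      exact Bool.false_ne_true h6.symm
    · exfalso
      have h4 := rg_cvr K hS hd h1
      have h5 := cov_col K hS P h1' h4 (h2'.trans h2.symm)
      subst h5
      have h6 := (cvr_uniq K hS hd h1' h4).2
      rw [h0] at h6
      exact Bool.false_ne_true h6.symm
    · rw [h3, h3', cov_col K hS P (rg_cvr K hS hd h1) (rg_cvr K hS hd h1') (h2.trans h2'.symm)]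
  lw := by
    rintro n β b ⟨y, hy⟩
    rcases lv_mem K hS hd P hy with ⟨a, h1, h2, h3⟩ | ⟨h0, w, h1, h2, h3⟩
    · exact ⟨a, β, h1, h2⟩
    · exact ⟨w, false, rg_cvr K hS hd h1, h2⟩
  ls := by
    intro n β
    set F : Finset V := univ.filter fun a => (∃ γ, Cvr G X d n γ a) with hF
    refine le_trans ?_ (g6d K.pc.toPcD hd (z3 hS _) (hS (X.sc n)).θp.le)
    have h1 : ∑ b ∈ range (d + 2), (LVs G X t (tn G d X t m m2 pr f) n β b).card ≤
        ∑ b ∈ range (d + 2), (F.filter fun a => t a (f a) = b).card := by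
      refine sum_le_sum fun b _ => ?_
      by_cases h : (LVs G X t (tn G d X t m m2 pr f) n β b).Nonempty
      · have h2 : (LVs G X t (tn G d X t m m2 pr f) n β b).card ≤ 1 := by
          rw [card_le_one]
          intro y hy y' hy'
          rcases lv_mem K hS hd P hy with ⟨a, h1, h2, h3⟩ | ⟨h0, w, h1, h2, h3⟩ <;>
          rcases lv_mem K hS hd P hy' with ⟨a', h1', h2', h3'⟩ | ⟨h0', w', h1', h2', h3'⟩
          · rw [h3, h3', cov_col K hS P h1 h1' (h2.trans h2'.symm)]
          · exfalso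
            have h4 := rg_cvr K hS hd h1'
            have h5 := cov_col K hS P h1 h4 (h2.trans h2'.symm)
            subst h5
            have h6 := (cvr_uniq K hS hd h1 h4).2
            rw [h0'] at h6
            exact Bool.false_ne_true h6.symm
          · exfalso
            have h4 := rg_cvr K hS hd h1
            have h5 := cov_col K hS P h1' h4 (h2'.trans h2.symm)
            subst h5
            have h6 := (cvr_uniq K hS hd h1' h4).2
            rw [h0] at h6
            exact Bool.false_ne_true h6.symm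
          · rw [h3, h3', cov_col K hS P (rg_cvr K hS hd h1) (rg_cvr K hS hd h1')
              (h2.trans h2'.symm)]
        refine h2.trans ?_
        obtain ⟨y, hy⟩ := h
        refine card_pos.2 ?_
        rcases lv_mem K hS hd P hy with ⟨a, h1, h2, h3⟩ | ⟨h0, w, h1, h2, h3⟩
        · exact ⟨a, mem_filter.2 ⟨mem_filter.2 ⟨mem_univ _, β, h1⟩, h2⟩⟩
        · exact ⟨w, mem_filter.2 ⟨mem_filter.2 ⟨mem_univ _, false, rg_cvr K hS hd h1⟩, h2⟩⟩
      · rw [not_nonempty_iff_eq_empty.1 h, card_empty]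
        exact Nat.zero_le _
    rw [sum_card_fiberwise_eq_card_filter] at h1
    exact_mod_cast h1.trans (card_filter_le _ _)
  gw := by
    intro n γ w β h
    have h1 := (cho K hS hd P h).2.2.2.2.1
    unfold dlt
    have h2 : (univ.filter fun a => Cvr G X d n β a ∧ mo X m m2 pr a = t w (f w)) = ∅ := by
      rw [filter_eq_empty_iff]
      rintro a - ⟨h3, h4⟩
      have h5 := h1 a β h3
      rcases mo_or (X := X) (m := m) (m2 := m2) (pr := pr) a with h6 | h6
      · exact h5.1 (by rw [← h4, h6])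
      · exact h5.2 (by rw [← h4, h6])
    have h3 : (univ.filter fun w' => X.P.rg w' = some (n, false) ∧ m (pr w') = t w (f w)) = ∅ := by
      rw [filter_eq_empty_iff]
      rintro w' - ⟨h3, h4⟩
      have h5 := h1 (pr w') true (rg_cvr K hS hd (K.aux.prr w' n h3))
      exact h5.1 h4.symm
    rw [h2, h3]
    simp

end

theorem stmt_BAS4 : Stmt_BAS4.{u} := by
  intro πk C g z τ e M J S c' u hC
  refine ⟨1, ?_⟩
  intro V _ N G d X A t c m m2 pr f θk θ' η hd K P
  exact bas4 K hC.2.2.2.2.2.2.2.2.2.2 hd P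

end Pool.Agent.Work.MP_db9399_iv_helper38
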