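import Pool.Agent.Work.MP_db9399_iv_helper38.RX2
import Pool.Agent.Work.MP_db9399_rg_helper42.GEO
import Pool.Agent.Work.MP_db9399_x4.XF4

/-!
# MP_db9399, all scales, block RGX4: definitions and parts (owner helper38)

Version 4: `t` is the colouring after REC; needs with the offsets `dlt` = gains of the own choices.

`R` = covering vertices. The covering vertex `w` (of the side `β` of the piece `n`) chooses a
neighbour `f w` in this side; its own colour is `t w (f w)` and the edge `w (f w)` gets the colour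
`mo w`, a missing colour of `w`. If `w` is rigid for the side `false` (`rg w = (n, false)`) then its
partner `pr w` (`rg (pr w) = (n, true)`) has an edge of the same colour `t w (f w)` to the vertex
`sn w` of the side `true`, this edge gets the colour `m (pr w)`. Partners use the second missing
colour `m2` for their own choice.
-/

set_option autoImplicit false

namespace Pool.Agent.Work.MP_db9399_iv_helper38

open Finset Classical
open Pool.Agent.Work.MP_db9399_all (nb)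
open Pool.Agent.Work.MP_db9399_lt (us)
open Pool.Agent.Work.MP_db9399_da (Pcs Ty pV sV Ts sdn ptn sgp sg need thin)
open Pool.Agent.Work.MP_db9399_xf
open Pool.Agent.Work.MP_db9399_x4 (ub no so NuN NuB KX4)

universe u

/-- smallness of the constants of a scale -/
structure Sml (πk τ : ℝ) (s : Scl) : Prop where
  ζp : 0 < s.ζ
  ζ1 : s.ζ ≤ 1 / 10 ^ 5
  θp : 0 < s.θ
  θ1 : s.θ ≤ s.ζ ^ 2 / 10 ^ 11
  θ2 : s.θ ≤ τ / 10 ^ 6
  θ3 : s.θ ≤ (1 - 3 * πk) / 10 ^ 8

section defs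
variable {V : Type u} [Fintype V] {N J : ℕ}

/-- bound for small numbers of neighbours outside the cluster -/
noncomputable def x0 (c' : ℝ) (d : ℕ) : ℕ := ⌈(d : ℝ) ^ (1 - c' / 4)⌉₊

/-- conflicts of own colours -/
def CgR (τ : ℝ) (x : ℕ) (S : Fin J → Scl) (G : SimpleGraph V) (d : ℕ) (X : XD V N J)
    (w w' : V) : Prop :=
  G.Adj w w' ∨
  (∃ n, X.P.ty n = Ty.B ∧ (S (X.sc n)).ζ / 1000 * d ≤ ((nb G w ∩ pV X.P n).card : ℝ) ∧
    (S (X.sc n)).ζ / 1000 * d ≤ ((nb G w' ∩ pV X.P n).card : ℝ)) ∨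
  (∃ n, X.P.ty n = Ty.K ∧ τ * d ≤ ((nb G w ∩ pV X.P n).card : ℝ) ∧
    τ * d ≤ ((nb G w' ∩ pV X.P n).card : ℝ)) ∨
  (∃ v, v ∉ X.P.V0 ∧ X.cq w = X.cq v ∧ X.cq w' = X.cq v) ∨
  (∃ n, (∀ v ∈ pV X.P n, X.cq w ≠ X.cq v ∧ X.cq w' ≠ X.cq v) ∧
    x ≤ (nb G w ∩ pV X.P n).card ∧ x ≤ (nb G w' ∩ pV X.P n).card)

/-- `a` is the partner of a vertex rigid for the side `false` -/
def PT (X : XD V N J) (pr : V → V) (a : V) : Prop := ∃ w n, X.P.rg w = some (n, false) ∧ pr w = a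

/-- the missing colour used by the own choice -/
noncomputable def mo (X : XD V N J) (m m2 : V → ℕ) (pr : V → V) (w : V) : ℕ :=
  if PT X pr w then m2 w else m w

/-- second missing colours and partners -/
structure AuxP (G : SimpleGraph V) (d : ℕ) (X : XD V N J) (t : V → V → ℕ) (m m2 : V → ℕ)
    (pr : V → V) : Prop where
  m2lt : ∀ w, Cov G X d w → m2 w < d + 2
  m2f : ∀ w, Cov G X d w → m2 w ∉ Ft (xt G X) t w
  m2m : ∀ w, Cov G X d w → m2 w ≠ m w
  prr : ∀ w n, X.P.rg w = some (n, false) → X.P.rg (pr w) = some (n, true)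
  pri : ∀ w w' n, X.P.rg w = some (n, false) → X.P.rg w' = some (n, false) → pr w = pr w' → w = w'

/-- the list of the covering vertex `w` -/
def Lc (C τ : ℝ) (x : ℕ) (S : Fin J → Scl) (G : SimpleGraph V) (d : ℕ) (X : XD V N J) (A : PalX)
    (t : V → V → ℕ) (c m m2 : V → ℕ) (pr : V → V) (w y : V) : Prop :=
  ∃ n β, Cvr G X d n β w ∧ y ∈ sV X.P n β ∧ G.Adj w y ∧
    mo X m m2 pr w ∉ Ft (xt G X) t y ∧ mo X m m2 pr w ∉ A.Q (X.P.pt y) ∧
    |((sg (Fp (xt G X) X t n) (sdn X.P n) (t w y) : ℤ) : ℝ)| ≤ 1000 * (C + 5) - 2 ∧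
    (∀ a β', Cvr G X d n β' a → t w y ≠ m a ∧ t w y ≠ m2 a) ∧
    (∀ w', w' ∈ X.P.V0 → ¬ Cov G X d w' → CgR τ x S G d X w w' → t w y ≠ c w') ∧
    (X.P.rg w = some (n, false) → 0 ≤ sg (Fp (xt G X) X t n) (sdn X.P n) (t w y) ∧
      ∃ y', y' ∈ sV X.P n true ∧ G.Adj (pr w) y' ∧ t (pr w) y' = t w y ∧
        m (pr w) ∉ Ft (xt G X) t y')

noncomputable def Lx (C τ : ℝ) (x : ℕ) (S : Fin J → Scl) (G : SimpleGraph V) (d : ℕ)
    (X : XD V N J) (A : PalX) (t : V → V → ℕ) (c m m2 : V → ℕ) (pr : V → V) (w : V) : Finset V :=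
  univ.filter (Lc C τ x S G d X A t c m m2 pr w)

/-- the neighbour of `a` along the colour `b` -/
noncomputable def nbc (G : SimpleGraph V) (t : V → V → ℕ) (a : V) (b : ℕ) : V :=
  if h : ∃ y, G.Adj a y ∧ t a y = b then h.choose else a

/-- the second changed edge of `w` rigid for the side `false` is `(pr w) (sn w)` -/
noncomputable def sn (G : SimpleGraph V) (t : V → V → ℕ) (pr f : V → V) (w : V) : V :=
  nbc G t (pr w) (t w (f w))

/-- test of the first kind -/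
noncomputable def wt1 (x : ℕ) (G : SimpleGraph V) (X : XD V N J) (t : V → V → ℕ) (n : Fin N)
    (b : ℕ) (w y : V) : ℕ :=
  if (∀ v ∈ pV X.P n, X.cq w ≠ X.cq v) ∧ (nb G w ∩ pV X.P n).card < x ∧ t w y = b then
    (nb G w ∩ pV X.P n).card else 0

/-- test of the second kind -/
noncomputable def wt2 (G : SimpleGraph V) (d : ℕ) (X : XD V N J) (t : V → V → ℕ) (n m : Fin N)
    (β β' i i' : Bool) (b : ℕ) (w y : V) : ℕ :=
  if X.P.ty n = Ty.B ∧ X.P.ty m = Ty.B ∧ SmC X n m ∧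
    ((∃ γ, Cvr G X d n γ w) ∨ ∃ γ, Cvr G X d m γ w) then
    nT G X t b (qV X n β i) (qV X m β' i') {t w y} else 0

/-- the tests -/
abbrev Tst (N d : ℕ) : Type :=
  (Fin N × Fin (d + 2)) ⊕ (Fin N × Fin N × Bool × Bool × Bool × Bool × Fin (d + 3))

noncomputable def wt (x : ℕ) (G : SimpleGraph V) (d : ℕ) (X : XD V N J) (t : V → V → ℕ) :
    Tst N d → V → V → ℕ
  | Sum.inl (n, b) => wt1 x G X t n b
  | Sum.inr (n, m, β, β', i, i', b) => wt2 G d X t n m β β' i i' b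

/-- gains of the side `β` of the piece `n` -/
noncomputable def dlt (G : SimpleGraph V) (d : ℕ) (X : XD V N J) (m m2 : V → ℕ) (pr : V → V)
    (n : Fin N) (β : Bool) (b : ℕ) : ℕ :=
  (univ.filter (fun a => Cvr G X d n β a ∧ mo X m m2 pr a = b)).card +
    if β = true then (univ.filter (fun w => X.P.rg w = some (n, false) ∧ m (pr w) = b)).card else 0

/-- The colouring after REC. -/
structure PreR (πk C a η τ e : ℝ) (S : Fin J → Scl) (G : SimpleGraph V) (d : ℕ)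
    (X : XD V N J) (A : PalX) (t : V → V → ℕ) (c m m2 : V → ℕ) (pr : V → V) : Prop
    extends TcX η G d X A t, OwX τ e (1 / 250) S G d X t c (Ow G X d),
      NuN 100 ((1 - 3 * πk) / 10 ^ 7) S G d X A t where
  mm : ∀ w, Cov G X d w → m w < d + 2 ∧ m w ∉ Ft (xt G X) t w ∧ ∀ j, m w ∉ A.Q j
  ms : ∀ n β b, ((univ.filter (fun w => Cvr G X d n β w ∧ m w = b)).card : ℝ) ≤
    (d : ℝ) ^ (1 / 200 : ℝ)
  rR : ∀ n, X.P.ty n = Ty.B → ∀ j, (((A.Q j).filter (fun b => ∃ v : Ts X.P n,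
    ptn X.P n v = j ∧ b ∈ Fp (xt G X) X t n v)).card : ℝ) ≤ 1 / 50 * (A.Q j).card
  ldR : ∀ n, X.P.ty n = Ty.B → ∀ β b,
    (ub G X t (dlt G d X m m2 pr) n β b : ℝ) ≤ 120 * (S (X.sc n)).θ * d
  excR : ∀ n, X.P.ty n = Ty.B → ∀ β,
    ((∑ b ∈ range (d + 2), (no G X t (dlt G d X m m2 pr) n β b - 8) : ℕ) : ℝ) ≤
      3 * (1 - 3 * πk) / 10 ^ 7 * (pV X.P n).card
  supR : ∀ n, X.P.ty n = Ty.B → ∀ β b,
    (no G X t (dlt G d X m m2 pr) n β b : ℝ) ≤ a * d + 4 * (d : ℝ) ^ (1 / 100 : ℝ)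
  totR : ∀ n, X.P.ty n = Ty.B → ∀ β,
    ((∑ b ∈ range (d + 2), no G X t (dlt G d X m m2 pr) n β b : ℕ) : ℝ) ≤
      (4 / 5 + 1 / 1000) * (sV X.P n β).card
  negR : ∀ n, X.P.ty n = Ty.B → ∀ j,
    ((∑ b ∈ A.Q j, no G X t (dlt G d X m m2 pr) n false b : ℕ) : ℝ) ≤
      (3 / 5 + (sV X.P n false).card / (350 * d)) * (A.Q j).card
  tameR : ∀ v w b, Te G X v w → b < d + 2 → b ∉ Ft (xt G X) t v → b ∉ Ft (xt G X) t w →
    KX4 C πk < no G X t (dlt G d X m m2 pr) (X.P.pc v) (X.P.sd v) b →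
    KX4 C πk < no G X t (dlt G d X m m2 pr) (X.P.pc w) (X.P.sd w) b →
    no G X t (dlt G d X m m2 pr) (X.P.pc v) (X.P.sd v) b +
        no G X t (dlt G d X m m2 pr) (X.P.pc w) (X.P.sd w) b <
        4 * no G X t (dlt G d X m m2 pr) (X.P.pc v) (X.P.sd v) (t v w) ∨
      no G X t (dlt G d X m m2 pr) (X.P.pc v) (X.P.sd v) b +
        no G X t (dlt G d X m m2 pr) (X.P.pc w) (X.P.sd w) b <
        4 * no G X t (dlt G d X m m2 pr) (X.P.pc w) (X.P.sd w) (t v w)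

/-- the situation -/
structure Ctx (πk C g z τ e : ℝ) (M : ℕ) (S : Fin J → Scl) (c' θk θ' η : ℝ) (G : SimpleGraph V)
    (d : ℕ) (X : XD V N J) (A : PalX) (t : V → V → ℕ) (c m m2 : V → ℕ) (pr : V → V) : Prop where
  pc : PcX C g z θk θ' η ((d : ℝ) ^ (-c')) M S G d X
  pa : PalXP πk A d
  pre : PreR πk C ((d : ℝ) ^ (-c')) η τ (e / 8) S G d X A t c m m2 pr
  aux : AuxP G d X t m m2 pr

/-- Result of the choice. -/
structure ChoP (C τ u : ℝ) (x : ℕ) (S : Fin J → Scl) (G : SimpleGraph V) (d : ℕ) (X : XD V N J)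
    (A : PalX) (t : V → V → ℕ) (c m m2 : V → ℕ) (pr f : V → V) : Prop where
  mem : ∀ w, Cov G X d w → Lc C τ x S G d X A t c m m2 pr w (f w)
  col : ∀ w w', Cov G X d w → Cov G X d w' → w ≠ w' → CgR τ x S G d X w w' →
    t w (f w) ≠ t w' (f w')
  own : ∀ w w' n β, Cvr G X d n β w → Cvr G X d n β w' → w ≠ w' →
    mo X m m2 pr w = mo X m m2 pr w' → f w ≠ f w'
  ops : ∀ w w' n, X.P.rg w = some (n, false) → Cvr G X d n true w' →
    mo X m m2 pr w' = m (pr w) → f w' ≠ sn G t pr f w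
  prp : ∀ w w' n, X.P.rg w = some (n, false) → X.P.rg w' = some (n, false) → w ≠ w' →
    m (pr w) = m (pr w') → sn G t pr f w ≠ sn G t pr f w'
  wt1 : ∀ n b, ((∑ w ∈ univ.filter (Cov G X d), wt1 x G X t n b w (f w) : ℕ) : ℝ) ≤ u * d
  wt2 : ∀ n k β β' i i' b,
    ((∑ w ∈ univ.filter (Cov G X d), wt2 G d X t n k β β' i i' b w (f w) : ℕ) : ℝ) ≤
      1 / 16 * nT G X t b (qV X n β i) (qV X k β' i') (range (d + 2)) +
        1 / 4 * (d : ℝ) ^ (39 / 20 : ℝ)

/-- the changes: `muc a y = some b` if the edge `a y`, `a` covering, gets the colour `b` -/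
noncomputable def muc (G : SimpleGraph V) (d : ℕ) (X : XD V N J) (t : V → V → ℕ)
    (m m2 : V → ℕ) (pr f : V → V) (a y : V) : Option ℕ :=
  if Cov G X d a ∧ y = f a then some (mo X m m2 pr a) else
    if ∃ w n, X.P.rg w = some (n, false) ∧ pr w = a ∧ y = sn G t pr f w then some (m a) else none

/-- the new colouring -/
noncomputable def tn (G : SimpleGraph V) (d : ℕ) (X : XD V N J) (t : V → V → ℕ)
    (m m2 : V → ℕ) (pr f : V → V) : V → V → ℕ := rcl t (muc G d X t m m2 pr f)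

/-- the new own colours -/
noncomputable def cn (G : SimpleGraph V) (d : ℕ) (X : XD V N J) (t : V → V → ℕ) (c : V → ℕ)
    (f : V → V) (w : V) : ℕ := if Cov G X d w then t w (f w) else c w

end defs

/-- constants of the parts -/
def Cst (πk C g z τ e : ℝ) {J : ℕ} (S : Fin J → Scl) (c' : ℝ) : Prop :=
  1 / 4 ≤ πk ∧ πk < 1 / 3 ∧ 1 ≤ C ∧ 0 < g ∧ g ≤ 1 / 10 ∧ 0 < z ∧ z ≤ 1 / 10 ∧ 0 < τ ∧ 64 * τ ≤ e ∧
    0 < c' ∧ ∀ s, Sml πk τ (S s)

/-- K0 (helper42): few conflicts. PROOF. `w` covers the side `β` of `n`.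
Adjacent: `V0` is disjoint from the side, g6b: at most `(ζ + 1 / 200) d`. B-pieces: for the pieces `m`
with at least `ζ_m / 1000 d` neighbours of `w`, at most `1000 θ_m / ζ_m d ≤ (10 ^ (-8) ζ_m) d` other
vertices (g2'), with `ζ_m d ≤ 1000 |nb w ∩ pV m|`; union lemma g5u: at most `10 ^ (-5) d`.
K-pieces: for the pieces `m` with at least `τ d` neighbours of `w` at most `θ_m d` in the cluster (g4)
and `a d / τ` outside (g3'), `θ_m ≤ 10 ^ (-6) τ`; g5u. Same cluster: `D.v0c`, `θ d`. Last kind: g3', g5u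
with `x ≥ d ^ (1 - c' / 4)`: `a d ^ 2 / x` for every piece, `x ≤ |nb w ∩ pV m|`: at most
`a d ^ 3 / x ^ 2 ≤ d ^ (1 - c' / 2)`. -/
def Stmt_K0 : Prop :=
  ∀ (πk C g z τ e : ℝ) (M : ℕ) (J : ℕ) (S : Fin J → Scl) (c' : ℝ), Cst πk C g z τ e S c' →
    ∃ d0 : ℕ, ∀ {V : Type u} [Fintype V] {N : ℕ} (G : SimpleGraph V) (d : ℕ) (X : XD V N J)
      (θk θ' η : ℝ), d0 ≤ d → PcX C g z θk θ' η ((d : ℝ) ^ (-c')) M S G d X →
      ∀ w n β, Cvr G X d n β w →
        ((univ.filter fun w' => w' ∈ X.P.V0 ∧ w' ≠ w ∧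
          CgR τ (x0 c' d) S G d X w w').card : ℝ) ≤ 6 / 1000 * d

/-- LST (helper59): the lists are large. PROOF. `w` covers the side `β` of `n` (unique: g6c); the colours
`t w y`, `y` in the side, are different. Removed: `mo w ∈ Ft y`: `us (Fp ..) (mo w)`, at most `100 θ d`
(ld). `mo w ∈ A.Q (pt y)`: only for `w ∈ PT` (mm), there half of the side is left (the quarters have
almost the same size: bB, bS; `A.QQ`): at least `0.48 d` vertices. Large signed numbers: at most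
`10 ^ (-8) d` colours for every `i` (exc, `|pV n| ≤ C d`). `m a`, `m2 a`: at most `4 θ d` colours (g6d).
`c w'`: at most `6 / 1000 d` colours (K0). If `rg w = (n, false)`: `w` covers `(n, false)` (rgd), `w ∉ PT`,
at least `(1 - 3 ζ) d` neighbours in the side, of which at most `Σ need false b ≤ 4 / 5 |sV n false| ≤
4 / 5 (1 + 2 ζ) d` have a colour with `sg < 0` (`need false b ≥ 1`); `pr w` has at least `(1 - 2 ζ) d`
neighbours in the side `true`, so at most `2 ζ d + 2` colours `< d + 2` are not on these edges, and at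
most `100 θ d` of them go to vertices with `m (pr w) ∈ Ft`. -/
def Stmt_LST : Prop :=
  ∀ (πk C g z τ e : ℝ) (M : ℕ) (J : ℕ) (S : Fin J → Scl) (c' : ℝ), Cst πk C g z τ e S c' →
    ∃ d0 : ℕ, ∀ {V : Type u} [Fintype V] {N : ℕ} (G : SimpleGraph V) (d : ℕ) (X : XD V N J)
      (A : PalX) (t : V → V → ℕ) (c m m2 : V → ℕ) (pr : V → V) (θk θ' η : ℝ), d0 ≤ d →
      Ctx πk C g z τ e M S c' θk θ' η G d X A t c m m2 pr →
      ∀ w, Cov G X d w →
        9 / 50 * (d : ℝ) ≤ ((Lx C τ (x0 c' d) S G d X A t c m m2 pr w).card : ℝ)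

/-- TST (helper44): the tests. PROOF. (1) `wt1`: pieces with a neighbour of `w`, at most `d (d + 2)`
tests; `wt2`: one of the two pieces is covered by `w` (unique: g6c), the other is in the same cluster
(at most `M` pieces, npc), at most `32 M (d + 3)`. (2) first kind clear, second: for every vertex of
`qV n` at most one edge of the given colour, `|pV n| ≤ C d` (clc). (3) for every `w` at most one `y`
with `t w y = b`; g3. (4) for every `w`: the colours `t w y` are different, so the sum over `y` is at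
most the number for all colours; at most `2 θ d + 2 θ d` vertices `w` (g6d; same scale by scq). -/
def Stmt_TST : Prop :=
  ∀ (πk C g z τ e : ℝ) (M : ℕ) (J : ℕ) (S : Fin J → Scl) (c' : ℝ), Cst πk C g z τ e S c' →
    ∃ d0 : ℕ, ∀ {V : Type u} [Fintype V] {N : ℕ} (G : SimpleGraph V) (d : ℕ) (X : XD V N J)
      (A : PalX) (t : V → V → ℕ) (c m m2 : V → ℕ) (pr : V → V) (θk θ' η : ℝ), d0 ≤ d →
      Ctx πk C g z τ e M S c' θk θ' η G d X A t c m m2 pr →
      ∀ L : V → Finset V, (∀ w, L w ⊆ nb G w) →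
      (∀ w, Cov G X d w → ((univ.filter fun q : Tst N d =>
        ∃ y ∈ L w, wt (x0 c' d) G d X t q w y ≠ 0).card : ℝ) ≤ (d : ℝ) ^ 3) ∧
      (∀ n b w y, Cov G X d w → y ∈ L w → wt1 (x0 c' d) G X t n b w y ≤ x0 c' d) ∧
      (∀ n k β β' i i' b w y, Cov G X d w → y ∈ L w →
        (wt2 G d X t n k β β' i i' b w y : ℝ) ≤ C * d) ∧
      (∀ n b, ((∑ w ∈ univ.filter (Cov G X d), ∑ y ∈ L w, wt1 (x0 c' d) G X t n b w y : ℕ) : ℝ) ≤
        (d : ℝ) ^ (-c') * (d : ℝ) ^ 2) ∧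
      ∀ n k β β' i i' b,
        ((∑ w ∈ univ.filter (Cov G X d), ∑ y ∈ L w, wt2 G d X t n k β β' i i' b w y : ℕ) : ℝ) ≤
        4 * (S (X.sc n)).θ * d * nT G X t b (qV X n β i) (qV X k β' i') (range (d + 2))

/-- CHO (helper38), from K0, LST, TST with `rlc4`. -/
def Stmt_CHO : Prop :=
  ∀ (πk C g z τ e : ℝ) (M : ℕ) (J : ℕ) (S : Fin J → Scl) (c' u : ℝ), Cst πk C g z τ e S c' →
    0 < u →
    ∃ d0 : ℕ, ∀ {V : Type u} [Fintype V] {N : ℕ} (G : SimpleGraph V) (d : ℕ) (X : XD V N J)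
      (A : PalX) (t : V → V → ℕ) (c m m2 : V → ℕ) (pr : V → V) (θk θ' η : ℝ), d0 ≤ d →
      Ctx πk C g z τ e M S c' θk θ' η G d X A t c m m2 pr →
      ∃ f : V → V, ChoP C τ u (x0 c' d) S G d X A t c m m2 pr f

/-- VMU (helper38): the changes satisfy the conditions `MuH` of RX1. -/
def Stmt_VMU : Prop :=
  ∀ (πk C g z τ e : ℝ) (M : ℕ) (J : ℕ) (S : Fin J → Scl) (c' u : ℝ), Cst πk C g z τ e S c' →
    ∃ d0 : ℕ, ∀ {V : Type u} [Fintype V] {N : ℕ} (G : SimpleGraph V) (d : ℕ) (X : XD V N J)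
      (A : PalX) (t : V → V → ℕ) (c m m2 : V → ℕ) (pr f : V → V) (θk θ' η : ℝ), d0 ≤ d →
      Ctx πk C g z τ e M S c' θk θ' η G d X A t c m m2 pr →
      ChoP C τ u (x0 c' d) S G d X A t c m m2 pr f →
      MuH (xt G X) X.P.V0 t (d + 2) (muc G d X t m m2 pr f)

end Pool.Agent.Work.MP_db9399_iv_helper38
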