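import Pool.Agent.Work.MP_db9399_iv_helper38.RXV4

/-!
# MP_db9399, all scales, block RGX4: signed numbers and needs by the sides (helper38)
-/

set_option autoImplicit false

namespace Pool.Agent.Work.MP_db9399_iv_helper38

open Finset Classical
open Pool.Agent.Work.MP_db9399_all (nb)
open Pool.Agent.Work.MP_db9399_lt (us)
open Pool.Agent.Work.MP_db9399_da (Pcs Ty pV sV Ts sdn ptn sgp sg sid need thin)
open Pool.Agent.Work.MP_db9399_xf
open Pool.Agent.Work.MP_db9399_x4

universe u

theorem mem_sid {W : Type u} [Fintype W] {sd : W → Bool} {β : Bool} {v : W} :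
    v ∈ sid sd β ↔ sd v = β := by simp [sid]

/-- size of an intersection -/
noncomputable def nin {α : Type u} (A B : Finset α) : ℕ := (A ∩ B).card

theorem sg_nin {W : Type u} [Fintype W] (F : W → Finset ℕ) (sd : W → Bool) (b : ℕ) :
    sg F sd b = (nin (sid sd false) (us F b) : ℤ) - nin (sid sd true) (us F b) := rfl

theorem need_nin {W : Type u} [Fintype W] (F : W → Finset ℕ) (sd : W → Bool) (β : Bool) (b : ℕ) :
    need F sd β b = nin (sid sd (!β)) (us F b) - nin (sid sd β) (us F b) := rfl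

section
variable {V : Type u} [Fintype V] {N J : ℕ}

/-- number of the vertices of the side `β` of the piece `n` with the colour `b` -/
noncomputable def uu (T : SimpleGraph V) (X : XD V N J) (t : V → V → ℕ) (n : Fin N) (β : Bool)
    (b : ℕ) : ℕ := ((sV X.P n β).filter (fun v => b ∈ Ft T t v)).card

theorem nin_uu (T : SimpleGraph V) (X : XD V N J) (t : V → V → ℕ) (n : Fin N) (β : Bool)
    (b : ℕ) : nin (sid (sdn X.P n) β) (us (Fp T X t n) b) = uu T X t n β b := by
  unfold nin uu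
  rw [← card_image_of_injective _ Subtype.val_injective]
  congr 1
  ext v
  simp only [mem_image, mem_inter, mem_us, mem_sid, mem_filter, mem_sV]
  constructor
  · rintro ⟨x, ⟨h1, h2⟩, rfl⟩
    exact ⟨⟨x.2.1, x.2.2, h1⟩, h2⟩
  · rintro ⟨⟨h1, h2, h3⟩, h4⟩
    exact ⟨⟨v, h1, h2⟩, ⟨h3, h4⟩, rfl⟩

/-- the signed number -/
theorem sg_uu (T : SimpleGraph V) (X : XD V N J) (t : V → V → ℕ) (n : Fin N) (b : ℕ) :
    sg (Fp T X t n) (sdn X.P n) b = (uu T X t n false b : ℤ) - uu T X t n true b := by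
  rw [sg_nin, nin_uu, nin_uu]

/-- the need -/
theorem need_uu (T : SimpleGraph V) (X : XD V N J) (t : V → V → ℕ) (n : Fin N) (β : Bool)
    (b : ℕ) : need (Fp T X t n) (sdn X.P n) β b = uu T X t n (!β) b - uu T X t n β b := by
  rw [need_nin, nin_uu, nin_uu]

/-- the load -/
theorem us_uu (T : SimpleGraph V) (X : XD V N J) (t : V → V → ℕ) (n : Fin N) (b : ℕ) :
    (us (Fp T X t n) b).card = uu T X t n false b + uu T X t n true b := by
  unfold uu
  rw [← card_image_of_injective _ Subtype.val_injective, ← card_union_of_disjoint]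
  · congr 1
    ext v
    simp only [mem_image, mem_us, mem_union, mem_filter, mem_sV]
    constructor
    · rintro ⟨x, h2, rfl⟩
      cases hb : X.P.sd x.1
      · exact Or.inl ⟨⟨x.2.1, x.2.2, rfl⟩, h2⟩
      · exact Or.inr ⟨⟨x.2.1, x.2.2, rfl⟩, h2⟩
    · rintro (⟨⟨h1, h2, h3⟩, h4⟩ | ⟨⟨h1, h2, h3⟩, h4⟩)
      · exact ⟨⟨v, h1, h2⟩, h4, rfl⟩
      · exact ⟨⟨v, h1, h2⟩, h4, rfl⟩
  · rw [disjoint_left]
    intro v hv hv'
    rw [mem_filter, mem_sV] at hv hv'
    rw [hv.1.2.2] at hv'
    exact Bool.false_ne_true hv'.1.2.2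

theorem ub_uu (G : SimpleGraph V) (X : XD V N J) (t : V → V → ℕ) (δ : Fin N → Bool → ℕ → ℕ)
    (n : Fin N) (β : Bool) (b : ℕ) : ub G X t δ n β b = uu (xt G X) X t n β b + δ n β b := rfl

/-- gains and losses -/
theorem uu_chg (G : SimpleGraph V) (X : XD V N J) (t t1 : V → V → ℕ) (n : Fin N) (β : Bool)
    (b : ℕ) : uu (xt G X) X t1 n β b + (LVs G X t t1 n β b).card =
      uu (xt G X) X t n β b + (LVs G X t1 t n β b).card := by
  have h1 : ∀ t t1 : V → V → ℕ, uu (xt G X) X t n β b =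
      ((sV X.P n β).filter (fun v => b ∈ Ft (xt G X) t v ∧ b ∈ Ft (xt G X) t1 v)).card +
        (LVs G X t t1 n β b).card := by
    intro t t1
    unfold uu LVs
    rw [← card_union_of_disjoint]
    · congr 1
      ext v
      simp only [mem_filter, mem_union]
      tauto
    · rw [disjoint_left]
      intro v hv hv'
      rw [mem_filter] at hv hv'
      exact hv'.2.2 hv.2.2
  rw [h1 t1 t, h1 t t1]
  have h2 : (sV X.P n β).filter (fun v => b ∈ Ft (xt G X) t1 v ∧ b ∈ Ft (xt G X) t v) =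
      (sV X.P n β).filter (fun v => b ∈ Ft (xt G X) t v ∧ b ∈ Ft (xt G X) t1 v) :=
    filter_congr fun v _ => and_comm
  rw [h2]
  omega

end

end Pool.Agent.Work.MP_db9399_iv_helper38
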