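import Pool.Agent.Work.MP_db9399_iv_helper38.RXD

/-!
# MP_db9399, all scales, block RGX: the parts of the verification (owner helper38)
-/

set_option autoImplicit false

namespace Pool.Agent.Work.MP_db9399_iv_helper38

open Finset Classical
open Pool.Agent.Work.MP_db9399_all (nb)
open Pool.Agent.Work.MP_db9399_lt (us)
open Pool.Agent.Work.MP_db9399_da (Pcs Ty pV sV Ts sdn ptn sgp sg need thin)
open Pool.Agent.Work.MP_db9399_xf

universe u

section defs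
variable {V : Type u} [Fintype V] {N J : ℕ}

/-- Basic facts about the changes; `Ls`, `Gs`, `Es` of RX2. -/
structure Bas (a : ℝ) (S : Fin J → Scl) (G : SimpleGraph V) (d : ℕ) (X : XD V N J)
    (A : PalX) (t : V → V → ℕ) (m m2 : V → ℕ) (pr f : V → V) : Prop where
  H : MuH (xt G X) X.P.V0 t (d + 2) (muc G d X t m m2 pr f)
  pos : ∀ v y b, muc G d X t m m2 pr f v y = some b → b ∉ A.Q (X.P.pt y) ∧
    ∃ n β, Cvr G X d n β v ∧ y ∈ sV X.P n β
  ls : ∀ n b, (Ls X t (muc G d X t m m2 pr f) n b).card ≤ 2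
  lsw : ∀ n b, (Ls X t (muc G d X t m m2 pr f) n b).Nonempty → ∃ w γ, Cvr G X d n γ w ∧
    t w (f w) = b
  gs : ∀ n, ∃ E : ℕ → ℕ, (∀ b, ((Gs X (muc G d X t m m2 pr f) n b).card : ℝ) ≤
    2 * (d : ℝ) ^ (1 / 200 : ℝ) + E b) ∧ ((∑ b ∈ range (d + 2), E b : ℕ) : ℝ) ≤ a * d ∧
    ∀ b, d + 2 ≤ b → E b = 0
  gsw : ∀ n γ w, Cvr G X d n γ w → Gs X (muc G d X t m m2 pr f) n (t w (f w)) = ∅
  es : ∀ n, ((Es X (muc G d X t m m2 pr f) n).card : ℝ) ≤ 4 * (S (X.sc n)).θ * d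

end defs

/-- BAS (helper38) -/
def Stmt_BASX : Prop :=
  ∀ (πk C g z τ e : ℝ) (M : ℕ) (J : ℕ) (S : Fin J → Scl) (c' u : ℝ), Cst πk C g z τ e S c' →
    ∃ d0 : ℕ, ∀ {V : Type u} [Fintype V] {N : ℕ} (G : SimpleGraph V) (d : ℕ) (X : XD V N J)
      (A : PalX) (t : V → V → ℕ) (c m m2 : V → ℕ) (pr f : V → V) (θk θ' η : ℝ), d0 ≤ d →
      Ctx πk C g z τ e M S c' θk θ' η G d X A t c m m2 pr →
      ChoP C τ u (x0 c' d) S G d X A t c m m2 pr f →
      Bas ((d : ℝ) ^ (-c')) S G d X A t m m2 pr f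

/-- V1: the properties `TcX`, `OwX` after the choice. PROOF. A vertex of a piece of type K has no
changed edge (`Bas.pos`: `y` is in a side of a piece covered, type B), so `rK`, `lK` are unchanged
(`ft_gain`). `cc`, `big`, `dif`: two covering vertices: `ChoP.col`; one: the list (`Lc`); none: `pre`.
`ct`: covering: `ft_miss_a` (the own edge is changed, `muc`); others: `ft_gain`, `Bas.pos`. `sml`, `non`:
the not covering vertices: `pre`; the covering ones: at most one in the cluster of the piece (`col`,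
`D.clp`), at most one outside with at least `x0` neighbours in the piece, the others: `ChoP.wt1`;
`1 / 250 ζ + 2 ζ / 1000 + u ≤ 1 / 125 ζ`, `e / 8 + 2 τ + u ≤ e / 4`. -/
def Stmt_V1 : Prop :=
  ∀ (πk C g z τ e : ℝ) (M : ℕ) (J : ℕ) (S : Fin J → Scl) (c' u : ℝ), Cst πk C g z τ e S c' →
    (∀ s, u ≤ (S s).ζ / 1000) → u ≤ τ →
    ∃ d0 : ℕ, ∀ {V : Type u} [Fintype V] {N : ℕ} (G : SimpleGraph V) (d : ℕ) (X : XD V N J)
      (A : PalX) (t : V → V → ℕ) (c m m2 : V → ℕ) (pr f : V → V) (θk θ' η : ℝ), d0 ≤ d →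
      Ctx πk C g z τ e M S c' θk θ' η G d X A t c m m2 pr →
      ChoP C τ u (x0 c' d) S G d X A t c m m2 pr f →
      Bas ((d : ℝ) ^ (-c')) S G d X A t m m2 pr f →
      TcX η G d X A (tn G d X t m m2 pr f) ∧
        OwX τ (e / 4) (1 / 125) S G d X (tn G d X t m m2 pr f) (cn G d X t c f)
          (fun v => v ∈ X.P.V0)

/-- V2: the numbers. PROOF. `nux_rcl` of RX2 with `Bas` (type N: no changed edges at the piece, `pos`);
`|A.Q j| ≥ (1 - 3 πk) / 100 d`, `|sV n β| ≥ (1 - ζ) d` (g1'). `sup`: `sgp_chg`: the change is at most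
`2 + 2 d ^ (1 / 200) + E b`, so `|sgp| ≤ 2 d ^ (1 / 100) + E b`. `cvt`: the list gives
`1000 (C + 5) - 2`, `gsw`, `ls`. -/
def Stmt_V2 : Prop :=
  ∀ (πk C g z τ e : ℝ) (M : ℕ) (J : ℕ) (S : Fin J → Scl) (c' u : ℝ), Cst πk C g z τ e S c' →
    ∃ d0 : ℕ, ∀ {V : Type u} [Fintype V] {N : ℕ} (G : SimpleGraph V) (d : ℕ) (X : XD V N J)
      (A : PalX) (t : V → V → ℕ) (c m m2 : V → ℕ) (pr f : V → V) (θk θ' η : ℝ), d0 ≤ d →
      Ctx πk C g z τ e M S c' θk θ' η G d X A t c m m2 pr →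
      ChoP C τ u (x0 c' d) S G d X A t c m m2 pr f →
      Bas ((d : ℝ) ^ (-c')) S G d X A t m m2 pr f →
      NuX 200 (2 / 10 ^ 5) (5 / 6) (1 / 200) S G d X A (tn G d X t m m2 pr f) ∧
      (∀ n, X.P.ty n = Ty.N ∨ X.P.ty n = Ty.B → ∀ i, ∑ b ∈ range (d + 2),
        max (|((sgp (Fp (xt G X) X (tn G d X t m m2 pr f) n) (sdn X.P n) (ptn X.P n) i b : ℤ) : ℝ)|
          - 2 * (d : ℝ) ^ (1 / 100 : ℝ)) 0 ≤ (d : ℝ) ^ (-c') * d) ∧
      ∀ n β w, Cvr G X d n β w → ∀ i,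
        |((sgp (Fp (xt G X) X (tn G d X t m m2 pr f) n) (sdn X.P n) (ptn X.P n) i
          (cn G d X t c f w) : ℤ) : ℝ)| ≤ 1000 * (C + 5)

/-- V3: `bkt`. PROOF. T-edges (both ends in pieces of type B, outside `V0`) keep their colours. A pair
counted for `tn` and not for `t` has an end which lost the colour `b`: at most `2` vertices in each
piece (`LV_le`, `Bas.ls`), each with at most `ζ d` T-edges (thd): at most `4 d` pairs. So
`nT tn (Cvc n ∪ Cvc k) ≤ nT t (Cvc n ∪ Cvc k) + 4 d`, `nT t (..) ≤ ∑` over the covering vertices `w` of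
`n` or `k` of `nT t {t w (f w)}` `≤ 1 / 16 nT t (range) + 1 / 4 d ^ (39 / 20)` (`ChoP.wt2`; `b ≤ d + 2` there,
larger `b` like `d + 2`: no colour is used). And `nT t (range) ≤ nT tn (range) +` pairs with an end
which gained `b`: at most `2 d ^ (1 / 200) + a d` in each piece (`GV_le`, `Bas.gs`), each with at most `ζ d`
T-edges. -/
def Stmt_V3 : Prop :=
  ∀ (πk C g z τ e : ℝ) (M : ℕ) (J : ℕ) (S : Fin J → Scl) (c' u : ℝ), Cst πk C g z τ e S c' →
    ∃ d0 : ℕ, ∀ {V : Type u} [Fintype V] {N : ℕ} (G : SimpleGraph V) (d : ℕ) (X : XD V N J)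
      (A : PalX) (t : V → V → ℕ) (c m m2 : V → ℕ) (pr f : V → V) (θk θ' η : ℝ), d0 ≤ d →
      Ctx πk C g z τ e M S c' θk θ' η G d X A t c m m2 pr →
      ChoP C τ u (x0 c' d) S G d X A t c m m2 pr f →
      Bas ((d : ℝ) ^ (-c')) S G d X A t m m2 pr f →
      ∀ n k, X.P.ty n = Ty.B → X.P.ty k = Ty.B → SmC X n k → ∀ β β' i i' b,
        (nT G X (tn G d X t m m2 pr f) b (qV X n β i) (qV X k β' i')
          (Cvc G X d (cn G d X t c f) n ∪ Cvc G X d (cn G d X t c f) k) : ℝ) ≤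
        1 / 8 * nT G X (tn G d X t m m2 pr f) b (qV X n β i) (qV X k β' i') (range (d + 2)) +
          (d : ℝ) ^ (39 / 20 : ℝ) + (d : ℝ) ^ (-c') * (d : ℝ) ^ 2

end Pool.Agent.Work.MP_db9399_iv_helper38
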