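import Mathlib

/-!
# MP_db9399, all scales: the palettes of a piece (helper38)

`x i b` = signed number of the colour `b` at the part `i` after the outside stage. The colours of
`Q i` do not occur at the part `i`. Every piece selects its palettes `P2`, `Qn i ⊆ Q i`: from every
class of colours with the same type and the same signed numbers a fraction is taken, so the sum of
the signed numbers over `P2 ∪ Qn (!i)` is a fraction of the sum over all colours.
-/

set_option autoImplicit false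

namespace Pool.Agent.Work.MP_db9399_iv_helper38

open Finset Classical

/-- a fraction of every class of equal keys -/
theorem sel_key {α κ : Type*} [DecidableEq κ] (S : Finset α) (key : α → κ) (lam : ℝ) (h0 : 0 ≤ lam)
    (h1 : lam ≤ 1) :
    ∃ T ⊆ S, ∀ g : κ → ℝ,
      |∑ b ∈ T, g (key b) - lam * ∑ b ∈ S, g (key b)| ≤ ∑ k ∈ S.image key, |g k| := by
  have h : ∀ k : κ, ∃ T ⊆ S.filter (fun b => key b = k),
      T.card = ⌊lam * ((S.filter (fun b => key b = k)).card : ℝ)⌋₊ := by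
    intro k
    refine exists_subset_card_eq (Nat.floor_le_of_le ?_)
    calc lam * ((S.filter (fun b => key b = k)).card : ℝ)
        ≤ 1 * ((S.filter (fun b => key b = k)).card : ℝ) :=
          mul_le_mul_of_nonneg_right h1 (Nat.cast_nonneg _)
      _ = _ := one_mul _
  choose T hT hTc using h
  refine ⟨S.filter (fun b => b ∈ T (key b)), filter_subset _ _, fun g => ?_⟩
  have e1 : ∑ b ∈ S.filter (fun b => b ∈ T (key b)), g (key b) =
      ∑ k ∈ S.image key, ((T k).card : ℝ) * g k := by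
    rw [← sum_fiberwise_of_maps_to (s := S.filter (fun b => b ∈ T (key b))) (t := S.image key)
      (g := key) (fun b hb => mem_image_of_mem _ (mem_filter.1 hb).1)]
    refine sum_congr rfl fun k _ => ?_
    have e : (S.filter (fun b => b ∈ T (key b))).filter (fun b => key b = k) = T k := by
      ext b
      simp only [mem_filter]
      constructor
      · rintro ⟨⟨_, h2⟩, h3⟩
        rwa [h3] at h2
      · intro h2
        have h3 := mem_filter.1 (hT k h2)
        exact ⟨⟨h3.1, by rw [h3.2]; exact h2⟩, h3.2⟩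
    rw [sum_congr rfl (g := fun _ => g k) (fun b hb => by rw [(mem_filter.1 hb).2]), sum_const,
      nsmul_eq_mul, e]
  have e2 : ∑ b ∈ S, g (key b) =
      ∑ k ∈ S.image key, ((S.filter (fun b => key b = k)).card : ℝ) * g k := by
    rw [← sum_fiberwise_of_maps_to (s := S) (t := S.image key)
      (g := key) (fun b hb => mem_image_of_mem _ hb)]
    refine sum_congr rfl fun k _ => ?_
    rw [sum_congr rfl (g := fun _ => g k) (fun b hb => by rw [(mem_filter.1 hb).2]), sum_const,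
      nsmul_eq_mul]
  rw [e1, e2, mul_sum, ← sum_sub_distrib]
  refine (abs_sum_le_sum_abs _ _).trans (sum_le_sum fun k _ => ?_)
  have e3 : ((T k).card : ℝ) * g k - lam * (((S.filter (fun b => key b = k)).card : ℝ) * g k) =
      (((T k).card : ℝ) - lam * ((S.filter (fun b => key b = k)).card : ℝ)) * g k := by ring
  rw [e3, abs_mul]
  have h4 : |((T k).card : ℝ) - lam * ((S.filter (fun b => key b = k)).card : ℝ)| ≤ 1 := by
    rw [hTc]
    have h5 := Nat.floor_le (mul_nonneg h0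
      (Nat.cast_nonneg (α := ℝ) (S.filter (fun b => key b = k)).card))
    have h6 := Nat.lt_floor_add_one (lam * ((S.filter (fun b => key b = k)).card : ℝ))
    rw [abs_le]
    constructor <;> linarith
  calc _ ≤ 1 * |g k| := mul_le_mul_of_nonneg_right h4 (abs_nonneg _)
    _ = |g k| := one_mul _

/-- `k` elements with the smallest values -/
theorem sel_min {α : Type*} (A : Finset α) (f : α → ℕ) (k : ℕ) (hk : k ≤ A.card) :
    ∃ B ⊆ A, B.card = k ∧ ∀ b ∈ B, ∀ a ∈ A, a ∉ B → f b ≤ f a := by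
  induction k with
  | zero => exact ⟨∅, empty_subset _, rfl, by simp⟩
  | succ k ih =>
    obtain ⟨B, hB, hBc, hBm⟩ := ih (by omega)
    have hne : (A \ B).Nonempty := by
      rw [← card_pos, card_sdiff_of_subset hB]
      omega
    obtain ⟨a, ha, hmin⟩ := exists_min_image (A \ B) f hne
    rw [mem_sdiff] at ha
    refine ⟨insert a B, insert_subset ha.1 hB, by rw [card_insert_of_notMem ha.2, hBc], ?_⟩
    intro b hb c hc hcB
    rw [mem_insert, not_or] at hcB
    rw [mem_insert] at hb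
    rcases hb with rfl | hb
    · exact hmin c (mem_sdiff.2 ⟨hc, hcB.2⟩)
    · exact hBm b hb c hc hcB.2

theorem sel_min_zero {α : Type*} {A B : Finset α} {f : α → ℕ}
    (hm : ∀ b ∈ B, ∀ a ∈ A, a ∉ B → f b ≤ f a)
    (h0 : B.card ≤ (A.filter (fun a => f a = 0)).card) : ∀ b ∈ B, f b = 0 := by
  intro b hb
  by_contra hne
  have h1 : A.filter (fun a => f a = 0) ⊆ B.erase b := by
    intro a ha
    rw [mem_filter] at ha
    rw [mem_erase]
    refine ⟨fun e => hne (e ▸ ha.2), ?_⟩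
    by_contra haB
    have := hm b hb a ha.1 haB
    omega
  have h2 := card_le_card h1
  rw [card_erase_of_mem hb] at h2
  have h3 : 0 < B.card := card_pos.2 ⟨b, hb⟩
  omega

theorem sel_min_avg {α : Type*} {A B : Finset α} {f : α → ℕ} (hB : B ⊆ A)
    (hm : ∀ b ∈ B, ∀ a ∈ A, a ∉ B → f b ≤ f a) :
    A.card * ∑ b ∈ B, f b ≤ B.card * ∑ a ∈ A, f a := by
  have h1 : ∑ a ∈ A, f a = ∑ a ∈ A \ B, f a + ∑ b ∈ B, f b := (sum_sdiff hB).symm
  have h2 : A.card = (A \ B).card + B.card := by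
    rw [card_sdiff_of_subset hB]
    have := card_le_card hB
    omega
  have h3 : (A \ B).card * ∑ b ∈ B, f b ≤ B.card * ∑ a ∈ A \ B, f a := by
    have e1 : (A \ B).card * ∑ b ∈ B, f b = ∑ _a ∈ A \ B, ∑ b ∈ B, f b := by
      rw [sum_const, smul_eq_mul]
    have e2 : B.card * ∑ a ∈ A \ B, f a = ∑ a ∈ A \ B, ∑ _b ∈ B, f a := by
      rw [mul_sum]
      refine sum_congr rfl fun a _ => ?_
      rw [sum_const, smul_eq_mul]
    rw [e1, e2]
    refine sum_le_sum fun a ha => sum_le_sum fun b hb => ?_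
    rw [mem_sdiff] at ha
    exact hm b hb a ha.1 ha.2
  rw [h1, h2]
  nlinarith

/-- type and signed numbers of a colour -/
noncomputable def ky (Q : Bool → Finset ℕ) (x : Bool → ℕ → ℤ) (b : ℕ) : (Bool × Bool) × (ℤ × ℤ) :=
  ((decide (b ∈ Q false), decide (b ∈ Q true)), (x false b, x true b))

theorem ky_card (Q : Bool → Finset ℕ) (x : Bool → ℕ → ℤ) (S : Finset ℕ) {L : ℝ} (hL : 1 ≤ L)
    (hx : ∀ i, ∀ b ∈ S, |((x i b : ℤ) : ℝ)| ≤ L) :
    ((S.image (ky Q x)).card : ℝ) ≤ 36 * L ^ 2 := by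
  set m : ℕ := ⌊L⌋₊ with hm
  have hmL : (m : ℝ) ≤ L := Nat.floor_le (by linarith)
  have h1 : S.image (ky Q x) ⊆ (univ : Finset (Bool × Bool)) ×ˢ
      (Icc (-(m : ℤ)) m ×ˢ Icc (-(m : ℤ)) m) := by
    intro k hk
    obtain ⟨b, hb, rfl⟩ := mem_image.1 hk
    have h2 : ∀ i, x i b ∈ Icc (-(m : ℤ)) m := by
      intro i
      have h3 := hx i b hb
      have h4 : ((x i b).natAbs : ℝ) ≤ L := by
        rw [Nat.cast_natAbs]
        push_cast
        exact h3
      have h5 : (x i b).natAbs ≤ m := Nat.le_floor h4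
      rw [mem_Icc]
      omega
    simp only [mem_product, mem_univ, true_and, ky]
    exact ⟨h2 false, h2 true⟩
  have h2 := card_le_card h1
  rw [card_product, card_product] at h2
  have h3 : (univ : Finset (Bool × Bool)).card = 4 := by decide
  have h4 : (Icc (-(m : ℤ)) m).card = 2 * m + 1 := by
    rw [Int.card_Icc]
    omega
  rw [h3, h4] at h2
  have h5 : ((S.image (ky Q x)).card : ℝ) ≤ 4 * ((2 * m + 1) * (2 * m + 1)) := by
    exact_mod_cast h2
  have h6 : (0 : ℝ) ≤ m := Nat.cast_nonneg _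
  nlinarith

/-- Palettes of a piece. `x i b`: signed number of the colour `b` at the part `i`; `Bk`: own colours of
the rigid vertices. -/
structure SelO (π κ ξ Λ : ℝ) (d : ℕ) (Q : Bool → Finset ℕ) (Bk : Finset ℕ) (x : Bool → ℕ → ℤ)
    (Qn : Bool → Finset ℕ) (P2 : Finset ℕ) : Prop where
  QQ : ∀ i, Qn i ⊆ Q i
  Plt : P2 ⊆ range (d + 2)
  QP : ∀ i, Disjoint (Qn i) P2
  Qc : ∀ i, κ * d ≤ ((Qn i).card : ℝ) ∧ ((Qn i).card : ℝ) ≤ 2 * κ * d
  Pc : π * d ≤ (P2.card : ℝ) ∧ (P2.card : ℝ) ≤ 2 * π * d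
  Bk : Bk ⊆ P2
  sm : ∀ i, |((∑ b ∈ P2 ∪ Qn (!i), x i b : ℤ) : ℝ)| ≤ ξ * d
  l1 : ∀ i, ∑ b ∈ P2 ∪ Qn (!i), |((x i b : ℤ) : ℝ)| ≤ (2 * π * Λ + ξ) * d
  pos : ∀ j, (d : ℝ) / 100 ≤ (((Q j).filter (fun b => 0 ≤ x (!j) b)).card : ℝ) →
    ∀ b ∈ Qn j, 0 ≤ x (!j) b
  neg : ∀ j, ((∑ b ∈ Qn j, (-x (!j) b).toNat : ℕ) : ℝ) ≤
    (Qn j).card * (12 * ((∑ b ∈ Q j, (-x (!j) b).toNat : ℕ) : ℝ) / d + 1 / 100)

/-- SELP with an explicit error `E` of the selection. -/
theorem selp_core (π κ ξ Λ δ E L : ℝ) (hπ : 0 < π) (hπ1 : π ≤ 1 / 100) (hκ : 0 < κ)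
    (hκ1 : κ ≤ π / 1000) (hξ : 0 < ξ) (hδ1 : δ ≤ π / 100) (hδ2 : δ ≤ ξ / 8)
    (d : ℕ) (hd : 1000 ≤ κ * d) (hL : 1 ≤ L) (hE : E = 36 * L ^ 3)
    (hE1 : E ≤ π / 1000 * d) (hE2 : E ≤ ξ / 8 * d)
    (Q : Bool → Finset ℕ) (Bk : Finset ℕ) (x : Bool → ℕ → ℤ)
    (hQr : ∀ i, Q i ⊆ range (d + 2)) (hQd : Disjoint (Q false) (Q true))
    (hQc : ∀ i, (d : ℝ) / 10 ≤ ((Q i).card : ℝ)) (hBr : Bk ⊆ range (d + 2))
    (hBc : (Bk.card : ℝ) ≤ δ * d) (hB1 : ∀ i, ∑ b ∈ Bk, |((x i b : ℤ) : ℝ)| ≤ δ * d)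
    (hx0 : ∀ i, ∀ b ∈ Q i, x i b = 0) (hxL : ∀ i, ∀ b < d + 2, |((x i b : ℤ) : ℝ)| ≤ L)
    (hxs : ∀ i, |((∑ b ∈ range (d + 2), x i b : ℤ) : ℝ)| ≤ ξ * d)
    (hx1 : ∀ i, ∑ b ∈ range (d + 2), |((x i b : ℤ) : ℝ)| ≤ Λ * d) :
    ∃ (Qn : Bool → Finset ℕ) (P2 : Finset ℕ), SelO π κ ξ Λ d Q Bk x Qn P2 := by
  have hdpos : (0 : ℝ) < d := by
    by_contra h
    have : (d : ℝ) = 0 := le_antisymm (not_lt.1 h) (Nat.cast_nonneg _)
    rw [this] at hd
    linarith
  set S : Finset ℕ := range (d + 2) \ Bk with hS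
  set lam : ℝ := 3 / 2 * π with hlam
  have hlam0 : 0 ≤ lam := by positivity
  have hlam1 : lam ≤ 1 := by linarith
  obtain ⟨T, hTS, hT⟩ := sel_key S (ky Q x) lam hlam0 hlam1
  have hSr : ∀ b ∈ S, b < d + 2 := fun b hb => mem_range.1 (mem_sdiff.1 hb).1
  have hTr : ∀ b ∈ T, b < d + 2 := fun b hb => hSr b (hTS hb)
  -- the error of a functional
  have herr : ∀ g : (Bool × Bool) × (ℤ × ℤ) → ℝ, (∀ b ∈ S, |g (ky Q x b)| ≤ L) →
      |∑ b ∈ T, g (ky Q x b) - lam * ∑ b ∈ S, g (ky Q x b)| ≤ E := by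
    intro g hg
    refine (hT g).trans ?_
    have h1 : ∑ k ∈ S.image (ky Q x), |g k| ≤ ∑ _k ∈ S.image (ky Q x), L := by
      refine sum_le_sum fun k hk => ?_
      obtain ⟨b, hb, rfl⟩ := mem_image.1 hk
      exact hg b hb
    refine h1.trans ?_
    rw [sum_const, nsmul_eq_mul, hE]
    have h2 := ky_card Q x S hL (fun i b hb => hxL i b (hSr b hb))
    calc ((S.image (ky Q x)).card : ℝ) * L ≤ 36 * L ^ 2 * L :=
          mul_le_mul_of_nonneg_right h2 (by linarith)
      _ = 36 * L ^ 3 := by ring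
  -- sums over S
  have hsplit : ∀ f : ℕ → ℝ, ∑ b ∈ range (d + 2), f b = ∑ b ∈ S, f b + ∑ b ∈ Bk, f b :=
    fun f => (sum_sdiff hBr).symm
  have hBT : Disjoint T Bk := by
    refine disjoint_of_subset_left hTS ?_
    rw [hS]
    exact sdiff_disjoint
  -- cardinality
  have hTc := herr (fun _ => 1) (fun b _ => by simpa using hL)
  simp only [sum_const, nsmul_eq_mul, mul_one] at hTc
  have hSc : (S.card : ℝ) = d + 2 - Bk.card := by
    have h1 := hsplit (fun _ => 1)
    simp only [sum_const, nsmul_eq_mul, mul_one, card_range] at h1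
    push_cast at h1
    linarith
  have hTlo : 3 / 2 * π * d - 3 / 2 * π * (δ * d) - E ≤ (T.card : ℝ) := by
    have h1 := (abs_le.1 hTc).1
    have h2 : lam * (S.card : ℝ) ≥ 3 / 2 * π * (d - δ * d) := by
      rw [hlam]
      refine mul_le_mul_of_nonneg_left ?_ (by positivity)
      rw [hSc]
      linarith
    linarith
  have hThi : (T.card : ℝ) ≤ 3 / 2 * π * (d + 2) + E := by
    have h1 := (abs_le.1 hTc).2
    have h2 : lam * (S.card : ℝ) ≤ 3 / 2 * π * (d + 2) := by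
      rw [hlam]
      refine mul_le_mul_of_nonneg_left ?_ (by positivity)
      rw [hSc]
      have : (0 : ℝ) ≤ Bk.card := Nat.cast_nonneg _
      linarith
    linarith
  -- functionals supported on Q j
  have hkQ : ∀ (j : Bool) (b : ℕ), (if j then (ky Q x b).1.2 else (ky Q x b).1.1) = true ↔ b ∈ Q j := by
    intro j b
    cases j <;> simp [ky]
  have hQf : ∀ (j : Bool) (h : ℤ → ℝ), (∀ b < d + 2, |h (x (!j) b)| ≤ L) →
      |∑ b ∈ T ∩ Q j, h (x (!j) b) - lam * ∑ b ∈ S ∩ Q j, h (x (!j) b)| ≤ E := by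
    intro j h hh
    have h1 := herr (fun k => if (if j then k.1.2 else k.1.1) = true then
      h (if j then k.2.1 else k.2.2) else 0) (by
        intro b hb
        rw [show (if j then (ky Q x b).2.1 else (ky Q x b).2.2) = x (!j) b by cases j <;> simp [ky]]
        by_cases hc : (if j then (ky Q x b).1.2 else (ky Q x b).1.1) = true
        · rw [if_pos hc]
          exact hh b (hSr b hb)
        · rw [if_neg hc, abs_zero]
          linarith)
    have h2 : ∀ U : Finset ℕ, ∑ b ∈ U, (if (if j then (ky Q x b).1.2 else (ky Q x b).1.1) = true then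
        h (if j then (ky Q x b).2.1 else (ky Q x b).2.2) else 0) = ∑ b ∈ U ∩ Q j, h (x (!j) b) := by
      intro U
      rw [← filter_mem_eq_inter, sum_filter]
      refine sum_congr rfl fun b _ => ?_
      rw [show (if j then (ky Q x b).2.1 else (ky Q x b).2.2) = x (!j) b by cases j <;> simp [ky]]
      by_cases hb : b ∈ Q j
      · rw [if_pos ((hkQ j b).2 hb), if_pos hb]
      · rw [if_neg (fun h => hb ((hkQ j b).1 h)), if_neg hb]
    rw [h2, h2] at h1
    exact h1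
  have hQS : ∀ (j : Bool) (f : ℕ → ℝ), (∀ b, 0 ≤ f b) →
      ∑ b ∈ S ∩ Q j, f b ≤ ∑ b ∈ Q j, f b ∧
      ∑ b ∈ Q j, f b ≤ ∑ b ∈ S ∩ Q j, f b + ∑ b ∈ Bk, f b := by
    intro j f hf
    refine ⟨sum_le_sum_of_subset_of_nonneg inter_subset_right fun b _ _ => hf b, ?_⟩
    have h1 : Q j ⊆ (S ∩ Q j) ∪ Bk := by
      intro b hb
      by_cases h : b ∈ Bk
      · exact mem_union_right _ h
      · exact mem_union_left _ (mem_inter.2 ⟨mem_sdiff.2 ⟨hQr j hb, h⟩, hb⟩)
    refine (sum_le_sum_of_subset_of_nonneg h1 fun b _ _ => hf b).trans ?_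
    rw [sum_union (by
      rw [disjoint_left]
      intro b hb
      exact (mem_sdiff.1 (mem_inter.1 hb).1).2)]
  -- the sets A j
  have hAc : ∀ j, 14 / 100 * π * d ≤ ((T ∩ Q j).card : ℝ) := by
    intro j
    have h1 := hQf j (fun _ => 1) (fun b _ => by simpa using hL)
    simp only [sum_const, nsmul_eq_mul, mul_one] at h1
    have h2 := (hQS j (fun _ => 1) (fun _ => zero_le_one)).2
    simp only [sum_const, nsmul_eq_mul, mul_one] at h2
    have h3 := hQc j
    have h4 : lam * ((S ∩ Q j).card : ℝ) ≥ 3 / 2 * π * (d / 10 - δ * d) := by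
      rw [hlam]
      refine mul_le_mul_of_nonneg_left ?_ (by positivity)
      linarith
    have h5 := (abs_le.1 h1).1
    have h6 : 3 / 2 * π * (δ * d) ≤ 3 / 2 * π * (1 / 10000 * d) := by
      refine mul_le_mul_of_nonneg_left ?_ (by positivity)
      refine mul_le_mul_of_nonneg_right ?_ hdpos.le
      linarith
    have h7 : 0 < π * d := by positivity
    nlinarith
  set k : ℕ := ⌈κ * d⌉₊ with hk
  have hk1 : κ * d ≤ (k : ℝ) := Nat.le_ceil _
  have hk2 : (k : ℝ) < κ * d + 1 := Nat.ceil_lt_add_one (by positivity)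
  have hκd : κ * d ≤ π / 1000 * d := mul_le_mul_of_nonneg_right hκ1 hdpos.le
  have hkA : ∀ j, k ≤ (T ∩ Q j).card := by
    intro j
    have h1 := hAc j
    have h2 : (k : ℝ) ≤ ((T ∩ Q j).card : ℝ) := by nlinarith
    exact_mod_cast h2
  have hsel : ∀ j : Bool, ∃ B ⊆ T ∩ Q j, B.card = k ∧
      ∀ b ∈ B, ∀ a ∈ T ∩ Q j, a ∉ B → (-x (!j) b).toNat ≤ (-x (!j) a).toNat :=
    fun j => sel_min (T ∩ Q j) (fun b => (-x (!j) b).toNat) k (hkA j)
  choose Qn hQnA hQnc hQnm using hsel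
  set P2 : Finset ℕ := (T ∪ Bk) \ (Qn false ∪ Qn true) with hP2
  have hQnT : ∀ j, Qn j ⊆ T := fun j => (hQnA j).trans inter_subset_left
  have hQnQ : ∀ j, Qn j ⊆ Q j := fun j => (hQnA j).trans inter_subset_right
  have hQnd : Disjoint (Qn false) (Qn true) := hQd.mono (hQnQ false) (hQnQ true)
  have hQnU : ∀ j, Qn j ⊆ Qn false ∪ Qn true := by
    intro j
    cases j
    · exact subset_union_left
    · exact subset_union_right
  -- sums over P2 ∪ Qn (!i)
  have hsum : ∀ (i : Bool) (h : ℤ → ℝ), h 0 = 0 →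
      ∑ b ∈ P2 ∪ Qn (!i), h (x i b) = ∑ b ∈ T, h (x i b) + ∑ b ∈ Bk, h (x i b) := by
    intro i h h0
    rw [← sum_union hBT]
    have h1 : P2 ∪ Qn (!i) = (T ∪ Bk) \ Qn i := by
      ext b
      simp only [hP2, mem_union, mem_sdiff]
      have h2 : ¬ (b ∈ Qn false ∧ b ∈ Qn true) := fun h => disjoint_left.1 hQnd h.1 h.2
      have h3 := @hQnT false b
      have h4 := @hQnT true b
      cases i
      · simp only [Bool.not_false]
        tauto
      · simp only [Bool.not_true]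
        tauto
    rw [h1, ← sum_sdiff ((hQnT i).trans (subset_union_left (s₂ := Bk)))]
    have h2 : ∑ b ∈ Qn i, h (x i b) = 0 := by
      refine sum_eq_zero fun b hb => ?_
      rw [hx0 i b (hQnQ i hb), h0]
    rw [h2, add_zero]
  refine ⟨Qn, P2, ⟨hQnQ, ?_, ?_, ?_, ?_, ?_, ?_, ?_, ?_, ?_⟩⟩
  · intro b hb
    have h1 := (mem_sdiff.1 hb).1
    rcases mem_union.1 h1 with h | h
    · exact mem_range.2 (hTr b h)
    · exact hBr h
  · intro i
    rw [disjoint_left]
    intro b hb hb'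
    exact (mem_sdiff.1 hb').2 (hQnU i hb)
  · intro i
    rw [hQnc]
    refine ⟨hk1, ?_⟩
    linarith
  · constructor
    · have h1 : (T.card : ℝ) ≤ P2.card + 2 * k := by
        have h2 : T ⊆ P2 ∪ (Qn false ∪ Qn true) := by
          intro b hb
          by_cases h : b ∈ Qn false ∪ Qn true
          · exact mem_union_right _ h
          · exact mem_union_left _ (mem_sdiff.2 ⟨mem_union_left _ hb, h⟩)
        have h3 := (card_le_card h2).trans (card_union_le _ _)
        have h4 := card_union_le (Qn false) (Qn true)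
        rw [hQnc, hQnc] at h4
        have h5 : T.card ≤ P2.card + 2 * k := by omega
        exact_mod_cast h5
      have h6 : 3 / 2 * π * (δ * d) ≤ 3 / 2 * π * (1 / 10000 * d) := by
        refine mul_le_mul_of_nonneg_left ?_ (by positivity)
        refine mul_le_mul_of_nonneg_right ?_ hdpos.le
        linarith
      have h7 : 0 < π * d := by positivity
      nlinarith
    · have h1 : (P2.card : ℝ) ≤ T.card + Bk.card := by
        have h2 := (card_le_card (sdiff_subset (s := T ∪ Bk) (t := Qn false ∪ Qn true))).trans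
          (card_union_le _ _)
        exact_mod_cast h2
      have h2 : δ * d ≤ π / 100 * d := mul_le_mul_of_nonneg_right hδ1 hdpos.le
      have h7 : 0 < π * d := by positivity
      nlinarith
  · intro b hb
    rw [hP2, mem_sdiff]
    refine ⟨mem_union_right _ hb, fun h => ?_⟩
    rw [mem_union] at h
    rcases h with h | h
    · exact disjoint_left.1 hBT (hQnT _ h) hb
    · exact disjoint_left.1 hBT (hQnT _ h) hb
  · intro i
    have h0 := hsum i (fun z => (z : ℝ)) (by simp)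
    push_cast
    rw [h0]
    have h1 := herr (fun k => if i then (k.2.2 : ℝ) else (k.2.1 : ℝ)) (by
      intro b hb
      cases i
      · simpa [ky] using hxL false b (hSr b hb)
      · simpa [ky] using hxL true b (hSr b hb))
    have h2 : ∀ U : Finset ℕ, ∑ b ∈ U, (if i then (((ky Q x b).2.2 : ℤ) : ℝ) else
        (((ky Q x b).2.1 : ℤ) : ℝ)) = ∑ b ∈ U, ((x i b : ℤ) : ℝ) := by
      intro U
      refine sum_congr rfl fun b _ => ?_
      cases i <;> simp [ky]
    rw [h2, h2] at h1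
    have h3 := hsplit (fun b => ((x i b : ℤ) : ℝ))
    have h4 := hxs i
    push_cast at h4
    rw [h3] at h4
    have h5 : |∑ b ∈ Bk, ((x i b : ℤ) : ℝ)| ≤ δ * d :=
      (abs_sum_le_sum_abs _ _).trans (hB1 i)
    have h6 : |∑ b ∈ S, ((x i b : ℤ) : ℝ)| ≤ (ξ + δ) * d := by
      have : ∑ b ∈ S, ((x i b : ℤ) : ℝ) =
          (∑ b ∈ S, ((x i b : ℤ) : ℝ) + ∑ b ∈ Bk, ((x i b : ℤ) : ℝ)) -
            ∑ b ∈ Bk, ((x i b : ℤ) : ℝ) := by ring
      rw [this]
      refine (abs_sub _ _).trans ?_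
      linarith
    have h7 : |lam * ∑ b ∈ S, ((x i b : ℤ) : ℝ)| ≤ 3 / 200 * ((ξ + δ) * d) := by
      rw [abs_mul, abs_of_nonneg hlam0]
      exact mul_le_mul (by linarith) h6 (abs_nonneg _) (by norm_num)
    have h8 : |∑ b ∈ T, ((x i b : ℤ) : ℝ)| ≤ E + 3 / 200 * ((ξ + δ) * d) := by
      have : ∑ b ∈ T, ((x i b : ℤ) : ℝ) =
          (∑ b ∈ T, ((x i b : ℤ) : ℝ) - lam * ∑ b ∈ S, ((x i b : ℤ) : ℝ)) +
            lam * ∑ b ∈ S, ((x i b : ℤ) : ℝ) := by ring
      rw [this]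
      refine (abs_add_le _ _).trans ?_
      linarith
    refine (abs_add_le _ _).trans ?_
    have h9 : δ * d ≤ ξ / 8 * d := mul_le_mul_of_nonneg_right hδ2 hdpos.le
    have h10 : 0 < ξ * d := by positivity
    nlinarith
  · intro i
    have h0 := hsum i (fun z => |(z : ℝ)|) (by simp)
    rw [h0]
    have h1 := herr (fun k => |if i then (k.2.2 : ℝ) else (k.2.1 : ℝ)|) (by
      intro b hb
      rw [abs_abs]
      cases i
      · simpa [ky] using hxL false b (hSr b hb)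
      · simpa [ky] using hxL true b (hSr b hb))
    have h2 : ∀ U : Finset ℕ, ∑ b ∈ U, |if i then (((ky Q x b).2.2 : ℤ) : ℝ) else
        (((ky Q x b).2.1 : ℤ) : ℝ)| = ∑ b ∈ U, |((x i b : ℤ) : ℝ)| := by
      intro U
      refine sum_congr rfl fun b _ => ?_
      cases i <;> simp [ky]
    rw [h2, h2] at h1
    have h3 := hsplit (fun b => |((x i b : ℤ) : ℝ)|)
    have h4 := hx1 i
    rw [h3] at h4
    have h5 : 0 ≤ ∑ b ∈ Bk, |((x i b : ℤ) : ℝ)| := sum_nonneg fun _ _ => abs_nonneg _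
    have h6 : lam * ∑ b ∈ S, |((x i b : ℤ) : ℝ)| ≤ 3 / 2 * π * (Λ * d) := by
      rw [hlam]
      exact mul_le_mul_of_nonneg_left (by linarith) (by positivity)
    have h7 := (abs_le.1 h1).2
    have h8 : 0 ≤ ∑ b ∈ S, |((x i b : ℤ) : ℝ)| := sum_nonneg fun _ _ => abs_nonneg _
    have h9 : 0 ≤ Λ * d := by linarith
    have h10 : 0 ≤ π * (Λ * d) := mul_nonneg hπ.le h9
    have h11 : δ * d ≤ ξ / 8 * d := mul_le_mul_of_nonneg_right hδ2 hdpos.le
    have h12 := hB1 i
    have h13 : 0 < ξ * d := by positivity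
    have h14 : (2 * π * Λ + ξ) * d = 2 * (π * (Λ * d)) + ξ * d := by ring
    rw [h14]
    linarith
  · intro j hj b hb
    have h1 := hQf j (fun z => if 0 ≤ z then 1 else 0) (by
      intro b _
      split_ifs
      · simpa using hL
      · rw [abs_zero]
        linarith)
    have h2 := (hQS j (fun b => if 0 ≤ x (!j) b then 1 else 0) (fun b => by split_ifs <;> simp)).2
    have h3 : ∑ b ∈ Bk, (if 0 ≤ x (!j) b then (1 : ℝ) else 0) ≤ δ * d := by
      refine le_trans ?_ hBc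
      calc _ ≤ ∑ _b ∈ Bk, (1 : ℝ) := sum_le_sum fun b _ => by split_ifs <;> simp
        _ = Bk.card := by simp
    have h4 : ∀ U : Finset ℕ, ∑ b ∈ U, (if 0 ≤ x (!j) b then (1 : ℝ) else 0) =
        ((U.filter (fun b => 0 ≤ x (!j) b)).card : ℝ) := by
      intro U
      rw [← sum_filter, sum_const, nsmul_eq_mul, mul_one]
    rw [h4] at h2
    rw [h4] at h1
    have h5 : 3 / 2 * π * (d / 100 - δ * d) ≤
        lam * ∑ b ∈ S ∩ Q j, (if 0 ≤ x (!j) b then (1 : ℝ) else 0) := by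
      rw [hlam]
      refine mul_le_mul_of_nonneg_left ?_ (by positivity)
      linarith
    have h6 := (abs_le.1 h1).1
    have h7 : 3 / 2 * π * (δ * d) ≤ 3 / 2 * π * (1 / 10000 * d) := by
      refine mul_le_mul_of_nonneg_left ?_ (by positivity)
      refine mul_le_mul_of_nonneg_right ?_ hdpos.le
      linarith
    have h8 : 0 < π * d := by positivity
    have h9 : (k : ℝ) ≤ (((T ∩ Q j).filter (fun b => 0 ≤ x (!j) b)).card : ℝ) := by
      nlinarith
    have h10 : (Qn j).card ≤ ((T ∩ Q j).filter (fun b => (-x (!j) b).toNat = 0)).card := by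
      rw [hQnc]
      have e : (T ∩ Q j).filter (fun b => (-x (!j) b).toNat = 0) =
          (T ∩ Q j).filter (fun b => 0 ≤ x (!j) b) := by
        refine filter_congr fun b _ => ?_
        omega
      rw [e]
      exact_mod_cast h9
    have h11 := sel_min_zero (hQnm j) h10 b hb
    omega
  · intro j
    have h1 := sel_min_avg (hQnA j) (hQnm j)
    have h2 := hQf j (fun z => ((-z).toNat : ℝ)) (by
      intro b hb
      have h3 := hxL (!j) b hb
      have h4 : ((-x (!j) b).toNat : ℝ) ≤ ((x (!j) b).natAbs : ℝ) := by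
        have : (-x (!j) b).toNat ≤ (x (!j) b).natAbs := by omega
        exact_mod_cast this
      rw [abs_of_nonneg (Nat.cast_nonneg _)]
      rw [Nat.cast_natAbs] at h4
      push_cast at h4
      linarith)
    have h3 := (hQS j (fun b => ((-x (!j) b).toNat : ℝ)) (fun b => Nat.cast_nonneg _)).1
    have h4 : (((T ∩ Q j).card : ℝ)) * ((∑ b ∈ Qn j, (-x (!j) b).toNat : ℕ) : ℝ) ≤
        (Qn j).card * ((∑ b ∈ T ∩ Q j, (-x (!j) b).toNat : ℕ) : ℝ) := by exact_mod_cast h1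
    set F : ℝ := ((∑ b ∈ Q j, (-x (!j) b).toNat : ℕ) : ℝ) with hF
    have hF0 : 0 ≤ F := Nat.cast_nonneg _
    have hFe : ∑ b ∈ Q j, (((-x (!j) b).toNat : ℕ) : ℝ) = F := by rw [hF]; push_cast; rfl
    rw [hFe] at h3
    have h5 : ((∑ b ∈ T ∩ Q j, (-x (!j) b).toNat : ℕ) : ℝ) ≤ 3 / 2 * π * F + E := by
      have h6 := (abs_le.1 h2).2
      have h7 : lam * ∑ b ∈ S ∩ Q j, (((-x (!j) b).toNat : ℕ) : ℝ) ≤ 3 / 2 * π * F := by
        rw [hlam]
        exact mul_le_mul_of_nonneg_left h3 (by positivity)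
      push_cast
      linarith
    have h6 := hAc j
    set z : ℝ := ((∑ b ∈ Qn j, (-x (!j) b).toNat : ℕ) : ℝ) with hz
    have hz0 : 0 ≤ z := Nat.cast_nonneg _
    have h7 : 14 / 100 * π * d * z ≤ (Qn j).card * (3 / 2 * π * F + E) :=
      (mul_le_mul_of_nonneg_right h6 hz0).trans
        (h4.trans (mul_le_mul_of_nonneg_left h5 (Nat.cast_nonneg _)))
    have h8 : 0 < 14 / 100 * π * d := by positivity
    have h9 : z ≤ (Qn j).card * (3 / 2 * π * F + E) / (14 / 100 * π * d) := by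
      rw [le_div_iff₀ h8]
      linarith
    refine h9.trans ?_
    rw [mul_div_assoc]
    refine mul_le_mul_of_nonneg_left ?_ (Nat.cast_nonneg _)
    rw [div_le_iff₀ h8]
    have h10 : (12 * F / d + 1 / 100) * (14 / 100 * π * d) =
        168 / 100 * π * F + 14 / 10000 * π * d := by
      field_simp
      ring
    rw [h10]
    have h11 : 0 ≤ π * F := by positivity
    have h12 : 0 < π * d := by positivity
    nlinarith

/-- **SELP.** -/
theorem selp (π κ ξ Λ : ℝ) (hπ : 0 < π) (hπ1 : π ≤ 1 / 100) (hκ : 0 < κ)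
    (hκ1 : κ ≤ π / 1000) (hξ : 0 < ξ) : ∃ (δ : ℝ) (d0 : ℕ), 0 < δ ∧
    ∀ (d : ℕ) (Q : Bool → Finset ℕ) (Bk : Finset ℕ) (x : Bool → ℕ → ℤ), d0 ≤ d →
      (∀ i, Q i ⊆ range (d + 2)) → Disjoint (Q false) (Q true) →
      (∀ i, (d : ℝ) / 10 ≤ ((Q i).card : ℝ)) → Bk ⊆ range (d + 2) →
      (Bk.card : ℝ) ≤ δ * d → (∀ i, ∑ b ∈ Bk, |((x i b : ℤ) : ℝ)| ≤ δ * d) →
      (∀ i, ∀ b ∈ Q i, x i b = 0) →
      (∀ i, ∀ b < d + 2, |((x i b : ℤ) : ℝ)| ≤ (d : ℝ) ^ (1 / 100 : ℝ)) →
      (∀ i, |((∑ b ∈ range (d + 2), x i b : ℤ) : ℝ)| ≤ ξ * d) →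
      (∀ i, ∑ b ∈ range (d + 2), |((x i b : ℤ) : ℝ)| ≤ Λ * d) →
      ∃ (Qn : Bool → Finset ℕ) (P2 : Finset ℕ), SelO π κ ξ Λ d Q Bk x Qn P2 := by
  have hε : 0 < min (π / 1000) (ξ / 8) := by positivity
  -- 36 d ^ (3 / 100) is small
  have hlim : Filter.Tendsto (fun d : ℕ => 36 * ((d : ℝ) ^ (-(97 / 100) : ℝ))) Filter.atTop
      (nhds (36 * 0)) := by
    refine Filter.Tendsto.const_mul _ ?_
    exact (tendsto_rpow_neg_atTop (by norm_num : (0 : ℝ) < 97 / 100)).comp
      tendsto_natCast_atTop_atTop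
  rw [mul_zero] at hlim
  have hev := (hlim.eventually (gt_mem_nhds hε)).and
    ((tendsto_natCast_atTop_atTop (R := ℝ)).eventually_ge_atTop (max 1 (1000 / κ)))
  obtain ⟨d0, hd0⟩ := Filter.eventually_atTop.1 hev
  refine ⟨min (π / 100) (ξ / 8), d0, by positivity, ?_⟩
  intro d Q Bk x hd hQr hQd hQc hBr hBc hB1 hx0 hxL hxs hx1
  obtain ⟨h1, h2⟩ := hd0 d hd
  have hd1 : (1 : ℝ) ≤ d := (le_max_left _ _).trans h2
  have hdp : (0 : ℝ) < d := by linarith
  have hd2 : 1000 / κ ≤ (d : ℝ) := (le_max_right _ _).trans h2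
  have hd3 : 1000 ≤ κ * d := by
    rw [div_le_iff₀ hκ] at hd2
    linarith
  have hE : 36 * ((d : ℝ) ^ (1 / 100 : ℝ)) ^ 3 ≤ min (π / 1000) (ξ / 8) * d := by
    have e1 : ((d : ℝ) ^ (1 / 100 : ℝ)) ^ 3 = (d : ℝ) ^ (-(97 / 100) : ℝ) * d := by
      rw [← Real.rpow_natCast, ← Real.rpow_mul hdp.le]
      nth_rewrite 3 [← Real.rpow_one (d : ℝ)]
      rw [← Real.rpow_add hdp]
      norm_num
    rw [e1, ← mul_assoc]
    exact mul_le_mul_of_nonneg_right h1.le hdp.le
  exact selp_core π κ ξ Λ (min (π / 100) (ξ / 8)) (36 * ((d : ℝ) ^ (1 / 100 : ℝ)) ^ 3)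
    ((d : ℝ) ^ (1 / 100 : ℝ)) hπ hπ1 hκ hκ1 hξ (min_le_left _ _)
    (min_le_right _ _) d hd3 (Real.one_le_rpow hd1 (by norm_num)) rfl
    (hE.trans (mul_le_mul_of_nonneg_right (min_le_left _ _) hdp.le))
    (hE.trans (mul_le_mul_of_nonneg_right (min_le_right _ _) hdp.le))
    Q Bk x hQr hQd hQc hBr hBc hB1 hx0 hxL hxs hx1

end Pool.Agent.Work.MP_db9399_iv_helper38
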