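import Pool.Agent.Work.MP_db9399_iv_helper38.THR

/-!
# MP_db9399, all scales: the palettes of a piece, random version (helper38)

As SELP, with tests: `P2` and the complement of `P2 ∪ Qn false ∪ Qn true` contain a fraction of every
nonnegative weight `w q` on the colours. `κ0` = density of the typed palettes `Q i`.
-/

set_option autoImplicit false

namespace Pool.Agent.Work.MP_db9399_iv_helper38

open Finset Classical

/-- Palettes of a piece, core version. -/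
structure SelC (π κ ξ Λ : ℝ) (d : ℕ) (G : Bool → Finset ℕ) (Bk : Finset ℕ) (x : Bool → ℕ → ℤ)
    (Qn : Bool → Finset ℕ) (P2 : Finset ℕ) : Prop where
  QG : ∀ i, Qn i ⊆ G i
  Plt : P2 ⊆ range (d + 2)
  QQ : Disjoint (Qn false) (Qn true)
  QP : ∀ i, Disjoint (Qn i) P2
  Qc : ∀ i, κ * d ≤ ((Qn i).card : ℝ) ∧ ((Qn i).card : ℝ) ≤ 2 * κ * d
  Pc : 6 / 5 * π * d ≤ (P2.card : ℝ) ∧ (P2.card : ℝ) ≤ 9 / 5 * π * d
  Bk : Bk ⊆ P2
  sm : ∀ i, |((∑ b ∈ Qn (!i) ∪ P2, x i b : ℤ) : ℝ)| ≤ ξ * d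
  l1 : ∀ i, ∑ b ∈ Qn (!i) ∪ P2, |((x i b : ℤ) : ℝ)| ≤ (2 * π * Λ + ξ) * d

/-- Palettes of a piece. `x i b`: signed number of the colour `b` at the part `i`; `Bk`: own colours of
the covering vertices; `Ek`: own colours of the vertices which are rigid for the side `false`;
`G i ⊆ Q i`: good colours, `Qn i` is chosen inside. -/
structure SelN (π κ ξ Λ : ℝ) (d : ℕ) (G : Bool → Finset ℕ) (Bk Ek : Finset ℕ) (x : Bool → ℕ → ℤ)
    (Qn : Bool → Finset ℕ) (P2 : Finset ℕ) : Prop where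
  QG : ∀ i, Qn i ⊆ G i
  Plt : P2 ⊆ range (d + 2)
  QQ : Disjoint (Qn false) (Qn true)
  QP : ∀ i, Disjoint (Qn i) P2
  Qc : ∀ i, κ * d ≤ ((Qn i).card : ℝ) ∧ ((Qn i).card : ℝ) ≤ 2 * κ * d
  Pc : π * d ≤ (P2.card : ℝ) ∧ (P2.card : ℝ) ≤ 2 * π * d
  Bk : Bk ⊆ P2
  Ek : Disjoint P2 Ek
  sm : ∀ i, |((∑ b ∈ Qn (!i) ∪ P2, x i b : ℤ) : ℝ)| ≤ ξ * d
  l1 : ∀ i, ∑ b ∈ Qn (!i) ∪ P2, |((x i b : ℤ) : ℝ)| ≤ (2 * π * Λ + ξ) * d

/-- SELX with explicit error `E`. -/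
theorem selx_core {τ : Type*} [Fintype τ] (π κ κ0 ξ Λ δ E L W : ℝ) (hπ : 0 < π) (hπ1 : π ≤ 1 / 100)
    (hκ0 : 0 < κ0) (hκ01 : κ0 ≤ 1) (hκ : 0 < κ) (hκ1 : κ ≤ κ0 * π / 1000) (hξ : 0 < ξ)
    (hΛ : 0 ≤ Λ) (hδ1 : δ ≤ π / 100) (hδ2 : δ ≤ ξ / 8)
    (d : ℕ) (hL : 0 ≤ L) (hE0 : 100 ≤ E) (hE1 : 10 * E ≤ κ * d) (hE2 : 8 * (L * E) ≤ ξ * d)
    (hLE : 8 * (L * 3) ≤ ξ * d)
    (hc : 2 * ((8 : ℝ) + 3 * Fintype.card τ) * Real.exp (-(E ^ 2 / (2 * ((d + 2 : ℕ) : ℝ)))) < 1)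
    (G : Bool → Finset ℕ) (Bk : Finset ℕ) (x : Bool → ℕ → ℤ) (w : τ → ℕ → ℝ)
    (hGr : ∀ j, G j ⊆ range (d + 2)) (hGd : Disjoint (G false) (G true))
    (hGB : ∀ j, Disjoint (G j) Bk) (hGc : ∀ j, κ0 / 20 * d ≤ ((G j).card : ℝ))
    (hBr : Bk ⊆ range (d + 2))
    (hBc : (Bk.card : ℝ) ≤ δ * d) (hB1 : ∀ i, ∑ b ∈ Bk, |((x i b : ℤ) : ℝ)| ≤ δ * d)
    (hx0 : ∀ i, ∀ b ∈ G i, x i b = 0) (hxL : ∀ i, ∀ b < d + 2, |((x i b : ℤ) : ℝ)| ≤ L)
    (hxs : ∀ i, |((∑ b ∈ range (d + 2), x i b : ℤ) : ℝ)| ≤ ξ * d)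
    (hx1 : ∀ i, ∑ b ∈ range (d + 2), |((x i b : ℤ) : ℝ)| ≤ Λ * d)
    (hw0 : ∀ q, ∀ b < d + 2, 0 ≤ w q b) (hwW : ∀ q, ∀ b < d + 2, w q b ≤ W)
    (hwB : ∀ q, ∀ b ∈ Bk, w q b = 0) :
    ∃ (Qn : Bool → Finset ℕ) (P2 : Finset ℕ), SelC π κ ξ Λ d G Bk x Qn P2 ∧
      (∀ q, π / 4 * ∑ b ∈ range (d + 2), w q b - W * (4 * E) ≤ ∑ b ∈ P2, w q b) ∧
      ∀ q, 1 / 2 * ∑ b ∈ range (d + 2), w q b - W * (4 * E) ≤
        ∑ b ∈ range (d + 2) \ (P2 ∪ (Qn false ∪ Qn true)), w q b := by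
  have hdpos : (0 : ℝ) < d := by
    by_contra h
    have : (d : ℝ) = 0 := le_antisymm (not_lt.1 h) (Nat.cast_nonneg _)
    rw [this] at hE1
    linarith
  have hd0 : 0 < d := by exact_mod_cast hdpos
  have hκπ : κ ≤ π / 1000 := by nlinarith
  have hd1000 : (1000 : ℝ) ≤ d := by nlinarith
  have hGc2 : ∀ j, ((G j).card : ℝ) ≤ d + 2 := by
    intro j
    have := card_le_card (hGr j)
    rw [card_range] at this
    exact_mod_cast this
  -- thresholds
  set s1 : ℕ := ⌊3 / 2 * π * d⌋₊ with hs1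
  set s2 : Bool → ℕ := fun j => ⌈3 / 2 * κ * d / (G j).card * d⌉₊ with hs2
  have hs1u : (s1 : ℝ) ≤ 3 / 2 * π * d := Nat.floor_le (by positivity)
  have hs1l : 3 / 2 * π * d - 1 ≤ s1 := by
    have := Nat.lt_floor_add_one (3 / 2 * π * (d : ℝ))
    linarith
  have hGcp : ∀ j, (0 : ℝ) < (G j).card := fun j => lt_of_lt_of_le (by positivity) (hGc j)
  have hs2l : ∀ j, 3 / 2 * κ * d / (G j).card * d ≤ s2 j := fun j => Nat.le_ceil _
  have hs2u : ∀ j, (s2 j : ℝ) ≤ 3 / 2 * κ * d / (G j).card * d + 1 := fun j =>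
    (Nat.ceil_lt_add_one (by have := hGcp j; positivity)).le
  have hlam : ∀ j, 3 / 2 * κ * d / (G j).card ≤ 3 / 100 * π := by
    intro j
    rw [div_le_iff₀ (hGcp j)]
    have h1 := hGc j
    have h2 : 3 / 100 * π * (κ0 / 20 * d) ≤ 3 / 100 * π * (G j).card :=
      mul_le_mul_of_nonneg_left h1 (by positivity)
    have h3 : 3 / 2 * κ * d ≤ 3 / 2 * (κ0 * π / 1000) * d :=
      mul_le_mul_of_nonneg_right (by linarith) hdpos.le
    linarith
  have hs2s1 : ∀ j, s2 j ≤ s1 := by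
    intro j
    have h1 := hs2u j
    have h2 := mul_le_mul_of_nonneg_right (hlam j) hdpos.le
    have h3 : (1000 : ℝ) ≤ π * d := by nlinarith
    have h4 : (s2 j : ℝ) ≤ s1 := by linarith
    exact_mod_cast h4
  have hs1d : s1 ≤ d := by
    have : (s1 : ℝ) ≤ d := by nlinarith
    exact_mod_cast this
  -- functionals
  let wf : (Bool × Fin 4) ⊕ (τ ⊕ (Bool × τ)) → ℕ → ℝ := Sum.elim
    (fun p b => ![1, if b ∈ G p.1 then 1 else 0, (x p.1 b : ℝ), |(x p.1 b : ℝ)|] p.2)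
    (Sum.elim w fun p b => if b ∈ G p.1 then w p.2 b else 0)
  let sf : (Bool × Fin 4) ⊕ (τ ⊕ (Bool × τ)) → ℕ → ℕ := Sum.elim
    (fun p _ => ![s1, s2 p.1, s1, s1] p.2) (Sum.elim (fun _ _ => s1) fun p _ => s2 p.1)
  let Wf : (Bool × Fin 4) ⊕ (τ ⊕ (Bool × τ)) → ℝ := Sum.elim
    (fun p => ![1, 1, L, L] p.2) (Sum.elim (fun _ => W) fun _ => W)
  obtain ⟨u, -, hu⟩ := thr_sel (d + 2) d hd0 wf sf Wf E (by
    rintro (⟨i, k⟩ | q | ⟨j, q⟩) b hb
    · fin_cases k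
      · simp [wf, Wf]
      · simp only [wf, Wf, Sum.elim_inl, Fin.mk_one, Matrix.cons_val_one, Matrix.cons_val_zero]
        split_ifs <;> simp
      · simpa [wf, Wf] using hxL i b hb
      · simpa [wf, Wf] using hxL i b hb
    · simp only [wf, Wf, Sum.elim_inr, Sum.elim_inl]
      rw [abs_of_nonneg (hw0 q b hb)]
      exact hwW q b hb
    · simp only [wf, Wf, Sum.elim_inr]
      split_ifs
      · rw [abs_of_nonneg (hw0 q b hb)]
        exact hwW q b hb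
      · rw [abs_zero]
        exact (hw0 q b hb).trans (hwW q b hb)) (by linarith) (by omega) (by
    rintro (⟨i, k⟩ | q | ⟨j, q⟩) b hb
    · fin_cases k
      · simpa [sf] using hs1d
      · simpa [sf] using (hs2s1 i).trans hs1d
      · simpa [sf] using hs1d
      · simpa [sf] using hs1d
    · simpa [sf] using hs1d
    · simpa [sf] using (hs2s1 j).trans hs1d) (by
    have e1 : (Fintype.card ((Bool × Fin 4) ⊕ (τ ⊕ (Bool × τ))) : ℝ) = 8 + 3 * Fintype.card τ := by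
      rw [Fintype.card_sum, Fintype.card_sum, Fintype.card_prod, Fintype.card_prod,
        Fintype.card_bool, Fintype.card_fin]
      push_cast
      ring
    rw [e1]
    exact hc)
  set SEL := (range (d + 2)).filter fun b => u b < s1 with hSEL
  set Qn : Bool → Finset ℕ := fun j => (G j).filter fun b => u b < s2 j with hQn
  have hQnG : ∀ j, Qn j ⊆ G j := fun j => filter_subset _ _
  have hQnS : ∀ j, Qn j ⊆ SEL := by
    intro j b hb
    have h1 := mem_filter.1 hb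
    exact mem_filter.2 ⟨hGr j h1.1, h1.2.trans_le (hs2s1 j)⟩
  have hQnd : Disjoint (Qn false) (Qn true) := hGd.mono (hQnG false) (hQnG true)
  have hQnB : ∀ j, Disjoint (Qn j) Bk := fun j => (hGB j).mono_left (hQnG j)
  have hSr : SEL ⊆ range (d + 2) := filter_subset _ _
  have hp1u : (s1 : ℝ) / d ≤ 3 / 2 * π := by
    rw [div_le_iff₀ hdpos]
    exact hs1u
  have hp1l : 3 / 2 * π - 1 / d ≤ (s1 : ℝ) / d := by
    rw [le_div_iff₀ hdpos, sub_mul, one_div, inv_mul_cancel₀ hdpos.ne']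
    exact hs1l
  have hp10 : 0 ≤ (s1 : ℝ) / d := by positivity
  have hp2l : ∀ j, 3 / 2 * κ * d / (G j).card ≤ (s2 j : ℝ) / d := by
    intro j
    rw [le_div_iff₀ hdpos]
    exact hs2l j
  have hp2u : ∀ j, (s2 j : ℝ) / d ≤ 3 / 2 * κ * d / (G j).card + 1 / d := by
    intro j
    rw [div_le_iff₀ hdpos, add_mul, one_div, inv_mul_cancel₀ hdpos.ne']
    exact hs2u j
  have hp20 : ∀ j, 0 ≤ (s2 j : ℝ) / d := fun j => by positivity
  -- sum over `Qn j` of a weight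
  have hfil : ∀ j (f : ℕ → ℝ), ∑ b ∈ (range (d + 2)).filter (fun b => u b < s2 j),
      (if b ∈ G j then f b else 0) = ∑ b ∈ Qn j, f b := by
    intro j f
    rw [← sum_filter, filter_filter]
    refine sum_congr ?_ fun _ _ => rfl
    ext b
    simp only [mem_filter, hQn]
    constructor
    · rintro ⟨_, h1, h2⟩
      exact ⟨h2, h1⟩
    · rintro ⟨h1, h2⟩
      exact ⟨hGr j h1, h2, h1⟩
  have hfil2 : ∀ j (f : ℕ → ℝ), ∑ b ∈ range (d + 2), ((s2 j : ℝ) / d) *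
      (if b ∈ G j then f b else 0) = ((s2 j : ℝ) / d) * ∑ b ∈ G j, f b := by
    intro j f
    rw [← mul_sum]
    congr 1
    rw [← sum_filter]
    refine sum_congr ?_ fun _ _ => rfl
    ext b
    simp only [mem_filter]
    exact ⟨fun h => h.2, fun h => ⟨hGr j h, h⟩⟩
  -- the functionals
  have f0 : |(SEL.card : ℝ) - ((s1 : ℝ) / d) * (d + 2)| ≤ E := by
    have h : |∑ b ∈ (range (d + 2)).filter (fun b => u b < s1), (1 : ℝ) -
      ∑ b ∈ range (d + 2), ((s1 : ℝ) / d) * 1| ≤ 1 * E := hu (Sum.inl (false, 0))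
    rw [one_mul, mul_one, sum_const, sum_const, nsmul_eq_mul, nsmul_eq_mul, card_range, mul_one,
      show ((d + 2 : ℕ) : ℝ) * ((s1 : ℝ) / d) = ((s1 : ℝ) / d) * (d + 2) by push_cast; ring] at h
    exact h
  have f1 : ∀ j, |((Qn j).card : ℝ) - ((s2 j : ℝ) / d) * (G j).card| ≤ E := by
    intro j
    have h : |∑ b ∈ (range (d + 2)).filter (fun b => u b < s2 j), (if b ∈ G j then (1 : ℝ) else 0) -
      ∑ b ∈ range (d + 2), ((s2 j : ℝ) / d) * (if b ∈ G j then (1 : ℝ) else 0)| ≤ 1 * E :=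
      hu (Sum.inl (j, 1))
    rw [hfil j (fun _ => 1), hfil2 j (fun _ => 1), one_mul] at h
    simpa using h
  have f2 : ∀ i, |∑ b ∈ SEL, (x i b : ℝ) - ((s1 : ℝ) / d) * ∑ b ∈ range (d + 2), (x i b : ℝ)| ≤
      L * E := by
    intro i
    have h : |∑ b ∈ (range (d + 2)).filter (fun b => u b < s1), (x i b : ℝ) -
      ∑ b ∈ range (d + 2), ((s1 : ℝ) / d) * (x i b : ℝ)| ≤ L * E := hu (Sum.inl (i, 2))
    rw [← mul_sum] at h
    exact h
  have f3 : ∀ i, |(∑ b ∈ SEL, |(x i b : ℝ)|) -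
      ((s1 : ℝ) / d) * (∑ b ∈ range (d + 2), |(x i b : ℝ)|)| ≤ L * E := by
    intro i
    have h : |(∑ b ∈ (range (d + 2)).filter (fun b => u b < s1), |(x i b : ℝ)|) -
      (∑ b ∈ range (d + 2), ((s1 : ℝ) / d) * |(x i b : ℝ)|)| ≤ L * E := hu (Sum.inl (i, 3))
    rw [← mul_sum] at h
    exact h
  have f4 : ∀ q, |∑ b ∈ SEL, w q b - ((s1 : ℝ) / d) * ∑ b ∈ range (d + 2), w q b| ≤ W * E := by
    intro q
    have h : |∑ b ∈ (range (d + 2)).filter (fun b => u b < s1), w q b -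
      ∑ b ∈ range (d + 2), ((s1 : ℝ) / d) * w q b| ≤ W * E := hu (Sum.inr (Sum.inl q))
    rw [← mul_sum] at h
    exact h
  have f5 : ∀ j q, |∑ b ∈ Qn j, w q b - ((s2 j : ℝ) / d) * ∑ b ∈ G j, w q b| ≤ W * E := by
    intro j q
    have h : |∑ b ∈ (range (d + 2)).filter (fun b => u b < s2 j), (if b ∈ G j then w q b else 0) -
      ∑ b ∈ range (d + 2), ((s2 j : ℝ) / d) * (if b ∈ G j then w q b else 0)| ≤ W * E :=
      hu (Sum.inr (Sum.inr (j, q)))
    rw [hfil j (w q), hfil2 j (w q)] at h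
    exact h
  set P2 := (SEL ∪ Bk) \ (Qn false ∪ Qn true) with hP2
  have hQP : ∀ i, Disjoint (Qn i) P2 := by
    intro i
    rw [hP2, Finset.disjoint_left]
    intro b hb hb'
    refine (mem_sdiff.1 hb').2 ?_
    cases i
    · exact mem_union_left _ hb
    · exact mem_union_right _ hb
  -- `Qn (!i) ∪ P2` = everything without `Qn i`
  have hun : ∀ i, Qn (!i) ∪ P2 = (SEL ∪ Bk) \ Qn i := by
    intro i
    rw [union_comm]
    ext b
    have h1 : b ∈ Qn false → b ∉ Qn true := fun h => Finset.disjoint_left.1 hQnd h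
    have h2 : b ∈ Qn (!i) → b ∈ SEL := fun h => hQnS _ h
    rw [hP2]
    simp only [mem_union, mem_sdiff]
    cases i
    · simp only [Bool.not_false] at h2 ⊢
      tauto
    · simp only [Bool.not_true] at h2 ⊢
      tauto
  have hQnc : ∀ i, κ * d ≤ ((Qn i).card : ℝ) ∧ ((Qn i).card : ℝ) ≤ 2 * κ * d := by
    intro i
    have h1 := abs_le.1 (f1 i)
    have h2 : 3 / 2 * κ * d ≤ ((s2 i : ℝ) / d) * (G i).card := by
      have := mul_le_mul_of_nonneg_right (hp2l i) (hGcp i).le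
      rwa [div_mul_cancel₀ _ (hGcp i).ne'] at this
    have h3 : ((s2 i : ℝ) / d) * (G i).card ≤ 3 / 2 * κ * d + 2 := by
      have h4 := mul_le_mul_of_nonneg_right (hp2u i) (hGcp i).le
      rw [add_mul, div_mul_cancel₀ _ (hGcp i).ne'] at h4
      have h5 : 1 / (d : ℝ) * (G i).card ≤ 1 / d * (d + 2) :=
        mul_le_mul_of_nonneg_left (hGc2 i) (by positivity)
      have h6 : 1 / (d : ℝ) * (d + 2) ≤ 2 := by
        rw [one_div, inv_mul_le_iff₀ hdpos]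
        linarith
      linarith
    constructor <;> linarith [h1.1, h1.2]
  have hsq : 4 * (κ * d) ≤ 4 * (π / 1000 * d) :=
    mul_le_mul_of_nonneg_left (mul_le_mul_of_nonneg_right hκπ hdpos.le) (by norm_num)
  have hδπ : δ * d ≤ π / 100 * d := mul_le_mul_of_nonneg_right hδ1 hdpos.le
  have hEπ : 10 * E ≤ π / 1000 * d := hE1.trans (mul_le_mul_of_nonneg_right hκπ hdpos.le)
  have hBk2 : ∀ f : ℕ → ℝ, (∀ b ∈ Bk, 0 ≤ f b) → ∑ b ∈ Bk \ SEL, f b ≤ ∑ b ∈ Bk, f b :=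
    fun f hf => sum_le_sum_of_subset_of_nonneg sdiff_subset fun b hb _ => hf b hb
  have hsplit : ∀ f : ℕ → ℝ, ∑ b ∈ SEL ∪ Bk, f b = ∑ b ∈ SEL, f b + ∑ b ∈ Bk \ SEL, f b := by
    intro f
    rw [← union_sdiff_self_eq_union, sum_union disjoint_sdiff_self_right]
  have hp1s : (s1 : ℝ) / d ≤ 1 := by
    rw [div_le_one hdpos]
    exact_mod_cast hs1d
  refine ⟨Qn, P2, ⟨hQnG, ?_, hQnd, hQP, hQnc, ?_, ?_, ?_, ?_⟩, ?_, ?_⟩
  · exact sdiff_subset.trans (union_subset hSr hBr)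
  · have h0 := abs_le.1 f0
    have h1 : ((s1 : ℝ) / d) * (d + 2) ≤ 3 / 2 * π * (d + 2) :=
      mul_le_mul_of_nonneg_right hp1u (by positivity)
    have h2 : 3 / 2 * π * d - 1 ≤ ((s1 : ℝ) / d) * (d + 2) := by
      have h3 : ((s1 : ℝ) / d) * d = s1 := div_mul_cancel₀ _ hdpos.ne'
      nlinarith
    have h4 : (P2.card : ℝ) ≤ SEL.card + Bk.card := by
      exact_mod_cast (card_le_card sdiff_subset).trans (card_union_le SEL Bk)
    have h5 : (SEL.card : ℝ) ≤ P2.card + ((Qn false).card + (Qn true).card) := by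
      have h6 : SEL ⊆ P2 ∪ (Qn false ∪ Qn true) := by
        intro b hb
        by_cases h : b ∈ Qn false ∪ Qn true
        · exact mem_union_right _ h
        · exact mem_union_left _ (mem_sdiff.2 ⟨mem_union_left _ hb, h⟩)
      have h7 := (card_le_card h6).trans ((card_union_le _ _).trans
        (Nat.add_le_add_left (card_union_le _ _) _))
      exact_mod_cast h7
    have h8 := (hQnc false).2
    have h9 := (hQnc true).2
    constructor <;> linarith [h0.1, h0.2]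
  · intro b hb
    refine mem_sdiff.2 ⟨mem_union_right _ hb, ?_⟩
    rw [mem_union, not_or]
    exact ⟨fun h => Finset.disjoint_left.1 (hQnB false) h hb,
      fun h => Finset.disjoint_left.1 (hQnB true) h hb⟩
  · intro i
    rw [hun i]
    have h1 : ∑ b ∈ (SEL ∪ Bk) \ Qn i, (x i b : ℝ) = ∑ b ∈ SEL ∪ Bk, (x i b : ℝ) := by
      refine sum_subset sdiff_subset fun b hb hb' => ?_
      have h2 : b ∈ Qn i := by
        by_contra h
        exact hb' (mem_sdiff.2 ⟨hb, h⟩)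
      rw [hx0 i b (hQnG i h2), Int.cast_zero]
    push_cast
    rw [h1, hsplit]
    have h2 := abs_le.1 (f2 i)
    have h3 : |∑ b ∈ Bk \ SEL, (x i b : ℝ)| ≤ δ * d :=
      (abs_sum_le_sum_abs _ _).trans ((hBk2 _ fun _ _ => abs_nonneg _).trans (hB1 i))
    have h4 : |((s1 : ℝ) / d) * (∑ b ∈ range (d + 2), (x i b : ℝ))| ≤ 3 / 2 * π * (ξ * d) := by
      rw [abs_mul, abs_of_nonneg hp10]
      have h5 := hxs i
      push_cast at h5
      exact mul_le_mul hp1u h5 (abs_nonneg _) (by positivity)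
    have h6 : 3 / 2 * π * (ξ * d) ≤ 1 / 8 * (ξ * d) :=
      mul_le_mul_of_nonneg_right (by linarith) (by positivity)
    have h7 : δ * d ≤ ξ / 8 * d := mul_le_mul_of_nonneg_right hδ2 hdpos.le
    have h3' := abs_le.1 h3
    have h4' := abs_le.1 h4
    rw [abs_le]
    constructor <;> linarith [h2.1, h2.2, h3'.1, h3'.2, h4'.1, h4'.2]
  · intro i
    rw [hun i]
    have h1 : ∑ b ∈ (SEL ∪ Bk) \ Qn i, |(x i b : ℝ)| ≤ ∑ b ∈ SEL ∪ Bk, |(x i b : ℝ)| :=
      sum_le_sum_of_subset_of_nonneg sdiff_subset fun _ _ _ => abs_nonneg _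
    refine h1.trans ?_
    rw [hsplit]
    have h2 := abs_le.1 (f3 i)
    have h3 := (hBk2 (fun b => |(x i b : ℝ)|) fun _ _ => abs_nonneg _).trans (hB1 i)
    have h4 : ((s1 : ℝ) / d) * (∑ b ∈ range (d + 2), |(x i b : ℝ)|) ≤ 3 / 2 * π * (Λ * d) :=
      mul_le_mul hp1u (hx1 i) (sum_nonneg fun _ _ => abs_nonneg _) (by positivity)
    have h6 : 3 / 2 * π * (Λ * d) ≤ 2 * π * Λ * d := by nlinarith [mul_nonneg (mul_nonneg hπ.le hΛ) hdpos.le]
    have h7 : δ * d ≤ ξ / 8 * d := mul_le_mul_of_nonneg_right hδ2 hdpos.le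
    nlinarith [h2.1, h2.2]
  · intro q
    have hT0 : 0 ≤ ∑ b ∈ range (d + 2), w q b :=
      sum_nonneg fun b hb => hw0 q b (mem_range.1 hb)
    have hTW : ∑ b ∈ range (d + 2), w q b ≤ (d + 2) * W := by
      refine (sum_le_sum fun b hb => hwW q b (mem_range.1 hb)).trans (le_of_eq ?_)
      rw [sum_const, card_range, nsmul_eq_mul]
      push_cast
      ring
    have hW0 : 0 ≤ W := (hw0 q 0 (by omega)).trans (hwW q 0 (by omega))
    have h1 : ∑ b ∈ SEL, w q b ≤ ∑ b ∈ P2, w q b +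
        (∑ b ∈ Qn false, w q b + ∑ b ∈ Qn true, w q b) := by
      have h6 : SEL ⊆ P2 ∪ (Qn false ∪ Qn true) := by
        intro b hb
        by_cases h : b ∈ Qn false ∪ Qn true
        · exact mem_union_right _ h
        · exact mem_union_left _ (mem_sdiff.2 ⟨mem_union_left _ hb, h⟩)
      have h7 : P2 ∪ (Qn false ∪ Qn true) ⊆ range (d + 2) :=
        union_subset (sdiff_subset.trans (union_subset hSr hBr))
          (union_subset ((hQnS false).trans hSr) ((hQnS true).trans hSr))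
      refine (sum_le_sum_of_subset_of_nonneg h6 fun b hb _ =>
        hw0 q b (mem_range.1 (h7 hb))).trans ?_
      rw [sum_union (by
        rw [disjoint_union_right]
        exact ⟨(hQP false).symm, (hQP true).symm⟩), sum_union hQnd]
    have h2 := (abs_le.1 (f4 q)).1
    have h3 : ∀ j, ∑ b ∈ Qn j, w q b ≤ (3 / 100 * π + 1 / d) * ∑ b ∈ G j, w q b + W * E := by
      intro j
      have h4 := (abs_le.1 (f5 j q)).2
      have h5 : ((s2 j : ℝ) / d) * ∑ b ∈ G j, w q b ≤ (3 / 100 * π + 1 / d) * ∑ b ∈ G j, w q b :=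
        mul_le_mul_of_nonneg_right ((hp2u j).trans (by linarith [hlam j]))
          (sum_nonneg fun b hb => hw0 q b (mem_range.1 (hGr j hb)))
      linarith
    have h4 : ∑ b ∈ G false, w q b + ∑ b ∈ G true, w q b ≤ ∑ b ∈ range (d + 2), w q b := by
      rw [← sum_union hGd]
      exact sum_le_sum_of_subset_of_nonneg (union_subset (hGr false) (hGr true))
        fun b hb _ => hw0 q b (mem_range.1 hb)
    have h5 : (3 / 100 * π + 1 / d) * ∑ b ∈ G false, w q b +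
        (3 / 100 * π + 1 / d) * ∑ b ∈ G true, w q b ≤
        (3 / 100 * π + 1 / d) * ∑ b ∈ range (d + 2), w q b := by
      rw [← mul_add]
      exact mul_le_mul_of_nonneg_left h4 (by positivity)
    have h6 : (3 / 2 * π - 1 / d) * ∑ b ∈ range (d + 2), w q b ≤
        ((s1 : ℝ) / d) * ∑ b ∈ range (d + 2), w q b := mul_le_mul_of_nonneg_right hp1l hT0
    have h7 : 2 / (d : ℝ) * ∑ b ∈ range (d + 2), w q b ≤ 4 * W := by
      refine (mul_le_mul_of_nonneg_left hTW (by positivity)).trans ?_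
      rw [div_mul_eq_mul_div, div_le_iff₀ hdpos]
      nlinarith
    have h8 : 4 * W ≤ W * E := by nlinarith
    have h9 : 1 / (d : ℝ) * ∑ b ∈ range (d + 2), w q b = 2 / (d : ℝ) * (∑ b ∈ range (d + 2), w q b) / 2 := by
      ring
    have h10 : π * (∑ b ∈ range (d + 2), w q b) ≥ 0 := mul_nonneg hπ.le hT0
    linarith [h3 false, h3 true]
  · intro q
    have hT0 : 0 ≤ ∑ b ∈ range (d + 2), w q b :=
      sum_nonneg fun b hb => hw0 q b (mem_range.1 hb)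
    have hW0 : 0 ≤ W := (hw0 q 0 (by omega)).trans (hwW q 0 (by omega))
    have h1 : range (d + 2) \ (P2 ∪ (Qn false ∪ Qn true)) = range (d + 2) \ (SEL ∪ Bk) := by
      congr 1
      ext b
      have h2 : b ∈ Qn false → b ∈ SEL := fun h => hQnS _ h
      have h3 : b ∈ Qn true → b ∈ SEL := fun h => hQnS _ h
      rw [hP2]
      simp only [mem_union, mem_sdiff]
      tauto
    rw [h1]
    have h2 : ∑ b ∈ range (d + 2) \ (SEL ∪ Bk), w q b + ∑ b ∈ SEL ∪ Bk, w q b =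
        ∑ b ∈ range (d + 2), w q b := sum_sdiff (union_subset hSr hBr)
    rw [hsplit] at h2
    have h3 : ∑ b ∈ Bk \ SEL, w q b = 0 := sum_eq_zero fun b hb => hwB q b (mem_sdiff.1 hb).1
    have h4 := (abs_le.1 (f4 q)).2
    have h5 : ((s1 : ℝ) / d) * ∑ b ∈ range (d + 2), w q b ≤ 3 / 2 * π * ∑ b ∈ range (d + 2), w q b :=
      mul_le_mul_of_nonneg_right hp1u hT0
    have h6 : 3 / 2 * π * ∑ b ∈ range (d + 2), w q b ≤ 1 / 2 * ∑ b ∈ range (d + 2), w q b :=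
      mul_le_mul_of_nonneg_right (by linarith) hT0
    have h8 : 0 ≤ W * E := mul_nonneg hW0 (by linarith)
    linarith

theorem ev_rpow {a b : ℝ} (hab : a < b) {ε : ℝ} (hε : 0 < ε) :
    ∀ᶠ d : ℕ in Filter.atTop, (d : ℝ) ^ a ≤ ε * (d : ℝ) ^ b := by
  have h1 : Filter.Tendsto (fun d : ℕ => (d : ℝ) ^ (-(b - a))) Filter.atTop (nhds 0) :=
    (tendsto_rpow_neg_atTop (by linarith : 0 < b - a)).comp tendsto_natCast_atTop_atTop
  filter_upwards [h1.eventually (gt_mem_nhds hε), Filter.eventually_ge_atTop 1] with d h2 h3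
  have hd : (0 : ℝ) < d := by exact_mod_cast h3
  have h4 : (d : ℝ) ^ a = (d : ℝ) ^ (-(b - a)) * (d : ℝ) ^ b := by
    rw [← Real.rpow_add hd]
    congr 1
    ring
  rw [h4]
  exact mul_le_mul_of_nonneg_right h2.le (Real.rpow_nonneg hd.le _)

/-- a power times `exp (- d ^ (1 / 5) / 4)` -/
theorem ev_exp (A : ℝ) : ∀ᶠ d : ℕ in Filter.atTop,
    2 * (8 + 3 * (d : ℝ) ^ A) * Real.exp (-((d : ℝ) ^ (1 / 5 : ℝ) / 4)) < 1 := by
  have h1 : Filter.Tendsto (fun d : ℕ => (d : ℝ)) Filter.atTop Filter.atTop :=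
    tendsto_natCast_atTop_atTop
  have h2 := (isLittleO_log_rpow_atTop (by norm_num : (0 : ℝ) < 1 / 5)).bound
    (show (0 : ℝ) < 1 / (4 * (|A| + 5)) by positivity)
  filter_upwards [h1.eventually h2, h1.eventually_ge_atTop 2] with d h3 h4
  have hd : (0 : ℝ) < d := by linarith
  have hlog : 0 ≤ Real.log d := Real.log_nonneg (by linarith)
  rw [Real.norm_of_nonneg hlog, Real.norm_of_nonneg (Real.rpow_nonneg hd.le _)] at h3
  have h5 : (|A| + 5) * Real.log d ≤ (d : ℝ) ^ (1 / 5 : ℝ) / 4 := by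
    have h6 : 0 < |A| + 5 := by positivity
    have h7 := mul_le_mul_of_nonneg_left h3 h6.le
    refine h7.trans (le_of_eq ?_)
    field_simp
  have h6 : Real.exp (-((d : ℝ) ^ (1 / 5 : ℝ) / 4)) ≤ (d : ℝ) ^ (-(|A| + 5)) := by
    rw [Real.rpow_def_of_pos hd (-(|A| + 5))]
    refine Real.exp_le_exp.2 ?_
    nlinarith
  have h7 : (d : ℝ) ^ A ≤ (d : ℝ) ^ |A| :=
    Real.rpow_le_rpow_of_exponent_le (by linarith) (le_abs_self A)
  have h8 : (1 : ℝ) ≤ (d : ℝ) ^ |A| := Real.one_le_rpow (by linarith) (abs_nonneg A)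
  have h9 : (d : ℝ) ^ |A| * (d : ℝ) ^ (-(|A| + 5)) = (d : ℝ) ^ (-(5 : ℝ)) := by
    rw [← Real.rpow_add hd]
    congr 1
    ring
  have h10 : (d : ℝ) ^ (-(5 : ℝ)) ≤ 1 / 32 := by
    rw [Real.rpow_neg hd.le, ← one_div]
    refine one_div_le_one_div_of_le (by norm_num) ?_
    have h11 : (2 : ℝ) ^ (5 : ℝ) ≤ (d : ℝ) ^ (5 : ℝ) :=
      Real.rpow_le_rpow (by norm_num) h4 (by norm_num)
    refine le_trans (le_of_eq ?_) h11
    norm_num
  have h12 : 0 ≤ (d : ℝ) ^ (-(|A| + 5)) := Real.rpow_nonneg hd.le _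
  have h13 : 2 * (8 + 3 * (d : ℝ) ^ A) ≤ 22 * (d : ℝ) ^ |A| := by linarith
  have h14 : 0 ≤ (d : ℝ) ^ A := Real.rpow_nonneg hd.le _
  calc 2 * (8 + 3 * (d : ℝ) ^ A) * Real.exp (-((d : ℝ) ^ (1 / 5 : ℝ) / 4))
      ≤ 22 * (d : ℝ) ^ |A| * (d : ℝ) ^ (-(|A| + 5)) :=
        mul_le_mul h13 h6 (Real.exp_pos _).le (by positivity)
    _ = 22 * (d : ℝ) ^ (-(5 : ℝ)) := by rw [mul_assoc, h9]
    _ < 1 := by linarith

/-- clipped numbers -/
def clp (l : ℕ) (x : ℤ) : ℤ := max (-(l : ℤ)) (min l x)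

theorem clp_abs (l : ℕ) (x : ℤ) : |clp l x| ≤ l := by
  unfold clp
  rw [abs_le]
  constructor
  · exact le_max_left _ _
  · exact max_le (by omega) (min_le_left _ _)

theorem clp_le (l : ℕ) (x : ℤ) : |clp l x| ≤ |x| := by
  unfold clp
  rcases le_total x 0 with h | h
  · rw [abs_of_nonpos h]
    rw [abs_le]
    constructor
    · rw [neg_neg]
      exact le_max_of_le_right (le_min (by omega) le_rfl)
    · exact max_le (by omega) ((min_le_right _ _).trans (by omega))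
  · rw [abs_of_nonneg h]
    rw [abs_le]
    constructor
    · exact le_max_of_le_right (le_min (by omega) (by omega))
    · exact max_le (by omega) (min_le_right _ _)

theorem clp_sub (l : ℕ) (x : ℤ) : |((x : ℤ) : ℝ) - (clp l x : ℤ)| = max (|(x : ℝ)| - l) 0 := by
  have h : |x - clp l x| = max (|x| - l) 0 := by
    unfold clp
    rcases le_total x 0 with h | h
    · rw [abs_of_nonpos h]
      rcases le_total (-(l : ℤ)) x with h1 | h1
      · rw [min_eq_right (by omega : x ≤ (l : ℤ)), max_eq_right h1, sub_self, abs_zero]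
        exact (max_eq_right (by omega)).symm
      · rw [min_eq_right (by omega : x ≤ (l : ℤ)), max_eq_left h1, max_eq_left (by omega),
          abs_of_nonpos (by omega)]
        ring
    · rw [abs_of_nonneg h]
      rcases le_total x (l : ℤ) with h1 | h1
      · rw [min_eq_right h1, max_eq_right (by omega), sub_self, abs_zero]
        exact (max_eq_right (by omega)).symm
      · rw [min_eq_left h1, max_eq_right (by omega), max_eq_left (by omega),
          abs_of_nonneg (by omega)]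
  have h2 : ((|x - clp l x| : ℤ) : ℝ) = ((max (|x| - l) 0 : ℤ) : ℝ) := by rw [h]
  push_cast at h2
  exact h2

/-- **SELX**: the palettes of a piece, with tests. -/
theorem selx (π κ κ0 ξ Λ A : ℝ) (hπ : 0 < π) (hπ1 : π ≤ 1 / 100) (hκ0 : 0 < κ0) (hκ01 : κ0 ≤ 1)
    (hκ : 0 < κ) (hκ1 : κ ≤ κ0 * π / 1000) (hξ : 0 < ξ) (hΛ : 0 ≤ Λ) :
    ∃ (δ : ℝ) (d0 : ℕ), 0 < δ ∧
    ∀ {τ : Type*} [Fintype τ] (d : ℕ) (G : Bool → Finset ℕ) (Bk Ek : Finset ℕ)
      (x : Bool → ℕ → ℤ) (w : τ → ℕ → ℝ) (W : ℝ), d0 ≤ d →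
      (∀ i, G i ⊆ range (d + 2)) → Disjoint (G false) (G true) → (∀ i, Disjoint (G i) Bk) →
      (∀ i, κ0 / 20 * d ≤ ((G i).card : ℝ)) → Bk ⊆ range (d + 2) → Disjoint Bk Ek →
      (Bk.card : ℝ) ≤ δ * d → (∀ i, ∑ b ∈ Bk, |((x i b : ℤ) : ℝ)| ≤ δ * d) →
      (Ek.card : ℝ) ≤ δ * d → (∀ i, ∑ b ∈ Ek, |((x i b : ℤ) : ℝ)| ≤ δ * d) →
      (∀ i, ∀ b ∈ G i, x i b = 0) →
      (∀ i, ∑ b ∈ range (d + 2), max (|((x i b : ℤ) : ℝ)| - 2 * (d : ℝ) ^ (1 / 100 : ℝ)) 0 ≤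
        δ * d) →
      (∀ i, |((∑ b ∈ range (d + 2), x i b : ℤ) : ℝ)| ≤ ξ / 4 * d) →
      (∀ i, ∑ b ∈ range (d + 2), |((x i b : ℤ) : ℝ)| ≤ Λ * d) →
      (Fintype.card τ : ℝ) ≤ (d : ℝ) ^ A → (∀ q, ∀ b < d + 2, 0 ≤ w q b) →
      (∀ q, ∀ b < d + 2, w q b ≤ W) → 0 ≤ W → (∀ q, ∀ b ∈ Bk, w q b = 0) →
      (∀ q, ∀ b ∈ Ek, w q b = 0) →
      ∃ (Qn : Bool → Finset ℕ) (P2 : Finset ℕ), SelN π κ ξ Λ d G Bk Ek x Qn P2 ∧
        (∀ q, π / 4 * ∑ b ∈ range (d + 2), w q b - W * (d : ℝ) ^ (4 / 5 : ℝ) ≤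
          ∑ b ∈ P2, w q b) ∧
        ∀ q, 1 / 2 * ∑ b ∈ range (d + 2), w q b - W * (d : ℝ) ^ (4 / 5 : ℝ) ≤
          ∑ b ∈ range (d + 2) \ (P2 ∪ (Qn false ∪ Qn true)), w q b := by
  have h1 : Filter.Tendsto (fun d : ℕ => (d : ℝ)) Filter.atTop Filter.atTop :=
    tendsto_natCast_atTop_atTop
  have hev := ((((((ev_rpow (a := 0) (b := 3 / 5) (by norm_num) (ε := 1 / 100) (by norm_num)).and
    (ev_rpow (a := 3 / 5) (b := 1) (by norm_num) (ε := κ / 10) (by positivity))).and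
    (ev_rpow (a := 1 / 100 + 3 / 5) (b := 1) (by norm_num) (ε := ξ / 48) (by positivity))).and
    (ev_rpow (a := 1 / 100) (b := 1) (by norm_num) (ε := ξ / 144) (by positivity))).and
    (ev_rpow (a := 3 / 5) (b := 4 / 5) (by norm_num) (ε := 1 / 4) (by norm_num))).and
    (ev_exp A)).and (h1.eventually_ge_atTop 2)
  obtain ⟨d0, hd0⟩ := Filter.eventually_atTop.1 hev
  refine ⟨min (π / 100) (ξ / 16), d0, by positivity, ?_⟩
  intro τ _ d G Bk Ek x w W hd hGr hGd hGB hGc hBr hBE hBc hB1 hEc hE1 hx0 hxL hxs hx1 hτ hw0 hwW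
    hW0 hwB hwE
  obtain ⟨⟨⟨⟨⟨⟨g1, g2⟩, g3⟩, g4⟩, g5⟩, g6⟩, hd2⟩ := hd0 d hd
  have hdp : (0 : ℝ) < d := by linarith
  rw [Real.rpow_zero] at g1
  rw [Real.rpow_one] at g2 g3 g4
  rw [Real.rpow_add hdp] at g3
  have hcc : 2 * ((8 : ℝ) + 3 * Fintype.card τ) *
      Real.exp (-(((d : ℝ) ^ (3 / 5 : ℝ)) ^ 2 / (2 * ((d + 2 : ℕ) : ℝ)))) < 1 := by
    refine lt_of_le_of_lt ?_ g6
    refine mul_le_mul (by linarith) (Real.exp_le_exp.2 (neg_le_neg ?_)) (Real.exp_pos _).le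
      (by have := Real.rpow_nonneg hdp.le A; linarith)
    have e1 : ((d : ℝ) ^ (3 / 5 : ℝ)) ^ 2 = (d : ℝ) ^ (1 / 5 : ℝ) * d := by
      rw [← Real.rpow_natCast, ← Real.rpow_mul hdp.le]
      nth_rewrite 3 [← Real.rpow_one (d : ℝ)]
      rw [← Real.rpow_add hdp]
      norm_num
    have e2 : 0 ≤ (d : ℝ) ^ (1 / 5 : ℝ) := Real.rpow_nonneg hdp.le _
    rw [e1, div_le_div_iff₀ (by norm_num) (by positivity)]
    push_cast
    nlinarith
  -- clipped numbers, without `Ek`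
  have hp1 : 1 ≤ (d : ℝ) ^ (1 / 100 : ℝ) := Real.one_le_rpow (by linarith) (by norm_num)
  set l : ℕ := ⌈2 * (d : ℝ) ^ (1 / 100 : ℝ)⌉₊ with hl
  have hl1 : 2 * (d : ℝ) ^ (1 / 100 : ℝ) ≤ l := Nat.le_ceil _
  have hl2 : (l : ℝ) ≤ 3 * (d : ℝ) ^ (1 / 100 : ℝ) := by
    have := (Nat.ceil_lt_add_one (show (0 : ℝ) ≤ 2 * (d : ℝ) ^ (1 / 100 : ℝ) by positivity)).le
    linarith
  set x1 : Bool → ℕ → ℤ := fun i b => if b ∈ Ek then 0 else clp l (x i b) with hx1d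
  set δ : ℝ := min (π / 100) (ξ / 16) with hδ
  have hδπ : δ ≤ π / 100 := min_le_left _ _
  have hδξ : δ ≤ ξ / 16 := min_le_right _ _
  have hdiff : ∀ i, ∀ S ⊆ range (d + 2), ∑ b ∈ S, |(x i b : ℝ) - (x1 i b : ℝ)| ≤ 2 * (δ * d) := by
    intro i S hS
    have e1 : ∀ b ∈ S, |(x i b : ℝ) - (x1 i b : ℝ)| ≤ (if b ∈ Ek then |(x i b : ℝ)| else 0) +
        max (|(x i b : ℝ)| - 2 * (d : ℝ) ^ (1 / 100 : ℝ)) 0 := by
      intro b _
      simp only [hx1d]
      split_ifs with h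
      · rw [Int.cast_zero, sub_zero]
        linarith [le_max_right (|(x i b : ℝ)| - 2 * (d : ℝ) ^ (1 / 100 : ℝ)) 0]
      · rw [clp_sub, zero_add]
        exact max_le_max (by linarith) le_rfl
    refine (sum_le_sum e1).trans ?_
    rw [sum_add_distrib, ← sum_filter]
    have e2 : ∑ b ∈ S.filter (fun b => b ∈ Ek), |(x i b : ℝ)| ≤ δ * d := by
      refine le_trans (sum_le_sum_of_subset_of_nonneg (fun b hb => (mem_filter.1 hb).2)
        fun _ _ _ => abs_nonneg _) (hE1 i)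
    have e3 := (sum_le_sum_of_subset_of_nonneg hS (f := fun b =>
      max (|(x i b : ℝ)| - 2 * (d : ℝ) ^ (1 / 100 : ℝ)) 0) fun _ _ _ => le_max_right _ _).trans
      (hxL i)
    linarith
  have hle : ∀ i b, |(x1 i b : ℝ)| ≤ |(x i b : ℝ)| := by
    intro i b
    simp only [hx1d]
    split_ifs
    · rw [Int.cast_zero, abs_zero]
      exact abs_nonneg _
    · exact_mod_cast clp_le l (x i b)
  have hxs' : ∀ i, |∑ b ∈ range (d + 2), (x i b : ℝ)| ≤ ξ / 4 * d := by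
    intro i
    have := hxs i
    push_cast at this
    exact this
  obtain ⟨Qn, P2, h2, h3, h4⟩ := selx_core π κ κ0 (ξ / 2) Λ δ
    ((d : ℝ) ^ (3 / 5 : ℝ)) (3 * (d : ℝ) ^ (1 / 100 : ℝ)) W hπ hπ1 hκ0 hκ01 hκ hκ1
    (by linarith) hΛ hδπ (by linarith)
    d (by positivity) (by linarith) (by linarith) (by linarith)
    (by linarith) hcc G Bk x1 w hGr hGd hGB hGc hBr hBc
    (fun i => (sum_le_sum fun b _ => hle i b).trans (hB1 i)) (by
      intro i b hb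
      simp only [hx1d]
      split_ifs
      · rfl
      · rw [hx0 i b hb]
        simp [clp]) (by
      intro i b _
      refine le_trans ?_ hl2
      simp only [hx1d]
      split_ifs
      · rw [Int.cast_zero, abs_zero]
        exact Nat.cast_nonneg _
      · exact_mod_cast clp_abs l (x i b)) (by
      intro i
      push_cast
      have e1 : ∑ b ∈ range (d + 2), (x1 i b : ℝ) = ∑ b ∈ range (d + 2), (x i b : ℝ) -
          ∑ b ∈ range (d + 2), ((x i b : ℝ) - (x1 i b : ℝ)) := by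
        rw [← sum_sub_distrib]
        exact sum_congr rfl fun b _ => by ring
      have e2 := (abs_sum_le_sum_abs (fun b => (x i b : ℝ) - (x1 i b : ℝ)) (range (d + 2))).trans
        (hdiff i _ Subset.rfl)
      rw [e1]
      have e3 := abs_sub (∑ b ∈ range (d + 2), (x i b : ℝ))
        (∑ b ∈ range (d + 2), ((x i b : ℝ) - (x1 i b : ℝ)))
      have e4 := hxs' i
      have e5 : δ * d ≤ ξ / 16 * d := mul_le_mul_of_nonneg_right hδξ hdp.le
      linarith)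
    (fun i => (sum_le_sum fun b _ => hle i b).trans (hx1 i)) hw0 hwW hwB
  have h5 : W * (4 * (d : ℝ) ^ (3 / 5 : ℝ)) ≤ W * (d : ℝ) ^ (4 / 5 : ℝ) :=
    mul_le_mul_of_nonneg_left (by linarith) hW0
  have h6 : δ * d ≤ π / 100 * d := mul_le_mul_of_nonneg_right hδπ hdp.le
  have h7 : δ * d ≤ ξ / 16 * d := mul_le_mul_of_nonneg_right hδξ hdp.le
  have h8 : 0 < π * d := by positivity
  have hsub : ∀ i, Qn (!i) ∪ P2 \ Ek ⊆ range (d + 2) := fun i =>
    union_subset ((h2.QG _).trans (hGr _)) (sdiff_subset.trans h2.Plt)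
  have hsub2 : ∀ i, Qn (!i) ∪ P2 \ Ek ⊆ Qn (!i) ∪ P2 := fun i =>
    union_subset_union Subset.rfl sdiff_subset
  refine ⟨Qn, P2 \ Ek, ⟨h2.QG, sdiff_subset.trans h2.Plt, h2.QQ,
    fun i => (h2.QP i).mono_right sdiff_subset, h2.Qc, ?_, ?_, disjoint_sdiff_self_left, ?_, ?_⟩,
    ?_, ?_⟩
  · have e1 : (P2.card : ℝ) ≤ ((P2 \ Ek).card : ℝ) + Ek.card := by
      have : P2.card ≤ (P2 \ Ek).card + Ek.card := by
        have h := card_le_card (show P2 ⊆ P2 \ Ek ∪ Ek by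
          intro b hb
          by_cases h : b ∈ Ek
          · exact mem_union_right _ h
          · exact mem_union_left _ (mem_sdiff.2 ⟨hb, h⟩))
        exact h.trans (card_union_le _ _)
      exact_mod_cast this
    have e2 : ((P2 \ Ek).card : ℝ) ≤ P2.card := by exact_mod_cast card_le_card sdiff_subset
    have e3 := h2.Pc
    constructor <;> linarith [e3.1, e3.2]
  · intro b hb
    exact mem_sdiff.2 ⟨h2.Bk hb, fun h => Finset.disjoint_left.1 hBE hb h⟩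
  · intro i
    push_cast
    have e1 : ∑ b ∈ Qn (!i) ∪ P2 \ Ek, (x1 i b : ℝ) = ∑ b ∈ Qn (!i) ∪ P2, (x1 i b : ℝ) := by
      refine sum_subset (hsub2 i) fun b hb hb' => ?_
      have h9 : b ∈ Ek := by
        by_contra h
        refine hb' ?_
        rcases mem_union.1 hb with hb | hb
        · exact mem_union_left _ hb
        · exact mem_union_right _ (mem_sdiff.2 ⟨hb, h⟩)
      simp only [hx1d, if_pos h9, Int.cast_zero]
    have e2 : ∑ b ∈ Qn (!i) ∪ P2 \ Ek, (x i b : ℝ) = ∑ b ∈ Qn (!i) ∪ P2, (x1 i b : ℝ) +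
        ∑ b ∈ Qn (!i) ∪ P2 \ Ek, ((x i b : ℝ) - (x1 i b : ℝ)) := by
      rw [← e1, ← sum_add_distrib]
      exact sum_congr rfl fun b _ => by ring
    have e3 := (abs_sum_le_sum_abs (fun b => (x i b : ℝ) - (x1 i b : ℝ))
      (Qn (!i) ∪ P2 \ Ek)).trans (hdiff i _ (hsub i))
    have e4 := h2.sm i
    push_cast at e4
    rw [e2]
    refine (abs_add_le _ _).trans ?_
    linarith
  · intro i
    have e1 : ∀ b ∈ Qn (!i) ∪ P2 \ Ek, |(x i b : ℝ)| ≤ |(x1 i b : ℝ)| +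
        |(x i b : ℝ) - (x1 i b : ℝ)| := by
      intro b _
      have := abs_add_le (x1 i b : ℝ) ((x i b : ℝ) - (x1 i b : ℝ))
      rwa [add_sub_cancel] at this
    refine (sum_le_sum e1).trans ?_
    rw [sum_add_distrib]
    have e2 := hdiff i _ (hsub i)
    have e3 := (sum_le_sum_of_subset_of_nonneg (hsub2 i) (f := fun b => |(x1 i b : ℝ)|)
      fun _ _ _ => abs_nonneg _).trans (h2.l1 i)
    linarith
  · intro q
    have e1 : ∑ b ∈ P2 \ Ek, w q b = ∑ b ∈ P2, w q b := by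
      refine sum_subset sdiff_subset fun b hb hb' => hwE q b ?_
      by_contra h
      exact hb' (mem_sdiff.2 ⟨hb, h⟩)
    rw [e1]
    linarith [h3 q]
  · intro q
    have e1 : ∑ b ∈ range (d + 2) \ (P2 ∪ (Qn false ∪ Qn true)), w q b ≤
        ∑ b ∈ range (d + 2) \ (P2 \ Ek ∪ (Qn false ∪ Qn true)), w q b := by
      refine sum_le_sum_of_subset_of_nonneg ?_ fun b hb _ =>
        hw0 q b (mem_range.1 (mem_sdiff.1 hb).1)
      exact sdiff_subset_sdiff Subset.rfl (union_subset_union sdiff_subset Subset.rfl)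
    linarith [h4 q]

end Pool.Agent.Work.MP_db9399_iv_helper38
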