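import Pool.Agent.Work.MP_db9399_cg_helper68.TOOL

/-!
# MP_db9399: random thresholds (helper38)

`u b` is uniform in `[0, M)`, independent for the numbers `b < N`. All sums of `w q` over
`{b < N, u b < s q b}` are close to their means at the same time.
-/

set_option autoImplicit false

namespace Pool.Agent.Work.MP_db9399_iv_helper38

open Finset Classical
open Pool.Agent.Work.MP_db9399_all (pr DepOnI)
open Pool.Agent.Work.MP_db9399_en (ex ex_one)
open Pool.Agent.Work.MP_db9399_cg.helper68 (pr_nonneg pr_zero pr_mono pr_ex' ex_coord tail2)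

theorem thr_J {J τ : Type*} [Fintype J] [Fintype τ] (M : ℕ) (hM : 0 < M) (w : τ → J → ℝ)
    (s : τ → J → ℕ) (W : τ → ℝ) (t : ℝ) (hW : ∀ q b, |w q b| ≤ W q) (hW0 : ∀ q, 0 ≤ W q)
    (ht : 0 ≤ t) (hN : 0 < Fintype.card J) (hs : ∀ q b, s q b ≤ M)
    (hc : 2 * (Fintype.card τ : ℝ) * Real.exp (-(t ^ 2 / (2 * (Fintype.card J)))) < 1) :
    ∃ ω : J → Fin M, ∀ q, |∑ b, ((if (ω b : ℕ) < s q b then 1 else 0) - (s q b : ℝ) / M) * w q b| ≤
      W q * t := by
  have hM' : (0 : ℝ) < M := by exact_mod_cast hM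
  have hN' : (0 : ℝ) < Fintype.card J := by exact_mod_cast hN
  set ξ : τ → J → (J → Fin M) → ℝ := fun q b ω =>
    (if (ω b : ℕ) < s q b then 1 else 0) - (s q b : ℝ) / M with hξ
  have hmean : ∀ q b, ex (ξ q b) = 0 := by
    intro q b
    have h1 := ex_coord (M := M) b (fun i : Fin M => (if (i : ℕ) < s q b then (1 : ℝ) else 0) -
      (s q b : ℝ) / M)
    simp only [hξ]
    rw [h1, sum_sub_distrib, sum_const, card_univ, Fintype.card_fin, nsmul_eq_mul, sum_boole]
    have h2 : ((univ.filter fun i : Fin M => (i : ℕ) < s q b).card : ℝ) = s q b := by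
      have h3 : (univ.filter fun i : Fin M => (i : ℕ) < s q b).card = s q b := by
        have h4 : (univ.filter fun i : Fin M => (i : ℕ) < s q b).map Fin.valEmbedding =
            range (s q b) := by
          ext j
          simp only [mem_map, mem_filter, mem_univ, true_and, Fin.valEmbedding_apply, mem_range]
          constructor
          · rintro ⟨i, hi, rfl⟩
            exact hi
          · intro hj
            exact ⟨⟨j, hj.trans_le (hs q b)⟩, hj, rfl⟩
        rw [← card_map Fin.valEmbedding, h4, card_range]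
      exact_mod_cast h3
    rw [h2, mul_div_cancel₀ _ hM'.ne', sub_self, zero_div]
  have hbd : ∀ q b ω, |ξ q b ω| ≤ 1 := by
    intro q b ω
    have h1 : (s q b : ℝ) / M ≤ 1 := by
      rw [div_le_one hM']
      exact_mod_cast hs q b
    have h2 : 0 ≤ (s q b : ℝ) / M := by positivity
    simp only [hξ]
    rw [abs_le]
    split_ifs <;> constructor <;> linarith
  have htail : ∀ q, pr (fun ω : J → Fin M => W q * t < |∑ b, ξ q b ω * w q b|) ≤
      2 * Real.exp (-(t ^ 2 / (2 * (Fintype.card J)))) := by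
    intro q
    rcases (hW0 q).eq_or_lt with h0 | h0
    · rw [pr_zero]
      · positivity
      · intro ω hω
        have h1 : ∑ b : J, ξ q b ω * w q b = 0 := by
          refine sum_eq_zero fun b _ => ?_
          have h2 := hW q b
          rw [← h0] at h2
          rw [abs_nonpos_iff.1 h2, mul_zero]
        rw [h1, ← h0, abs_zero, zero_mul] at hω
        exact lt_irrefl _ hω
    · have h1 := tail2 hM (fun _ : J => (0 : ℝ)) univ (fun b => {b}) (fun _ => ∅)
        (fun b => ξ q b) (fun b _ => w q b) (fun _ => W q)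
        (fun b _ f g h => by
          show ξ q b f = ξ q b g
          simp only [hξ]
          rw [h b (mem_singleton_self b)])
        (fun b _ f g _ => rfl)
        (fun b _ b' _ h => Finset.disjoint_singleton.2 h)
        (fun b _ b' _ _ => Finset.disjoint_empty_right _)
        (fun b _ => hmean q b) (fun b _ ω => hbd q b ω) (fun b _ ω => hW q b)
        (S := (Fintype.card J) * W q ^ 2) (t := W q * t) (by positivity) (by
          rw [sum_const, card_univ, nsmul_eq_mul]) (by positivity)
      refine h1.trans (le_of_eq ?_)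
      congr 3
      field_simp
  have hun : pr (fun ω : J → Fin M => ∃ q, W q * t < |∑ b, ξ q b ω * w q b|) < 1 := by
    have h1 := pr_ex' (Ω := J → Fin M) (univ : Finset τ)
      (fun q ω => W q * t < |∑ b, ξ q b ω * w q b|) _ (fun ω (h : ∃ q, W q * t <
        |∑ b, ξ q b ω * w q b|) => by
        obtain ⟨q, hq⟩ := h
        exact ⟨q, mem_univ _, hq⟩)
    refine lt_of_le_of_lt (h1.trans (sum_le_sum fun q _ => htail q)) ?_
    rw [sum_const, card_univ, nsmul_eq_mul]
    linarith
  obtain ⟨ω, hω⟩ : ∃ ω : J → Fin M, ¬ ∃ q, W q * t < |∑ b, ξ q b ω * w q b| := by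
    by_contra hcon
    push Not at hcon
    have h1 : pr (fun ω : J → Fin M => ∃ q, W q * t < |∑ b, ξ q b ω * w q b|) = 1 := by
      unfold pr
      have h2 : ∀ inst : DecidablePred fun ω : J → Fin M =>
          ∃ q, W q * t < |∑ b, ξ q b ω * w q b|,
          @Finset.filter _ (fun ω : J → Fin M => ∃ q, W q * t < |∑ b, ξ q b ω * w q b|) inst
            univ = univ := fun _ => filter_true_of_mem fun ω _ => hcon ω
      rw [h2, card_univ, div_self]
      rw [Fintype.card_fun, Fintype.card_fin]
      push_cast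
      positivity
    linarith
  push Not at hω
  exact ⟨ω, hω⟩

theorem thr_sel {τ : Type*} [Fintype τ] (N M : ℕ) (hM : 0 < M) (w : τ → ℕ → ℝ) (s : τ → ℕ → ℕ)
    (W : τ → ℝ) (t : ℝ) (hW : ∀ q, ∀ b < N, |w q b| ≤ W q) (ht : 0 ≤ t) (hN : 0 < N)
    (hs : ∀ q, ∀ b < N, s q b ≤ M)
    (hc : 2 * (Fintype.card τ : ℝ) * Real.exp (-(t ^ 2 / (2 * N))) < 1) :
    ∃ u : ℕ → ℕ, (∀ b, u b < M) ∧ ∀ q, |∑ b ∈ (range N).filter (fun b => u b < s q b), w q b -
      ∑ b ∈ range N, ((s q b : ℝ) / M) * w q b| ≤ W q * t := by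
  obtain ⟨ω, hω⟩ := thr_J (J := Fin N) M hM (fun q b => w q b) (fun q b => s q b) W t
    (fun q b => hW q b b.2) (fun q => (abs_nonneg _).trans (hW q 0 hN)) ht
    (by rw [Fintype.card_fin]; exact hN) (fun q b => hs q b b.2)
    (by rw [Fintype.card_fin]; exact hc)
  refine ⟨fun b => if h : b < N then (ω ⟨b, h⟩ : ℕ) else 0, fun b => ?_, fun q => ?_⟩
  · dsimp only
    split_ifs
    · exact (ω _).2
    · exact hM
  · refine le_trans (le_of_eq ?_) (hω q)
    congr 1
    have e1 : ∑ b : Fin N, ((if (ω b : ℕ) < s q b then (1 : ℝ) else 0) - (s q b : ℝ) / M) * w q b =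
        ∑ b ∈ range N,
        ((if (if h : b < N then (ω ⟨b, h⟩ : ℕ) else 0) < s q b then (1 : ℝ) else 0) -
          (s q b : ℝ) / M) * w q b := by
      rw [← Fin.sum_univ_eq_sum_range (fun b =>
        ((if (if h : b < N then (ω ⟨b, h⟩ : ℕ) else 0) < s q b then (1 : ℝ) else 0) -
          (s q b : ℝ) / M) * w q b) N]
      refine sum_congr rfl fun b _ => ?_
      simp only [Fin.is_lt, dif_pos, Fin.eta]
    rw [e1, sum_filter, ← sum_sub_distrib]
    refine sum_congr rfl fun b _ => ?_
    split_ifs <;> ring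

end Pool.Agent.Work.MP_db9399_iv_helper38
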